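import Pool.Agent.BSpl.SplDefs

/-!
# Bivariate splines, module GeoBasic: triangles by determinants

`area a b c = det2 (b - a) (c - a)`.  `hull p {x, y, u}` is the set of the points whose barycentric coordinates
`area (p y) (p u) z / area (p x) (p y) (p u)` etc. are non-negative.

PAPER PROOF.  Identities: `area (p y) (p u) z + area (p u) (p x) z + area (p x) (p y) z = area (p x) (p y) (p u)` and
`area y u z • x + area u x z • y + area x y z • u = area x y u • z` (coordinatewise, `ring`).
`indep_iff`: three points are affinely independent iff the differences `p y - p x`, `p u - p x` are linearly independent iff the determinant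
is not zero (`affineIndependent_iff_linearIndependent_vsub`, or directly: an affine dependency `a + b + c = 0`,
`a • p x + b • p y + c • p u = 0`).
`mem_hull3`: `p '' {x, y, u} = {p x, p y, p u}`; `convexHull_insert`, or: the set on the right side is convex and contains the three points; and a point of
it is a convex combination by the identities.
`opposite`: both areas are non-zero. If they had the same sign, the point `z = m + ε • (p u - m)`, `m` the midpoint of `p x` and `p y`, would for small
`ε > 0` be in both triangles by `mem_hull3`, but `area (p x) (p y) z ≠ 0`, so it is not in the segment `hull p {x, y}`: contradiction to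
`IsTri.inter`.
`nhds_edge`: let `z` be in the open segment between `p x` and `p y`. Then in both triangles the barycentric coordinates of `z` for `x` and
`y` are positive, hence also for all `z'` near `z`. The third coordinates `area (p x) (p y) z' / area (p x) (p y) (p u)` and
`area (p x) (p y) z' / area (p x) (p y) (p w)` have opposite signs or are zero, so `z'` is in one of the two triangles.
`closure_edge`: `z + ε • (p u - z)` is in the interior of the triangle for small `ε > 0` (all three coordinates are positive; the set where they are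
positive is open).
-/

set_option autoImplicit false

namespace BSpl

open MvPolynomial

variable {V : Type} [DecidableEq V]

/-- twice the signed area of a triangle -/
def area (a b c : Pt) : ℝ := det2 (b - a) (c - a)

theorem area_def (a b c : Pt) :
    area a b c = (b 0 - a 0) * (c 1 - a 1) - (b 1 - a 1) * (c 0 - a 0) := by
  simp [area, det2]

theorem eval_ell (x y z : Pt) : eval z (ell x y) = - area x y z := by
  unfold ell
  rw [eval_tr, area_def]
  simp [lf]

private theorem area_rot (a b c : Pt) : area b c a = area a b c := by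
  simp only [area_def]; ring

private theorem area_rot2 (a b c : Pt) : area c a b = area a b c := by
  simp only [area_def]; ring

private theorem area_self1 (a b : Pt) : area a b a = 0 := by
  simp only [area_def]; ring

private theorem area_self2 (a b : Pt) : area a b b = 0 := by
  simp only [area_def]; ring

private theorem area_comb (a b z w : Pt) (s t : ℝ) (h : s + t = 1) :
    area a b (s • z + t • w) = s * area a b z + t * area a b w := by
  have ht : t = 1 - s := by linarith
  subst ht
  simp only [area_def, Pi.add_apply, Pi.smul_apply, smul_eq_mul]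
  ring

private theorem area_sum (a b c z : Pt) :
    area b c z + area c a z + area a b z = area a b c := by
  simp only [area_def]; ring

private theorem area_bary (a b c z : Pt) :
    area b c z • a + area c a z • b + area a b z • c = area a b c • z := by
  funext i
  fin_cases i
  · simp only [area_def, Pi.add_apply, Pi.smul_apply, smul_eq_mul]
    show _ = _
    simp only [Fin.zero_eta]
    ring
  · simp only [area_def, Pi.add_apply, Pi.smul_apply, smul_eq_mul]
    show _ = _
    simp only [Fin.mk_one]
    ring

private theorem indep3 (a b c : Pt) : AffineIndependent ℝ ![a, b, c] ↔ area a b c ≠ 0 := by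
  rw [affineIndependent_iff_linearIndependent_vsub ℝ _ (0 : Fin 3)]
  have e := linearIndependent_equiv (R := ℝ) (finSuccAboveEquiv (0 : Fin 3))
    (f := fun i : { x : Fin 3 // x ≠ 0 } => (![a, b, c] i -ᵥ ![a, b, c] 0 : Pt))
  rw [← e]
  have e2 : ((fun i : { x : Fin 3 // x ≠ 0 } => (![a, b, c] i -ᵥ ![a, b, c] 0 : Pt)) ∘
      (finSuccAboveEquiv (0 : Fin 3))) = (fun i => (!![b 0 - a 0, b 1 - a 1; c 0 - a 0, c 1 - a 1] :
        Matrix (Fin 2) (Fin 2) ℝ) i) := by
    funext i j
    fin_cases i <;> fin_cases j <;> simp [finSuccAboveEquiv]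
  rw [e2]
  have := Matrix.linearIndependent_rows_iff_isUnit
    (A := (!![b 0 - a 0, b 1 - a 1; c 0 - a 0, c 1 - a 1] : Matrix (Fin 2) (Fin 2) ℝ))
  refine Iff.trans this ?_
  rw [Matrix.isUnit_iff_isUnit_det, Matrix.det_fin_two_of, isUnit_iff_ne_zero, area_def]

theorem indep_iff (p : V → Pt) (x y u : V) (hxy : x ≠ y) (hxu : x ≠ u) (hyu : y ≠ u) :
    AffineIndependent ℝ (fun i : ({x, y, u} : Finset V) => p i) ↔ area (p x) (p y) (p u) ≠ 0 := by
  have hbij : Function.Bijective (fun i : Fin 3 =>
      (⟨![x, y, u] i, by fin_cases i <;> simp⟩ : ({x, y, u} : Finset V))) := by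
    constructor
    · intro i j hij
      have h := congrArg Subtype.val hij
      fin_cases i <;> fin_cases j <;> simp_all
    · rintro ⟨v, hv⟩
      simp only [Finset.mem_insert, Finset.mem_singleton] at hv
      rcases hv with rfl | rfl | rfl
      · exact ⟨0, rfl⟩
      · exact ⟨1, rfl⟩
      · exact ⟨2, rfl⟩
  rw [← affineIndependent_equiv (Equiv.ofBijective _ hbij), ← indep3]
  have : ((fun i : ({x, y, u} : Finset V) => p i) ∘ (Equiv.ofBijective _ hbij)) =
      ![p x, p y, p u] := by
    funext i
    fin_cases i <;> simp
  rw [this]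

private theorem image3 (p : V → Pt) (x y u : V) :
    p '' ((({x, y, u} : Finset V) : Set V)) = {p x, p y, p u} := by
  simp [Set.image_insert_eq]

theorem mem_hull3 (p : V → Pt) (x y u : V) (h : area (p x) (p y) (p u) ≠ 0) (z : Pt) :
    z ∈ hull p {x, y, u} ↔ 0 ≤ area (p y) (p u) z * area (p x) (p y) (p u) ∧
      0 ≤ area (p u) (p x) z * area (p x) (p y) (p u) ∧
      0 ≤ area (p x) (p y) z * area (p x) (p y) (p u) := by
  unfold hull
  rw [image3]
  generalize p x = a at *
  generalize p y = b at *
  generalize p u = c at *
  have hsq : 0 < area a b c * area a b c := mul_self_pos.2 h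
  constructor
  · intro hz
    have hmin : convexHull ℝ ({a, b, c} : Set Pt) ⊆ {z | 0 ≤ area b c z * area a b c ∧
      0 ≤ area c a z * area a b c ∧ 0 ≤ area a b z * area a b c} := by
      apply convexHull_min
      · intro w hw
        simp only [Set.mem_insert_iff, Set.mem_singleton_iff] at hw
        rcases hw with rfl | rfl | rfl
        · refine ⟨?_, ?_, ?_⟩
          · rw [area_rot]; exact hsq.le
          · rw [area_self2]; simp
          · rw [area_self1]; simp
        · refine ⟨?_, ?_, ?_⟩
          · rw [area_self1]; simp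
          · rw [area_rot2]; exact hsq.le
          · rw [area_self2]; simp
        · refine ⟨?_, ?_, ?_⟩
          · rw [area_self2]; simp
          · rw [area_self1]; simp
          · exact hsq.le
      · intro v hv w hw s t hs ht hst
        refine ⟨?_, ?_, ?_⟩
        · rw [area_comb _ _ _ _ _ _ hst]
          have := mul_nonneg hs hv.1
          have := mul_nonneg ht hw.1
          nlinarith
        · rw [area_comb _ _ _ _ _ _ hst]
          have := mul_nonneg hs hv.2.1
          have := mul_nonneg ht hw.2.1
          nlinarith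
        · rw [area_comb _ _ _ _ _ _ hst]
          have := mul_nonneg hs hv.2.2
          have := mul_nonneg ht hw.2.2
          nlinarith
    exact hmin hz
  · rintro ⟨h1, h2, h3⟩
    have key : ∀ q : ℝ, 0 ≤ q * area a b c → 0 ≤ q / area a b c := by
      intro q hq
      have : q / area a b c = (q * area a b c) / (area a b c * area a b c) := by
        field_simp
      rw [this]
      exact div_nonneg hq hsq.le
    have hz : z = (area b c z / area a b c) • a + (area c a z / area a b c) • b +
        (area a b z / area a b c) • c := by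
      have h4 := area_bary a b c z
      have h5 : z = (area a b c)⁻¹ • (area a b c • z) := by
        rw [smul_smul, inv_mul_cancel₀ h, one_smul]
      calc z = (area a b c)⁻¹ • (area a b c • z) := h5
        _ = (area a b c)⁻¹ • (area b c z • a + area c a z • b + area a b z • c) := by rw [h4]
        _ = _ := by simp only [smul_add, smul_smul, div_eq_inv_mul]
    have hsum : area b c z / area a b c + area c a z / area a b c + area a b z / area a b c = 1 := by
      rw [← add_div, ← add_div, area_sum, div_self h]
    have := (convex_convexHull ℝ ({a, b, c} : Set Pt)).sum_mem (t := Finset.univ)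
      (w := ![area b c z / area a b c, area c a z / area a b c, area a b z / area a b c])
      (z := ![a, b, c]) (by
        intro i _
        fin_cases i
        · exact key _ h1
        · exact key _ h2
        · exact key _ h3) (by
        rw [Fin.sum_univ_three]
        exact hsum) (by
        intro i _
        apply subset_convexHull
        fin_cases i <;> simp)
    rw [Fin.sum_univ_three] at this
    rw [hz]
    exact this

theorem hull_empty (p : V → Pt) : hull p ∅ = ∅ := by
  simp [hull]

theorem hull_one (p : V → Pt) (x : V) : hull p {x} = {p x} := by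
  simp [hull]

theorem hull_two (p : V → Pt) (x y : V) : hull p {x, y} = segment ℝ (p x) (p y) := by
  unfold hull
  rw [← convexHull_pair]
  congr 1
  simp [Set.image_insert_eq]

theorem hull_mono (p : V → Pt) {t t' : Finset V} (h : t ⊆ t') : hull p t ⊆ hull p t' := by
  unfold hull
  apply convexHull_mono
  apply Set.image_mono
  exact_mod_cast h

theorem isCompact_hull (p : V → Pt) (t : Finset V) : IsCompact (hull p t) := by
  unfold hull
  apply Set.Finite.isCompact_convexHull
  exact (t.finite_toSet).image p

/-- the ends of an edge are different points -/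
theorem IsTri.ne {T : Finset (Finset V)} {p : V → Pt} (hp : IsTri T p) {x y : V} (h : Edge T x y) :
    p x ≠ p y := by
  obtain ⟨hxy, t, ht, hx, hy⟩ := h
  intro he
  have := (hp.indep t ht).injective (a₁ := ⟨x, hx⟩) (a₂ := ⟨y, hy⟩) he
  exact hxy (congrArg Subtype.val this)

private theorem area_ne {T : Finset (Finset V)} {p : V → Pt} (hp : IsTri T p) {x y u : V}
    (hxy : x ≠ y) (hu : u ≠ x ∧ u ≠ y) (h1 : ({x, y, u} : Finset V) ∈ T) :
    area (p x) (p y) (p u) ≠ 0 :=
  (indep_iff p x y u hxy hu.1.symm hu.2.symm).1 (hp.indep _ h1)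

theorem opposite {T : Finset (Finset V)} {p : V → Pt} (hT : ∀ t ∈ T, t.card = 3) (hp : IsTri T p)
    (x y u w : V) (hxy : x ≠ y) (huw : u ≠ w) (hu : u ≠ x ∧ u ≠ y) (hw : w ≠ x ∧ w ≠ y)
    (h1 : ({x, y, u} : Finset V) ∈ T) (h2 : ({x, y, w} : Finset V) ∈ T) :
    area (p x) (p y) (p u) * area (p x) (p y) (p w) < 0 := by
  have hA := area_ne hp hxy hu h1
  have hB := area_ne hp hxy hw h2
  by_contra hcon
  rw [not_lt] at hcon
  have hpos : 0 < area (p x) (p y) (p u) * area (p x) (p y) (p w) :=
    lt_of_le_of_ne hcon (mul_ne_zero hA hB).symm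
  have hint := hp.inter _ h1 _ h2
  have hcap : ({x, y, u} : Finset V) ∩ {x, y, w} = {x, y} := by
    ext v
    simp only [Finset.mem_inter, Finset.mem_insert, Finset.mem_singleton]
    constructor
    · rintro ⟨rfl | rfl | rfl, h | h | h⟩ <;> simp_all
    · rintro (rfl | rfl) <;> simp
  rw [hcap, hull_two] at hint
  set A := area (p x) (p y) (p u) with hAdef
  set B := area (p x) (p y) (p w) with hBdef
  set m : Pt := (1 / 2 : ℝ) • p x + (1 / 2 : ℝ) • p y with hm
  have hBB : 0 < B * B := mul_self_pos.2 hB
  set K := |area (p y) (p w) (p u) * B| + |area (p w) (p x) (p u) * B| with hK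
  have hK0 : 0 ≤ K := by positivity
  set ε := (B * B / 2) / (K + B * B) with hε
  have hden : 0 < K + B * B := by linarith
  have hε0 : 0 < ε := by positivity
  have hε1 : ε < 1 := by
    rw [hε, div_lt_one hden]; linarith
  have hεK : ε * K ≤ (1 - ε) * (B * B / 2) := by
    have : ε * (K + B * B) = B * B / 2 := by
      rw [hε]; field_simp
    nlinarith
  set z : Pt := (1 - ε) • m + ε • p u with hz
  have hs : (1 - ε) + ε = 1 := by ring
  have hhalf : (1 / 2 : ℝ) + 1 / 2 = 1 := by norm_num
  have hzA : area (p x) (p y) z = ε * A := by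
    rw [hz, area_comb _ _ _ _ _ _ hs, hm, area_comb _ _ _ _ _ _ hhalf, area_self1, area_self2]
    ring
  have hz1 : z ∈ hull p {x, y, u} := by
    have hxm : p x ∈ hull p {x, y, u} := by
      apply subset_convexHull
      exact ⟨x, by simp, rfl⟩
    have hym : p y ∈ hull p {x, y, u} := by
      apply subset_convexHull
      exact ⟨y, by simp, rfl⟩
    have hum : p u ∈ hull p {x, y, u} := by
      apply subset_convexHull
      exact ⟨u, by simp, rfl⟩
    have hc : Convex ℝ (hull p {x, y, u}) := convex_convexHull ℝ _
    have hmm : m ∈ hull p {x, y, u} :=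
      hc hxm hym (by norm_num) (by norm_num) hhalf
    exact hc hmm hum (by linarith) hε0.le hs
  have hz2 : z ∈ hull p {x, y, w} := by
    rw [mem_hull3 p x y w hB]
    refine ⟨?_, ?_, ?_⟩
    · have e1 : area (p y) (p w) z = (1 - ε) * (B / 2) + ε * area (p y) (p w) (p u) := by
        rw [hz, area_comb _ _ _ _ _ _ hs, hm, area_comb _ _ _ _ _ _ hhalf, area_rot, area_self1]
        ring
      rw [e1, ← hBdef]
      have h3 : -K ≤ area (p y) (p w) (p u) * B := by
        have h4 := neg_abs_le (area (p y) (p w) (p u) * B)
        have h5 := abs_nonneg (area (p w) (p x) (p u) * B)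
        linarith
      have h6 := mul_le_mul_of_nonneg_left h3 hε0.le
      nlinarith
    · have e1 : area (p w) (p x) z = (1 - ε) * (B / 2) + ε * area (p w) (p x) (p u) := by
        rw [hz, area_comb _ _ _ _ _ _ hs, hm, area_comb _ _ _ _ _ _ hhalf,
          area_self2 (p w) (p x), area_rot2 (p x) (p y) (p w)]
        ring
      rw [e1, ← hBdef]
      have h3 : -K ≤ area (p w) (p x) (p u) * B := by
        have h4 := neg_abs_le (area (p w) (p x) (p u) * B)
        have h5 := abs_nonneg (area (p y) (p w) (p u) * B)
        linarith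
      have h6 := mul_le_mul_of_nonneg_left h3 hε0.le
      nlinarith
    · rw [hzA, ← hBdef, mul_assoc]
      exact mul_nonneg hε0.le hpos.le
  have hz3 : z ∈ segment ℝ (p x) (p y) := by
    rw [← hint]
    exact ⟨hz1, hz2⟩
  obtain ⟨s, t, hs', ht', hst, hzz⟩ := hz3
  have : area (p x) (p y) z = 0 := by
    rw [← hzz, area_comb _ _ _ _ _ _ hst, area_self1, area_self2]
    ring
  rw [hzA] at this
  exact (mul_ne_zero hε0.ne' hA) this

private theorem cont_area (a b : Pt) : Continuous (fun z => area a b z) := by
  simp only [area_def]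
  fun_prop

/-- around a point of the open segment two adjacent triangles cover a neighbourhood -/
theorem nhds_edge {T : Finset (Finset V)} {p : V → Pt} (hT : ∀ t ∈ T, t.card = 3) (hp : IsTri T p)
    (x y u w : V) (hxy : x ≠ y) (huw : u ≠ w) (hu : u ≠ x ∧ u ≠ y) (hw : w ≠ x ∧ w ≠ y)
    (h1 : ({x, y, u} : Finset V) ∈ T) (h2 : ({x, y, w} : Finset V) ∈ T) (z : Pt)
    (hz : z ∈ openSegment ℝ (p x) (p y)) : hull p {x, y, u} ∪ hull p {x, y, w} ∈ nhds z := by
  have hA := area_ne hp hxy hu h1
  have hB := area_ne hp hxy hw h2
  have hopp := opposite hT hp x y u w hxy huw hu hw h1 h2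
  obtain ⟨s, t, hs, ht, hst, hzz⟩ := hz
  set A := area (p x) (p y) (p u) with hAdef
  set B := area (p x) (p y) (p w) with hBdef
  have hAA : 0 < A * A := mul_self_pos.2 hA
  have hBB : 0 < B * B := mul_self_pos.2 hB
  have ho : ∀ (a b : Pt) (c : ℝ), IsOpen {z : Pt | 0 < area a b z * c} := by
    intro a b c
    exact isOpen_lt continuous_const ((cont_area a b).mul continuous_const)
  have m1 : {z : Pt | 0 < area (p y) (p u) z * A} ∈ nhds z := by
    apply (ho _ _ _).mem_nhds
    show 0 < area (p y) (p u) z * A
    rw [← hzz, area_comb _ _ _ _ _ _ hst, area_rot (p x) (p y) (p u), area_self1 (p y) (p u),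
      ← hAdef]
    nlinarith [mul_pos hs hAA]
  have m2 : {z : Pt | 0 < area (p u) (p x) z * A} ∈ nhds z := by
    apply (ho _ _ _).mem_nhds
    show 0 < area (p u) (p x) z * A
    rw [← hzz, area_comb _ _ _ _ _ _ hst, area_self2 (p u) (p x), area_rot2 (p x) (p y) (p u),
      ← hAdef]
    nlinarith [mul_pos ht hAA]
  have m3 : {z : Pt | 0 < area (p y) (p w) z * B} ∈ nhds z := by
    apply (ho _ _ _).mem_nhds
    show 0 < area (p y) (p w) z * B
    rw [← hzz, area_comb _ _ _ _ _ _ hst, area_rot (p x) (p y) (p w), area_self1 (p y) (p w),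
      ← hBdef]
    nlinarith [mul_pos hs hBB]
  have m4 : {z : Pt | 0 < area (p w) (p x) z * B} ∈ nhds z := by
    apply (ho _ _ _).mem_nhds
    show 0 < area (p w) (p x) z * B
    rw [← hzz, area_comb _ _ _ _ _ _ hst, area_self2 (p w) (p x), area_rot2 (p x) (p y) (p w),
      ← hBdef]
    nlinarith [mul_pos ht hBB]
  filter_upwards [m1, m2, m3, m4] with v h3 h4 h5 h6
  by_cases hv : 0 ≤ area (p x) (p y) v * A
  · left
    rw [mem_hull3 p x y u hA]
    exact ⟨h3.le, h4.le, hv⟩
  · right
    rw [mem_hull3 p x y w hB]
    refine ⟨h5.le, h6.le, ?_⟩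
    rw [not_le] at hv
    rw [← hBdef]
    have h7 : 0 < (area (p x) (p y) v * A) * (A * B) := mul_pos_of_neg_of_neg hv hopp
    have h8 : (area (p x) (p y) v * A) * (A * B) = (A * A) * (area (p x) (p y) v * B) := by ring
    rw [h8] at h7
    exact ((mul_pos_iff_of_pos_left hAA).1 h7).le

theorem interior_nonempty {T : Finset (Finset V)} {p : V → Pt} (hT : ∀ t ∈ T, t.card = 3)
    (hp : IsTri T p) (t : Finset V) (ht : t ∈ T) : (interior (hull p t)).Nonempty := by
  obtain ⟨x, y, u, hxy, hxu, hyu, rfl⟩ := Finset.card_eq_three.1 (hT t ht)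
  have hA := area_ne hp hxy ⟨hxu.symm, hyu.symm⟩ ht
  set A := area (p x) (p y) (p u) with hAdef
  have hAA : 0 < A * A := mul_self_pos.2 hA
  have ho : ∀ (a b : Pt) (c : ℝ), IsOpen {z : Pt | 0 < area a b z * c} := by
    intro a b c
    exact isOpen_lt continuous_const ((cont_area a b).mul continuous_const)
  set S : Set Pt := {z | 0 < area (p y) (p u) z * A} ∩ {z | 0 < area (p u) (p x) z * A} ∩
    {z | 0 < area (p x) (p y) z * A} with hS
  have hopen : IsOpen S := ((ho _ _ _).inter (ho _ _ _)).inter (ho _ _ _)
  have hsub : S ⊆ hull p {x, y, u} := by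
    rintro v ⟨⟨h1, h2⟩, h3⟩
    rw [mem_hull3 p x y u hA]
    exact ⟨le_of_lt h1, le_of_lt h2, le_of_lt h3⟩
  set m : Pt := (1 / 2 : ℝ) • p x + (1 / 2 : ℝ) • p y with hm
  have hhalf : (1 / 2 : ℝ) + 1 / 2 = 1 := by norm_num
  refine ⟨(1 / 2 : ℝ) • m + (1 / 2 : ℝ) • p u, ?_⟩
  apply interior_maximal hsub hopen
  refine ⟨⟨?_, ?_⟩, ?_⟩
  · show 0 < area (p y) (p u) _ * A
    rw [area_comb _ _ _ _ _ _ hhalf, hm, area_comb _ _ _ _ _ _ hhalf,
      area_rot (p x) (p y) (p u), area_self1 (p y) (p u), area_self2 (p y) (p u), ← hAdef]
    nlinarith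
  · show 0 < area (p u) (p x) _ * A
    rw [area_comb _ _ _ _ _ _ hhalf, hm, area_comb _ _ _ _ _ _ hhalf, area_self2 (p u) (p x),
      area_rot2 (p x) (p y) (p u), area_self1 (p u) (p x), ← hAdef]
    nlinarith
  · show 0 < area (p x) (p y) _ * A
    rw [area_comb _ _ _ _ _ _ hhalf, hm, area_comb _ _ _ _ _ _ hhalf, area_self1,
      area_self2, ← hAdef]
    nlinarith

/-- the closed triangle is the closure of its interior -/
theorem closure_edge {T : Finset (Finset V)} {p : V → Pt} (hT : ∀ t ∈ T, t.card = 3) (hp : IsTri T p)
    (t : Finset V) (ht : t ∈ T) : hull p t ⊆ closure (interior (hull p t)) := by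
  have hc : Convex ℝ (hull p t) := convex_convexHull ℝ _
  rw [hc.closure_interior_eq_closure_of_nonempty_interior (interior_nonempty hT hp t ht)]
  exact subset_closure

end BSpl
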