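import Pool.Agent.BSpl.AnaJet
import Pool.Agent.BSpl.GeoBasic

/-!
# Bivariate splines, module AnaFin: the spline space and the algebraic spline space have the same dimension

PAPER PROOF.
`order_common`: let `f ∈ ASpline`, `t, t' ∈ T` and `z ∈ hull p t ∩ hull p t' = hull p (t ∩ t')`; then `f t - f t' ∈ Ord z (r + 1)`. If `t = t'`
trivial. If `(t ∩ t').card = 2`: `t, t'` are adjacent, the difference is divisible by `ell ^ (r + 1)` of the common edge and `z` is in the
segment, so `Ord_of_dvd` (`eval z (ell (p x) (p y)) = 0` on the segment). If `t ∩ t' = {v}`: `z = p v`; by `Surf.star` there is a chain of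
adjacent triangles at `v`, and each difference is in `Ord (p v) (r + 1)` (common edge `v y`). If `t ∩ t' = ∅` there is no such `z`.

`glue`: let `f ∈ ASpline`. For `x ∈ Omega T p` let `τ x ∈ T` with `x ∈ hull p (τ x)`, and `g x = eval x (f (τ x))` (`0` outside of `Omega`). Then `g` is
`C^r` on `Omega`: let `P x i = iteratedFDeriv ℝ i (fun w => eval w (f (τ x))) x`, for `i ≤ r`. For `x ∈ hull p t` and `i ≤ r`,
`P x i = iteratedFDeriv ℝ i (fun w => eval w (f t)) x` (`order_common`, `jet_of_Ord`, linearity). Show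
`HasFTaylorSeriesUpToOn r g P (Omega T p)`: `zero_eq` is clear. `fderivWithin`: for `i < r`, `x ∈ Omega`, it suffices by
`HasFDerivWithinAt.union` (finite union; induction on `T`) that the function `P · i` has the derivative
`(P x (i + 1)).curryLeft` at `x` within `hull p t` for each `t ∈ T`; if `x ∉ hull p t`, a closed set, there is nothing to prove
(`HasFDerivWithinAt.of_notMem_closure` or `nhdsWithin = ⊥`); if `x ∈ hull p t`, on `hull p t` it is equal to the smooth function
`iteratedFDeriv ℝ i (eval · (f t))`. `cont`: the same with `ContinuousWithinAt.union`. Then `HasFTaylorSeriesUpToOn.contDiffOn`.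
(An alternative is an induction on `r` over vector valued functions with `contDiffOn_succ_iff_hasFDerivWithinAt`.)

`glue_inv`: let `s ∈ Spl` with extension `g` and polynomials `q t`, `t ∈ T`. Let `t = {x, y, u}`, `t' = {x, y, w}` be adjacent. Let `z` be in the open
segment between `p x` and `p y`. By `nhds_edge`, `Omega T p ∈ nhds z`, so `g` is `C^r` at `z` (`ContDiffOn.contDiffAt`), in fact on a neighbourhood, and
`iteratedFDeriv ℝ i g` is continuous at `z` for `i ≤ r`. On the interior of `hull p t` it is equal to `iteratedFDeriv ℝ i (eval · (q t))`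
(`Filter.EventuallyEq.iteratedFDeriv`), and `z` is in the closure of this interior (`closure_edge`); so
`iteratedFDeriv ℝ i g z = iteratedFDeriv ℝ i (eval · (q t)) z` (uniqueness of limits along the interior), the same for `t'`. So the
derivatives of order `≤ r` of `q t - q t'` vanish at `z`, `q t - q t' ∈ Ord z (r + 1)` (`Ord_of_jet`), for all `z` in the open segment, an
infinite set; `dvd_of_Ord`. So `t ↦ q t` (`0` for `t ∉ T`) is in `ASpline`.

`finrank_Spl`: the linear map `ASpline → Spl`, `f ↦ (x ↦ eval x (f (τ x)))` is injective (`eq_zero_of_interior`) and onto (by `glue_inv`).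
-/

set_option autoImplicit false

namespace BSpl

open MvPolynomial

variable {V : Type} [DecidableEq V]

private theorem anaFin_segment_area {a b z : Pt} (hz : z ∈ segment ℝ a b) : area a b z = 0 := by
  obtain ⟨s, t, hs, ht, hst, rfl⟩ := hz
  have e : s = 1 - t := by linarith
  subst e
  unfold area det2
  simp only [Pi.add_apply, Pi.sub_apply, Pi.smul_apply, smul_eq_mul]
  ring

private theorem anaFin_area_self (a b : Pt) : area a b a = 0 := by
  unfold area det2
  simp

private theorem anaFin_chain {r k : ℕ} {T : Finset (Finset V)} (h : Surf T) (p : V → Pt)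
    (f : Finset V → Pol) (hf : f ∈ ASpline r k T p) (v : V) {t t' : Finset V}
    (hc : Relation.ReflTransGen (fun a b => adjT T a b ∧ v ∈ a ∧ v ∈ b) t t') :
    f t - f t' ∈ Ord (p v) (r + 1) := by
  induction hc with
  | refl =>
    rw [sub_self]
    exact Submodule.zero_mem _
  | @tail b c _ hbc ih =>
    obtain ⟨hadj, hb, hc⟩ := hbc
    obtain ⟨y, hy, hyb, hyc⟩ := adjT_at h hadj hb hc
    have h1 := hf.2.2 b c hadj v y hy.symm hb hyb hc hyc
    have h2 := Ord_of_dvd (p v) (p y) (p v) (by rw [eval_ell, anaFin_area_self, neg_zero]) (r + 1) _ h1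
    have e : f t - f c = (f t - f b) + (f b - f c) := by ring
    rw [e]
    exact Submodule.add_mem _ ih h2

theorem order_common {r k : ℕ} {T : Finset (Finset V)} (h : Surf T) {p : V → Pt} (hp : IsTri T p)
    (f : Finset V → Pol) (hf : f ∈ ASpline r k T p) (t t' : Finset V) (ht : t ∈ T) (ht' : t' ∈ T)
    (z : Pt) (hz : z ∈ hull p t) (hz' : z ∈ hull p t') : f t - f t' ∈ Ord z (r + 1) := by
  by_cases htt : t = t'
  · subst htt
    rw [sub_self]
    exact Submodule.zero_mem _
  have hz0 : z ∈ hull p (t ∩ t') := by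
    rw [← hp.inter t ht t' ht']
    exact ⟨hz, hz'⟩
  have hc : (t ∩ t').card ≤ 2 := by
    by_contra hcon
    have h2 : t ∩ t' = t :=
      Finset.eq_of_subset_of_card_le Finset.inter_subset_left (by rw [h.card3 t ht]; omega)
    have h3 : t ∩ t' = t' :=
      Finset.eq_of_subset_of_card_le Finset.inter_subset_right (by rw [h.card3 t' ht']; omega)
    exact htt (h2.symm.trans h3)
  rcases Nat.lt_or_ge (t ∩ t').card 1 with hc0 | hc1
  · have hcc : t ∩ t' = ∅ := by
      rw [← Finset.card_eq_zero]
      omega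
    rw [hcc, hull_empty] at hz0
    exact absurd hz0 (Set.notMem_empty _)
  rcases Nat.lt_or_ge (t ∩ t').card 2 with hc2 | hc2
  · obtain ⟨v, hv⟩ := Finset.card_eq_one.1 (show (t ∩ t').card = 1 by omega)
    have hvm : v ∈ t ∩ t' := by
      rw [hv]
      exact Finset.mem_singleton_self v
    rw [Finset.mem_inter] at hvm
    rw [hv, hull_one, Set.mem_singleton_iff] at hz0
    subst hz0
    exact anaFin_chain h p f hf v (h.star v t ht t' ht' hvm.1 hvm.2)
  · obtain ⟨x, y, hxy, hxy'⟩ := Finset.card_eq_two.1 (show (t ∩ t').card = 2 by omega)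
    have hx : x ∈ t ∩ t' := by
      rw [hxy']
      simp
    have hy : y ∈ t ∩ t' := by
      rw [hxy']
      simp
    rw [Finset.mem_inter] at hx hy
    have hadj : adjT T t t' := ⟨ht, ht', htt, x, y, hxy, hx.1, hy.1, hx.2, hy.2⟩
    rw [hxy', hull_two] at hz0
    exact Ord_of_dvd (p x) (p y) z (by rw [eval_ell, anaFin_segment_area hz0, neg_zero]) (r + 1) _
      (hf.2.2 t t' hadj x y hxy hx.1 hy.1 hx.2 hy.2)

private theorem anaFin_union_fderiv {E : Type} [NormedAddCommGroup E] [NormedSpace ℝ E]
    (S : Finset (Finset V)) (p : V → Pt) (Φ : Pt → E) (A : Pt →L[ℝ] E) (x : Pt)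
    (hS : ∀ t ∈ S, HasFDerivWithinAt Φ A (hull p t) x) :
    HasFDerivWithinAt Φ A (⋃ t ∈ S, hull p t) x := by
  induction S using Finset.induction_on with
  | empty =>
    simp only [Finset.notMem_empty, Set.iUnion_of_empty, Set.iUnion_empty]
    exact HasFDerivWithinAt.empty
  | insert a S ha ih =>
    rw [Finset.set_biUnion_insert]
    exact (hS a (Finset.mem_insert_self _ _)).union
      (ih fun t ht => hS t (Finset.mem_insert_of_mem ht))

private theorem anaFin_union_cont {E : Type} [TopologicalSpace E]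
    (S : Finset (Finset V)) (p : V → Pt) (Φ : Pt → E) (x : Pt)
    (hS : ∀ t ∈ S, ContinuousWithinAt Φ (hull p t) x) :
    ContinuousWithinAt Φ (⋃ t ∈ S, hull p t) x := by
  induction S using Finset.induction_on with
  | empty =>
    simp only [Finset.notMem_empty, Set.iUnion_of_empty, Set.iUnion_empty]
    exact continuousWithinAt_of_notMem_closure (by simp)
  | insert a S ha ih =>
    rw [Finset.set_biUnion_insert]
    exact (hS a (Finset.mem_insert_self _ _)).union
      (ih fun t ht => hS t (Finset.mem_insert_of_mem ht))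

private theorem anaFin_tau (T : Finset (Finset V)) (p : V → Pt) :
    ∃ τ : Pt → Finset V, ∀ x ∈ Omega T p, τ x ∈ T ∧ x ∈ hull p (τ x) := by
  have : ∀ x : Pt, ∃ t : Finset V, x ∈ Omega T p → t ∈ T ∧ x ∈ hull p t := by
    intro x
    by_cases hx : x ∈ Omega T p
    · have hx' := hx
      unfold Omega at hx'
      simp only [Set.mem_iUnion] at hx'
      obtain ⟨t, ht, hxt⟩ := hx'
      exact ⟨t, fun _ => ⟨ht, hxt⟩⟩
    · exact ⟨∅, fun h => absurd h hx⟩
  choose τ hτ using this
  exact ⟨τ, hτ⟩

private theorem anaFin_mem_Omega {T : Finset (Finset V)} {p : V → Pt} {t : Finset V} (ht : t ∈ T)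
    {x : Pt} (hx : x ∈ hull p t) : x ∈ Omega T p := by
  unfold Omega
  exact Set.mem_biUnion (show t ∈ (T : Set (Finset V)) from ht) hx

theorem glue {r k : ℕ} {T : Finset (Finset V)} (h : Surf T) {p : V → Pt} (hp : IsTri T p)
    (f : Finset V → Pol) (hf : f ∈ ASpline r k T p) :
    ∃ g : Pt → ℝ, ContDiffOn ℝ r g (Omega T p) ∧ ∀ t ∈ T, ∀ x ∈ hull p t, g x = eval x (f t) := by
  obtain ⟨τ, hτ⟩ := anaFin_tau T p
  obtain ⟨F, hFd⟩ : ∃ F : Finset V → Pt → ℝ, F = fun t w => eval w (f t) := ⟨_, rfl⟩
  have hF : ∀ t, ∀ m : WithTop ℕ∞, ContDiff ℝ m (F t) := fun t m => by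
    rw [hFd]
    exact contDiff_eval (f t) m
  have hP : ∀ t ∈ T, ∀ x ∈ hull p t, ∀ i ≤ r,
      iteratedFDeriv ℝ i (F (τ x)) x = iteratedFDeriv ℝ i (F t) x := by
    intro t ht x hx i hi
    obtain ⟨h1, h2⟩ := hτ x (anaFin_mem_Omega ht hx)
    have h3 := order_common h hp f hf (τ x) t h1 ht x h2 hx
    have h4 := jet_of_Ord _ x (r + 1) h3 i (by omega)
    have h5 : (fun w : Pt => eval w (f (τ x) - f t)) = F (τ x) - F t := by
      funext w
      rw [hFd]
      simp
    rw [h5, iteratedFDeriv_sub_apply (hF _ _).contDiffAt (hF _ _).contDiffAt, sub_eq_zero] at h4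
    exact h4
  have hclosed : ∀ t, IsClosed (hull p t) := fun t => (isCompact_hull p t).isClosed
  refine ⟨fun x => F (τ x) x, ?_, ?_⟩
  · have hT : HasFTaylorSeriesUpToOn ((r : ℕ∞) : WithTop ℕ∞) (fun x => F (τ x) x)
        (fun x => ftaylorSeries ℝ (F (τ x)) x) (Omega T p) := by
      constructor
      · intro x _
        rfl
      · intro m hm x hx
        have hm' : m < r := by exact_mod_cast hm
        refine anaFin_union_fderiv T p _ _ x fun t ht => ?_
        by_cases hxt : x ∈ hull p t
        · have e : (ftaylorSeries ℝ (F (τ x)) x m.succ) = ftaylorSeries ℝ (F t) x m.succ :=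
            hP t ht x hxt (m + 1) (by omega)
          rw [e]
          have h1 := ((hF t (r : WithTop ℕ∞)).ftaylorSeries.fderiv m (by exact_mod_cast hm')
            x).hasFDerivWithinAt (s := hull p t)
          refine h1.congr (fun y hy => ?_) ?_
          · exact hP t ht y hy m (by omega)
          · exact hP t ht x hxt m (by omega)
        · exact HasFDerivWithinAt.of_notMem_closure (by rwa [(hclosed t).closure_eq])
      · intro m hm x hx
        have hm' : m ≤ r := by exact_mod_cast hm
        refine anaFin_union_cont T p _ x fun t ht => ?_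
        by_cases hxt : x ∈ hull p t
        · have h1 : ContinuousWithinAt (fun y => ftaylorSeries ℝ (F t) y m) (hull p t) x :=
            ((hF t (r : WithTop ℕ∞)).ftaylorSeries.cont m (by exact_mod_cast hm')).continuousWithinAt
          refine h1.congr (fun y hy => ?_) ?_
          · exact hP t ht y hy m (by omega)
          · exact hP t ht x hxt m (by omega)
        · exact continuousWithinAt_of_notMem_closure (by rwa [(hclosed t).closure_eq])
    exact_mod_cast hT.contDiffOn
  · intro t ht x hx
    have h1 := hP t ht x hx 0 (by omega)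
    have h2 : iteratedFDeriv ℝ 0 (F (τ x)) x 0 = iteratedFDeriv ℝ 0 (F t) x 0 := by rw [h1]
    rw [iteratedFDeriv_zero_apply, iteratedFDeriv_zero_apply] at h2
    show F (τ x) x = _
    rw [h2, hFd]

/-- at a point of a triangle in the interior of the domain the derivatives are those of the
polynomial -/
private theorem anaFin_jet {r : ℕ} {T : Finset (Finset V)} (h : Surf T) {p : V → Pt}
    (hp : IsTri T p) (g : Pt → ℝ) (hg : ContDiffOn ℝ r g (Omega T p)) (t : Finset V) (ht : t ∈ T)
    (q : Pol) (hgq : ∀ x ∈ hull p t, g x = eval x q) (z : Pt) (hz : z ∈ hull p t)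
    (hO : Omega T p ∈ nhds z) (i : ℕ) (hi : i ≤ r) :
    iteratedFDeriv ℝ i g z = iteratedFDeriv ℝ i (fun w : Pt => eval w q) z := by
  obtain ⟨U, hUO, hU, hzU⟩ := mem_nhds_iff.1 hO
  have h1 : ContinuousAt (iteratedFDeriv ℝ i g) z := by
    have h2 : ContinuousOn (iteratedFDerivWithin ℝ i g U) U :=
      (hg.mono hUO).continuousOn_iteratedFDerivWithin (by exact_mod_cast hi) hU.uniqueDiffOn
    have h3 : ContinuousOn (iteratedFDeriv ℝ i g) U :=
      h2.congr fun x hx => (iteratedFDerivWithin_of_isOpen i hU hx).symm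
    exact h3.continuousAt (hU.mem_nhds hzU)
  have h2 : ContinuousAt (iteratedFDeriv ℝ i (fun w : Pt => eval w q)) z :=
    ((contDiff_eval q (i : WithTop ℕ∞)).continuous_iteratedFDeriv le_rfl).continuousAt
  have h3 : ∀ x ∈ interior (hull p t), iteratedFDeriv ℝ i g x =
      iteratedFDeriv ℝ i (fun w : Pt => eval w q) x := by
    intro x hx
    have h4 : g =ᶠ[nhds x] (fun w : Pt => eval w q) := by
      filter_upwards [isOpen_interior.mem_nhds hx] with y hy
      exact hgq y (interior_subset hy)
    exact (h4.iteratedFDeriv ℝ i).eq_of_nhds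
  have h5 : z ∈ closure (interior (hull p t)) := closure_edge h.card3 hp t ht hz
  have h6 : (nhdsWithin z (interior (hull p t))).NeBot := mem_closure_iff_nhdsWithin_neBot.1 h5
  have h7 : Filter.Tendsto (iteratedFDeriv ℝ i g) (nhdsWithin z (interior (hull p t)))
      (nhds (iteratedFDeriv ℝ i g z)) := h1.mono_left nhdsWithin_le_nhds
  have h8 : Filter.Tendsto (iteratedFDeriv ℝ i (fun w : Pt => eval w q))
      (nhdsWithin z (interior (hull p t)))
      (nhds (iteratedFDeriv ℝ i (fun w : Pt => eval w q) z)) := h2.mono_left nhdsWithin_le_nhds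
  refine tendsto_nhds_unique_of_eventuallyEq h7 h8 ?_
  filter_upwards [self_mem_nhdsWithin] with x hx
  exact h3 x hx

private theorem anaFin_infinite {a b : Pt} (hab : a ≠ b) : (openSegment ℝ a b).Infinite := by
  rw [openSegment_eq_image_lineMap]
  exact (Set.Ioo_infinite (by norm_num : (0 : ℝ) < 1)).image
    ((AffineMap.lineMap_injective ℝ hab).injOn)

private theorem anaFin_third {T : Finset (Finset V)} (h : Surf T) {t : Finset V} (ht : t ∈ T)
    {x y : V} (hxy : x ≠ y) (hx : x ∈ t) (hy : y ∈ t) :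
    ∃ u, u ≠ x ∧ u ≠ y ∧ t = {x, y, u} := by
  have h3 := h.card3 t ht
  have h1 : ((t.erase x).erase y).card = 1 := by
    rw [Finset.card_erase_of_mem (Finset.mem_erase.2 ⟨hxy.symm, hy⟩), Finset.card_erase_of_mem hx, h3]
  obtain ⟨u, hu⟩ := Finset.card_eq_one.1 h1
  have hum : u ∈ (t.erase x).erase y := by
    rw [hu]
    exact Finset.mem_singleton_self u
  rw [Finset.mem_erase, Finset.mem_erase] at hum
  refine ⟨u, hum.2.1, hum.1, ?_⟩
  ext w
  have hw : w ∈ (t.erase x).erase y ↔ w = u := by rw [hu, Finset.mem_singleton]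
  rw [Finset.mem_erase, Finset.mem_erase] at hw
  rw [Finset.mem_insert, Finset.mem_insert, Finset.mem_singleton]
  constructor
  · intro hwt
    by_cases h1 : w = x
    · exact Or.inl h1
    · by_cases h2 : w = y
      · exact Or.inr (Or.inl h2)
      · exact Or.inr (Or.inr (hw.1 ⟨h2, h1, hwt⟩))
  · rintro (rfl | rfl | rfl)
    · exact hx
    · exact hy
    · exact hum.2.2

theorem glue_inv {r k : ℕ} {T : Finset (Finset V)} (h : Surf T) {p : V → Pt} (hp : IsTri T p)
    (g : Pt → ℝ) (hg : ContDiffOn ℝ r g (Omega T p)) (q : Finset V → Pol)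
    (hq : ∀ t ∈ T, q t ∈ Deg k) (hq0 : ∀ t, t ∉ T → q t = 0)
    (hgq : ∀ t ∈ T, ∀ x ∈ hull p t, g x = eval x (q t)) : q ∈ ASpline r k T p := by
  refine ⟨hq, hq0, ?_⟩
  intro t t' hadj x y hxy hx hy hx' hy'
  obtain ⟨ht, ht', htt, -⟩ := hadj
  obtain ⟨u, hux, huy, hu⟩ := anaFin_third h ht hxy hx hy
  obtain ⟨w, hwx, hwy, hw⟩ := anaFin_third h ht' hxy hx' hy'
  have huw : u ≠ w := by
    rintro rfl
    exact htt (hu.trans hw.symm)
  have hpxy : p x ≠ p y := hp.ne ⟨hxy, t, ht, hx, hy⟩
  refine dvd_of_Ord (p x) (p y) hpxy (r + 1) _ (openSegment ℝ (p x) (p y)) (anaFin_infinite hpxy) ?_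
  intro z hz
  have hzs : z ∈ segment ℝ (p x) (p y) := openSegment_subset_segment ℝ _ _ hz
  refine ⟨by rw [eval_ell, anaFin_segment_area hzs, neg_zero], ?_⟩
  have hzt : z ∈ hull p t := by
    have h1 : hull p {x, y} ⊆ hull p t := hull_mono p (by
      intro a ha
      rw [Finset.mem_insert, Finset.mem_singleton] at ha
      rcases ha with rfl | rfl
      · exact hx
      · exact hy)
    rw [hull_two] at h1
    exact h1 hzs
  have hzt' : z ∈ hull p t' := by
    have h1 : hull p {x, y} ⊆ hull p t' := hull_mono p (by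
      intro a ha
      rw [Finset.mem_insert, Finset.mem_singleton] at ha
      rcases ha with rfl | rfl
      · exact hx'
      · exact hy')
    rw [hull_two] at h1
    exact h1 hzs
  have hO : Omega T p ∈ nhds z := by
    have h1 := nhds_edge h.card3 hp x y u w hxy huw ⟨hux, huy⟩ ⟨hwx, hwy⟩ (hu ▸ ht) (hw ▸ ht') z hz
    refine Filter.mem_of_superset h1 (Set.union_subset ?_ ?_)
    · intro a ha
      rw [← hu] at ha
      exact anaFin_mem_Omega ht ha
    · intro a ha
      rw [← hw] at ha
      exact anaFin_mem_Omega ht' ha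
  refine Ord_of_jet _ z (r + 1) fun i hi => ?_
  have e : (fun w : Pt => eval w (q t - q t')) =
      (fun w : Pt => eval w (q t)) - (fun w : Pt => eval w (q t')) := by
    funext w
    simp
  rw [e, iteratedFDeriv_sub_apply (contDiff_eval _ _).contDiffAt (contDiff_eval _ _).contDiffAt,
    ← anaFin_jet h hp g hg t ht (q t) (hgq t ht) z hzt hO i (by omega),
    ← anaFin_jet h hp g hg t' ht' (q t') (hgq t' ht') z hzt' hO i (by omega), sub_self]

theorem finrank_Spl (r k : ℕ) (T : Finset (Finset V)) (h : Surf T) (p : V → Pt) (hp : IsTri T p) :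
    Module.finrank ℝ (Spl r k T p) = Module.finrank ℝ (ASpline r k T p) := by
  obtain ⟨τ, hτ⟩ := anaFin_tau T p
  have hval : ∀ f ∈ ASpline r k T p, ∀ t ∈ T, ∀ x : Pt, x ∈ hull p t →
      eval x (f (τ x)) = eval x (f t) := by
    intro f hf t ht x hx
    obtain ⟨g, -, hg⟩ := glue h hp f hf
    obtain ⟨h1, h2⟩ := hτ x (anaFin_mem_Omega ht hx)
    rw [← hg t ht x hx, ← hg (τ x) h1 x h2]
  have hmem : ∀ f : ASpline r k T p,
      (fun x : Omega T p => eval (x : Pt) ((f : Finset V → Pol) (τ x))) ∈ Spl r k T p := by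
    intro f
    obtain ⟨g, hg1, hg2⟩ := glue h hp f f.2
    refine ⟨⟨g, hg1, fun x => ?_⟩, fun t ht => ⟨(f : Finset V → Pol) t, f.2.1 t ht, fun x hx => ?_⟩⟩
    · obtain ⟨h1, h2⟩ := hτ x x.2
      rw [hg2 (τ x) h1 x h2]
    · exact hval f f.2 t ht x hx
  obtain ⟨Φ, hΦ⟩ : ∃ Φ : ASpline r k T p →ₗ[ℝ] Spl r k T p, ∀ f, ∀ x : Omega T p,
      (Φ f : Omega T p → ℝ) x = eval (x : Pt) ((f : Finset V → Pol) (τ x)) :=
    ⟨{ toFun := fun f => ⟨_, hmem f⟩
       map_add' := by
         intro f f'
         apply Subtype.ext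
         funext x
         simp
       map_smul' := by
         intro c f
         apply Subtype.ext
         funext x
         simp }, fun f x => rfl⟩
  have hbij : Function.Bijective Φ := by
    constructor
    · rw [← LinearMap.ker_eq_bot, LinearMap.ker_eq_bot']
      intro f hf
      apply Subtype.ext
      funext t
      by_cases ht : t ∈ T
      · refine eq_zero_of_interior _ (hull p t) (interior_nonempty h.card3 hp t ht) fun z hz => ?_
        have hzO := anaFin_mem_Omega ht hz
        have h1 := hΦ f ⟨z, hzO⟩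
        rw [hf] at h1
        rw [← hval f f.2 t ht z hz]
        exact h1.symm
      · exact f.2.2.1 t ht
    · rintro ⟨s, ⟨g, hg, hsg⟩, hs⟩
      have hs' : ∀ t : Finset V, ∃ q : Pol, t ∈ T → q ∈ Deg k ∧
          ∀ x : Omega T p, (x : Pt) ∈ hull p t → s x = eval (x : Pt) q := by
        intro t
        by_cases ht : t ∈ T
        · obtain ⟨q, hq, hq'⟩ := hs t ht
          exact ⟨q, fun _ => ⟨hq, hq'⟩⟩
        · exact ⟨0, fun h => absurd h ht⟩
      choose q hq using hs'
      have hQ : (fun t => if t ∈ T then q t else 0) ∈ ASpline r k T p := by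
        refine glue_inv h hp g hg _ ?_ ?_ ?_
        · intro t ht
          rw [if_pos ht]
          exact (hq t ht).1
        · intro t ht
          rw [if_neg ht]
        · intro t ht x hx
          have hxO := anaFin_mem_Omega ht hx
          rw [if_pos ht, ← (hq t ht).2 ⟨x, hxO⟩ hx, hsg ⟨x, hxO⟩]
      refine ⟨⟨_, hQ⟩, ?_⟩
      apply Subtype.ext
      funext x
      rw [hΦ]
      obtain ⟨h1, h2⟩ := hτ x x.2
      show eval (x : Pt) (if τ x ∈ T then q (τ x) else 0) = s x
      rw [if_pos h1, (hq _ h1).2 x h2]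
  exact (LinearEquiv.ofBijective Φ hbij).finrank_eq.symm

end BSpl
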