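import Pool.Agent.BSpl.SplDefs

/-!
# Bivariate splines, module AnaJet: order of vanishing and derivatives

PAPER PROOF.
`contDiff_eval`: polynomials in the coordinates are smooth (`MvPolynomial.induction_on`).
`jet_mul`: if the derivatives of `f` of order `≤ m` vanish at `z` and `g z = 0` then those of `f * g` of order `≤ m + 1` vanish: by
`norm_iteratedFDeriv_mul_le`, `‖D^i (f g)‖ ≤ ∑ j, choose i j * ‖D^j f‖ * ‖D^(i-j) g‖`; for `j ≤ m` the first factor is `0`, for
`j = i = m + 1` the second. With `m = -1` (no condition): `f g` vanishes at `z`.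
`jet_of_Ord`: `F ∈ Ord z m`: `tr (-z) F` is a combination of monomials of degree at least `m`, so `F` is a linear combination of products of at least
`m` factors `X i - C (z i)` and by induction with `jet_mul` the derivatives of order `< m` of such a product vanish at `z`.
`Ord_of_jet`: let `F` be not in `Ord z m` and let `j < m` be minimal such that the component `F_j` of `tr (-z) F` of degree `j` is not `0`; choose `d` with
`eval d F_j ≠ 0` (`MvPolynomial.funext`). The function `τ ↦ eval (z + τ • d) F` is a polynomial function of `τ` with coefficient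
`eval d F_j` at `τ ^ j` (`tr (-z) F` evaluated at `τ • d`; `eval (τ • d) F_i = τ ^ i * eval d F_i` for a form of degree `i`). Its
`j`-th derivative at `0` is `j ! * eval d F_j ≠ 0`. But it is also the `j`-th derivative of `F` at `z` applied to `(d, ..., d)`, so `0`
(`ContinuousLinearMap.iteratedFDeriv_comp_right`, `iteratedFDeriv_comp_add_left`, or the Taylor formula).
`dvd_of_Ord`: let `F ≠ 0`, `b` maximal with `ell ^ b ∣ F`, `F = ell ^ b * G`, `b < m`. Then `G` is not divisible by `ell`, so it has only finitely
many zeros on the line: restrict `G` to the line `τ ↦ x + τ • (y - x)`; if this polynomial in `τ` vanishes identically then `ell ∣ G`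
(after the change of coordinates `tr`, and a linear change of coordinates, `ell` becomes a coordinate; or divide with remainder). Choose
`z ∈ S` with `G z ≠ 0`. As `ell ∈ Ord z 1`, the component of degree `b` of `tr (-z) F` is `(lf (y - x)) ^ b * G z ≠ 0`
(`tr (-z) (ell x y) = lf (y - x)` because `z` is on the line), and `b < m`: contradiction to `F ∈ Ord z m`.
-/

set_option autoImplicit false

namespace BSpl

open MvPolynomial

theorem contDiff_eval (F : Pol) (m : WithTop ℕ∞) : ContDiff ℝ m (fun w : Pt => eval w F) := by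
  induction F using MvPolynomial.induction_on with
  | C a => simpa using contDiff_const
  | add p q hp hq => simpa using hp.add hq
  | mul_X p i hp =>
    have h : ContDiff ℝ m (fun w : Pt => w i) := contDiff_apply ℝ ℝ i
    simpa using hp.mul h

/-- the derivatives of order less than `m` vanish at `z` -/
private def Jet (z : Pt) (m : ℕ) (F : Pol) : Prop :=
  ∀ i < m, iteratedFDeriv ℝ i (fun w : Pt => eval w F) z = 0

private theorem Jet.anti {z : Pt} {a b : ℕ} {F : Pol} (h : Jet z b F) (hab : a ≤ b) : Jet z a F :=
  fun i hi => h i (lt_of_lt_of_le hi hab)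

private theorem Jet.add {z : Pt} {m : ℕ} {F G : Pol} (hF : Jet z m F) (hG : Jet z m G) :
    Jet z m (F + G) := by
  intro i hi
  have e : (fun w : Pt => eval w (F + G)) = (fun w : Pt => eval w F) + (fun w : Pt => eval w G) := by
    funext w
    simp
  rw [e, iteratedFDeriv_add_apply (contDiff_eval F i).contDiffAt (contDiff_eval G i).contDiffAt,
    hF i hi, hG i hi, add_zero]

private theorem Jet.zero (z : Pt) (m : ℕ) : Jet z m 0 := by
  intro i _
  have e : (fun w : Pt => eval w (0 : Pol)) = fun _ => 0 := by
    funext w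
    simp
  rw [e]
  simp

private theorem Jet.sum {ι : Type} {z : Pt} {m : ℕ} (s : Finset ι) (F : ι → Pol)
    (h : ∀ i ∈ s, Jet z m (F i)) : Jet z m (∑ i ∈ s, F i) :=
  Finset.sum_induction F (Jet z m) (fun _ _ => Jet.add) (Jet.zero z m) h

private theorem Jet.mul {z : Pt} {a b : ℕ} {F G : Pol} (hF : Jet z a F) (hG : Jet z b G) :
    Jet z (a + b) (F * G) := by
  intro n hn
  have e : (fun w : Pt => eval w (F * G)) = (fun w : Pt => eval w F * eval w G) := by
    funext w
    simp
  rw [e, ← norm_le_zero_iff]
  refine (norm_iteratedFDeriv_mul_le (contDiff_eval F n) (contDiff_eval G n) z le_rfl).trans ?_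
  refine (Finset.sum_eq_zero fun i hi => ?_).le
  by_cases h : i < a
  · rw [hF i h]
    simp
  · rw [hG (n - i) (by have := Finset.mem_range.mp hi; omega)]
    simp

private theorem Jet.of_zero (z : Pt) (F : Pol) : Jet z 0 F := fun _ hi => absurd hi (Nat.not_lt_zero _)

private theorem Jet.of_one {z : Pt} {F : Pol} (h : eval z F = 0) : Jet z 1 F := by
  intro i hi
  obtain rfl : i = 0 := by omega
  ext v
  simp [h]

private theorem Jet.pow {z : Pt} {a : ℕ} {F : Pol} (h : Jet z a F) (e : ℕ) : Jet z (e * a) (F ^ e) := by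
  induction e with
  | zero => simpa using Jet.of_zero z _
  | succ e ih =>
    rw [pow_succ, Nat.succ_mul]
    exact ih.mul h

private theorem Jet.prod {ι : Type} [DecidableEq ι] {z : Pt} (s : Finset ι) (F : ι → Pol) (m : ι → ℕ)
    (h : ∀ i ∈ s, Jet z (m i) (F i)) : Jet z (∑ i ∈ s, m i) (∏ i ∈ s, F i) := by
  induction s using Finset.induction_on with
  | empty => simpa using Jet.of_zero z _
  | insert a s ha ih =>
    rw [Finset.sum_insert ha, Finset.prod_insert ha]
    exact (h a (Finset.mem_insert_self a s)).mul
      (ih fun i hi => h i (Finset.mem_insert_of_mem hi))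

theorem jet_of_Ord (F : Pol) (z : Pt) (m : ℕ) (h : F ∈ Ord z m) (i : ℕ) (hi : i < m) :
    iteratedFDeriv ℝ i (fun w : Pt => eval w F) z = 0 := by
  have key : Jet z m F := by
    rw [mem_Ord_iff] at h
    have e : F = ∑ v ∈ (tr (-z) F).support, tr z (monomial v (coeff v (tr (-z) F))) := by
      conv_lhs => rw [← tr_tr_neg z F, (tr (-z) F).as_sum, map_sum]
    rw [e]
    refine Jet.sum _ _ fun v hv => ?_
    refine Jet.anti ?_ (h v hv)
    rw [monomial_eq, map_mul, Finsupp.prod, map_prod, Finsupp.degree_apply]
    have h1 : Jet z (∑ j ∈ v.support, v j) (∏ j ∈ v.support, tr z (X j ^ v j)) := by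
      refine Jet.prod _ _ _ fun j _ => ?_
      rw [map_pow]
      have h2 : Jet z 1 (tr z (X j)) := by
        refine Jet.of_one ?_
        rw [eval_tr]
        simp
      simpa using h2.pow (v j)
    simpa using (Jet.of_zero z (tr z (C (coeff v (tr (-z) F))))).mul h1
  exact key i hi

private theorem eval_smul_of_H {j : ℕ} {G : Pol} (hG : G ∈ H j) (τ : ℝ) (d : Pt) :
    eval (τ • d) G = eval d G * τ ^ j := by
  rw [eval_eq, eval_eq, Finset.sum_mul]
  refine Finset.sum_congr rfl fun v hv => ?_
  have h1 : v.degree = j := by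
    have h2 := (mem_homogeneousSubmodule j G).1 hG (mem_support_iff.1 hv)
    exact (DFunLike.congr_fun Finsupp.degree_eq_weight_one v).trans h2
  have h3 : ∏ i ∈ v.support, (τ • d) i ^ v i = (∏ i ∈ v.support, d i ^ v i) * τ ^ j := by
    rw [← h1, Finsupp.degree_apply, ← Finset.prod_pow_eq_pow_sum, ← Finset.prod_mul_distrib]
    refine Finset.prod_congr rfl fun i _ => ?_
    rw [Pi.smul_apply, smul_eq_mul, mul_pow, mul_comm]
  rw [h3]
  ring

theorem Ord_of_jet (F : Pol) (z : Pt) (m : ℕ)
    (h : ∀ i < m, iteratedFDeriv ℝ i (fun w : Pt => eval w F) z = 0) : F ∈ Ord z m := by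
  intro j
  induction j using Nat.strong_induction_on with
  | _ j ih =>
  intro hj
  set G := tr (-z) F with hGdef
  set Gj := homogeneousComponent j G with hGj
  have hGjH : Gj ∈ H j := homogeneousComponent_mem _ _
  have h1 : F + C (-1) * tr z Gj ∈ Ord z (j + 1) := by
    intro i hi
    rw [map_add, map_mul, tr_neg_tr, tr_C, map_add, homogeneousComponent_C_mul,
      homogeneousComponent_of_mem hGjH, ← hGdef]
    by_cases hij : i = j
    · subst hij
      rw [if_pos rfl, ← hGj]
      simp
    · rw [if_neg hij, ih i (by omega) (by omega)]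
      simp
  have h2 : Jet z (j + 1) (F + C (-1) * tr z Gj) := fun i hi => jet_of_Ord _ z (j + 1) h1 i hi
  have h3 : Jet z (j + 1) (tr z Gj) := by
    have h4 : Jet z (j + 1) F := fun i hi => h i (by omega)
    have h5 : Jet z (0 + (j + 1)) (C (-1) * (F + C (-1) * tr z Gj)) := (Jet.of_zero z _).mul h2
    rw [zero_add] at h5
    have h6 := h4.add h5
    have e : F + C (-1) * (F + C (-1) * tr z Gj) = tr z Gj := by
      rw [C_neg, C_1]
      ring
    rwa [e] at h6
  have h7 := h3 j (Nat.lt_succ_self j)
  have h8 : ∀ d : Pt, eval d Gj = 0 := by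
    intro d
    have hcd : ContDiff ℝ j (fun w : Pt => eval (z + w) (tr z Gj)) := by
      have := contDiff_eval (tr z Gj) (j : WithTop ℕ∞)
      exact this.comp (contDiff_const.add contDiff_id)
    have h9 := (ContinuousLinearMap.toSpanSingleton ℝ d).iteratedFDeriv_comp_right hcd (0 : ℝ)
      (i := j) le_rfl
    have h10 : iteratedFDeriv ℝ j (fun w : Pt => eval (z + w) (tr z Gj)) 0 = 0 := by
      have h11 := iteratedFDeriv_comp_add_left (𝕜 := ℝ) (f := fun w : Pt => eval w (tr z Gj)) j z 0
      rw [add_zero] at h11
      rw [h11, h7]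
    rw [map_zero, h10] at h9
    have h12 : ((fun w : Pt => eval (z + w) (tr z Gj)) ∘ (ContinuousLinearMap.toSpanSingleton ℝ d)) =
        fun τ : ℝ => eval d Gj * τ ^ j := by
      funext τ
      simp only [Function.comp_apply, ContinuousLinearMap.toSpanSingleton_apply]
      rw [eval_tr, add_sub_cancel_left, eval_smul_of_H hGjH]
    rw [h12] at h9
    have h13 : iteratedDeriv j (fun τ : ℝ => eval d Gj * τ ^ j) 0 = 0 := by
      rw [iteratedDeriv_eq_iteratedFDeriv, h9]
      simp
    rw [iteratedDeriv_const_mul_field, iteratedDeriv_fun_pow_zero, if_pos rfl] at h13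
    rcases mul_eq_zero.1 h13 with h14 | h14
    · exact h14
    · exact absurd h14 (by exact_mod_cast Nat.factorial_ne_zero j)
  exact MvPolynomial.funext fun d => by rw [h8 d, map_zero]

theorem Ord_of_dvd (x y z : Pt) (hz : eval z (ell x y) = 0) (m : ℕ) (F : Pol)
    (h : ell x y ^ m ∣ F) : F ∈ Ord z m := by
  obtain ⟨q, rfl⟩ := h
  have h1 : ell x y ^ m ∈ Ord z (m * 1) := pow_mem_Ord (mem_Ord_one hz) m
  have h2 : q ∈ Ord z 0 := by
    rw [Ord_zero]
    exact Submodule.mem_top
  simpa using mul_mem_Ord h1 h2

/-- the restriction to a line -/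
private noncomputable def res (x d : Pt) : Pol →ₐ[ℝ] Polynomial ℝ :=
  aeval fun i => Polynomial.C (x i) + Polynomial.X * Polynomial.C (d i)

private theorem eval_res (x d : Pt) (F : Pol) (τ : ℝ) :
    (res x d F).eval τ = eval (x + τ • d) F := by
  induction F using MvPolynomial.induction_on with
  | C a => simp [res]
  | add p q hp hq => simp only [map_add, Polynomial.eval_add, hp, hq]
  | mul_X p i hp =>
    rw [map_mul, Polynomial.eval_mul, hp, map_mul]
    congr 1
    simp [res]
    exact mul_comm _ _

/-- a polynomial vanishing at infinitely many points of a line is divisible by the equation of the line -/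
private theorem dvd_of_zeros (x y : Pt) (hxy : x ≠ y) (F : Pol) (S : Set Pt) (hS : S.Infinite)
    (h : ∀ z ∈ S, eval z (ell x y) = 0 ∧ eval z F = 0) : ell x y ∣ F := by
  set d : Pt := y - x with hd
  have hn : d 0 ^ 2 + d 1 ^ 2 ≠ 0 := by
    intro h0
    have h1 : d 0 = 0 := by nlinarith [sq_nonneg (d 0), sq_nonneg (d 1)]
    have h2 : d 1 = 0 := by nlinarith [sq_nonneg (d 0), sq_nonneg (d 1)]
    apply hxy
    have h3 : d = 0 := by
      funext i
      fin_cases i
      · exact h1
      · exact h2
    rw [hd, sub_eq_zero] at h3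
    exact h3.symm
  set N : ℝ := (d 0 ^ 2 + d 1 ^ 2)⁻¹ with hN
  have hell : ell x y = C (d 1) * (X 0 - C (x 0)) - C (d 0) * (X 1 - C (x 1)) := by
    rw [ell, lf, map_sub, map_mul, map_mul, tr_C, tr_C, tr_X, tr_X]
  set T : Pol := C (N * d 0) * (X 0 - C (x 0)) + C (N * d 1) * (X 1 - C (x 1)) with hT
  -- the parametrisation
  have hpar : ∀ z ∈ S, z = x + (N * (d 0 * (z 0 - x 0) + d 1 * (z 1 - x 1))) • d := by
    intro z hz
    have h1 := (h z hz).1
    rw [hell] at h1
    simp only [map_sub, map_mul, eval_C, eval_X] at h1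
    funext i
    fin_cases i
    · simp only [Fin.zero_eta, Pi.add_apply, Pi.smul_apply, smul_eq_mul]
      rw [hN]
      field_simp
      linear_combination (d 1) * h1
    · simp only [Fin.mk_one, Pi.add_apply, Pi.smul_apply, smul_eq_mul]
      rw [hN]
      field_simp
      linear_combination (-(d 0)) * h1
  have hP : res x d F = 0 := by
    apply Polynomial.eq_zero_of_infinite_isRoot
    have hinj : Set.InjOn (fun z : Pt => N * (d 0 * (z 0 - x 0) + d 1 * (z 1 - x 1))) S := by
      intro z hz w hw hzw
      simp only at hzw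
      rw [hpar z hz, hpar w hw, hzw]
    refine (hS.image hinj).mono ?_
    rintro _ ⟨z, hz, rfl⟩
    change (res x d F).eval _ = 0
    rw [eval_res]
    simp only
    rw [← hpar z hz]
    exact (h z hz).2
  -- congruence modulo `ell`
  have hq : ∀ G : Pol, Ideal.Quotient.mk (Ideal.span {ell x y}) G =
      Ideal.Quotient.mk (Ideal.span {ell x y}) (Polynomial.aeval T (res x d G)) := by
    intro G
    induction G using MvPolynomial.induction_on with
    | C a =>
      congr 1
      simp [res, MvPolynomial.algebraMap_eq]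
    | add p q hp hq => rw [map_add, map_add, map_add, map_add, hp, hq]
    | mul_X p i hp =>
      rw [map_mul, map_mul, map_mul, map_mul, ← hp]
      congr 1
      rw [Ideal.Quotient.eq, Ideal.mem_span_singleton]
      have e : Polynomial.aeval T (res x d (X i)) = C (x i) + T * C (d i) := by
        simp [res, MvPolynomial.algebraMap_eq]
        exact mul_comm _ _
      rw [e]
      have hNN : N * (d 0 ^ 2 + d 1 ^ 2) = 1 := inv_mul_cancel₀ hn
      have hNC : (C N : Pol) * (C (d 0) ^ 2 + C (d 1) ^ 2) = 1 := by
        rw [← C_pow, ← C_pow, ← C_add, ← C_mul, hNN, C_1]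
      fin_cases i
      · refine ⟨C (N * d 1), ?_⟩
        simp only [Fin.zero_eta]
        rw [hT, hell]
        simp only [C_mul]
        linear_combination (-(X 0 - C (x 0))) * hNC
      · refine ⟨C (-(N * d 0)), ?_⟩
        simp only [Fin.mk_one]
        rw [hT, hell]
        simp only [C_mul, C_neg]
        linear_combination (-(X 1 - C (x 1))) * hNC
  have h1 := hq F
  rw [hP, map_zero, map_zero, Ideal.Quotient.eq_zero_iff_mem, Ideal.mem_span_singleton] at h1
  exact h1

private theorem comp_H_mul {L Q : Pol} (hL : L ∈ H 1) (j : ℕ) :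
    homogeneousComponent (j + 1) (L * Q) = L * homogeneousComponent j Q := by
  have e : L * Q = ∑ i ∈ Finset.range (Q.totalDegree + 1), L * homogeneousComponent i Q := by
    rw [← Finset.mul_sum, sum_homogeneousComponent]
  rw [e, map_sum]
  have h1 : ∀ i ∈ Finset.range (Q.totalDegree + 1),
      homogeneousComponent (j + 1) (L * homogeneousComponent i Q) =
        if i = j then L * homogeneousComponent j Q else 0 := by
    intro i _
    have h2 : L * homogeneousComponent i Q ∈ H (1 + i) := mul_mem_H hL (homogeneousComponent_mem _ _)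
    rw [homogeneousComponent_of_mem h2]
    by_cases hij : i = j
    · subst hij
      rw [if_pos (by omega), if_pos rfl]
    · rw [if_neg (by omega), if_neg hij]
  rw [Finset.sum_congr rfl h1, Finset.sum_ite_eq']
  by_cases hj : j ∈ Finset.range (Q.totalDegree + 1)
  · rw [if_pos hj]
  · rw [if_neg hj, homogeneousComponent_eq_zero, mul_zero]
    have := Finset.mem_range.not.1 hj
    omega

theorem dvd_of_Ord (x y : Pt) (hxy : x ≠ y) (m : ℕ) (F : Pol) (S : Set Pt) (hS : S.Infinite)
    (h : ∀ z ∈ S, eval z (ell x y) = 0 ∧ F ∈ Ord z m) : ell x y ^ m ∣ F := by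
  induction m generalizing F with
  | zero => simp
  | succ m ih =>
    have h1 : ell x y ∣ F := by
      refine dvd_of_zeros x y hxy F S hS fun z hz => ⟨(h z hz).1, ?_⟩
      have h2 := (h z hz).2 0 (Nat.succ_pos m)
      rw [homogeneousComponent_zero, map_eq_zero_iff C (C_injective _ _)] at h2
      have h3 : eval 0 (tr (-z) F) = 0 := by
        rw [← constantCoeff_eq] at h2
        rw [← MvPolynomial.eval_zero] at h2
        exact h2
      rw [eval_tr] at h3
      simpa using h3
    obtain ⟨G, rfl⟩ := h1
    rw [pow_succ']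
    refine mul_dvd_mul_left _ (ih G fun z hz => ⟨(h z hz).1, ?_⟩)
    intro j hj
    have hz := (h z hz).1
    have hL : tr (-z) (ell x y) = lf (y - x) := by
      have e : tr (-z) (ell x y) - lf (y - x) = C (eval z (ell x y)) := by
        rw [ell, lf, map_sub, map_mul, map_mul, tr_C, tr_C, tr_X, tr_X, map_sub, map_mul, map_mul,
          tr_C, tr_C, map_sub, map_sub, tr_X, tr_X, tr_C, tr_C]
        simp only [map_sub, map_mul, eval_C, eval_X, Pi.neg_apply, C_neg]
        ring
      rw [hz, C_0, sub_eq_zero] at e
      exact e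
    have hne : lf (y - x) ≠ 0 := by
      intro h0
      rw [lf] at h0
      have e1 := congrArg (eval (fun i => if i = 0 then (1 : ℝ) else 0)) h0
      have e2 := congrArg (eval (fun i => if i = 1 then (1 : ℝ) else 0)) h0
      simp at e1 e2
      apply hxy
      funext i
      fin_cases i
      · simp only [Fin.zero_eta]
        linarith
      · simp only [Fin.mk_one]
        linarith
    have h2 := (h z ‹z ∈ S›).2 (j + 1) (by omega)
    rw [map_mul, hL, comp_H_mul (lf_H _), mul_eq_zero] at h2
    exact h2.resolve_left hne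

/-- a polynomial vanishing on a set with interior is zero -/
theorem eq_zero_of_interior (F : Pol) (S : Set Pt) (hS : (interior S).Nonempty)
    (h : ∀ z ∈ S, eval z F = 0) : F = 0 := by
  obtain ⟨z, hz⟩ := hS
  refine MvPolynomial.funext fun w => ?_
  rw [map_zero]
  have hP : res z (w - z) F = 0 := by
    apply Polynomial.eq_zero_of_infinite_isRoot
    have hc : Continuous fun τ : ℝ => z + τ • (w - z) := by fun_prop
    have hO : IsOpen ((fun τ : ℝ => z + τ • (w - z)) ⁻¹' interior S) := isOpen_interior.preimage hc
    have h0 : (0 : ℝ) ∈ (fun τ : ℝ => z + τ • (w - z)) ⁻¹' interior S := by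
      simpa using hz
    refine (infinite_of_mem_nhds (0 : ℝ) (hO.mem_nhds h0)).mono fun τ hτ => ?_
    change (res z (w - z) F).eval τ = 0
    rw [eval_res]
    exact h _ (interior_subset hτ)
  have h1 := eval_res z (w - z) F 1
  rw [hP] at h1
  simpa using h1.symm

end BSpl
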