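import Pool.Agent.BSpl.Defs

/-!
# Bivariate splines, module Basics: translates, degree and order

PAPER PROOF.  `tr x (tr y q) = tr (x + y) q`: both are algebra homomorphisms, compare on `X i`.
`Ord x f`: `q ∈ Ord x f` iff all monomials `m` in the support of `tr (-x) q` have degree `≥ f`
(`homogeneousComponent`, `coeff_homogeneousComponent`).  Products: `tr (-x)` is multiplicative and every monomial of a product is
a sum of monomials of the factors.  `ell x y = tr x (lf (y - x)) = tr y (lf (y - x))` (expand), `lf d ∈ H 1`.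
`Gen_spec`: multiplicativity.  `Gen_mono`, `Gen_symm` (`ell y x = - ell x y`, absorb the sign in `μ`).

`loc_gen`: show by induction on `k + 1 - m` that `Deg k ⊓ Ord U m ≤ S` for `m0 ≤ m ≤ k + 1`.  For `m = k + 1` such a polynomial is
`0`.  Step: let `q ∈ Deg k ⊓ Ord U m`, `m ≤ k`, `g` the homogeneous component of degree `m` of `tr (-U) q`.  Then
`q - tr U g * lam ^ (k - m) ∈ Deg k ⊓ Ord U (m + 1)`: apply `tr (-U)`; `tr (-U) lam` has constant term `eval U lam = 1`, so the
component of degree `m` of `g * (tr (-U) lam) ^ (k - m)` is `g`, the components of smaller degree are `0`.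
-/

set_option autoImplicit false

namespace BSpl

open MvPolynomial

theorem tr_X (x : Pt) (i : Fin 2) : tr x (X i) = X i - C (x i) := by
  simp [tr]

theorem tr_C (x : Pt) (a : ℝ) : tr x (C a) = C a := by
  simp [tr]

theorem tr_tr (x y : Pt) (q : Pol) : tr x (tr y q) = tr (x + y) q := by
  have h : (tr x).comp (tr y) = tr (x + y) := by
    apply MvPolynomial.algHom_ext
    intro i
    rw [AlgHom.comp_apply, tr_X, map_sub, tr_X, tr_C, tr_X, Pi.add_apply, C_add]
    ring
  exact DFunLike.congr_fun h q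

theorem tr_zero (q : Pol) : tr 0 q = q := by
  have h : tr 0 = AlgHom.id ℝ Pol := by
    apply MvPolynomial.algHom_ext
    intro i
    rw [tr_X, Pi.zero_apply, C_0, sub_zero]
    rfl
  rw [h]
  rfl

theorem tr_neg_tr (x : Pt) (q : Pol) : tr (-x) (tr x q) = q := by
  rw [tr_tr, neg_add_cancel, tr_zero]

theorem tr_tr_neg (x : Pt) (q : Pol) : tr x (tr (-x) q) = q := by
  rw [tr_tr, add_neg_cancel, tr_zero]

theorem eval_tr (x z : Pt) (q : Pol) : eval z (tr x q) = eval (z - x) q := by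
  have h : (aeval z : Pol →ₐ[ℝ] ℝ).comp (tr x) = aeval (z - x) := by
    apply MvPolynomial.algHom_ext
    intro i
    rw [AlgHom.comp_apply, tr_X, map_sub, aeval_X, aeval_C, aeval_X, Pi.sub_apply]
    rfl
  have h2 := DFunLike.congr_fun h q
  rw [AlgHom.comp_apply] at h2
  exact h2

theorem lf_H (d : Pt) : lf d ∈ H 1 := by
  rw [mem_homogeneousSubmodule]
  exact (isHomogeneous_C_mul_X _ _).sub (isHomogeneous_C_mul_X _ _)

theorem lf_smul (c : ℝ) (d : Pt) : lf (c • d) = C c * lf d := by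
  unfold lf
  rw [Pi.smul_apply, Pi.smul_apply, smul_eq_mul, smul_eq_mul, C_mul, C_mul]
  ring

theorem ell_eq_left (x y : Pt) : ell x y = tr x (lf (y - x)) := rfl

theorem ell_eq_right (x y : Pt) : ell x y = tr y (lf (y - x)) := by
  unfold ell lf
  rw [map_sub, map_mul, map_mul, map_sub, map_mul, map_mul, tr_C, tr_C, tr_C, tr_C, tr_X, tr_X,
    tr_X, tr_X, Pi.sub_apply, Pi.sub_apply, C_sub, C_sub]
  ring

theorem ell_swap (x y : Pt) : ell y x = - ell x y := by
  rw [ell_eq_right x y, ell_eq_left y x]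
  have h : lf (x - y) = - lf (y - x) := by
    unfold lf
    rw [Pi.sub_apply, Pi.sub_apply, Pi.sub_apply, Pi.sub_apply, C_sub, C_sub, C_sub, C_sub]
    ring
  rw [h, map_neg]

theorem mem_Ord_iff (x : Pt) (f : ℕ) (q : Pol) :
    q ∈ Ord x f ↔ ∀ m ∈ (tr (-x) q).support, f ≤ m.degree := by
  constructor
  · intro h m hm
    by_contra hc
    rw [not_le] at hc
    have h1 : homogeneousComponent m.degree (tr (-x) q) = 0 := h _ hc
    have h2 := congrArg (coeff m) h1
    rw [coeff_homogeneousComponent, if_pos rfl, coeff_zero] at h2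
    exact (mem_support_iff.1 hm) h2
  · intro h j hj
    ext m
    rw [coeff_homogeneousComponent, coeff_zero]
    split_ifs with hm
    · by_contra hc
      have := h m (mem_support_iff.2 hc)
      omega
    · rfl

theorem Ord_anti {x : Pt} {f g : ℕ} (h : f ≤ g) : Ord x g ≤ Ord x f :=
  fun _ hq j hj => hq j (by omega)

theorem Ord_zero (x : Pt) : Ord x 0 = ⊤ := by
  rw [eq_top_iff]
  intro q _ j hj
  omega

theorem mul_mem_Ord {x : Pt} {f g : ℕ} {a b : Pol} (ha : a ∈ Ord x f) (hb : b ∈ Ord x g) :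
    a * b ∈ Ord x (f + g) := by
  classical
  rw [mem_Ord_iff] at ha hb ⊢
  intro m hm
  rw [map_mul] at hm
  obtain ⟨m1, h1, m2, h2, rfl⟩ := Finset.mem_add.1 (support_mul _ _ hm)
  rw [map_add]
  exact add_le_add (ha m1 h1) (hb m2 h2)

theorem pow_mem_Ord {x : Pt} {f : ℕ} {a : Pol} (ha : a ∈ Ord x f) (e : ℕ) :
    a ^ e ∈ Ord x (e * f) := by
  induction e with
  | zero => rw [zero_mul, Ord_zero]; trivial
  | succ e ih =>
    rw [pow_succ, add_mul, one_mul]
    exact mul_mem_Ord ih ha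

theorem tr_mem_Ord {x : Pt} {a : ℕ} {h : Pol} (hh : h ∈ H a) : tr x h ∈ Ord x a := by
  rw [mem_Ord_iff]
  intro m hm
  rw [tr_neg_tr] at hm
  rw [mem_homogeneousSubmodule] at hh
  have h1 := hh (mem_support_iff.1 hm)
  rw [← h1]
  exact le_of_eq (Finsupp.degree_eq_weight_one (R := ℕ) ▸ rfl)

theorem ell_mem_Ord_left (x y : Pt) : ell x y ∈ Ord x 1 := tr_mem_Ord (lf_H _)

theorem ell_mem_Ord_right (x y : Pt) : ell x y ∈ Ord y 1 := by
  rw [ell_eq_right]
  exact tr_mem_Ord (lf_H _)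

/-- a polynomial of degree at most `1` vanishing at `x` -/
theorem mem_Ord_one {x : Pt} {l : Pol} (h : eval x l = 0) : l ∈ Ord x 1 := by
  intro j hj
  have hj0 : j = 0 := by omega
  rw [hj0, homogeneousComponent_zero]
  have h1 : coeff 0 (tr (-x) l) = eval x l := by
    have h2 := eval_tr (-x) 0 l
    rw [zero_sub, neg_neg] at h2
    rw [← h2, eval_zero]
    rfl
  rw [h1, h, C_0]

theorem mem_Deg {k : ℕ} {q : Pol} : q ∈ Deg k ↔ q.totalDegree ≤ k :=
  mem_restrictTotalDegree _ _ _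

theorem mul_mem_Deg {a b : ℕ} {p q : Pol} (hp : p ∈ Deg a) (hq : q ∈ Deg b) : p * q ∈ Deg (a + b) := by
  rw [mem_Deg] at hp hq ⊢
  exact (totalDegree_mul _ _).trans (add_le_add hp hq)

theorem pow_mem_Deg {a : ℕ} {p : Pol} (hp : p ∈ Deg a) (e : ℕ) : p ^ e ∈ Deg (e * a) := by
  rw [mem_Deg] at hp ⊢
  exact (totalDegree_pow _ _).trans (Nat.mul_le_mul_left e hp)

theorem Deg_mono {a b : ℕ} (h : a ≤ b) : Deg a ≤ Deg b := by
  intro q hq
  rw [mem_Deg] at hq ⊢
  exact hq.trans h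

theorem H_le_Deg (m : ℕ) : H m ≤ Deg m := by
  intro q hq
  rw [mem_Deg]
  rw [mem_homogeneousSubmodule] at hq
  exact hq.totalDegree_le

theorem tr_mem_Deg {k : ℕ} {q : Pol} (x : Pt) (hq : q ∈ Deg k) : tr x q ∈ Deg k := by
  unfold tr
  rw [aeval_def, eval₂_eq']
  refine Submodule.sum_mem _ fun d hd => ?_
  have h1 : ∀ i : Fin 2, (X i - C (x i) : Pol) ∈ Deg 1 := by
    intro i
    refine Submodule.sub_mem _ ?_ ?_
    · rw [mem_Deg, totalDegree_X]
    · rw [mem_Deg, totalDegree_C]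
      exact Nat.zero_le _
  rw [Fin.prod_univ_two]
  have h2 : (algebraMap ℝ Pol) (coeff d q) ∈ Deg 0 := by
    rw [mem_Deg]
    exact (totalDegree_C _).le
  have h3 := mul_mem_Deg h2 (mul_mem_Deg (pow_mem_Deg (h1 0) (d 0)) (pow_mem_Deg (h1 1) (d 1)))
  refine Deg_mono ?_ h3
  have h4 := le_totalDegree hd
  rw [mem_Deg] at hq
  have h5 : (d.sum fun _ e => e) = d 0 + d 1 := by
    rw [Finsupp.sum_fintype _ _ (fun _ => rfl), Fin.sum_univ_two]
  omega

theorem ell_mem_Deg (x y : Pt) : ell x y ∈ Deg 1 := tr_mem_Deg x (H_le_Deg 1 (lf_H _))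

theorem mul_mem_H {a b : ℕ} {p q : Pol} (hp : p ∈ H a) (hq : q ∈ H b) : p * q ∈ H (a + b) := by
  rw [mem_homogeneousSubmodule] at hp hq ⊢
  exact hp.mul hq

theorem pow_mem_H {a : ℕ} {p : Pol} (hp : p ∈ H a) (e : ℕ) : p ^ e ∈ H (e * a) := by
  rw [mem_homogeneousSubmodule] at hp ⊢
  rw [mul_comm]
  exact hp.pow e

theorem Gen_spec {n f g : ℕ} {x y : Pt} {q : Pol} (hq : q ∈ Gen n x y f g) :
    q ∈ Deg n ∧ q ∈ Ord x f ∧ q ∈ Ord y g := by
  obtain ⟨i, a, b, h, h', μ, hh, hh', hf, hg, hn, rfl⟩ := hq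
  have hμ : μ ∈ Deg μ.totalDegree := mem_Deg.2 le_rfl
  refine ⟨?_, ?_, ?_⟩
  · have h1 := mul_mem_Deg (mul_mem_Deg (mul_mem_Deg (pow_mem_Deg (ell_mem_Deg x y) i)
      (tr_mem_Deg x (H_le_Deg a hh))) (tr_mem_Deg y (H_le_Deg b hh'))) hμ
    exact Deg_mono (by omega) h1
  · have h1 : tr y h' ∈ Ord x 0 := by rw [Ord_zero]; trivial
    have h2 : μ ∈ Ord x 0 := by rw [Ord_zero]; trivial
    have h3 := mul_mem_Ord (mul_mem_Ord (mul_mem_Ord (pow_mem_Ord (ell_mem_Ord_left x y) i)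
      (tr_mem_Ord (x := x) hh)) h1) h2
    exact Ord_anti (by omega) h3
  · have h1 : tr x h ∈ Ord y 0 := by rw [Ord_zero]; trivial
    have h2 : μ ∈ Ord y 0 := by rw [Ord_zero]; trivial
    have h3 := mul_mem_Ord (mul_mem_Ord (mul_mem_Ord (pow_mem_Ord (ell_mem_Ord_right x y) i)
      h1) (tr_mem_Ord (x := y) hh')) h2
    exact Ord_anti (by omega) h3

theorem Gen_anti {n f g f' g' : ℕ} {x y : Pt} (h : f ≤ f') (h' : g ≤ g') :
    Gen n x y f' g' ⊆ Gen n x y f g := by
  rintro q ⟨i, a, b, u, u', μ, hu, hu', hf, hg, hn, rfl⟩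
  exact ⟨i, a, b, u, u', μ, hu, hu', h.trans hf, h'.trans hg, hn, rfl⟩

theorem Gen_symm {n f g : ℕ} {x y : Pt} {q : Pol} (hq : q ∈ Gen n x y f g) :
    q ∈ Gen n y x g f := by
  obtain ⟨i, a, b, h, h', μ, hh, hh', hf, hg, hn, rfl⟩ := hq
  refine ⟨i, b, a, h', h, C ((-1) ^ i) * μ, hh', hh, hg, hf, ?_, ?_⟩
  · have h1 := totalDegree_mul (C ((-1 : ℝ) ^ i) : Pol) μ
    rw [totalDegree_C] at h1
    omega
  · rw [ell_swap y x, neg_pow, C_pow, C_neg, C_1]
    ring

/-- the block of a column at a vertex -/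
theorem col_mem {n r s : ℕ} {x y : Pt} {g : ℕ} {q : Pol} (hq : q ∈ Gen n x y s g) :
    q * ell x y ^ (r + 1) ∈ Deg (n + r + 1) ⊓ Ord x (r + s + 1) := by
  obtain ⟨h1, h2, -⟩ := Gen_spec hq
  constructor
  · exact Deg_mono (by omega) (mul_mem_Deg h1 (pow_mem_Deg (ell_mem_Deg x y) (r + 1)))
  · exact Ord_anti (by omega) (mul_mem_Ord h2 (pow_mem_Ord (ell_mem_Ord_left x y) (r + 1)))

/-- one step of the graded reconstruction -/
theorem loc_step (U : Pt) (lam : Pol) (hlam : lam ∈ Deg 1) (hU : eval U lam = 1) (k m : ℕ)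
    (hm : m ≤ k) (q : Pol) (hq : q ∈ Deg k ⊓ Ord U m) :
    ∃ g ∈ H m, q - tr U g * lam ^ (k - m) ∈ Deg k ⊓ Ord U (m + 1) := by
  obtain ⟨h1, h2⟩ := hq
  have hg : homogeneousComponent m (tr (-U) q) ∈ H m := by
    rw [mem_homogeneousSubmodule]
    exact homogeneousComponent_isHomogeneous _ _
  refine ⟨homogeneousComponent m (tr (-U) q), hg, ?_, ?_⟩
  · refine Submodule.sub_mem _ h1 ?_
    exact Deg_mono (by omega) (mul_mem_Deg (tr_mem_Deg U (H_le_Deg m hg))
      (pow_mem_Deg hlam (k - m)))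
  · have e1 : q - tr U (homogeneousComponent m (tr (-U) q)) * lam ^ (k - m) =
        (q - tr U (homogeneousComponent m (tr (-U) q))) -
          tr U (homogeneousComponent m (tr (-U) q)) * (lam ^ (k - m) - 1) := by ring
    rw [e1]
    refine Submodule.sub_mem _ ?_ ?_
    · intro j hj
      rw [map_sub, tr_neg_tr, map_sub, homogeneousComponent_of_mem hg]
      rcases Nat.lt_succ_iff_lt_or_eq.1 hj with hj' | hj'
      · rw [if_neg (by omega), h2 j hj', sub_zero]
      · rw [if_pos hj', hj', sub_self]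
    · refine mul_mem_Ord (tr_mem_Ord hg) (mem_Ord_one ?_)
      rw [map_sub, map_pow, hU, one_pow, map_one, sub_self]

/-- graded reconstruction -/
theorem loc_gen (U : Pt) (lam : Pol) (hlam : lam ∈ Deg 1) (hU : eval U lam = 1) (k m0 : ℕ)
    (S : Submodule ℝ Pol)
    (h : ∀ m, m0 ≤ m → m ≤ k → ∀ g ∈ H m, tr U g * lam ^ (k - m) ∈ S) :
    Deg k ⊓ Ord U m0 ≤ S := by
  have key : ∀ d m, m0 ≤ m → k + 1 - m = d → Deg k ⊓ Ord U m ≤ S := by
    intro d
    induction d with
    | zero =>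
      intro m hm hd q hq
      have h1 := (mem_Ord_iff U m q).1 hq.2
      have h2 : tr (-U) q = 0 := by
        rw [← support_eq_empty, Finset.eq_empty_iff_forall_notMem]
        intro a ha
        have h3 := h1 a ha
        have h4 := le_totalDegree ha
        have h5 := mem_Deg.1 (tr_mem_Deg (-U) hq.1)
        have h6 : (a.sum fun _ e => e) = a.degree := by
          rw [Finsupp.degree_apply]
          rfl
        omega
      have h3 : q = 0 := by rw [← tr_tr_neg U q, h2, map_zero]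
      rw [h3]
      exact S.zero_mem
    | succ d ih =>
      intro m hm hd q hq
      obtain ⟨g, hg, hq'⟩ := loc_step U lam hlam hU k m (by omega) q hq
      have h1 := ih (m + 1) (by omega) (by omega) hq'
      have h2 := h m hm (by omega) g hg
      have h3 := S.add_mem h1 h2
      rwa [sub_add_cancel] at h3
  exact key _ m0 le_rfl rfl

end BSpl
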