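import Pool.Agent.BSpl.Basics

/-!
# Bivariate splines, module DimA: dimensions

PAPER PROOF.  `tr (-x)` is an automorphism which maps `Deg k` onto `Deg k` and `Ord x f` onto `Ord 0 f`; `Deg k ⊓ Ord 0 m0` is the
space of polynomials supported on the monomials of degree `m0 ≤ |m| ≤ k` (`MvPolynomial.restrictSupport`), there are `j + 1`
monomials of degree `j`.

`finrank_two`: the conditions at two different points are independent when `f + g ≤ n + 1`.  Let `Q = Deg n`.  Show: for every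
`b` with `f ≤ a ≤ n + 1 - b`... a convenient way: (1) `finrank (Deg n ⊓ Ord x f ⊓ Ord y (g + 1)) + (g + 1) ≥ finrank (Deg n ⊓ Ord x f ⊓ Ord y g)`
(the quotient embeds in `H g` by the leading form at `y`), which gives the inequality `≥` between the dimensions of
`Deg n ⊓ Ord x f ⊓ Ord y g` and the expected number; (2) for the upper bound the leading form map
`Deg n ⊓ Ord x f ⊓ Ord y g → H g` is onto when `f + g + 1 ≤ n + 1`: for `h ∈ H g` the polynomial `c • (tr y h * lam ^ f)`, `lam` an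
affine function with `lam x = 0`, `lam y = 1`, is in `Deg (g + f)`, vanishes to order `f` at `x`, `g` at `y` and has leading form
`h` at `y`.  So by induction on `g` the dimension is exactly the expected one.
-/

set_option autoImplicit false

namespace BSpl

open MvPolynomial

private theorem card_deg (n : ℕ) : Nat.card {d : Fin 2 →₀ ℕ | d.degree = n} = n + 1 := by
  rw [← Nat.card_fin (n + 1)]
  have hd : ∀ d : Fin 2 →₀ ℕ, d.degree = d 0 + d 1 := by
    intro d
    rw [Finsupp.degree_eq_sum, Fin.sum_univ_two]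
  refine Nat.card_congr ⟨fun d => ⟨d.1 0, ?_⟩, fun i =>
    ⟨Finsupp.equivFunOnFinite.symm ![(i : ℕ), n - i], ?_⟩, ?_, ?_⟩
  · have h1 : d.1.degree = n := d.2
    rw [hd] at h1
    omega
  · have h1 := i.2
    show (Finsupp.equivFunOnFinite.symm ![(i : ℕ), n - i]).degree = n
    rw [hd]
    simp
    omega
  · intro d
    have h1 : d.1.degree = n := d.2
    rw [hd] at h1
    apply Subtype.ext
    ext k
    fin_cases k
    · simp
    · simp
      omega
  · intro i
    apply Fin.ext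
    simp

private theorem finrank_H (n : ℕ) : Module.finrank ℝ (H n) = n + 1 := by
  have h1 : H n = restrictSupport ℝ {d : Fin 2 →₀ ℕ | d.degree = n} :=
    homogeneousSubmodule_eq_finsupp_supported (Fin 2) ℝ n
  rw [h1, Module.finrank_eq_nat_card_basis (basisRestrictSupport ℝ _)]
  exact card_deg n

/-- leading form map -/
private noncomputable def Lf (y : Pt) (g : ℕ) : Pol →ₗ[ℝ] Pol :=
  (homogeneousComponent g).comp (tr (-y)).toLinearMap

private theorem Lf_apply (y : Pt) (g : ℕ) (q : Pol) :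
    Lf y g q = homogeneousComponent g (tr (-y) q) := rfl

private theorem Lf_mem (y : Pt) (g : ℕ) (q : Pol) : Lf y g q ∈ H g := by
  rw [Lf_apply, mem_homogeneousSubmodule]
  exact homogeneousComponent_isHomogeneous g _

private theorem mem_Ord_succ (y : Pt) (g : ℕ) (q : Pol) :
    q ∈ Ord y (g + 1) ↔ q ∈ Ord y g ∧ Lf y g q = 0 := by
  constructor
  · intro h
    exact ⟨fun j hj => h j (by omega), h g (by omega)⟩
  · rintro ⟨h1, h2⟩ j hj
    rcases Nat.lt_succ_iff_lt_or_eq.1 hj with h | h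
    · exact h1 j h
    · rw [h]
      exact h2

private theorem Lf_tr (y : Pt) {g : ℕ} {h : Pol} (hh : h ∈ H g) : Lf y g (tr y h) = h := by
  rw [Lf_apply, tr_neg_tr]
  rw [mem_homogeneousSubmodule] at hh
  rw [homogeneousComponent_of_mem hh, if_pos rfl]

private theorem rank_step (S : Submodule ℝ Pol) [FiniteDimensional ℝ S] (y : Pt) (g : ℕ)
    (hs : ∀ h ∈ H g, ∃ q ∈ S ⊓ Ord y g, Lf y g q = h) :
    Module.finrank ℝ (S ⊓ Ord y (g + 1) : Submodule ℝ Pol) + (g + 1) =
      Module.finrank ℝ (S ⊓ Ord y g : Submodule ℝ Pol) := by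
  have hfd : FiniteDimensional ℝ (S ⊓ Ord y g : Submodule ℝ Pol) :=
    Submodule.finiteDimensional_inf_left S (Ord y g)
  obtain ⟨φ, hφ⟩ : ∃ φ : (S ⊓ Ord y g : Submodule ℝ Pol) →ₗ[ℝ] Pol,
      φ = (Lf y g).domRestrict (S ⊓ Ord y g) := ⟨_, rfl⟩
  have h1 := LinearMap.finrank_range_add_finrank_ker φ
  have h2 : LinearMap.range φ = H g := by
    apply le_antisymm
    · rintro _ ⟨q, rfl⟩
      rw [hφ]
      exact Lf_mem y g q.1
    · intro h hh
      obtain ⟨q, hq, hq'⟩ := hs h hh
      exact ⟨⟨q, hq⟩, by rw [hφ]; exact hq'⟩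
  have h3 : Submodule.map (S ⊓ Ord y g : Submodule ℝ Pol).subtype (LinearMap.ker φ) =
      S ⊓ Ord y (g + 1) := by
    ext q
    rw [Submodule.mem_map, Submodule.mem_inf, mem_Ord_succ]
    constructor
    · rintro ⟨w, hw, rfl⟩
      rw [LinearMap.mem_ker, hφ] at hw
      have h4 := w.2
      rw [Submodule.mem_inf] at h4
      exact ⟨h4.1, h4.2, hw⟩
    · rintro ⟨h4, h5, h6⟩
      refine ⟨⟨q, Submodule.mem_inf.2 ⟨h4, h5⟩⟩, ?_, rfl⟩
      rw [LinearMap.mem_ker, hφ]
      exact h6
  have h4 : Module.finrank ℝ (LinearMap.ker φ) =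
      Module.finrank ℝ (S ⊓ Ord y (g + 1) : Submodule ℝ Pol) := by
    rw [← h3]
    exact (Submodule.finrank_map_subtype_eq _ _).symm
  rw [h2, finrank_H, h4] at h1
  omega

private theorem sum_succ_eq (k : ℕ) : ∑ m ∈ Finset.range (k + 1), (m + 1) = (k + 2).choose 2 := by
  induction k with
  | zero => rfl
  | succ k ih =>
    rw [Finset.sum_range_succ, ih, Nat.choose_succ_succ' (k + 2) 1, Nat.choose_one_right]
    ring

theorem finiteDimensional_Deg (k : ℕ) : FiniteDimensional ℝ (Deg k) := by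
  exact inferInstance

private theorem DegOrd_bot (k : ℕ) (x : Pt) : (Deg k ⊓ Ord x (k + 1) : Submodule ℝ Pol) = ⊥ := by
  rw [eq_bot_iff]
  intro q hq
  rw [Submodule.mem_inf] at hq
  rw [Submodule.mem_bot]
  have h1 : tr (-x) q = 0 := by
    have h2 := mem_Deg.1 (tr_mem_Deg (-x) hq.1)
    have h3 := hq.2
    rw [← sum_homogeneousComponent (tr (-x) q)]
    apply Finset.sum_eq_zero
    intro j hj
    rw [Finset.mem_range] at hj
    exact h3 j (by omega)
  rw [← tr_tr_neg x q, h1, map_zero]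

private theorem DegOrd_aux (k : ℕ) (x : Pt) (e : ℕ) : ∀ m0, m0 + e = k + 1 →
    Module.finrank ℝ (Deg k ⊓ Ord x m0 : Submodule ℝ Pol) +
      ∑ m ∈ Finset.range m0, (m + 1) = (k + 2).choose 2 := by
  haveI := finiteDimensional_Deg k
  induction e with
  | zero =>
    intro m0 hm
    have : m0 = k + 1 := by omega
    rw [this, DegOrd_bot, finrank_bot, zero_add, sum_succ_eq]
  | succ e ih =>
    intro m0 hm
    have h1 := ih (m0 + 1) (by omega)
    have h2 := rank_step (Deg k) x m0 (fun h hh => ⟨tr x h, Submodule.mem_inf.2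
      ⟨tr_mem_Deg x (Deg_mono (by omega) (H_le_Deg m0 hh)), tr_mem_Ord hh⟩, Lf_tr x hh⟩)
    rw [Finset.sum_range_succ] at h1
    omega

theorem finrank_Deg (k : ℕ) : Module.finrank ℝ (Deg k) = (k + 2).choose 2 := by
  have h1 := DegOrd_aux k 0 (k + 1) 0 (by omega)
  rw [Ord_zero, inf_top_eq, Finset.sum_range_zero, add_zero] at h1
  exact h1

theorem finrank_DegOrd (k m0 : ℕ) (x : Pt) :
    Module.finrank ℝ (Deg k ⊓ Ord x m0 : Submodule ℝ Pol) = ∑ m ∈ Finset.Icc m0 k, (m + 1) := by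
  rcases le_total m0 (k + 1) with h | h
  · have h1 := DegOrd_aux k x (k + 1 - m0) m0 (by omega)
    rw [← sum_succ_eq] at h1
    have h2 : ∑ m ∈ Finset.range (k + 1), (m + 1) =
        ∑ m ∈ Finset.range m0, (m + 1) + ∑ m ∈ Finset.Icc m0 k, (m + 1) := by
      rw [← Finset.sum_range_add_sum_Ico _ h]
      rfl
    omega
  · have h1 : (Deg k ⊓ Ord x m0 : Submodule ℝ Pol) = ⊥ := by
      rw [eq_bot_iff, ← DegOrd_bot k x]
      exact inf_le_inf_left _ (Ord_anti h)
    rw [h1, finrank_bot, Finset.Icc_eq_empty (by omega), Finset.sum_empty]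

/-- the target spaces -/
theorem finrank_M (r n s : ℕ) (x : Pt) :
    Module.finrank ℝ (Deg (n + r + 1) ⊓ Ord x (r + s + 1) : Submodule ℝ Pol) = dM r n s := by
  rw [finrank_DegOrd]
  unfold dM
  have h1 : Finset.Icc (r + s + 1) (n + r + 1) =
      (Finset.Icc s n).map (addRightEmbedding (r + 1)) := by
    rw [Finset.map_add_right_Icc]
    congr 1
    ring
  rw [h1, Finset.sum_map]
  apply Finset.sum_congr rfl
  intro j _
  rw [addRightEmbedding_apply]
  ring

private theorem exists_lam {x y : Pt} (hxy : x ≠ y) :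
    ∃ lam : Pol, lam ∈ Deg 1 ∧ eval x lam = 0 ∧ eval y lam = 1 := by
  obtain ⟨i, hi⟩ := Function.ne_iff.1 hxy
  have hne : y i - x i ≠ 0 := sub_ne_zero.2 (Ne.symm hi)
  refine ⟨C ((y i - x i)⁻¹) * (X i - C (x i)), ?_, ?_, ?_⟩
  · rw [mem_Deg]
    refine (totalDegree_mul _ _).trans ?_
    rw [totalDegree_C, zero_add]
    refine (totalDegree_sub _ _).trans ?_
    rw [totalDegree_C, totalDegree_X]
    simp
  · simp
  · simp [inv_mul_cancel₀ hne]

private theorem two_surj (n f g : ℕ) (x y : Pt) (hxy : x ≠ y) (hfg : f + g ≤ n) (h : Pol)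
    (hh : h ∈ H g) : ∃ q ∈ (Deg n ⊓ Ord x f : Submodule ℝ Pol) ⊓ Ord y g, Lf y g q = h := by
  obtain ⟨lam, hl, hx, hy⟩ := exists_lam hxy
  have h1 : tr y h * lam ^ f ∈ Deg n := by
    refine Deg_mono (by omega : g + f * 1 ≤ n) ?_
    exact mul_mem_Deg (tr_mem_Deg y (H_le_Deg g hh)) (pow_mem_Deg hl f)
  have h2 : tr y h * lam ^ f ∈ Ord x f := by
    have h3 : tr y h ∈ Ord x 0 := by
      rw [Ord_zero]
      exact Submodule.mem_top
    have h4 := mul_mem_Ord h3 (pow_mem_Ord (mem_Ord_one hx) f)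
    rwa [zero_add, mul_one] at h4
  have h5 : lam ^ f - 1 ∈ Ord y 1 := by
    apply mem_Ord_one
    rw [map_sub, map_pow, hy, one_pow, map_one, sub_self]
  have h6 := mul_mem_Ord (tr_mem_Ord (x := y) hh) h5
  have h7 : tr y h * lam ^ f = tr y h * (lam ^ f - 1) + tr y h := by ring
  have h8 : tr y h * lam ^ f ∈ Ord y g := by
    rw [h7]
    exact (Ord y g).add_mem (Ord_anti (Nat.le_succ g) h6) (tr_mem_Ord hh)
  refine ⟨tr y h * lam ^ f, Submodule.mem_inf.2 ⟨Submodule.mem_inf.2 ⟨h1, h2⟩, h8⟩, ?_⟩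
  rw [h7, map_add, ((mem_Ord_succ y g _).1 h6).2, Lf_tr y hh, zero_add]

theorem finrank_two (n f g : ℕ) (x y : Pt) (hxy : x ≠ y) (h : f + g ≤ n + 1) :
    Module.finrank ℝ (Deg n ⊓ Ord x f ⊓ Ord y g : Submodule ℝ Pol) +
      ∑ j ∈ Finset.range f, (j + 1) + ∑ j ∈ Finset.range g, (j + 1) = (n + 2).choose 2 := by
  haveI := finiteDimensional_Deg n
  haveI : FiniteDimensional ℝ (Deg n ⊓ Ord x f : Submodule ℝ Pol) :=
    Submodule.finiteDimensional_inf_left _ _
  induction g with
  | zero =>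
    rw [Ord_zero, inf_top_eq, Finset.sum_range_zero, add_zero]
    exact DegOrd_aux n x (n + 1 - f) f (by omega)
  | succ g ih =>
    have h1 := ih (by omega)
    have h2 := rank_step (Deg n ⊓ Ord x f) y g (two_surj n f g x y hxy (by omega))
    rw [Finset.sum_range_succ _ g]
    omega

end BSpl
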