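import Pool.Agent.BSpl.Engine
import Pool.Agent.BSpl.DimA

/-!
# Bivariate splines, module Conf: the target space of a configuration and the line lemma

`MM r n s I p` is the space of all vectors `w : V → Pol` supported on `I` with `w x ∈ Deg (n + r + 1) ⊓ Ord (p x) (r + s + 1)`.

PAPER PROOF.  `finrank_MM`: `MM r n s I p` is isomorphic to the product over `x ∈ I` of the spaces
`Deg (n + r + 1) ⊓ Ord (p x) (r + s + 1)`, each of dimension `dM r n s` (`finrank_M`, module DimA).  `W_le_MM`: by `col_mem`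
(module Basics) and `Gen_symm` every column is in `MM` (for `evec`, `x ≠ y`; use that `MM` is a submodule and each of the two
summands is in it).  `W_full_eq`: a subspace of a finite dimensional space of the same dimension is the whole space
(`Submodule.eq_of_le_of_finrank_le`).

`conf_line`: use `engine` (module Engine) with `S = cols r n s α c p₀`, `W t = W r n s α c (p₀ + t • (p₁ - p₀))`; the curves are
given by `Gen_curve` and `PC_evec`, `PC_gvec` (the curve `t ↦ (p₀ + t • (p₁ - p₀)) v` is polynomial: `PC.const`, `PC.lin`, `PC.add`).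
At `t = 0` note `p₀ + 0 • (p₁ - p₀) = p₀`.

`det_line`: `t ↦ det2 (u t) (w t)`, for `u`, `w` differences of two moving points, is a polynomial curve in `ℝ` and not zero at
`t = 1`; use `PC.finite_zeros`.

`full_mono`: more edges and smaller flags give more columns; `Gen_anti`.
-/

set_option autoImplicit false

namespace BSpl

open MvPolynomial

variable {V : Type} [DecidableEq V]

/-- the target space of a configuration -/
noncomputable def MM (r n s : ℕ) (I : Finset V) (p : V → Pt) : Submodule ℝ (V → Pol) where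
  carrier := {w | (∀ x ∈ I, w x ∈ Deg (n + r + 1) ⊓ Ord (p x) (r + s + 1)) ∧ ∀ x, x ∉ I → w x = 0}
  zero_mem' := by
    refine ⟨fun x _ => Submodule.zero_mem _, fun x _ => rfl⟩
  add_mem' := by
    intro a b ha hb
    refine ⟨fun x hx => Submodule.add_mem _ (ha.1 x hx) (hb.1 x hx), fun x hx => ?_⟩
    rw [Pi.add_apply, ha.2 x hx, hb.2 x hx, add_zero]
  smul_mem' := by
    intro t a ha
    refine ⟨fun x hx => Submodule.smul_mem _ _ (ha.1 x hx), fun x hx => ?_⟩
    rw [Pi.smul_apply, ha.2 x hx, smul_zero]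

theorem single_mem_MM {r n s : ℕ} {I : Finset V} {p : V → Pt} {x : V} (hx : x ∈ I) {q : Pol}
    (hq : q ∈ Deg (n + r + 1) ⊓ Ord (p x) (r + s + 1)) : Pi.single x q ∈ MM r n s I p := by
  refine ⟨fun y _ => ?_, fun y hy => ?_⟩
  · by_cases h : y = x
    · subst h
      rw [Pi.single_eq_same]
      exact hq
    · rw [Pi.single_eq_of_ne h]
      exact Submodule.zero_mem _
  · have h : y ≠ x := by
      rintro rfl
      exact hy hx
    exact Pi.single_eq_of_ne h _

/-- a vector in the target space is the sum of its entries -/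
theorem MM_le_of_single {r n s : ℕ} {I : Finset V} {p : V → Pt} (S : Submodule ℝ (V → Pol))
    (h : ∀ x ∈ I, ∀ q ∈ (Deg (n + r + 1) ⊓ Ord (p x) (r + s + 1) : Submodule ℝ Pol),
      Pi.single x q ∈ S) : MM r n s I p ≤ S := by
  intro w hw
  have h1 : w = ∑ x ∈ I, Pi.single x (w x) := by
    funext v
    rw [Finset.sum_apply]
    by_cases hv : v ∈ I
    · rw [Finset.sum_eq_single v]
      · rw [Pi.single_eq_same]
      · intro b _ hb
        exact Pi.single_eq_of_ne hb.symm _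
      · intro h'
        exact absurd hv h'
    · rw [hw.2 v hv]
      symm
      apply Finset.sum_eq_zero
      intro x hx
      apply Pi.single_eq_of_ne
      rintro rfl
      exact hv hx
  rw [h1]
  exact Submodule.sum_mem _ fun x hx => h x hx _ (hw.1 x hx)

/-- the target space is a product -/
noncomputable def MM_equiv (r n s : ℕ) (I : Finset V) (p : V → Pt) :
    MM r n s I p ≃ₗ[ℝ] ((x : ↥I) →
      (Deg (n + r + 1) ⊓ Ord (p x.1) (r + s + 1) : Submodule ℝ Pol)) where
  toFun w x := ⟨w.1 x.1, w.2.1 x.1 x.2⟩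
  map_add' _ _ := rfl
  map_smul' _ _ := rfl
  invFun g := ⟨fun v => if h : v ∈ I then (g ⟨v, h⟩).1 else 0, by
    refine ⟨fun x hx => ?_, fun x hx => dif_neg hx⟩
    show (if h : x ∈ I then (g ⟨x, h⟩).1 else 0) ∈ _
    rw [dif_pos hx]
    exact (g ⟨x, hx⟩).2⟩
  left_inv w := by
    apply Subtype.ext
    funext v
    by_cases hv : v ∈ I
    · exact dif_pos hv
    · show (if h : v ∈ I then w.1 v else 0) = w.1 v
      rw [dif_neg hv, w.2.2 v hv]
  right_inv g := by
    funext x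
    apply Subtype.ext
    exact dif_pos x.2

theorem finiteDimensional_MM (r n s : ℕ) (I : Finset V) (p : V → Pt) :
    FiniteDimensional ℝ (MM r n s I p) := by
  have h1 := finiteDimensional_Deg (n + r + 1)
  have h2 : ∀ x : ↥I, FiniteDimensional ℝ
      (Deg (n + r + 1) ⊓ Ord (p x.1) (r + s + 1) : Submodule ℝ Pol) := fun x =>
    Submodule.finiteDimensional_of_le inf_le_left
  exact LinearEquiv.finiteDimensional (MM_equiv r n s I p).symm

theorem finrank_MM (r n s : ℕ) (I : Finset V) (p : V → Pt) :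
    Module.finrank ℝ (MM r n s I p) = I.card * dM r n s := by
  have h1 := finiteDimensional_Deg (n + r + 1)
  have h2 : ∀ x : ↥I, FiniteDimensional ℝ
      (Deg (n + r + 1) ⊓ Ord (p x.1) (r + s + 1) : Submodule ℝ Pol) := fun x =>
    Submodule.finiteDimensional_of_le inf_le_left
  rw [LinearEquiv.finrank_eq (MM_equiv r n s I p), Module.finrank_pi_fintype]
  simp_rw [finrank_M]
  rw [Finset.sum_const, Finset.card_univ, Fintype.card_coe, smul_eq_mul]

theorem W_le_MM (r n s : ℕ) (α : V → V → ℝ) (c : Cfg V) (p : V → Pt) :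
    W r n s α c p ≤ MM r n s c.I p := by
  unfold W
  rw [Submodule.span_le]
  rintro w (⟨x, hx, y, hy, -, -, q, hq, rfl⟩ | ⟨x, hx, b, -, f, -, q, hq, rfl⟩)
  · exact Submodule.add_mem _ (single_mem_MM hx (Submodule.smul_mem _ _ (col_mem hq)))
      (single_mem_MM hy (Submodule.smul_mem _ _ (col_mem (Gen_symm hq))))
  · exact single_mem_MM hx (col_mem hq)

theorem finiteDimensional_W (r n s : ℕ) (α : V → V → ℝ) (c : Cfg V) (p : V → Pt) :
    FiniteDimensional ℝ (W r n s α c p) := by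
  have h1 := finiteDimensional_MM r n s c.I p
  exact Submodule.finiteDimensional_of_le (W_le_MM r n s α c p)

theorem W_full_eq {r n s : ℕ} {α : V → V → ℝ} {c : Cfg V} {p : V → Pt}
    (h : c.I.card * dM r n s ≤ Module.finrank ℝ (W r n s α c p)) :
    W r n s α c p = MM r n s c.I p := by
  have h1 := finiteDimensional_MM r n s c.I p
  refine Submodule.eq_of_le_of_finrank_le (W_le_MM r n s α c p) ?_
  rw [finrank_MM]
  exact h

/-- `W = MM` gives the full rank -/
theorem full_of_le {r n s : ℕ} {α : V → V → ℝ} {c : Cfg V} {p : V → Pt}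
    (h : MM r n s c.I p ≤ W r n s α c p) :
    c.I.card * dM r n s ≤ Module.finrank ℝ (W r n s α c p) := by
  have h1 := finiteDimensional_W r n s α c p
  rw [← finrank_MM r n s c.I p]
  exact Submodule.finrank_mono h

/-- the rank is lower semicontinuous along lines -/
theorem conf_line (r n s : ℕ) (α : V → V → ℝ) (c : Cfg V) (p₀ p₁ : V → Pt) (N : ℕ)
    (h : N ≤ Module.finrank ℝ (W r n s α c p₀)) :
    {t : ℝ | ¬ N ≤ Module.finrank ℝ (W r n s α c (p₀ + t • (p₁ - p₀)))}.Finite := by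
  have hP : ∀ v, PC (fun t : ℝ => (p₀ + t • (p₁ - p₀)) v) := fun v =>
    PC.add (PC.const (p₀ v)) (PC.lin ((p₁ - p₀) v))
  have hP0 : p₀ + (0 : ℝ) • (p₁ - p₀) = p₀ := by
    rw [zero_smul, add_zero]
  refine engine (fun t => W r n s α c (p₀ + t • (p₁ - p₀)))
    (fun t => finiteDimensional_W r n s α c _) (cols r n s α c p₀) ?_ N h
  rintro v (⟨x, hx, y, hy, hxy, hii, q, hq, rfl⟩ | ⟨x, hx, b, hb, f, hf, q, hq, rfl⟩)
  · have hq' : q ∈ Gen n ((fun t : ℝ => (p₀ + t • (p₁ - p₀)) x) 0)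
        ((fun t : ℝ => (p₀ + t • (p₁ - p₀)) y) 0) s s := by
      simp only
      rw [hP0]
      exact hq
    obtain ⟨cu, h1, h2, h3⟩ := Gen_curve (hP x) (hP y) hq'
    refine ⟨fun t => evec r α (p₀ + t • (p₁ - p₀)) x y (cu t), PC_evec r α hP x y h1, ?_, ?_⟩
    · simp only
      rw [hP0, h2]
    · intro t _
      exact Submodule.subset_span (Or.inl ⟨x, hx, y, hy, hxy, hii, cu t, h3 t, rfl⟩)
  · have hq' : q ∈ Gen n ((fun t : ℝ => (p₀ + t • (p₁ - p₀)) x) 0)
        ((fun t : ℝ => (p₀ + t • (p₁ - p₀)) b) 0) s f := by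
      simp only
      rw [hP0]
      exact hq
    obtain ⟨cu, h1, h2, h3⟩ := Gen_curve (hP x) (hP b) hq'
    refine ⟨fun t => gvec r (p₀ + t • (p₁ - p₀)) x b (cu t), PC_gvec r hP x b h1, ?_, ?_⟩
    · simp only
      rw [hP0, h2]
    · intro t _
      exact Submodule.subset_span (Or.inr ⟨x, hx, b, hb, f, hf, cu t, h3 t, rfl⟩)

/-- the same, starting from the other end of the segment -/
theorem conf_line' (r n s : ℕ) (α : V → V → ℝ) (c : Cfg V) (p₀ p₁ : V → Pt) (N : ℕ)
    (h : N ≤ Module.finrank ℝ (W r n s α c p₁)) :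
    {t : ℝ | ¬ N ≤ Module.finrank ℝ (W r n s α c (p₀ + t • (p₁ - p₀)))}.Finite := by
  have h1 := conf_line r n s α c p₁ p₀ N h
  have h2 : {t : ℝ | ¬ N ≤ Module.finrank ℝ (W r n s α c (p₀ + t • (p₁ - p₀)))} =
      (fun t : ℝ => 1 - t) ⁻¹'
        {t : ℝ | ¬ N ≤ Module.finrank ℝ (W r n s α c (p₁ + t • (p₀ - p₁)))} := by
    ext t
    have h3 : p₁ + (1 - t) • (p₀ - p₁) = p₀ + t • (p₁ - p₀) := by
      rw [sub_smul, one_smul, smul_sub, smul_sub]
      abel
    rw [Set.mem_preimage, Set.mem_ofPred_eq, Set.mem_ofPred_eq, h3]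
  rw [h2]
  refine h1.preimage (Function.Injective.injOn ?_)
  intro a b hab
  have h3 : 1 - a = 1 - b := hab
  linarith

theorem det_line (p₀ p₁ : V → Pt) (v x y : V) (h : det2 (p₁ x - p₁ v) (p₁ y - p₁ v) ≠ 0) :
    {t : ℝ | det2 ((p₀ + t • (p₁ - p₀)) x - (p₀ + t • (p₁ - p₀)) v)
      ((p₀ + t • (p₁ - p₀)) y - (p₀ + t • (p₁ - p₀)) v) = 0}.Finite := by
  have hP : ∀ v, PC (fun t : ℝ => (p₀ + t • (p₁ - p₀)) v) := fun v =>
    PC.add (PC.const (p₀ v)) (PC.lin ((p₁ - p₀) v))
  have hc : ∀ (u w : V) (i : Fin 2),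
      PC (fun t : ℝ => ((p₀ + t • (p₁ - p₀)) u - (p₀ + t • (p₁ - p₀)) w) i) := fun u w i =>
    PC.map ((hP u).sub (hP w)) (LinearMap.proj i)
  have hD : PC (fun t : ℝ => det2 ((p₀ + t • (p₁ - p₀)) x - (p₀ + t • (p₁ - p₀)) v)
      ((p₀ + t • (p₁ - p₀)) y - (p₀ + t • (p₁ - p₀)) v)) :=
    PC.sub (PC.smul (hc x v 0) (hc y v 1)) (PC.smul (hc x v 1) (hc y v 0))
  refine hD.finite_zeros 1 ?_
  have h1 : p₀ + (1 : ℝ) • (p₁ - p₀) = p₁ := by
    rw [one_smul]
    abel
  rw [h1]
  exact h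

/-- more edges, smaller flags -/
theorem full_mono {r n s : ℕ} {α : V → V → ℝ} {c c' : Cfg V} (hI : c'.I = c.I)
    (hii : ∀ x ∈ c.I, ∀ y ∈ c.I, c'.ii x y → c.ii x y)
    (hgr : ∀ x ∈ c.I, ∀ b, b ∉ c.I → ∀ f, c'.gr x b f → ∃ g ≤ f, c.gr x b g)
    (h : Full r n s α c') : Full r n s α c := by
  obtain ⟨p, hp⟩ := h
  refine ⟨p, ?_⟩
  rw [hI] at hp
  refine hp.trans ?_
  have h1 := finiteDimensional_W r n s α c p
  refine Submodule.finrank_mono (Submodule.span_mono ?_)
  rintro w (⟨x, hx, y, hy, hxy, h2, q, hq, rfl⟩ | ⟨x, hx, b, hb, f, hf, q, hq, rfl⟩)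
  · rw [hI] at hx hy
    exact Or.inl ⟨x, hx, y, hy, hxy, hii x hx y hy h2, q, hq, rfl⟩
  · rw [hI] at hx hb
    obtain ⟨g, hg, h3⟩ := hgr x hx b hb f hf
    exact Or.inr ⟨x, hx, b, hb, g, h3, q, Gen_anti (le_refl s) hg hq, rfl⟩

/-- no interior vertices -/
theorem full_empty {r n s : ℕ} {α : V → V → ℝ} {c : Cfg V} (hI : c.I = ∅) : Full r n s α c := by
  refine ⟨fun _ => 0, ?_⟩
  rw [hI, Finset.card_empty, zero_mul]
  exact Nat.zero_le _

end BSpl
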