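import Pool.Agent.BSpl.CxDefs

/-!
# Bivariate splines, module CxBasic: basic facts on combinatorial triangulations

PAPER PROOFS.  All direct from the definitions.  If `t`, `t'` are different three-element sets then `(t ∩ t').card ≤ 2`.
`adjT_pair`: the filter of triangles containing `x` and `y` contains `t`, `t'` and has at most two elements.
`star_sum`: double counting of the pairs `(y, t)` with `v ∈ t ∈ T`, `y ∈ t`, `y ≠ v` (`Finset.sum_card_bipartiteAbove_eq_sum_card_bipartiteBelow`).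
`link_conn`: by `Surf.star`, the property `∀ y ∈ t, y ≠ v → P y` of a triangle `t` at `v` passes to adjacent triangles at `v`
(adjacent triangles at `v` have a common vertex different from `v`: `(t ∩ t').card = 2`).
`nbrs_card`: let `y ∈ nbrs T v`; the two triangles at the edge `v y` are `{v, y, z₁}`, `{v, y, z₂}` with `z₁ ≠ z₂`;
so `y, z₁, z₂` are three neighbours (`nbrs T v` is not empty as `v ∈ verts T` and triangles have three vertices).
-/

set_option autoImplicit false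

namespace BSpl

variable {V : Type} [DecidableEq V] {T : Finset (Finset V)}

theorem ecount_comm (T : Finset (Finset V)) (x y : V) : ecount T x y = ecount T y x := by
  unfold ecount
  simp only [and_comm]

theorem Edge.symm {x y : V} (h : Edge T x y) : Edge T y x := by
  obtain ⟨hne, t, ht, hx, hy⟩ := h
  exact ⟨hne.symm, t, ht, hy, hx⟩

theorem edge_iff (x y : V) : Edge T x y ↔ x ≠ y ∧ 1 ≤ ecount T x y := by
  unfold Edge ecount
  rw [Nat.one_le_iff_ne_zero, Ne, Ne, Finset.card_eq_zero, ← Ne, ← Ne,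
    ← Finset.nonempty_iff_ne_empty]
  constructor
  · rintro ⟨h, t, ht, hx, hy⟩
    exact ⟨h, t, Finset.mem_filter.2 ⟨ht, hx, hy⟩⟩
  · rintro ⟨h, t, ht⟩
    obtain ⟨ht, hx, hy⟩ := Finset.mem_filter.1 ht
    exact ⟨h, t, ht, hx, hy⟩

theorem mem_verts (v : V) : v ∈ verts T ↔ ∃ t ∈ T, v ∈ t := by
  unfold verts
  simp

theorem mem_nbrs (v y : V) : y ∈ nbrs T v ↔ Edge T v y := by
  unfold nbrs
  rw [Finset.mem_filter]
  constructor
  · exact fun h => h.2
  · intro h
    obtain ⟨-, t, ht, -, hy⟩ := id h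
    exact ⟨(mem_verts y).2 ⟨t, ht, hy⟩, h⟩

theorem mem_VI (v : V) : v ∈ VI T ↔ v ∈ verts T ∧ ∀ y, Edge T v y → ecount T v y = 2 := by
  unfold VI
  rw [Finset.mem_filter]
  simp only [mem_nbrs]

theorem mem_edgesF (e : Finset V) : e ∈ edgesF T ↔ ∃ x y, Edge T x y ∧ e = {x, y} := by
  unfold edgesF
  rw [Finset.mem_biUnion]
  constructor
  · rintro ⟨t, ht, he⟩
    obtain ⟨hsub, hc⟩ := Finset.mem_powersetCard.1 he
    obtain ⟨x, y, hxy, rfl⟩ := Finset.card_eq_two.1 hc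
    exact ⟨x, y, ⟨hxy, t, ht, hsub (by simp), hsub (by simp)⟩, rfl⟩
  · rintro ⟨x, y, ⟨hxy, t, ht, hx, hy⟩, rfl⟩
    refine ⟨t, ht, Finset.mem_powersetCard.2 ⟨?_, Finset.card_pair hxy⟩⟩
    rw [Finset.insert_subset_iff, Finset.singleton_subset_iff]
    exact ⟨hx, hy⟩

theorem cxb_filter_pair (T : Finset (Finset V)) (x y : V) :
    (T.filter fun t => ({x, y} : Finset V) ⊆ t) = T.filter fun t => x ∈ t ∧ y ∈ t := by
  refine Finset.filter_congr fun t _ => ?_
  rw [Finset.insert_subset_iff, Finset.singleton_subset_iff]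

theorem mem_EI (e : Finset V) : e ∈ EI T ↔ ∃ x y, x ≠ y ∧ ecount T x y = 2 ∧ e = {x, y} := by
  unfold EI
  rw [Finset.mem_filter]
  constructor
  · rintro ⟨he, hc⟩
    obtain ⟨x, y, hE, rfl⟩ := (mem_edgesF e).1 he
    rw [cxb_filter_pair] at hc
    exact ⟨x, y, hE.1, hc, rfl⟩
  · rintro ⟨x, y, hxy, hc, rfl⟩
    refine ⟨(mem_edgesF _).2 ⟨x, y, (edge_iff x y).2 ⟨hxy, by rw [hc]; norm_num⟩, rfl⟩, ?_⟩
    rw [cxb_filter_pair]
    exact hc

theorem adjT.symm {t t' : Finset V} (h : adjT T t t') : adjT T t' t := by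
  obtain ⟨h1, h2, h3, x, y, hxy, a, b, c, d⟩ := h
  exact ⟨h2, h1, h3.symm, x, y, hxy, c, d, a, b⟩

theorem adjT_inter (h : Surf T) {t t' : Finset V} (ht : adjT T t t') : (t ∩ t').card = 2 := by
  obtain ⟨h1, h2, h3, x, y, hxy, a, b, c, d⟩ := ht
  have e1 := h.card3 t h1
  have e2 := h.card3 t' h2
  have hge : 2 ≤ (t ∩ t').card := by
    rw [← Finset.card_pair hxy]
    refine Finset.card_le_card ?_
    rw [Finset.insert_subset_iff, Finset.singleton_subset_iff]
    exact ⟨Finset.mem_inter.2 ⟨a, c⟩, Finset.mem_inter.2 ⟨b, d⟩⟩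
  have hle : (t ∩ t').card ≤ 3 := e1 ▸ Finset.card_le_card Finset.inter_subset_left
  rcases Nat.lt_or_ge (t ∩ t').card 3 with hlt | hge3
  · omega
  · exfalso
    have i1 : t ∩ t' = t := Finset.eq_of_subset_of_card_le Finset.inter_subset_left (by omega)
    have i2 : t ∩ t' = t' := Finset.eq_of_subset_of_card_le Finset.inter_subset_right (by omega)
    exact h3 (i1.symm.trans i2)

theorem adjT_pair (h : Surf T) {t t' : Finset V} (ht : adjT T t t') {x y : V} (hxy : x ≠ y)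
    (hx : x ∈ t) (hy : y ∈ t) (hx' : x ∈ t') (hy' : y ∈ t') :
    ecount T x y = 2 ∧ ∀ s ∈ T, x ∈ s → y ∈ s → s = t ∨ s = t' := by
  obtain ⟨h1, h2, h3, -⟩ := ht
  have hsub : ({t, t'} : Finset (Finset V)) ⊆ T.filter fun t => x ∈ t ∧ y ∈ t := by
    rw [Finset.insert_subset_iff, Finset.singleton_subset_iff]
    exact ⟨Finset.mem_filter.2 ⟨h1, hx, hy⟩, Finset.mem_filter.2 ⟨h2, hx', hy'⟩⟩
  have hc : ({t, t'} : Finset (Finset V)).card = 2 := Finset.card_pair h3
  have hle : (T.filter fun t => x ∈ t ∧ y ∈ t).card ≤ 2 := h.le2 x y hxy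
  have heq := Finset.eq_of_subset_of_card_le hsub (by omega)
  refine ⟨?_, fun s hs hxs hys => ?_⟩
  · unfold ecount
    rw [← heq, hc]
  · have : s ∈ T.filter fun t => x ∈ t ∧ y ∈ t := Finset.mem_filter.2 ⟨hs, hxs, hys⟩
    rw [← heq] at this
    simpa using this

/-- adjacent triangles at `v` share an edge at `v` -/
theorem adjT_at (h : Surf T) {t t' : Finset V} (ht : adjT T t t') {v : V} (hv : v ∈ t) (hv' : v ∈ t') :
    ∃ y, y ≠ v ∧ y ∈ t ∧ y ∈ t' := by
  have hc := adjT_inter h ht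
  obtain ⟨y, hy, hne⟩ := Finset.exists_mem_ne (s := t ∩ t') (by omega) v
  obtain ⟨h1, h2⟩ := Finset.mem_inter.1 hy
  exact ⟨y, hne, h1, h2⟩

theorem ecount_two {x y : V} (hxy : x ≠ y) (h : ecount T x y = 2) :
    ∃ t t', adjT T t t' ∧ x ∈ t ∧ y ∈ t ∧ x ∈ t' ∧ y ∈ t' := by
  obtain ⟨t, t', hne, heq⟩ := Finset.card_eq_two.1 h
  have h1 : t ∈ T.filter fun t => x ∈ t ∧ y ∈ t := by rw [heq]; simp
  have h2 : t' ∈ T.filter fun t => x ∈ t ∧ y ∈ t := by rw [heq]; simp
  obtain ⟨a1, a2, a3⟩ := Finset.mem_filter.1 h1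
  obtain ⟨b1, b2, b3⟩ := Finset.mem_filter.1 h2
  exact ⟨t, t', ⟨a1, b1, hne, x, y, hxy, a2, a3, b2, b3⟩, a2, a3, b2, b3⟩

/-- the triangle on the other side of an edge -/
theorem other (h : Surf T) {t : Finset V} (ht : t ∈ T) {x y : V} (hxy : x ≠ y) (hx : x ∈ t) (hy : y ∈ t)
    (h2 : ecount T x y = 2) : ∃ t', adjT T t t' ∧ x ∈ t' ∧ y ∈ t' := by
  have _ := h
  obtain ⟨t', ht', hne⟩ := Finset.exists_mem_ne (s := T.filter fun t => x ∈ t ∧ y ∈ t)
    (by unfold ecount at h2; omega) t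
  obtain ⟨b1, b2, b3⟩ := Finset.mem_filter.1 ht'
  exact ⟨t', ⟨ht, b1, hne.symm, x, y, hxy, hx, hy, b2, b3⟩, b2, b3⟩

theorem star_sum (h : Surf T) (v : V) :
    ∑ y ∈ nbrs T v, ecount T v y = 2 * (T.filter fun t => v ∈ t).card := by
  have h1 : ∀ y ∈ nbrs T v, ecount T v y = ((T.filter fun t => v ∈ t).filter fun t => y ∈ t).card := by
    intro y _
    unfold ecount
    rw [Finset.filter_filter]
  rw [Finset.sum_congr rfl h1]
  have h2 := Finset.sum_card_bipartiteAbove_eq_sum_card_bipartiteBelow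
    (s := nbrs T v) (t := T.filter fun t => v ∈ t) (fun (y : V) (t : Finset V) => y ∈ t)
  have h3 : ∀ t ∈ T.filter (fun t => v ∈ t),
      (Finset.bipartiteBelow (fun (y : V) (t : Finset V) => y ∈ t) (nbrs T v) t).card = 2 := by
    intro t ht
    obtain ⟨ht, hv⟩ := Finset.mem_filter.1 ht
    have e : Finset.bipartiteBelow (fun (y : V) (t : Finset V) => y ∈ t) (nbrs T v) t = t.erase v := by
      ext y
      rw [Finset.mem_bipartiteBelow, mem_nbrs, Finset.mem_erase]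
      constructor
      · rintro ⟨hE, hy⟩
        exact ⟨hE.1.symm, hy⟩
      · rintro ⟨hne, hy⟩
        exact ⟨⟨hne.symm, t, ht, hv, hy⟩, hy⟩
    rw [e, Finset.card_erase_of_mem hv, h.card3 t ht]
  have h4 : ∑ y ∈ nbrs T v, ((T.filter fun t => v ∈ t).filter fun t => y ∈ t).card =
      ∑ t ∈ T.filter (fun t => v ∈ t),
        (Finset.bipartiteBelow (fun (y : V) (t : Finset V) => y ∈ t) (nbrs T v) t).card := h2
  rw [h4, Finset.sum_congr rfl h3, Finset.sum_const, smul_eq_mul, mul_comm]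

/-- the link of a vertex is connected -/
theorem link_conn (h : Surf T) (v : V) (P : V → Prop)
    (hP : ∀ t ∈ T, v ∈ t → ∀ y ∈ t, ∀ z ∈ t, y ≠ v → z ≠ v → P y → P z) (y₀ : V)
    (h0 : Edge T v y₀) (hP0 : P y₀) (z : V) (hz : Edge T v z) : P z := by
  obtain ⟨hne, t, ht, hvt, hyt⟩ := h0
  obtain ⟨hne', t', ht', hvt', hzt⟩ := hz
  have key : ∀ s, Relation.ReflTransGen (fun a b => adjT T a b ∧ v ∈ a ∧ v ∈ b) t s →
      ∀ y ∈ s, y ≠ v → P y := by
    intro s hs
    induction hs with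
    | refl => exact fun y hy hyv => hP t ht hvt y₀ hyt y hy hne.symm hyv hP0
    | tail _ hab ih =>
      obtain ⟨hadj, hva, hvb⟩ := hab
      obtain ⟨x, hxv, hxa, hxb⟩ := adjT_at h hadj hva hvb
      exact fun y hy hyv => hP _ hadj.2.1 hvb x hxb y hy hxv hyv (ih x hxa hxv)
  exact key t' (h.star v t ht t' ht' hvt hvt') z hzt hne'.symm

theorem cxb_third (h : Surf T) {t : Finset V} (ht : t ∈ T) (x y : V) :
    ∃ z ∈ t, z ≠ x ∧ z ≠ y := by
  have hc : ({x, y} : Finset V).card < t.card := by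
    rw [h.card3 t ht]
    exact lt_of_le_of_lt Finset.card_le_two (by norm_num)
  obtain ⟨z, hz, hn⟩ := Finset.exists_mem_notMem_of_card_lt_card hc
  simp only [Finset.mem_insert, Finset.mem_singleton, not_or] at hn
  exact ⟨z, hz, hn.1, hn.2⟩

theorem nbrs_card (h : Surf T) (v : V) (hv : v ∈ VI T) : 3 ≤ (nbrs T v).card := by
  obtain ⟨hvv, h2⟩ := (mem_VI v).1 hv
  obtain ⟨t, ht, hvt⟩ := (mem_verts v).1 hvv
  obtain ⟨y, hy, hyv, -⟩ := cxb_third h ht v v
  have hE : Edge T v y := ⟨hyv.symm, t, ht, hvt, hy⟩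
  obtain ⟨t', hadj, hvt', hyt'⟩ := other h ht hyv.symm hvt hy (h2 y hE)
  obtain ⟨z₁, hz₁, hz₁v, hz₁y⟩ := cxb_third h ht v y
  obtain ⟨z₂, hz₂, hz₂v, hz₂y⟩ := cxb_third h hadj.2.1 v y
  have hne : z₁ ≠ z₂ := by
    rintro rfl
    have hc := adjT_inter h hadj
    have hsub : ({v, y, z₁} : Finset V) ⊆ t ∩ t' := by
      intro w hw
      simp only [Finset.mem_insert, Finset.mem_singleton] at hw
      rcases hw with rfl | rfl | rfl
      · exact Finset.mem_inter.2 ⟨hvt, hvt'⟩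
      · exact Finset.mem_inter.2 ⟨hy, hyt'⟩
      · exact Finset.mem_inter.2 ⟨hz₁, hz₂⟩
    have h3 : ({v, y, z₁} : Finset V).card = 3 :=
      Finset.card_eq_three.2 ⟨v, y, z₁, hyv.symm, hz₁v.symm, hz₁y.symm, rfl⟩
    have := Finset.card_le_card hsub
    omega
  have h3 : ({y, z₁, z₂} : Finset V).card = 3 :=
    Finset.card_eq_three.2 ⟨y, z₁, z₂, hz₁y.symm, hz₂y.symm, hne, rfl⟩
  rw [← h3]
  refine Finset.card_le_card fun w hw => ?_
  simp only [Finset.mem_insert, Finset.mem_singleton] at hw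
  rw [mem_nbrs]
  rcases hw with rfl | rfl | rfl
  · exact hE
  · exact ⟨hz₁v.symm, t, ht, hvt, hz₁⟩
  · exact ⟨hz₂v.symm, t', hadj.2.1, hvt', hz₂⟩

/-- any nonempty set of triangles closed under adjacency is everything -/
theorem conn_closed (h : Surf T) (P : Finset V → Prop) (hP : ∀ t t', adjT T t t' → P t → P t')
    (t₀ : Finset V) (ht₀ : t₀ ∈ T) (h0 : P t₀) (t : Finset V) (ht : t ∈ T) : P t := by
  have h1 := h.conn t₀ ht₀ t ht
  induction h1 with
  | refl => exact h0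
  | tail hab hbc ih => exact hP _ _ hbc (ih hbc.1)

end BSpl
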