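import Mathlib

/-!
# Bivariate splines, module CxDefs: combinatorial triangulations

A triangulation is given by the finite set `T` of its triangles, each a set of three vertices.

`ecount T x y` is the number of triangles containing `x` and `y`; `nbrs T v` the neighbours of `v`; `VI T` the interior vertices
(all edges at `v` lie in two triangles); `edgesF T` all edges and `EI T` the interior edges, as two-element sets.
`adjT T t t'`: `t` and `t'` are two different triangles with a common edge.

`Surf T`: `T` is a connected surface (possibly with boundary). `H1 T`: real cochains which are exact around every vertex are exact.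
`Disc T`: the combinatorial definition of a disc, a connected surface with non-empty boundary and Euler characteristic `1`.
-/

set_option autoImplicit false

namespace BSpl

variable {V : Type} [DecidableEq V]

/-- the number of triangles containing `x` and `y` -/
def ecount (T : Finset (Finset V)) (x y : V) : ℕ := (T.filter fun t => x ∈ t ∧ y ∈ t).card

/-- `x` and `y` are joined by an edge -/
def Edge (T : Finset (Finset V)) (x y : V) : Prop := x ≠ y ∧ ∃ t ∈ T, x ∈ t ∧ y ∈ t

instance (T : Finset (Finset V)) (x y : V) : Decidable (Edge T x y) := by
  unfold Edge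
  infer_instance

/-- the vertices -/
def verts (T : Finset (Finset V)) : Finset V := T.biUnion id

/-- the neighbours of `v` -/
def nbrs (T : Finset (Finset V)) (v : V) : Finset V := (verts T).filter fun y => Edge T v y

/-- the interior vertices: all edges at `v` are in exactly two triangles -/
def VI (T : Finset (Finset V)) : Finset V :=
  (verts T).filter fun v => ∀ y ∈ nbrs T v, ecount T v y = 2

/-- the edges, as two-element sets -/
def edgesF (T : Finset (Finset V)) : Finset (Finset V) := T.biUnion fun t => t.powersetCard 2

/-- the interior edges: those in exactly two triangles -/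
def EI (T : Finset (Finset V)) : Finset (Finset V) :=
  (edgesF T).filter fun e => (T.filter fun t => e ⊆ t).card = 2

/-- adjacent triangles -/
def adjT (T : Finset (Finset V)) (t t' : Finset V) : Prop :=
  t ∈ T ∧ t' ∈ T ∧ t ≠ t' ∧ ∃ x y, x ≠ y ∧ x ∈ t ∧ y ∈ t ∧ x ∈ t' ∧ y ∈ t'

/-- connected surfaces, possibly with boundary -/
structure Surf (T : Finset (Finset V)) : Prop where
  card3 : ∀ t ∈ T, t.card = 3
  le2 : ∀ x y, x ≠ y → ecount T x y ≤ 2
  conn : ∀ t ∈ T, ∀ t' ∈ T, Relation.ReflTransGen (adjT T) t t'
  star : ∀ v, ∀ t ∈ T, ∀ t' ∈ T, v ∈ t → v ∈ t' →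
    Relation.ReflTransGen (fun a b => adjT T a b ∧ v ∈ a ∧ v ∈ b) t t'

/-- cochains which are exact around every vertex -/
def LocEx (T : Finset (Finset V)) (g : Finset V → Finset V → ℝ) : Prop :=
  ∀ v, ∃ φ : Finset V → ℝ, ∀ t t', adjT T t t' → v ∈ t → v ∈ t' → g t t' = φ t - φ t'

/-- cochains which are exact -/
def Ex (T : Finset (Finset V)) (g : Finset V → Finset V → ℝ) : Prop :=
  ∃ φ : Finset V → ℝ, ∀ t t', adjT T t t' → g t t' = φ t - φ t'

def H1 (T : Finset (Finset V)) : Prop := ∀ g, LocEx T g → Ex T g

/-- combinatorial discs -/
structure Disc (T : Finset (Finset V)) : Prop where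
  surf : Surf T
  bdry : ∃ x y, x ≠ y ∧ ecount T x y = 1
  euler : (verts T).card + T.card = (edgesF T).card + 1

end BSpl
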