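import Pool.Agent.BSpl.CxStar

/-!
# Bivariate splines, module CxEuler: a combinatorial disc has trivial first cohomology

PAPER PROOF.  Let `tp tm` be an orientation (`exists_orient`) and for `v ∈ VI T` let `lam v : V → ℝ` be as in `star_cycle`. To a function
`γ : EI T → ℝ` associate the antisymmetric cochain `g` with `g (tp e) (tm e) = γ e`, `g (tm e) (tp e) = - γ e` (an adjacent pair
has exactly one common edge `e = t ∩ t' ∈ EI T`, and `{t, t'} = {tp e, tm e}` by `adjT_pair`). Let `Z` be the space of the functions `γ` whose cochain is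
locally exact. By `star_tree` (automatic for `v ∉ VI T`) and `star_cycle`, `Z` is the kernel of
`d1 : (EI T → ℝ) → (VI T → ℝ)`, `d1 γ v = ∑ y ∈ nbrs T v, lam v y * γ {v, y}`. The exact ones are the image `B` of
`d0 : (T → ℝ) → (EI T → ℝ)`, `d0 φ e = φ (tp e) - φ (tm e)`; `B ⊆ Z` (exact cochains are locally exact). The kernel of `d0` consists of the constants (`conn_closed`),
so `dim B = |T| - 1`.

`d1` is onto: otherwise there is `c : VI T → ℝ`, not `0`, with `∑ v, c v * d1 γ v = 0` for all `γ`. Taking `γ` the indicator of an edge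
`{x, y}`: if both ends are in `VI T`, `c x * lam x y + c y * lam y x = 0`; if only `x` is in `VI T`, `c x * lam x y = 0`. Extend `c` by `0`
to all vertices. Since all values of `lam` are nonzero: if `x y` is an edge, `c x = 0 ↔ c y = 0` (for an edge which is not in
`EI T` both ends are not in `VI T`; all edges at `v ∈ VI T` are in `EI T`). So the property 'the values of `c` at the vertices of `t` are
`0`' passes from a triangle to an adjacent one, and holds for the triangle at a boundary edge (`Disc.bdry`); by `conn_closed` `c = 0`.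

So `dim Z = |EI T| - |VI T|`. By `card_bdry`, `|edgesF T| - |EI T| = |verts T| - |VI T|`, so the Euler relation gives
`|EI T| - |VI T| = |T| - 1 = dim B`, and `Z = B`. If `g` is any locally exact cochain (so antisymmetric on adjacent pairs) then its
`γ e = g (tp e) (tm e)` is in `Z = B`, so `g` is exact.
-/

set_option autoImplicit false

namespace BSpl

variable {V : Type} [DecidableEq V]

theorem cxe_EI_of_edge {T : Finset (Finset V)} {x y : V} (hxy : x ≠ y) (h2 : ecount T x y = 2) :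
    ({x, y} : Finset V) ∈ EI T := (mem_EI _).mpr ⟨x, y, hxy, h2, rfl⟩

/-- the triangles at the common edge of adjacent triangles -/
theorem cxe_pair {T : Finset (Finset V)} (h : Surf T) {tp tm : Finset V → Finset V}
    (ho : Orient T tp tm) {t t' : Finset V} (ht : adjT T t t') :
    t ∩ t' ∈ EI T ∧ ((tp (t ∩ t') = t ∧ tm (t ∩ t') = t') ∨
      (tp (t ∩ t') = t' ∧ tm (t ∩ t') = t)) := by
  obtain ⟨x, y, hxy, he⟩ := Finset.card_eq_two.mp (adjT_inter h ht)
  have hx : x ∈ t ∩ t' := by rw [he]; simp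
  have hy : y ∈ t ∩ t' := by rw [he]; simp
  rw [Finset.mem_inter] at hx hy
  obtain ⟨h2, hs⟩ := adjT_pair h ht hxy hx.1 hy.1 hx.2 hy.2
  have hE : t ∩ t' ∈ EI T := by
    rw [he]
    exact cxe_EI_of_edge hxy h2
  refine ⟨hE, ?_⟩
  have hx' : x ∈ t ∩ t' := Finset.mem_inter.mpr hx
  have hy' : y ∈ t ∩ t' := Finset.mem_inter.mpr hy
  obtain ⟨hpT, hmT, hne, -⟩ := ho.adj _ hE
  have hp := hs _ hpT (ho.sp _ hE hx') (ho.sp _ hE hy')
  have hm := hs _ hmT (ho.sm _ hE hx') (ho.sm _ hE hy')
  rcases hp with hp | hp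
  · rcases hm with hm | hm
    · exact absurd (hp.trans hm.symm) hne
    · exact Or.inl ⟨hp, hm⟩
  · rcases hm with hm | hm
    · exact Or.inr ⟨hp, hm⟩
    · exact absurd (hp.trans hm.symm) hne

theorem cxe_inter {T : Finset (Finset V)} (h : Surf T) {tp tm : Finset V → Finset V}
    (ho : Orient T tp tm) {e : Finset V} (he : e ∈ EI T) : tp e ∩ tm e = e := by
  obtain ⟨x, y, hxy, -, rfl⟩ := (mem_EI _).mp he
  symm
  apply Finset.eq_of_subset_of_card_le
  · exact Finset.subset_inter (ho.sp _ he) (ho.sm _ he)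
  · rw [adjT_inter h (ho.adj _ he), Finset.card_pair hxy]

/-- extension of a function on the interior edges by zero -/
def cxeExt (T : Finset (Finset V)) (γ : {e // e ∈ EI T} → ℝ) (e : Finset V) : ℝ :=
  if he : e ∈ EI T then γ ⟨e, he⟩ else 0

theorem cxeExt_of_mem {T : Finset (Finset V)} (γ : {e // e ∈ EI T} → ℝ) {e : Finset V}
    (he : e ∈ EI T) : cxeExt T γ e = γ ⟨e, he⟩ := dif_pos he

/-- the cochain of a function on the interior edges -/
def cxeG (T : Finset (Finset V)) (tp : Finset V → Finset V) (γ : {e // e ∈ EI T} → ℝ)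
    (t t' : Finset V) : ℝ :=
  if tp (t ∩ t') = t then cxeExt T γ (t ∩ t') else - cxeExt T γ (t ∩ t')

theorem cxeG_edge {T : Finset (Finset V)} (h : Surf T) {tp tm : Finset V → Finset V}
    (ho : Orient T tp tm) (γ : {e // e ∈ EI T} → ℝ) {e : Finset V} (he : e ∈ EI T) :
    cxeG T tp γ (tp e) (tm e) = cxeExt T γ e := by
  unfold cxeG
  rw [cxe_inter h ho he, if_pos rfl]

theorem cxeG_anti {T : Finset (Finset V)} (h : Surf T) {tp tm : Finset V → Finset V}
    (ho : Orient T tp tm) (γ : {e // e ∈ EI T} → ℝ) {t t' : Finset V} (ht : adjT T t t') :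
    cxeG T tp γ t t' = - cxeG T tp γ t' t := by
  obtain ⟨hE, hc⟩ := cxe_pair h ho ht
  have hne : t ≠ t' := ht.2.2.1
  unfold cxeG
  rw [Finset.inter_comm t' t]
  rcases hc with ⟨h1, -⟩ | ⟨h1, -⟩
  · rw [if_pos h1, if_neg, neg_neg]
    rw [h1]
    exact hne
  · rw [if_neg, if_pos h1]
    rw [h1]
    exact hne.symm

/-- an antisymmetric cochain comes from its values on the interior edges -/
theorem cxeG_of {T : Finset (Finset V)} (h : Surf T) {tp tm : Finset V → Finset V}
    (ho : Orient T tp tm) (g : Finset V → Finset V → ℝ)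
    (hg : ∀ t t', adjT T t t' → g t t' = - g t' t) (γ : {e // e ∈ EI T} → ℝ)
    (hγ : ∀ e : {e // e ∈ EI T}, γ e = g (tp e.1) (tm e.1)) {t t' : Finset V}
    (ht : adjT T t t') : cxeG T tp γ t t' = g t t' := by
  obtain ⟨hE, hc⟩ := cxe_pair h ho ht
  have hne : t ≠ t' := ht.2.2.1
  unfold cxeG
  rw [cxeExt_of_mem γ hE, hγ]
  rcases hc with ⟨h1, h2⟩ | ⟨h1, h2⟩
  · rw [if_pos h1]
    simp only [h1, h2]
  · rw [if_neg (by rw [h1]; exact hne.symm)]
    simp only [h1, h2]
    rw [hg t t' ht]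

/-- the star functionals -/
noncomputable def cxeD1 (T : Finset (Finset V)) (lam : V → V → ℝ) :
    ({e // e ∈ EI T} → ℝ) →ₗ[ℝ] ({v // v ∈ VI T} → ℝ) where
  toFun γ v := ∑ y ∈ nbrs T v.1, lam v.1 y * cxeExt T γ {v.1, y}
  map_add' γ γ' := by
    funext v
    simp only [Pi.add_apply]
    rw [← Finset.sum_add_distrib]
    refine Finset.sum_congr rfl fun y _ => ?_
    unfold cxeExt
    split_ifs
    · simp only [Pi.add_apply]
      ring
    · ring
  map_smul' a γ := by
    funext v
    simp only [Pi.smul_apply, smul_eq_mul, RingHom.id_apply]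
    rw [Finset.mul_sum]
    refine Finset.sum_congr rfl fun y _ => ?_
    unfold cxeExt
    split_ifs
    · simp only [Pi.smul_apply, smul_eq_mul]
      ring
    · ring

/-- differences of functions on the triangles -/
noncomputable def cxeD0 (T : Finset (Finset V)) (tp tm : Finset V → Finset V)
    (ho : Orient T tp tm) : ({t // t ∈ T} → ℝ) →ₗ[ℝ] ({e // e ∈ EI T} → ℝ) where
  toFun φ e := φ ⟨tp e.1, (ho.adj e.1 e.2).1⟩ - φ ⟨tm e.1, (ho.adj e.1 e.2).2.1⟩
  map_add' φ φ' := by
    funext e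
    simp only [Pi.add_apply]
    ring
  map_smul' a φ := by
    funext e
    simp only [Pi.smul_apply, smul_eq_mul, RingHom.id_apply]
    ring

/-- the properties of the coefficients of the star functionals -/
def cxeLam (T : Finset (Finset V)) (tp tm : Finset V → Finset V) (lam : V → V → ℝ) : Prop :=
  (∀ v y, lam v y ≠ 0) ∧ ∀ v ∈ VI T,
    ∀ g : Finset V → Finset V → ℝ, (∀ t t', adjT T t t' → g t t' = - g t' t) →
      ((∃ φ : Finset V → ℝ, ∀ t t', adjT T t t' → v ∈ t → v ∈ t' → g t t' = φ t - φ t') ↔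
        ∑ y ∈ nbrs T v, lam v y * g (tp {v, y}) (tm {v, y}) = 0)

theorem cxeLam_exists {T : Finset (Finset V)} (h : Surf T) {tp tm : Finset V → Finset V}
    (ho : Orient T tp tm) : ∃ lam, cxeLam T tp tm lam := by
  classical
  have h1 : ∀ v : V, ∃ l : V → ℝ, (∀ y, l y ≠ 0) ∧ (v ∈ VI T →
      ∀ g : Finset V → Finset V → ℝ, (∀ t t', adjT T t t' → g t t' = - g t' t) →
        ((∃ φ : Finset V → ℝ, ∀ t t', adjT T t t' → v ∈ t → v ∈ t' → g t t' = φ t - φ t') ↔
          ∑ y ∈ nbrs T v, l y * g (tp {v, y}) (tm {v, y}) = 0)) := by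
    intro v
    by_cases hv : v ∈ VI T
    · obtain ⟨l, hl, hl2⟩ := star_cycle h tp tm ho v hv
      exact ⟨l, hl, fun _ => hl2⟩
    · exact ⟨fun _ => 1, fun _ => one_ne_zero, fun h => absurd h hv⟩
  choose lam hlam1 hlam2 using h1
  exact ⟨lam, hlam1, hlam2⟩

theorem cxe_VI_EI {T : Finset (Finset V)} {v y : V} (hv : v ∈ VI T) (hy : y ∈ nbrs T v) :
    ({v, y} : Finset V) ∈ EI T := by
  rw [mem_nbrs] at hy
  exact cxe_EI_of_edge hy.1 (((mem_VI v).mp hv).2 y hy)

theorem cxe_loc_iff {T : Finset (Finset V)} (h : Surf T) {tp tm : Finset V → Finset V}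
    (ho : Orient T tp tm) {lam : V → V → ℝ} (hlam : cxeLam T tp tm lam)
    (γ : {e // e ∈ EI T} → ℝ) : LocEx T (cxeG T tp γ) ↔ cxeD1 T lam γ = 0 := by
  have hsum : ∀ v ∈ VI T, ∑ y ∈ nbrs T v, lam v y * cxeG T tp γ (tp {v, y}) (tm {v, y}) =
      ∑ y ∈ nbrs T v, lam v y * cxeExt T γ {v, y} := by
    intro v hv
    refine Finset.sum_congr rfl fun y hy => ?_
    rw [cxeG_edge h ho γ (cxe_VI_EI hv hy)]
  constructor
  · intro hloc
    funext v
    have h1 := (hlam.2 v.1 v.2 (cxeG T tp γ) (fun t t' ht => cxeG_anti h ho γ ht)).mp (hloc v.1)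
    rw [hsum v.1 v.2] at h1
    exact h1
  · intro h0 v
    by_cases hv : v ∈ VI T
    · refine (hlam.2 v hv (cxeG T tp γ) (fun t t' ht => cxeG_anti h ho γ ht)).mpr ?_
      rw [hsum v hv]
      exact congrFun h0 ⟨v, hv⟩
    · exact star_tree h v hv _ (fun t t' ht => cxeG_anti h ho γ ht)

theorem cxe_range_le {T : Finset (Finset V)} (h : Surf T) {tp tm : Finset V → Finset V}
    (ho : Orient T tp tm) {lam : V → V → ℝ} (hlam : cxeLam T tp tm lam) :
    LinearMap.range (cxeD0 T tp tm ho) ≤ LinearMap.ker (cxeD1 T lam) := by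
  classical
  rintro γ ⟨φ, rfl⟩
  rw [LinearMap.mem_ker, ← cxe_loc_iff h ho hlam]
  intro v
  refine ⟨fun t => if ht : t ∈ T then φ ⟨t, ht⟩ else 0, fun t t' ht _ _ => ?_⟩
  have h1 := cxeG_of h ho (fun t t' => (if ht : t ∈ T then φ ⟨t, ht⟩ else 0) -
    (if ht : t' ∈ T then φ ⟨t', ht⟩ else 0)) (fun t t' _ => by ring)
    (cxeD0 T tp tm ho φ) (fun e => by
      rw [dif_pos (ho.adj e.1 e.2).1, dif_pos (ho.adj e.1 e.2).2.1]
      rfl) ht
  exact h1

theorem cxe_ker_D0 {T : Finset (Finset V)} (h : Surf T) {tp tm : Finset V → Finset V}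
    (ho : Orient T tp tm) (hne : T.Nonempty) :
    Module.finrank ℝ (LinearMap.ker (cxeD0 T tp tm ho)) ≤ 1 := by
  classical
  obtain ⟨t₀, ht₀⟩ := hne
  have hle : LinearMap.ker (cxeD0 T tp tm ho) ≤
      Submodule.span ℝ {(fun _ => 1 : {t // t ∈ T} → ℝ)} := by
    intro φ hφ
    rw [LinearMap.mem_ker] at hφ
    rw [Submodule.mem_span_singleton]
    refine ⟨φ ⟨t₀, ht₀⟩, ?_⟩
    funext t
    simp only [Pi.smul_apply, smul_eq_mul, mul_one]
    have hcl := conn_closed h (fun t => ∀ ht : t ∈ T, φ ⟨t, ht⟩ = φ ⟨t₀, ht₀⟩) (by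
      intro a b hab hPa hb
      have ha : a ∈ T := hab.1
      obtain ⟨hE, hc⟩ := cxe_pair h ho hab
      have h1 := congrFun hφ ⟨a ∩ b, hE⟩
      have h2 : φ ⟨tp (a ∩ b), (ho.adj _ hE).1⟩ - φ ⟨tm (a ∩ b), (ho.adj _ hE).2.1⟩ = 0 := h1
      have h3 : φ ⟨a, ha⟩ = φ ⟨b, hb⟩ := by
        rcases hc with ⟨h4, h5⟩ | ⟨h4, h5⟩
        · simp only [h4, h5] at h2
          linarith
        · simp only [h4, h5] at h2
          linarith
      rw [← h3]
      exact hPa ha) t₀ ht₀ (fun _ => rfl) t.1 t.2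
    exact (hcl t.2).symm
  calc Module.finrank ℝ (LinearMap.ker (cxeD0 T tp tm ho))
      ≤ Module.finrank ℝ (Submodule.span ℝ {(fun _ => 1 : {t // t ∈ T} → ℝ)}) :=
        Submodule.finrank_mono hle
    _ ≤ 1 := by
        refine (finrank_span_le_card _).trans ?_
        simp

theorem cxe_edge_zero {T : Finset (Finset V)} (h : Surf T) (c : V → ℝ)
    {lam : V → V → ℝ} (hlam : ∀ v y, lam v y ≠ 0) (hc : ∀ v, v ∉ VI T → c v = 0)
    (hrel : ∀ x y, x ≠ y → ecount T x y = 2 → c x * lam x y + c y * lam y x = 0)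
    {x y : V} (hxy : Edge T x y) (hx : c x = 0) : c y = 0 := by
  have h1 := ((edge_iff x y).mp hxy).2
  have h2 := h.le2 x y hxy.1
  by_cases h3 : ecount T x y = 2
  · have h4 := hrel x y hxy.1 h3
    rw [hx, zero_mul, zero_add] at h4
    rcases mul_eq_zero.mp h4 with h5 | h5
    · exact h5
    · exact absurd h5 (hlam y x)
  · have h4 : ecount T x y = 1 := by omega
    exact hc y (not_VI_of_ecount hxy.1 h4).2.2.2

theorem cxe_zero {T : Finset (Finset V)} (h : Disc T) (c : V → ℝ)
    {lam : V → V → ℝ} (hlam : ∀ v y, lam v y ≠ 0) (hc : ∀ v, v ∉ VI T → c v = 0)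
    (hrel : ∀ x y, x ≠ y → ecount T x y = 2 → c x * lam x y + c y * lam y x = 0)
    (v : V) (hv : v ∈ VI T) : c v = 0 := by
  obtain ⟨x, y, hxy, h1⟩ := h.bdry
  have hcx : c x = 0 := hc x (not_VI_of_ecount hxy h1).2.2.1
  obtain ⟨t₀, ht₀⟩ : (T.filter fun t => x ∈ t ∧ y ∈ t).Nonempty := by
    rw [← Finset.card_pos]
    unfold ecount at h1
    omega
  rw [Finset.mem_filter] at ht₀
  have hstep : ∀ t ∈ T, ∀ a ∈ t, c a = 0 → ∀ b ∈ t, c b = 0 := by
    intro t ht a ha h0 b hb
    by_cases hab : a = b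
    · rw [← hab]; exact h0
    · exact cxe_edge_zero h.surf c hlam hc hrel ⟨hab, t, ht, ha, hb⟩ h0
  obtain ⟨t, ht, hvt⟩ := (mem_verts v).mp ((mem_VI v).mp hv).1
  have hcl := conn_closed h.surf (fun t => t ∈ T → ∀ b ∈ t, c b = 0) (by
    intro a b hab hPa hb
    obtain ⟨z, w, -, hz, -, hz', -⟩ := hab.2.2.2
    exact hstep b hb z hz' (hPa hab.1 z hz)) t₀ ht₀.1
    (fun _ => hstep t₀ ht₀.1 x ht₀.2.1 hcx) t ht
  exact hcl ht v hvt

theorem cxe_indicator {T : Finset (Finset V)} (lam : V → V → ℝ) {x y : V}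
    (hxy : x ≠ y) (h2 : ecount T x y = 2) (hE : ({x, y} : Finset V) ∈ EI T) (v : V) :
    ∑ z ∈ nbrs T v, lam v z * cxeExt T (Pi.single ⟨{x, y}, hE⟩ 1) {v, z} =
      if v = x then lam x y else if v = y then lam y x else 0 := by
  have hval : ∀ e : Finset V, cxeExt T (Pi.single ⟨{x, y}, hE⟩ 1) e =
      if e = {x, y} then 1 else 0 := by
    intro e
    by_cases he : e = {x, y}
    · subst he
      rw [cxeExt_of_mem _ hE, if_pos rfl, Pi.single_eq_same]
    · rw [if_neg he]
      unfold cxeExt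
      split_ifs with h
      · rw [Pi.single_eq_of_ne]
        intro h3
        exact he (congrArg Subtype.val h3)
      · rfl
  simp only [hval]
  have hed : Edge T x y := (edge_iff x y).mpr ⟨hxy, by omega⟩
  split_ifs with h1 h3
  · subst h1
    rw [Finset.sum_eq_single y]
    · rw [if_pos rfl, mul_one]
    · intro z hz hzy
      rw [if_neg, mul_zero]
      intro h4
      have h5 : z ∈ ({v, y} : Finset V) := by rw [← h4]; simp
      rw [Finset.mem_insert, Finset.mem_singleton] at h5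
      rw [mem_nbrs] at hz
      rcases h5 with h5 | h5
      · exact hz.1 h5.symm
      · exact hzy h5
    · intro h4
      exact absurd ((mem_nbrs _ _).mpr hed) h4
  · subst h3
    rw [Finset.sum_eq_single x]
    · rw [if_pos (Finset.pair_comm _ _), mul_one]
    · intro z hz hzx
      rw [if_neg, mul_zero]
      intro h4
      have h5 : z ∈ ({x, v} : Finset V) := by rw [← h4]; simp
      rw [Finset.mem_insert, Finset.mem_singleton] at h5
      rw [mem_nbrs] at hz
      rcases h5 with h5 | h5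
      · exact hzx h5
      · exact hz.1 h5.symm
    · intro h4
      exact absurd ((mem_nbrs _ _).mpr hed.symm) h4
  · refine Finset.sum_eq_zero fun z _ => ?_
    rw [if_neg, mul_zero]
    intro h4
    have h5 : v ∈ ({x, y} : Finset V) := by rw [← h4]; simp
    rw [Finset.mem_insert, Finset.mem_singleton] at h5
    rcases h5 with h5 | h5
    · exact h1 h5
    · exact h3 h5

theorem cxe_surj {T : Finset (Finset V)} (h : Disc T)
    {lam : V → V → ℝ} (hlam : ∀ v y, lam v y ≠ 0) :
    LinearMap.range (cxeD1 T lam) = ⊤ := by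
  classical
  by_contra hne
  obtain ⟨f, hf0, hf⟩ := Submodule.exists_le_ker_of_lt_top _ (lt_top_iff_ne_top.mpr hne)
  obtain ⟨c, hc⟩ : ∃ c : V → ℝ, c = fun v => if hv : v ∈ VI T then f (Pi.single ⟨v, hv⟩ 1) else 0 :=
    ⟨_, rfl⟩
  have hfc : ∀ w : V → ℝ, f (fun v => w v.1) = ∑ v ∈ VI T, w v * c v := by
    intro w
    rw [LinearMap.pi_apply_eq_sum_univ f (fun v => w v.1)]
    refine Eq.trans ?_ (Finset.sum_coe_sort (VI T) (fun v => w v * c v))
    refine Finset.sum_congr rfl fun v _ => ?_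
    rw [smul_eq_mul, hc]
    simp only
    rw [dif_pos v.2]
    congr 2
    funext j
    by_cases hj : v = j
    · subst hj
      rw [if_pos rfl, Pi.single_eq_same]
    · rw [if_neg hj, Pi.single_eq_of_ne (Ne.symm hj)]
  have hc0 : ∀ v, v ∉ VI T → c v = 0 := by
    intro v hv
    rw [hc]
    exact dif_neg hv
  have hrel : ∀ x y, x ≠ y → ecount T x y = 2 → c x * lam x y + c y * lam y x = 0 := by
    intro x y hxy h2
    have hE : ({x, y} : Finset V) ∈ EI T := cxe_EI_of_edge hxy h2
    have h1 : f (cxeD1 T lam (Pi.single ⟨{x, y}, hE⟩ 1)) = 0 :=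
      hf ⟨_, rfl⟩
    have h3 : cxeD1 T lam (Pi.single ⟨{x, y}, hE⟩ 1) =
        fun v : {v // v ∈ VI T} => (fun v : V => if v = x then lam x y else
          if v = y then lam y x else 0) v.1 := by
      funext v
      exact cxe_indicator lam hxy h2 hE v.1
    rw [h3] at h1
    replace h1 := (hfc (fun v : V => if v = x then lam x y else
      if v = y then lam y x else 0)).symm.trans h1
    have h4 : ∑ v ∈ VI T, (if v = x then lam x y else if v = y then lam y x else 0) * c v =
        ∑ v ∈ VI T ∪ {x, y}, (if v = x then lam x y else if v = y then lam y x else 0) * c v := by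
      refine Finset.sum_subset Finset.subset_union_left fun v _ hv => ?_
      rw [hc0 v hv, mul_zero]
    have h5 : ∑ v ∈ ({x, y} : Finset V),
        (if v = x then lam x y else if v = y then lam y x else 0) * c v =
        ∑ v ∈ VI T ∪ {x, y}, (if v = x then lam x y else if v = y then lam y x else 0) * c v := by
      refine Finset.sum_subset Finset.subset_union_right fun v _ hv => ?_
      rw [Finset.mem_insert, Finset.mem_singleton, not_or] at hv
      rw [if_neg hv.1, if_neg hv.2, zero_mul]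
    rw [h4, ← h5, Finset.sum_pair hxy, if_pos rfl, if_neg hxy.symm, if_pos rfl] at h1
    linarith
  have hzero := cxe_zero h c hlam hc0 hrel
  apply hf0
  apply LinearMap.ext
  intro w
  have h1 := hfc (fun v => if hv : v ∈ VI T then w ⟨v, hv⟩ else 0)
  have h2 : (fun v : {v // v ∈ VI T} => (fun v => if hv : v ∈ VI T then w ⟨v, hv⟩ else 0) v.1) = w := by
    funext v
    exact dif_pos v.2
  rw [h2] at h1
  rw [h1, LinearMap.zero_apply]
  refine Finset.sum_eq_zero fun v hv => ?_
  rw [hzero v hv, mul_zero]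

theorem cxe_count {T : Finset (Finset V)} (h : Disc T) :
    (EI T).card + 1 = (VI T).card + T.card := by
  have h1 := card_bdry h.surf
  have h2 : EI T ⊆ edgesF T := Finset.filter_subset _ _
  have h3 : VI T ⊆ verts T := Finset.filter_subset _ _
  rw [Finset.card_sdiff_of_subset h2, Finset.card_sdiff_of_subset h3] at h1
  have h4 := Finset.card_le_card h2
  have h5 := Finset.card_le_card h3
  have h6 := h.euler
  omega

theorem H1_of_disc (T : Finset (Finset V)) (h : Disc T) : H1 T := by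
  classical
  obtain ⟨tp, tm, ho⟩ := exists_orient T
  obtain ⟨lam, hlam⟩ := cxeLam_exists h.surf ho
  have hne : T.Nonempty := by
    obtain ⟨x, y, hxy, h1⟩ := h.bdry
    obtain ⟨t₀, ht₀⟩ : (T.filter fun t => x ∈ t ∧ y ∈ t).Nonempty := by
      rw [← Finset.card_pos]
      unfold ecount at h1
      omega
    exact ⟨t₀, (Finset.mem_filter.mp ht₀).1⟩
  have hle := cxe_range_le h.surf ho hlam
  have hr0 := LinearMap.finrank_range_add_finrank_ker (cxeD0 T tp tm ho)
  have hr1 := LinearMap.finrank_range_add_finrank_ker (cxeD1 T lam)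
  rw [cxe_surj h hlam.1, finrank_top, Module.finrank_fintype_fun_eq_card,
    Module.finrank_fintype_fun_eq_card, Fintype.card_coe, Fintype.card_coe] at hr1
  rw [Module.finrank_fintype_fun_eq_card, Fintype.card_coe] at hr0
  have hk := cxe_ker_D0 h.surf ho hne
  have hcnt := cxe_count h
  have heq : LinearMap.range (cxeD0 T tp tm ho) = LinearMap.ker (cxeD1 T lam) := by
    refine Submodule.eq_of_le_of_finrank_le hle ?_
    omega
  intro g hloc
  have hanti : ∀ t t', adjT T t t' → g t t' = - g t' t := by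
    intro t t' ht
    obtain ⟨x, y, -, hx, -, hx', -⟩ := ht.2.2.2
    obtain ⟨φ, hφ⟩ := hloc x
    rw [hφ t t' ht hx hx', hφ t' t ht.symm hx' hx]
    ring
  obtain ⟨γ, hγ⟩ : ∃ γ : {e // e ∈ EI T} → ℝ, ∀ e, γ e = g (tp e.1) (tm e.1) :=
    ⟨fun e => g (tp e.1) (tm e.1), fun _ => rfl⟩
  have hG : ∀ t t', adjT T t t' → cxeG T tp γ t t' = g t t' :=
    fun t t' ht => cxeG_of h.surf ho g hanti γ hγ ht
  have hker : γ ∈ LinearMap.ker (cxeD1 T lam) := by
    rw [LinearMap.mem_ker, ← cxe_loc_iff h.surf ho hlam]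
    intro v
    obtain ⟨φ, hφ⟩ := hloc v
    exact ⟨φ, fun t t' ht hv hv' => by rw [hG t t' ht, hφ t t' ht hv hv']⟩
  rw [← heq] at hker
  obtain ⟨φ, hφ⟩ := hker
  refine ⟨fun t => if ht : t ∈ T then φ ⟨t, ht⟩ else 0, fun t t' ht => ?_⟩
  rw [← hG t t' ht]
  exact cxeG_of h.surf ho (fun t t' => (if ht : t ∈ T then φ ⟨t, ht⟩ else 0) -
    (if ht : t' ∈ T then φ ⟨t', ht⟩ else 0)) (fun t t' _ => by ring)
    γ (fun e => by
      rw [dif_pos (ho.adj e.1 e.2).1, dif_pos (ho.adj e.1 e.2).2.1, ← hφ]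
      rfl) ht

end BSpl
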