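import Mathlib

set_option autoImplicit false

/-!
# Bivariate splines, module CxGraph: potentials on finite graphs

A finite graph is given by a finite set `S` and an irreflexive symmetric relation `R`; `prs S R` is the set of ordered adjacent
pairs (twice the number of edges).

PAPER PROOFS.  Consider the linear map `D : (S → ℝ) → (antisymmetric functions on prs S R)`, `D φ (a, b) = φ a - φ b`. For a connected
graph its kernel consists of the constants, so its rank is `|S| - 1`; the space of antisymmetric functions on `prs S R` has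
dimension `|prs S R| / 2` (choose one pair from each orbit of the swap; an alternative is to embed everything in functions
on a set of representatives `E` of edges: for instance fix an injective function `A → ℕ` on `S`, or an arbitrary linear order on
`S`, and let `E` be the pairs `(a, b)` with `a < b`, `|prs S R| = 2 |E|`).

`conn_count`: rank `≤` dimension of the target: `|S| - 1 ≤ |E|`.
`tree_exact`: if `|E| ≤ |S| - 1` the map `D` is onto.
`cycle_exact`: if the graph is connected and all degrees are `2` then `|E| = |S|`, so the range of `D` has codimension `1` in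
`E → ℝ`: it is the kernel of a nonzero functional `lam : E → ℝ`. Extend `lam` antisymmetrically. For a vertex `a` with the two neighbours
`b`, `c`: `D (indicator of a)` is in the range, so `± lam (ab) ± lam (ac) = 0`, `|lam (ab)| = |lam (ac)|`; by connectivity `|lam|` is constant on
the edges, and it is not `0`.  (The sum over ordered pairs in the statement is twice the sum over `E`, as both factors are
antisymmetric.)
-/

namespace BSpl

open Classical in
/-- ordered adjacent pairs -/
noncomputable def prs {A : Type} (S : Finset A) (R : A → A → Prop) : Finset (A × A) :=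
  (S ×ˢ S).filter fun p => R p.1 p.2

/-- connectedness of the graph on `S` -/
def GConn {A : Type} (S : Finset A) (R : A → A → Prop) : Prop :=
  ∀ a ∈ S, ∀ b ∈ S, Relation.ReflTransGen (fun x y => R x y ∧ x ∈ S ∧ y ∈ S) a b

namespace CxGraphAux

theorem mem_prs {A : Type} {S : Finset A} {R : A → A → Prop} {p : A × A} :
    p ∈ prs S R ↔ (p.1 ∈ S ∧ p.2 ∈ S) ∧ R p.1 p.2 := by
  classical
  simp [prs]

section order

variable {A : Type} [LinearOrder A] (S : Finset A) (R : A → A → Prop)

/-- the edges, oriented by the order -/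
noncomputable def EE : Finset (A × A) := (prs S R).filter fun p => p.1 < p.2

variable {S R}

theorem mem_EE {p : A × A} : p ∈ EE S R ↔ ((p.1 ∈ S ∧ p.2 ∈ S) ∧ R p.1 p.2) ∧ p.1 < p.2 := by
  unfold EE
  rw [Finset.mem_filter, mem_prs]

theorem sum_prs (hirr : ∀ a, ¬ R a a) (hsym : ∀ a b, R a b → R b a) {M : Type}
    [AddCommMonoid M] (F : A × A → M) (hF : ∀ a b, a ∈ S → b ∈ S → R a b → F (b, a) = F (a, b)) :
    ∑ p ∈ prs S R, F p = ∑ p ∈ EE S R, F p + ∑ p ∈ EE S R, F p := by
  rw [← Finset.sum_filter_add_sum_filter_not (prs S R) (fun p => p.1 < p.2)]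
  congr 1
  refine Finset.sum_nbij' Prod.swap Prod.swap ?_ ?_ ?_ ?_ ?_
  · intro p hp
    rw [Finset.mem_filter, mem_prs] at hp
    rw [mem_EE]
    refine ⟨⟨⟨hp.1.1.2, hp.1.1.1⟩, hsym _ _ hp.1.2⟩, ?_⟩
    have hne : p.1 ≠ p.2 := fun h => hirr p.1 (by
      have := hp.1.2
      rw [← h] at this
      exact this)
    exact lt_of_le_of_ne (not_lt.1 hp.2) (Ne.symm hne)
  · intro p hp
    rw [mem_EE] at hp
    rw [Finset.mem_filter, mem_prs]
    exact ⟨⟨⟨hp.1.1.2, hp.1.1.1⟩, hsym _ _ hp.1.2⟩, not_lt.2 hp.2.le⟩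
  · intro p _
    rfl
  · intro p _
    rfl
  · intro p hp
    rw [Finset.mem_filter, mem_prs] at hp
    exact (hF p.1 p.2 hp.1.1.1 hp.1.1.2 hp.1.2).symm

theorem card_prs (hirr : ∀ a, ¬ R a a) (hsym : ∀ a b, R a b → R b a) :
    (prs S R).card = 2 * (EE S R).card := by
  rw [Finset.card_eq_sum_ones, Finset.card_eq_sum_ones, sum_prs hirr hsym (fun _ => 1)
    (fun _ _ _ _ _ => rfl)]
  ring

variable (S R)

/-- the coboundary -/
noncomputable def DM : ({x // x ∈ S} → ℝ) →ₗ[ℝ] ({e // e ∈ EE S R} → ℝ) where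
  toFun φ e := φ ⟨e.1.1, (mem_EE.1 e.2).1.1.1⟩ - φ ⟨e.1.2, (mem_EE.1 e.2).1.1.2⟩
  map_add' := by
    intro φ ψ
    funext e
    simp only [Pi.add_apply]
    ring
  map_smul' := by
    intro t φ
    funext e
    simp only [Pi.smul_apply, smul_eq_mul, RingHom.id_apply]
    ring

variable {S R}

theorem ker_const (hirr : ∀ a, ¬ R a a) (hsym : ∀ a b, R a b → R b a) (hconn : GConn S R)
    {φ : {x // x ∈ S} → ℝ} (h : DM S R φ = 0) (a b : {x // x ∈ S}) : φ a = φ b := by
  have step : ∀ x y : {x // x ∈ S}, R x.1 y.1 → φ x = φ y := by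
    intro x y hxy
    rcases lt_trichotomy x.1 y.1 with h1 | h1 | h1
    · have := congrFun h ⟨(x.1, y.1), mem_EE.2 ⟨⟨⟨x.2, y.2⟩, hxy⟩, h1⟩⟩
      exact sub_eq_zero.1 this
    · exact absurd (h1 ▸ hxy : R y.1 y.1) (hirr _)
    · have := congrFun h ⟨(y.1, x.1), mem_EE.2 ⟨⟨⟨y.2, x.2⟩, hsym _ _ hxy⟩, h1⟩⟩
      exact (sub_eq_zero.1 this).symm
  have key : ∀ c : A, Relation.ReflTransGen (fun x y => R x y ∧ x ∈ S ∧ y ∈ S) a.1 c →
      ∀ hc : c ∈ S, φ a = φ ⟨c, hc⟩ := by
    intro c hc
    induction hc with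
    | refl => intro _; rfl
    | tail _ h2 ih => intro hc'; rw [ih h2.2.1]; exact step ⟨_, h2.2.1⟩ ⟨_, hc'⟩ h2.1
  exact key b.1 (hconn a.1 a.2 b.1 b.2) b.2

theorem finrank_ker (hirr : ∀ a, ¬ R a a) (hsym : ∀ a b, R a b → R b a) (hconn : GConn S R)
    (hne : S.Nonempty) : Module.finrank ℝ (LinearMap.ker (DM S R)) = 1 := by
  obtain ⟨a, ha⟩ := hne
  have e : LinearMap.ker (DM S R) = Submodule.span ℝ {fun _ => (1 : ℝ)} := by
    apply le_antisymm
    · intro φ hφ
      rw [LinearMap.mem_ker] at hφ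
      rw [Submodule.mem_span_singleton]
      refine ⟨φ ⟨a, ha⟩, ?_⟩
      funext x
      rw [Pi.smul_apply, smul_eq_mul, mul_one]
      exact ker_const hirr hsym hconn hφ _ _
    · rw [Submodule.span_singleton_le_iff_mem, LinearMap.mem_ker]
      funext e
      show (1 : ℝ) - 1 = 0
      ring
  rw [e, finrank_span_singleton]
  intro h
  have := congrFun h ⟨a, ha⟩
  simp at this

theorem finrank_range (hirr : ∀ a, ¬ R a a) (hsym : ∀ a b, R a b → R b a) (hconn : GConn S R)
    (hne : S.Nonempty) : Module.finrank ℝ (LinearMap.range (DM S R)) + 1 = S.card := by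
  have h1 := LinearMap.finrank_range_add_finrank_ker (DM S R)
  rw [finrank_ker hirr hsym hconn hne, Module.finrank_fintype_fun_eq_card, Fintype.card_coe] at h1
  exact h1

theorem finrank_target : Module.finrank ℝ ({e // e ∈ EE S R} → ℝ) = (EE S R).card := by
  rw [Module.finrank_fintype_fun_eq_card, Fintype.card_coe]

/-- a potential exists iff the vector is in the range -/
theorem pot_iff (hirr : ∀ a, ¬ R a a) (hsym : ∀ a b, R a b → R b a) (g : A → A → ℝ)
    (hg : ∀ a ∈ S, ∀ b ∈ S, R a b → g a b = - g b a) :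
    (∃ φ : A → ℝ, ∀ a ∈ S, ∀ b ∈ S, R a b → g a b = φ a - φ b) ↔
      (fun e : {e // e ∈ EE S R} => g e.1.1 e.1.2) ∈ LinearMap.range (DM S R) := by
  constructor
  · rintro ⟨φ, hφ⟩
    refine ⟨fun x => φ x.1, ?_⟩
    funext e
    have h := mem_EE.1 e.2
    exact (hφ _ h.1.1.1 _ h.1.1.2 h.1.2).symm
  · rintro ⟨φ, hφ⟩
    refine ⟨fun x => if hx : x ∈ S then φ ⟨x, hx⟩ else 0, ?_⟩
    intro a ha b hb hab
    show g a b = (if hx : a ∈ S then φ ⟨a, hx⟩ else 0) - (if hx : b ∈ S then φ ⟨b, hx⟩ else 0)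
    rw [dif_pos ha, dif_pos hb]
    rcases lt_trichotomy a b with h1 | h1 | h1
    · exact (congrFun hφ ⟨(a, b), mem_EE.2 ⟨⟨⟨ha, hb⟩, hab⟩, h1⟩⟩).symm
    · exact absurd (h1 ▸ hab : R b b) (hirr _)
    · have := congrFun hφ ⟨(b, a), mem_EE.2 ⟨⟨⟨hb, ha⟩, hsym _ _ hab⟩, h1⟩⟩
      have h2 : φ ⟨b, hb⟩ - φ ⟨a, ha⟩ = g b a := this
      rw [hg a ha b hb hab, ← h2]
      ring

end order

end CxGraphAux

open CxGraphAux

theorem conn_count {A : Type} (S : Finset A) (R : A → A → Prop) (hirr : ∀ a, ¬ R a a)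
    (hsym : ∀ a b, R a b → R b a) (hconn : GConn S R) : 2 * S.card ≤ (prs S R).card + 2 := by
  classical
  let _ : LinearOrder A := linearOrderOfSTO WellOrderingRel
  rcases S.eq_empty_or_nonempty with hS | hne
  · rw [hS, Finset.card_empty]
    omega
  have h1 := finrank_range hirr hsym hconn hne
  have h2 := Submodule.finrank_le (LinearMap.range (DM S R))
  rw [finrank_target] at h2
  rw [card_prs hirr hsym]
  omega

theorem tree_exact {A : Type} (S : Finset A) (R : A → A → Prop) (hirr : ∀ a, ¬ R a a)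
    (hsym : ∀ a b, R a b → R b a) (hconn : GConn S R) (hc : (prs S R).card + 2 ≤ 2 * S.card)
    (g : A → A → ℝ) (hg : ∀ a ∈ S, ∀ b ∈ S, R a b → g a b = - g b a) :
    ∃ φ : A → ℝ, ∀ a ∈ S, ∀ b ∈ S, R a b → g a b = φ a - φ b := by
  classical
  let _ : LinearOrder A := linearOrderOfSTO WellOrderingRel
  rcases S.eq_empty_or_nonempty with hS | hne
  · rw [hS]
    exact ⟨fun _ => 0, fun a ha => absurd ha (Finset.notMem_empty a)⟩
  rw [pot_iff hirr hsym g hg]
  have h1 := finrank_range hirr hsym hconn hne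
  have h2 : LinearMap.range (DM S R) = ⊤ := by
    apply Submodule.eq_top_of_finrank_eq
    have h3 := Submodule.finrank_le (LinearMap.range (DM S R))
    rw [finrank_target] at h3 ⊢
    rw [card_prs hirr hsym] at hc
    omega
  rw [h2]
  exact Submodule.mem_top

namespace CxGraphAux

/-- the coefficients of a functional, extended antisymmetrically -/
noncomputable def lamOf {A : Type} [LinearOrder A] (S : Finset A) (R : A → A → Prop)
    (f : ({e // e ∈ EE S R} → ℝ) →ₗ[ℝ] ℝ) (a b : A) : ℝ :=
  open Classical in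
  if h : (a, b) ∈ EE S R then f (Pi.single ⟨(a, b), h⟩ 1)
  else if h : (b, a) ∈ EE S R then - f (Pi.single ⟨(b, a), h⟩ 1) else 0

theorem lam_pos {A : Type} [LinearOrder A] {S : Finset A} {R : A → A → Prop}
    (f : ({e // e ∈ EE S R} → ℝ) →ₗ[ℝ] ℝ) {a b : A} (h : (a, b) ∈ EE S R) :
    lamOf S R f a b = f (Pi.single ⟨(a, b), h⟩ 1) := by
  unfold lamOf
  rw [dif_pos h]

theorem lam_anti {A : Type} [LinearOrder A] {S : Finset A} {R : A → A → Prop}
    (f : ({e // e ∈ EE S R} → ℝ) →ₗ[ℝ] ℝ) (a b : A) :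
    lamOf S R f a b = - lamOf S R f b a := by
  have hn : ∀ x y : A, (x, y) ∈ EE S R → (y, x) ∉ EE S R := by
    intro x y h h'
    exact absurd (mem_EE.1 h).2 (not_lt.2 (mem_EE.1 h').2.le)
  unfold lamOf
  by_cases h1 : (a, b) ∈ EE S R
  · rw [dif_pos h1, dif_neg (hn _ _ h1), dif_pos h1, neg_neg]
  · by_cases h2 : (b, a) ∈ EE S R
    · rw [dif_neg h1, dif_pos h2, dif_pos h2]
    · rw [dif_neg h1, dif_neg h2, dif_neg h2, dif_neg h1, neg_zero]

theorem f_eq {A : Type} [LinearOrder A] {S : Finset A} {R : A → A → Prop}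
    (f : ({e // e ∈ EE S R} → ℝ) →ₗ[ℝ] ℝ) (g : A → A → ℝ) :
    f (fun e => g e.1.1 e.1.2) = ∑ p ∈ EE S R, lamOf S R f p.1 p.2 * g p.1 p.2 := by
  classical
  have h1 : (fun e : {e // e ∈ EE S R} => g e.1.1 e.1.2) =
      ∑ e : {e // e ∈ EE S R}, g e.1.1 e.1.2 • Pi.single e (1 : ℝ) := by
    funext x
    rw [Finset.sum_apply, Finset.sum_eq_single x]
    · simp
    · intro y _ hy
      simp [Ne.symm hy]
    · intro h
      exact absurd (Finset.mem_univ x) h
  rw [h1, map_sum, ← Finset.sum_coe_sort (EE S R) (fun p => lamOf S R f p.1 p.2 * g p.1 p.2)]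
  refine Finset.sum_congr rfl fun e _ => ?_
  rw [map_smul, smul_eq_mul, lam_pos f (a := e.1.1) (b := e.1.2) e.2, mul_comm]

end CxGraphAux

open Classical in
theorem cycle_exact {A : Type} (S : Finset A) (R : A → A → Prop) (hirr : ∀ a, ¬ R a a)
    (hsym : ∀ a b, R a b → R b a) (hconn : GConn S R) (hdeg : ∀ a ∈ S, (S.filter fun b => R a b).card = 2)
    (hne : S.Nonempty) :
    ∃ lam : A → A → ℝ, (∀ a ∈ S, ∀ b ∈ S, R a b → lam a b ≠ 0 ∧ lam a b = - lam b a) ∧
      ∀ g : A → A → ℝ, (∀ a ∈ S, ∀ b ∈ S, R a b → g a b = - g b a) →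
        ((∃ φ : A → ℝ, ∀ a ∈ S, ∀ b ∈ S, R a b → g a b = φ a - φ b) ↔
          ∑ q ∈ prs S R, lam q.1 q.2 * g q.1 q.2 = 0) := by
  let _ : LinearOrder A := linearOrderOfSTO WellOrderingRel
  have hcard : (prs S R).card = 2 * S.card := by
    unfold prs
    rw [Finset.card_filter, Finset.sum_product]
    have : ∀ a ∈ S, ∑ b ∈ S, (if R (a, b).1 (a, b).2 then 1 else 0) = 2 := by
      intro a ha
      rw [← hdeg a ha, Finset.card_filter]
    rw [Finset.sum_congr rfl this, Finset.sum_const, smul_eq_mul]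
    ring
  have hE : (EE S R).card = S.card := by
    have := card_prs (S := S) (R := R) hirr hsym
    omega
  have hr := finrank_range hirr hsym hconn hne
  have hlt : LinearMap.range (DM S R) < ⊤ := by
    rw [lt_top_iff_ne_top]
    intro h
    rw [h, finrank_top, finrank_target] at hr
    omega
  obtain ⟨f, hf0, hfle⟩ := Submodule.exists_le_ker_of_lt_top _ hlt
  have hker : LinearMap.range (DM S R) = LinearMap.ker f := by
    apply Submodule.eq_of_le_of_finrank_le hfle
    have h1 := LinearMap.finrank_range_add_finrank_ker f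
    rw [finrank_target] at h1
    have h2 : 0 < Module.finrank ℝ (LinearMap.range f) := by
      rw [Module.finrank_pos_iff_exists_ne_zero]
      obtain ⟨x, hx⟩ : ∃ x, f x ≠ 0 := by
        by_contra hcon
        push Not at hcon
        exact hf0 (LinearMap.ext hcon)
      exact ⟨⟨f x, x, rfl⟩, fun h => hx (congrArg Subtype.val h)⟩
    omega
  -- the sum over the neighbours vanishes
  have hstar : ∀ a ∈ S, ∑ b ∈ S.filter (fun b => R a b), lamOf S R f a b = 0 := by
    intro a ha
    have h0 : f (DM S R (fun x => if x.1 = a then 1 else 0)) = 0 := by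
      have : DM S R (fun x => if x.1 = a then (1 : ℝ) else 0) ∈ LinearMap.ker f := by
        rw [← hker]
        exact ⟨_, rfl⟩
      exact this
    have h0 : ∑ p ∈ EE S R, lamOf S R f p.1 p.2 *
        ((if p.1 = a then (1 : ℝ) else 0) - (if p.2 = a then 1 else 0)) = 0 :=
      (f_eq f (fun x y : A => (if x = a then (1 : ℝ) else 0) - (if y = a then 1 else 0))).symm.trans h0
    have h2 := sum_prs (S := S) (R := R) hirr hsym
      (fun p => lamOf S R f p.1 p.2 * ((if p.1 = a then (1 : ℝ) else 0) - (if p.2 = a then 1 else 0)))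
      (fun x y _ _ _ => by
        simp only
        rw [lam_anti f y x]
        ring)
    rw [h0, add_zero] at h2
    unfold prs at h2
    rw [Finset.sum_filter, Finset.sum_product] at h2
    simp only at h2
    have h3 : ∀ x ∈ S, ∀ y ∈ S, (if R x y then
        lamOf S R f x y * ((if x = a then (1 : ℝ) else 0) - (if y = a then 1 else 0)) else 0) =
        (if x = a then (if R x y then lamOf S R f x y else 0) else 0) +
        (if y = a then (if R x y then - lamOf S R f x y else 0) else 0) := by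
      intro x _ y _
      by_cases hxy : R x y <;> by_cases hx : x = a <;> by_cases hy : y = a <;>
        simp [hxy, hx, hy, hirr]
    rw [Finset.sum_congr rfl (fun x hx => Finset.sum_congr rfl (fun y hy => h3 x hx y hy))] at h2
    simp only [Finset.sum_add_distrib] at h2
    have h4 : ∑ x ∈ S, ∑ y ∈ S, (if x = a then (if R x y then lamOf S R f x y else 0) else 0) =
        ∑ b ∈ S.filter (fun b => R a b), lamOf S R f a b := by
      rw [Finset.sum_eq_single a]
      · rw [Finset.sum_filter]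
        refine Finset.sum_congr rfl fun y _ => ?_
        rw [if_pos rfl]
      · intro x _ hx
        exact Finset.sum_eq_zero fun y _ => if_neg hx
      · intro h
        exact absurd ha h
    have h5 : ∑ x ∈ S, ∑ y ∈ S, (if y = a then (if R x y then - lamOf S R f x y else 0) else 0) =
        ∑ b ∈ S.filter (fun b => R a b), lamOf S R f a b := by
      rw [Finset.sum_filter]
      refine Finset.sum_congr rfl fun x _ => ?_
      rw [Finset.sum_eq_single a]
      · rw [if_pos rfl, lam_anti f x a, neg_neg]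
        by_cases h : R x a
        · rw [if_pos h, if_pos (hsym _ _ h)]
        · rw [if_neg h, if_neg (fun h' => h (hsym _ _ h'))]
      · intro y _ hy
        exact if_neg hy
      · intro h
        exact absurd ha h
    rw [h4, h5] at h2
    linarith
  -- all edges at a vertex have the same absolute value
  have habs : ∀ a ∈ S, ∀ b ∈ S, ∀ c ∈ S, R a b → R a c →
      |lamOf S R f a b| = |lamOf S R f a c| := by
    intro a ha b hb c hc hab hac
    obtain ⟨x, y, hxy, hxy'⟩ := Finset.card_eq_two.1 (hdeg a ha)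
    have hs := hstar a ha
    have hb' : b ∈ S.filter (fun b => R a b) := Finset.mem_filter.2 ⟨hb, hab⟩
    have hc' : c ∈ S.filter (fun b => R a b) := Finset.mem_filter.2 ⟨hc, hac⟩
    rw [hxy', Finset.mem_insert, Finset.mem_singleton] at hb' hc'
    rw [hxy', Finset.sum_pair hxy] at hs
    have hs' : lamOf S R f a x = - lamOf S R f a y := by linarith
    have hab' : |lamOf S R f a x| = |lamOf S R f a y| := by rw [hs', abs_neg]
    rcases hb' with rfl | rfl <;> rcases hc' with rfl | rfl
    · rfl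
    · exact hab'
    · exact hab'.symm
    · rfl
  have hnb : ∀ a ∈ S, ∃ b ∈ S, R a b := by
    intro a ha
    have h : 0 < (S.filter (fun b => R a b)).card := by rw [hdeg a ha]; norm_num
    obtain ⟨b, hb⟩ := Finset.card_pos.1 h
    exact ⟨b, (Finset.mem_filter.1 hb).1, (Finset.mem_filter.1 hb).2⟩
  have hall : ∀ a ∈ S, ∀ b, Relation.ReflTransGen (fun x y => R x y ∧ x ∈ S ∧ y ∈ S) a b → b ∈ S →
      ∀ c ∈ S, ∀ d ∈ S, R a c → R b d → |lamOf S R f a c| = |lamOf S R f b d| := by
    intro a ha b hab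
    induction hab with
    | refl => intro _ c hc d hd hac had; exact habs a ha c hc d hd hac had
    | tail _ h2 ih =>
      intro hb c hc d hd hac hbd
      rw [ih h2.2.1 c hc _ hb hac h2.1, lam_anti f, abs_neg]
      exact habs _ hb _ h2.2.1 d hd (hsym _ _ h2.1) hbd
  have hne0 : ∀ a ∈ S, ∀ b ∈ S, R a b → lamOf S R f a b ≠ 0 := by
    intro a ha b hb hab h0
    apply hf0
    apply LinearMap.ext
    intro x
    obtain ⟨G, hG⟩ : ∃ G : A → A → ℝ, G = fun u v => if h : (u, v) ∈ EE S R then x ⟨(u, v), h⟩ else 0 :=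
      ⟨_, rfl⟩
    have hx : x = fun e => G e.1.1 e.1.2 := by
      funext e
      rw [hG]
      simp
    have hfx : f x = ∑ p ∈ EE S R, lamOf S R f p.1 p.2 * G p.1 p.2 := by
      rw [← f_eq f G, ← hx]
    rw [hfx, LinearMap.zero_apply]
    refine Finset.sum_eq_zero fun p hp => ?_
    have hp' := mem_EE.1 hp
    have h1 := hall a ha p.1 (hconn a ha p.1 hp'.1.1.1) hp'.1.1.1 b hb p.2 hp'.1.1.2 hab hp'.1.2
    rw [h0, abs_zero] at h1
    rw [abs_eq_zero.1 h1.symm, zero_mul]
  refine ⟨lamOf S R f, fun a ha b hb hab => ⟨hne0 a ha b hb hab, lam_anti f a b⟩, ?_⟩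
  intro g hg
  rw [pot_iff hirr hsym g hg, hker, LinearMap.mem_ker, f_eq,
    sum_prs (S := S) (R := R) hirr hsym (fun p => lamOf S R f p.1 p.2 * g p.1 p.2)
      (fun x y hx hy hxy => by
        simp only
        rw [lam_anti f y x, hg y hy x hx (hsym _ _ hxy)]
        ring)]
  constructor
  · intro h
    rw [h, add_zero]
  · intro h
    linarith

end BSpl
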