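import Pool.Agent.BSpl.CxBasic

/-!
# Bivariate splines, module CxLink: changes of sign around a vertex

Let `v` be an interior vertex with at least two neighbours of smaller order and at least one of larger order.

PAPER PROOF.  Link graph of `v`: the neighbours of `v`; `y` and `z` are linked if `{v, y, z} ∈ T` (`y ≠ z`). Every neighbour has exactly two
links (the two triangles at the edge `v y`, `ecount T v y = 2`), the graph is connected (`link_conn`). `B` = neighbours with
`ord y < ord v`, `A` = neighbours with `ord v < ord y`; `B ∪ A` is everything. The number of links between `B` and `A` is even, since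
`∑_{y ∈ B} 2 = 2 * (links inside B) + (links between B and A)` (as ordered pairs: the number of ordered pairs inside `B` is even by
the swap involution, `Finset.card_involution` or `Finset.sum_involution`-type argument). It is not `0` by connectivity.
Suppose that all links between `B` and `A` have the same end `a ∈ B`. Then `a` has two links to `A`, so `a` has no
link to `B` and `B \ {a}`, which is not empty, is closed under links: contradiction to `link_conn`. So there are links `a t₁`
and `b t₂` with `a, b ∈ B`, `a ≠ b`, `t₁, t₂ ∈ A`.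
-/

set_option autoImplicit false

namespace BSpl

variable {V : Type} [DecidableEq V] {T : Finset (Finset V)}

private theorem cxl_three (h : Surf T) {t : Finset V} (ht : t ∈ T) {v : V} (hv : v ∈ t) :
    ∃ x y, x ≠ y ∧ x ≠ v ∧ y ≠ v ∧ t = {v, x, y} := by
  have h1 : (t.erase v).card = 2 := by rw [Finset.card_erase_of_mem hv, h.card3 t ht]
  obtain ⟨x, y, hxy, h2⟩ := Finset.card_eq_two.1 h1
  have hx : x ∈ t.erase v := by rw [h2]; simp
  have hy : y ∈ t.erase v := by rw [h2]; simp
  refine ⟨x, y, hxy, (Finset.mem_erase.1 hx).1, (Finset.mem_erase.1 hy).1, ?_⟩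
  rw [← h2, Finset.insert_erase hv]

private theorem cxl_odd_of {ord : V → ℕ} {v a c : V} (ha : ord a < ord v) (hc : ord v < ord c) :
    Odd ((({v, a, c} : Finset V).filter (fun y => ord y < ord v)).card) := by
  have h1 : (({v, a, c} : Finset V).filter (fun y => ord y < ord v)) = {a} := by
    ext z
    simp only [Finset.mem_filter, Finset.mem_insert, Finset.mem_singleton]
    constructor
    · rintro ⟨h1 | h1 | h1, h2⟩
      · rw [h1] at h2; omega
      · exact h1
      · rw [h1] at h2; omega
    · intro h1
      rw [h1]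
      exact ⟨Or.inr (Or.inl rfl), ha⟩
  rw [h1, Finset.card_singleton]
  exact odd_one

private theorem cxl_of_odd (h : Surf T) {ord : V → ℕ} {v : V}
    (hne : ∀ y, Edge T v y → ord y ≠ ord v) {t : Finset V} (ht : t ∈ T) (hv : v ∈ t)
    (ho : Odd ((t.filter (fun y => ord y < ord v)).card)) :
    ∃ a c, ord a < ord v ∧ ord v < ord c ∧ t = {v, a, c} := by
  obtain ⟨x, y, hxy, hxv, hyv, rfl⟩ := cxl_three h ht hv
  have hx := hne x ⟨hxv.symm, _, ht, by simp, by simp⟩
  have hy := hne y ⟨hyv.symm, _, ht, by simp, by simp⟩
  rcases lt_or_gt_of_ne hx with h1 | h1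
  · rcases lt_or_gt_of_ne hy with h2 | h2
    · exfalso
      have h3 : (({v, x, y} : Finset V).filter (fun y => ord y < ord v)) = {x, y} := by
        ext z
        simp only [Finset.mem_filter, Finset.mem_insert, Finset.mem_singleton]
        constructor
        · rintro ⟨h3 | h3 | h3, h4⟩
          · rw [h3] at h4; omega
          · exact Or.inl h3
          · exact Or.inr h3
        · rintro (h3 | h3)
          · rw [h3]
            exact ⟨Or.inr (Or.inl rfl), h1⟩
          · rw [h3]
            exact ⟨Or.inr (Or.inr rfl), h2⟩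
      rw [h3, Finset.card_pair hxy] at ho
      exact absurd ho (by decide)
    · exact ⟨x, y, h1, h2, rfl⟩
  · rcases lt_or_gt_of_ne hy with h2 | h2
    · refine ⟨y, x, h2, h1, ?_⟩
      rw [Finset.pair_comm x y]
    · exfalso
      have h3 : (({v, x, y} : Finset V).filter (fun y => ord y < ord v)) = ∅ := by
        ext z
        simp only [Finset.mem_filter, Finset.mem_insert, Finset.mem_singleton,
          Finset.notMem_empty, iff_false, not_and, not_lt]
        rintro (h3 | h3 | h3)
        · rw [h3]
        · rw [h3]; omega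
        · rw [h3]; omega
      rw [h3, Finset.card_empty] at ho
      exact absurd ho (by decide)

private theorem cxl_even (v : V) (hv : v ∈ VI T) (ord : V → ℕ) :
    Even (∑ t ∈ T.filter (fun t => v ∈ t), (t.filter (fun y => ord y < ord v)).card) := by
  have h1 : ∑ t ∈ T.filter (fun t => v ∈ t), (t.filter (fun y => ord y < ord v)).card =
      ∑ y ∈ (nbrs T v).filter (fun y => ord y < ord v), ecount T v y := by
    have e1 : ∀ t ∈ T.filter (fun t => v ∈ t), (t.filter (fun y => ord y < ord v)).card =
        ∑ y ∈ (nbrs T v).filter (fun y => ord y < ord v), if y ∈ t then 1 else 0 := by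
      intro t ht
      rw [Finset.mem_filter] at ht
      rw [← Finset.card_filter]
      congr 1
      ext y
      simp only [Finset.mem_filter, mem_nbrs]
      constructor
      · rintro ⟨h1, h2⟩
        refine ⟨⟨⟨?_, t, ht.1, ht.2, h1⟩, h2⟩, h1⟩
        rintro rfl
        exact absurd h2 (lt_irrefl _)
      · rintro ⟨⟨h1, h2⟩, h3⟩
        exact ⟨h3, h2⟩
    rw [Finset.sum_congr rfl e1, Finset.sum_comm]
    apply Finset.sum_congr rfl
    intro y _
    rw [← Finset.card_filter, Finset.filter_filter]
    rfl
  rw [h1]
  apply Finset.even_sum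
  intro y hy
  rw [Finset.mem_filter] at hy
  rw [((mem_VI v).1 hv).2 y ((mem_nbrs v y).1 hy.1)]
  exact even_two

theorem link_data (h : Surf T) (v : V) (hv : v ∈ VI T) (ord : V → ℕ)
    (hne : ∀ y, Edge T v y → ord y ≠ ord v)
    (h2 : ∃ a b, a ≠ b ∧ Edge T v a ∧ Edge T v b ∧ ord a < ord v ∧ ord b < ord v)
    (h1 : ∃ c, Edge T v c ∧ ord v < ord c) :
    ∃ a b t₁ t₂, a ≠ b ∧ ord a < ord v ∧ ord b < ord v ∧ ord v < ord t₁ ∧ ord v < ord t₂ ∧
      ({v, a, t₁} : Finset V) ∈ T ∧ ({v, b, t₂} : Finset V) ∈ T := by
  by_contra hcon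
  obtain ⟨c, hc, hc2⟩ := h1
  obtain ⟨a₀, b₀, hab, ha₀, hb₀, ha₀', hb₀'⟩ := h2
  set S := (T.filter (fun t => v ∈ t)).filter
    (fun t => Odd ((t.filter (fun y => ord y < ord v)).card)) with hS
  have heven : Even S.card := (Finset.even_sum_iff_even_card_odd _).1 (cxl_even v hv ord)
  have hpos : S.Nonempty := by
    by_contra hempty
    rw [Finset.not_nonempty_iff_eq_empty] at hempty
    have hP : ord c < ord v := by
      refine link_conn h v (fun y => ord y < ord v) ?_ a₀ ha₀ ha₀' c hc
      intro t ht hvt y hyt z hzt hyv hzv hy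
      by_contra hz
      have hzE : Edge T v z := ⟨fun e => hzv e.symm, t, ht, hvt, hzt⟩
      have hz' : ord v < ord z := lt_of_le_of_ne (not_lt.1 hz) (hne z hzE).symm
      have hte : t = {v, y, z} := by
        symm
        apply Finset.eq_of_subset_of_card_le
        · intro x hx
          rw [Finset.mem_insert, Finset.mem_insert, Finset.mem_singleton] at hx
          rcases hx with rfl | rfl | rfl
          · exact hvt
          · exact hyt
          · exact hzt
        · rw [h.card3 t ht, Finset.card_eq_three.2 ⟨v, y, z, fun e => hyv e.symm,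
            fun e => hzv e.symm, ?_, rfl⟩]
          rintro rfl
          omega
      have hmem : t ∈ S := by
        rw [hS, Finset.mem_filter, Finset.mem_filter]
        refine ⟨⟨ht, hvt⟩, ?_⟩
        rw [hte]
        exact cxl_odd_of hy hz'
      rw [hempty] at hmem
      exact absurd hmem (Finset.notMem_empty _)
    omega
  have hcard : 1 < S.card := by
    have := Finset.card_pos.2 hpos
    rcases heven with ⟨m, hm⟩
    omega
  obtain ⟨t, ht, t', ht', htt⟩ := Finset.one_lt_card.1 hcard
  rw [hS, Finset.mem_filter, Finset.mem_filter] at ht ht'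
  obtain ⟨a, t₁, ha1, ha2, hte⟩ := cxl_of_odd h hne ht.1.1 ht.1.2 ht.2
  obtain ⟨b, t₂, hb1, hb2, hte'⟩ := cxl_of_odd h hne ht'.1.1 ht'.1.2 ht'.2
  have huniq : ∀ x z, ord x < ord v → ord v < ord z → ({v, x, z} : Finset V) ∈ T → x = a := by
    intro x z hx hz hxz
    by_contra hxa
    exact hcon ⟨x, a, z, t₁, hxa, hx, ha1, hz, ha2, hxz, hte ▸ ht.1.1⟩
  have hba : b = a := huniq b t₂ hb1 hb2 (hte' ▸ ht'.1.1)
  subst hba
  have hva : v ≠ b := by
    rintro rfl
    exact absurd ha1 (lt_irrefl _)
  have hbt : b ∈ t := by rw [hte]; simp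
  have hbt' : b ∈ t' := by rw [hte']; simp
  have hadj : adjT T t t' := ⟨ht.1.1, ht'.1.1, htt, v, b, hva, ht.1.2, hbt, ht'.1.2, hbt'⟩
  have htwo := (adjT_pair h hadj hva ht.1.2 hbt ht'.1.2 hbt').2
  obtain ⟨w, hwE, hw, hwb⟩ : ∃ w, Edge T v w ∧ ord w < ord v ∧ w ≠ b := by
    by_cases hab0 : a₀ = b
    · exact ⟨b₀, hb₀, hb₀', fun e => hab (hab0.trans e.symm)⟩
    · exact ⟨a₀, ha₀, ha₀', hab0⟩
  have hfin : ord c < ord v ∧ c ≠ b := by
    refine link_conn h v (fun y => ord y < ord v ∧ y ≠ b) ?_ w hwE ⟨hw, hwb⟩ c hc
    rintro s hs hvs y hys z hzs hyv hzv ⟨hy1, hy2⟩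
    have hzE : Edge T v z := ⟨fun e => hzv e.symm, s, hs, hvs, hzs⟩
    constructor
    · by_contra hz
      have hz' : ord v < ord z := lt_of_le_of_ne (not_lt.1 hz) (hne z hzE).symm
      have hse : s = {v, y, z} := by
        symm
        apply Finset.eq_of_subset_of_card_le
        · intro x hx
          rw [Finset.mem_insert, Finset.mem_insert, Finset.mem_singleton] at hx
          rcases hx with rfl | rfl | rfl
          · exact hvs
          · exact hys
          · exact hzs
        · rw [h.card3 s hs, Finset.card_eq_three.2 ⟨v, y, z, fun e => hyv e.symm,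
            fun e => hzv e.symm, ?_, rfl⟩]
          rintro rfl
          omega
      exact hy2 (huniq y z hy1 hz' (hse ▸ hs))
    · rintro rfl
      rcases htwo s hs hvs hzs with rfl | rfl
      · rw [hte, Finset.mem_insert, Finset.mem_insert, Finset.mem_singleton] at hys
        rcases hys with e | e | e
        · exact hyv e
        · exact hy2 e
        · rw [e] at hy1; omega
      · rw [hte', Finset.mem_insert, Finset.mem_insert, Finset.mem_singleton] at hys
        rcases hys with e | e | e
        · exact hyv e
        · exact hy2 e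
        · rw [e] at hy1; omega
  omega

end BSpl
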