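import Pool.Agent.BSpl.CxStar

/-!
# Bivariate splines, module CxPeel: removing the star of a boundary vertex when there are no chords

Hypotheses: `T` is a surface with `H1`, at least two triangles, every edge `c d` in two triangles has an end in `VI T` (no chords), `z` is a
boundary vertex (`z ∈ verts T`, `z ∉ VI T`), `T' = T.filter (z ∉ ·)`.

PAPER PROOF.

(1) `opp`: for `s = {z, u, u'} ∈ T` the edge `u u'` is in two triangles. Otherwise `ecount T u u' = 1` (it is at least `1`, `Surf.le2`), so `u`, `u'`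
are not in `VI T`; by the no-chord hypothesis `ecount T z u ≠ 2`, `ecount T z u' ≠ 2`. Then `s` has no adjacent triangle at all, so by
`conn_closed` `T = {s}`, contradiction. Let `o s` be the other triangle at the edge `u u'` (`other`); it does not contain `z`, so
`o s ∈ T'`. In particular `T'` is not empty and `verts T = insert z (verts T')`.

(2) Star connectivity for `T'`. Let `v ≠ z`, `S` = triangles of `T` at `v`, `S'` = those not containing `z`, `Sz` = those containing `z`.
Claim: any two elements of `S'` are joined by a chain of adjacent triangles in `S'` (adjacent at `v`). If `Sz = ∅` this is `Surf.star`.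
Otherwise let `P ⊆ S'` be closed under adjacency in `S'` (for instance the set of triangles reachable from a given one), `Q = S' \ P`; we show
`P = ∅` or `Q = ∅`. Call a link an adjacent pair at `v`; each triangle `{v, y, y'}` has at most two links, through the edges `v y`, `v y'`, and
exactly two if `v ∈ VI T`. Every triangle in `Sz` contains the edge `v z`; `Sz` has `ecount T v z ≤ 2` elements.
 Case `v ∈ VI T`: `Sz = {s₁, s₂}`, adjacent through `v z`; each of `s₁`, `s₂` has exactly one link to `S'`. The number of links from `P` to the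
complement of `P` in `S`, which is the number of links from `P` to `Sz`, is even: `2 |P|` minus twice the number of links inside `P`. The same for
`Q`. Both are sums to the number `2` of links between `Sz` and `S'`, so one of them is `0`, say that of `P`. Then `P` is closed under
adjacency in `S`; by `Surf.star` `P = ∅` (as `Sz ≠ ∅`).
 Case `v ∉ VI T`: then `ecount T v z = 1` by the no-chord hypothesis (`z ∉ VI T`), `Sz = {s₁}`, and `s₁ = {v, z, y}` has at most one link
(through `v y`). So one of `P`, `Q` has no link to `s₁`, hence is closed in `S`, hence empty.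
(Alternative for the parity argument: an enumeration of the star as a path or cycle.)

(3) `T'` is connected: it is enough that every set `P ⊆ T'` closed under adjacency in `T'` and not empty is `T'`. Let `P* = P ∪ {s ∈ T | z ∈ s ∧ o s ∈ P}`.
`P*` is closed under adjacency in `T`: a pair in `T'`: clear. A pair `s, t'` with `z ∈ s`, `z ∉ t'`: they share the edge `s \ {z}`, so `t' = o s`.
A pair `s, s'` both containing `z`: they share an edge `{z, u}`; `o s` and `o s'` contain `u` and are in `T'`, by (2) they are joined by a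
chain in `T'`. By `conn_closed` `P* = T`. (To get the `ReflTransGen` statement take `P` = the triangles of `T'` reachable from the given one.)
So `Surf T'` (`card3`, `le2` are inherited).

(4) `H1 T'`: let `g'` be locally exact for `T'`, with potentials `φ v` around `v`. Define `g` on `T`: `g t t' = g' t t'` for `t, t' ∈ T'`; `g t t' = 0` if
exactly one of `t`, `t'` contains `z`; if both contain `z` and they share exactly the edge `{z, u}`:
`g s s' = φ u (o s) - φ u (o s')` (`u` chosen by a function of the pair `{s, s'}`, for instance `u` = the element of `(s ∩ s').erase z`).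
Locally exact for `T`: around `z`: antisymmetric, `star_tree`. Around `u ≠ z`: the potential `ψ t = φ u t` if `z ∉ t`,
`ψ s = φ u (o s)` if `z ∈ s`. (Pairs at `u`: both in `T'`: clear. `s, t'` with `t' = o s`: `ψ s - ψ t' = 0`. `s, s'` both containing `z` and `u`: clear.)
So `g` is exact on `T` and `g'` on `T'`.
-/

set_option autoImplicit false

namespace BSpl

variable {V : Type} [DecidableEq V] {T : Finset (Finset V)}

/-- a three-element set with three different given elements -/
private theorem three_mem {s : Finset V} (hs : s.card = 3) {a b c : V} (ha : a ∈ s) (hb : b ∈ s) (hc : c ∈ s)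
    (hab : a ≠ b) (hac : a ≠ c) (hbc : b ≠ c) : s = {a, b, c} := by
  symm
  apply Finset.eq_of_subset_of_card_le
  · intro x hx
    simp only [Finset.mem_insert, Finset.mem_singleton] at hx
    rcases hx with rfl | rfl | rfl <;> assumption
  · rw [hs]
    have : ({a, b, c} : Finset V).card = 3 := Finset.card_eq_three.mpr ⟨a, b, c, hab, hac, hbc, rfl⟩
    omega

private theorem exists_two {s : Finset V} (hs : s.card = 3) {z : V} (hz : z ∈ s) :
    ∃ u u', u ∈ s ∧ u' ∈ s ∧ u ≠ z ∧ u' ≠ z ∧ u ≠ u' := by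
  have h2 : (s.erase z).card = 2 := by rw [Finset.card_erase_of_mem hz, hs]
  obtain ⟨u, u', huu, he⟩ := Finset.card_eq_two.mp h2
  have hu : u ∈ s.erase z := by rw [he]; simp
  have hu' : u' ∈ s.erase z := by rw [he]; simp
  exact ⟨u, u', Finset.mem_of_mem_erase hu, Finset.mem_of_mem_erase hu', Finset.ne_of_mem_erase hu,
    Finset.ne_of_mem_erase hu', huu⟩

private theorem exists_third {s : Finset V} (hs : s.card = 3) {z u : V} (hz : z ∈ s) (hu : u ∈ s) (huz : u ≠ z) :
    ∃ u', u' ∈ s ∧ u' ≠ z ∧ u' ≠ u := by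
  have h2 : ((s.erase z).erase u).card = 1 := by
    rw [Finset.card_erase_of_mem (Finset.mem_erase.mpr ⟨huz, hu⟩), Finset.card_erase_of_mem hz, hs]
  obtain ⟨w, hw⟩ := Finset.card_eq_one.mp h2
  have : w ∈ (s.erase z).erase u := by rw [hw]; simp
  rw [Finset.mem_erase, Finset.mem_erase] at this
  exact ⟨w, this.2.2, this.2.1, this.1⟩

private theorem ecount_pos {x y : V} {t : Finset V} (ht : t ∈ T) (hx : x ∈ t) (hy : y ∈ t) : 1 ≤ ecount T x y := by
  unfold ecount
  exact Finset.card_pos.mpr ⟨t, by simp [ht, hx, hy]⟩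

private theorem ecount_three {x y : V} {t₁ t₂ t₃ : Finset V} (h : Surf T) (hxy : x ≠ y)
    (h1 : t₁ ∈ T) (h2 : t₂ ∈ T) (h3 : t₃ ∈ T) (hx1 : x ∈ t₁) (hy1 : y ∈ t₁) (hx2 : x ∈ t₂) (hy2 : y ∈ t₂)
    (hx3 : x ∈ t₃) (hy3 : y ∈ t₃) (h12 : t₁ ≠ t₂) (h13 : t₁ ≠ t₃) (h23 : t₂ ≠ t₃) : False := by
  have hle := h.le2 x y hxy
  unfold ecount at hle
  have hsub : ({t₁, t₂, t₃} : Finset (Finset V)) ⊆ T.filter fun t => x ∈ t ∧ y ∈ t := by
    intro t ht
    simp only [Finset.mem_insert, Finset.mem_singleton] at ht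
    rcases ht with rfl | rfl | rfl <;> simp [*]
  have hc : ({t₁, t₂, t₃} : Finset (Finset V)).card = 3 :=
    Finset.card_eq_three.mpr ⟨t₁, t₂, t₃, h12, h13, h23, rfl⟩
  have := Finset.card_le_card hsub
  omega

theorem peel_opp (h : Surf T) (h2 : 2 ≤ T.card)
    (hch : ∀ c d, c ≠ d → ecount T c d = 2 → c ∈ VI T ∨ d ∈ VI T)
    (z : V) (hz' : z ∉ VI T) (s : Finset V) (hs : s ∈ T) (hzs : z ∈ s) (u u' : V)
    (hu : u ∈ s) (hu' : u' ∈ s) (huz : u ≠ z) (huz' : u' ≠ z) (huu : u ≠ u') : ecount T u u' = 2 := by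
  by_contra hne
  have h1 : ecount T u u' = 1 := by
    have := ecount_pos hs hu hu'
    have := h.le2 u u' huu
    omega
  obtain ⟨_, _, hnu, hnu'⟩ := not_VI_of_ecount huu h1
  have hzu : ecount T z u ≠ 2 := fun hh => by
    rcases hch z u huz.symm hh with h' | h'
    · exact hz' h'
    · exact hnu h'
  have hzu' : ecount T z u' ≠ 2 := fun hh => by
    rcases hch z u' huz'.symm hh with h' | h'
    · exact hz' h'
    · exact hnu' h'
  have hsE : s = {z, u, u'} := three_mem (h.card3 s hs) hzs hu hu' huz.symm huz'.symm huu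
  have hno : ∀ t', ¬ adjT T s t' := by
    intro t' hadj
    obtain ⟨hs1, ht1, hne1, x, y, hxy, hx, hy, hx', hy'⟩ := hadj
    have hadj : adjT T s t' := ⟨hs1, ht1, hne1, x, y, hxy, hx, hy, hx', hy'⟩
    have he := (adjT_pair h hadj hxy hx hy hx' hy').1
    have he' : ecount T y x = 2 := by rw [ecount_comm]; exact he
    rw [hsE] at hx hy
    simp only [Finset.mem_insert, Finset.mem_singleton] at hx hy
    rcases hx with rfl | rfl | rfl <;> rcases hy with rfl | rfl | rfl <;> first | exact hxy rfl | exact hzu he | exact hzu' he | exact hne he | exact hzu he' | exact hzu' he' | exact hne he'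
  have hall : ∀ t ∈ T, t = s := fun t ht =>
    conn_closed h (fun t => t = s) (fun a b hab ha => by subst ha; exact absurd hab (hno b)) s hs rfl t ht
  have : T.card ≤ 1 := by
    rw [Finset.card_le_one]
    intro a ha b hb
    rw [hall a ha, hall b hb]
  omega


/-- the neighbours of `v` and `z` in a common triangle -/
private def yset (T : Finset (Finset V)) (v z : V) : Finset V :=
  (T.filter fun t => v ∈ t ∧ z ∈ t).biUnion fun s => (s.erase v).erase z

private theorem mem_yset {v z y : V} : y ∈ yset T v z ↔ y ≠ z ∧ y ≠ v ∧ ∃ s ∈ T, v ∈ s ∧ z ∈ s ∧ y ∈ s := by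
  unfold yset
  simp only [Finset.mem_biUnion, Finset.mem_filter, Finset.mem_erase]
  constructor
  · rintro ⟨s, ⟨hs, hv, hz⟩, h1, h2, h3⟩
    exact ⟨h1, h2, s, hs, hv, hz, h3⟩
  · rintro ⟨h1, h2, s, hs, hv, hz, h3⟩
    exact ⟨s, ⟨hs, hv, hz⟩, h1, h2, h3⟩

private theorem card_yset (h : Surf T) {v z : V} (hvz : v ≠ z) : (yset T v z).card ≤ ecount T v z := by
  unfold yset ecount
  refine Finset.card_biUnion_le.trans ?_
  have : ∀ s ∈ T.filter fun t => v ∈ t ∧ z ∈ t, ((s.erase v).erase z).card = 1 := by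
    intro s hs
    rw [Finset.mem_filter] at hs
    rw [Finset.card_erase_of_mem (Finset.mem_erase.mpr ⟨hvz.symm, hs.2.2⟩), Finset.card_erase_of_mem hs.2.1,
      h.card3 s hs.1]
  rw [Finset.sum_congr rfl this]
  simp

/-- closed sets of triangles at `v` without `z` meet the star of `z` in an even number of edges -/
private theorem even_yset (h : Surf T) {v z : V} (hv : v ∈ VI T) (P : Finset (Finset V))
    (hP : ∀ x ∈ P, x ∈ T ∧ v ∈ x ∧ z ∉ x)
    (hcl : ∀ x ∈ P, ∀ x', adjT T x x' → v ∈ x' → z ∉ x' → x' ∈ P) :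
    Even ((yset T v z).filter fun y => ∃ x ∈ P, y ∈ x).card := by
  classical
  set U := (verts T).erase v with hU
  set n : V → ℕ := fun y => (P.filter fun x => y ∈ x).card with hn
  have hsum : ∑ y ∈ U, n y = 2 * P.card := by
    have := Finset.sum_card_bipartiteAbove_eq_sum_card_bipartiteBelow (s := U) (t := P) (fun y x => y ∈ x)
    have h1 : ∑ y ∈ U, n y = ∑ x ∈ P, (U.filter fun y => y ∈ x).card := by
      simpa [Finset.bipartiteAbove, Finset.bipartiteBelow] using this
    rw [h1]
    have h2 : ∀ x ∈ P, (U.filter fun y => y ∈ x).card = 2 := by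
      intro x hx
      obtain ⟨hxT, hvx, _⟩ := hP x hx
      have : (U.filter fun y => y ∈ x) = x.erase v := by
        ext y
        simp only [hU, Finset.mem_filter, Finset.mem_erase]
        constructor
        · rintro ⟨⟨h1, h2⟩, h3⟩
          exact ⟨h1, h3⟩
        · rintro ⟨h1, h2⟩
          exact ⟨⟨h1, (mem_verts y).mpr ⟨x, hxT, h2⟩⟩, h2⟩
      rw [this, Finset.card_erase_of_mem hvx, h.card3 x hxT]
    rw [Finset.sum_congr rfl h2]
    simp [mul_comm]
  have hterm : ∀ y ∈ U, Even (n y + if (y ∈ yset T v z ∧ ∃ x ∈ P, y ∈ x) then 1 else 0) := by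
    intro y hy
    rw [hU, Finset.mem_erase] at hy
    obtain ⟨hyv, hyT⟩ := hy
    by_cases hex : ∃ x ∈ P, y ∈ x
    · obtain ⟨x, hxP, hyx⟩ := hex
      obtain ⟨hxT, hvx, hzx⟩ := hP x hxP
      have hyz : y ≠ z := fun hh => hzx (hh ▸ hyx)
      have hEd : Edge T v y := ⟨hyv.symm, x, hxT, hvx, hyx⟩
      have he2 : ecount T v y = 2 := ((mem_VI v).mp hv).2 y hEd
      obtain ⟨x', hadj, hvx', hyx'⟩ := other h hxT hyv.symm hvx hyx he2
      have hpair := (adjT_pair h hadj hyv.symm hvx hyx hvx' hyx').2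
      by_cases hzx' : z ∈ x'
      · have hyY : y ∈ yset T v z := mem_yset.mpr ⟨hyz, hyv, x', hadj.2.1, hvx', hzx', hyx'⟩
        have hn1 : n y = 1 := by
          rw [hn]
          simp only
          rw [Finset.card_eq_one]
          refine ⟨x, ?_⟩
          ext s
          simp only [Finset.mem_filter, Finset.mem_singleton]
          constructor
          · rintro ⟨hs, hys⟩
            obtain ⟨hsT, hvs, hzs⟩ := hP s hs
            rcases hpair s hsT hvs hys with h' | h'
            · exact h'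
            · exact absurd (h' ▸ hzx') hzs
          · rintro rfl
            exact ⟨hxP, hyx⟩
        rw [hn1, if_pos ⟨hyY, x, hxP, hyx⟩]
        decide
      · have hx'P : x' ∈ P := hcl x hxP x' hadj hvx' hzx'
        have hyY : y ∉ yset T v z := by
          intro hh
          obtain ⟨_, _, s, hs, hvs, hzs, hys⟩ := mem_yset.mp hh
          rcases hpair s hs hvs hys with h' | h'
          · exact hzx (h' ▸ hzs)
          · exact hzx' (h' ▸ hzs)
        have hn2 : n y = 2 := by
          rw [hn]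
          simp only
          rw [Finset.card_eq_two]
          refine ⟨x, x', hadj.2.2.1, ?_⟩
          ext s
          simp only [Finset.mem_filter, Finset.mem_insert, Finset.mem_singleton]
          constructor
          · rintro ⟨hs, hys⟩
            obtain ⟨hsT, hvs, hzs⟩ := hP s hs
            exact hpair s hsT hvs hys
          · rintro (rfl | rfl)
            · exact ⟨hxP, hyx⟩
            · exact ⟨hx'P, hyx'⟩
        rw [hn2, if_neg (fun hh => hyY hh.1)]
        decide
    · have hn0 : n y = 0 := by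
        rw [hn]
        simp only
        rw [Finset.card_eq_zero, Finset.filter_eq_empty_iff]
        intro x hx hyx
        exact hex ⟨x, hx, hyx⟩
      rw [hn0, if_neg (fun hh => hex hh.2)]
      decide
  have heven := Finset.even_sum (fun y => n y + if (y ∈ yset T v z ∧ ∃ x ∈ P, y ∈ x) then 1 else 0) hterm
  rw [Finset.sum_add_distrib, hsum] at heven
  have hcard : ∑ y ∈ U, (if (y ∈ yset T v z ∧ ∃ x ∈ P, y ∈ x) then 1 else 0) =
      ((yset T v z).filter fun y => ∃ x ∈ P, y ∈ x).card := by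
    rw [← Finset.sum_filter, Finset.sum_const, smul_eq_mul, mul_one]
    congr 1
    ext y
    simp only [hU, Finset.mem_filter, Finset.mem_erase]
    constructor
    · rintro ⟨_, h1, h2⟩
      exact ⟨h1, h2⟩
    · rintro ⟨h1, h2⟩
      obtain ⟨_, hyv, s, hs, _, _, hys⟩ := mem_yset.mp h1
      exact ⟨⟨hyv, (mem_verts y).mpr ⟨s, hs, hys⟩⟩, h1, h2⟩
  rw [hcard] at heven
  exact (Nat.even_add.mp heven).mp ⟨P.card, by ring⟩

/-- a closed nonempty set of triangles at `v` without `z`, not all of them, has a link to the star of `z` -/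
private theorem yset_nonempty (h : Surf T) {v z : V} (P : Finset (Finset V))
    (hP : ∀ x ∈ P, x ∈ T ∧ v ∈ x ∧ z ∉ x)
    (hcl : ∀ x ∈ P, ∀ x', adjT T x x' → v ∈ x' → z ∉ x' → x' ∈ P) (t t' : Finset V) (ht : t ∈ P)
    (ht' : t' ∈ T) (hvt' : v ∈ t') (htP : t' ∉ P) :
    ((yset T v z).filter fun y => ∃ x ∈ P, y ∈ x).Nonempty := by
  by_contra hne
  rw [Finset.not_nonempty_iff_eq_empty] at hne
  have hclosed : ∀ x ∈ P, ∀ x', adjT T x x' → v ∈ x' → x' ∈ P := by
    intro x hx x' hadj hvx'
    obtain ⟨hxT, hvx, hzx⟩ := hP x hx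
    by_cases hzx' : z ∈ x'
    · exfalso
      obtain ⟨y, hyv, hyx, hyx'⟩ := adjT_at h hadj hvx hvx'
      have : y ∈ ((yset T v z).filter fun y => ∃ x ∈ P, y ∈ x) := by
        rw [Finset.mem_filter]
        refine ⟨mem_yset.mpr ⟨fun hh => hzx (hh ▸ hyx), hyv, x', hadj.2.1, hvx', hzx', hyx'⟩, x, hx, hyx⟩
      rw [hne] at this
      exact absurd this (Finset.notMem_empty y)
    · exact hcl x hx x' hadj hvx' hzx'
  obtain ⟨htT, hvt, _⟩ := hP t ht
  have hch := h.star v t htT t' ht' hvt hvt'
  have : ∀ w, Relation.ReflTransGen (fun a b => adjT T a b ∧ v ∈ a ∧ v ∈ b) t w → w ∈ P := by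
    intro w hw
    induction hw with
    | refl => exact ht
    | tail _ hstep ih => exact hclosed _ ih _ hstep.1 hstep.2.2
  exact htP (this t' hch)

theorem peel_star (h : Surf T) (h2 : 2 ≤ T.card)
    (hch : ∀ c d, c ≠ d → ecount T c d = 2 → c ∈ VI T ∨ d ∈ VI T)
    (z : V) (hz' : z ∉ VI T) (v : V) (hvz : v ≠ z) (t t' : Finset V)
    (ht : t ∈ T) (ht' : t' ∈ T) (hv : v ∈ t) (hv' : v ∈ t') (hzt : z ∉ t) (hzt' : z ∉ t') :
    Relation.ReflTransGen (fun a b => adjT T a b ∧ (v ∈ a ∧ v ∈ b) ∧ z ∉ a ∧ z ∉ b) t t' := by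
  classical
  by_contra hno
  set R : Finset V → Finset V → Prop := fun a b => adjT T a b ∧ (v ∈ a ∧ v ∈ b) ∧ z ∉ a ∧ z ∉ b with hR
  set P := T.filter fun x => v ∈ x ∧ z ∉ x ∧ Relation.ReflTransGen R t x with hPdef
  set Q := T.filter fun x => v ∈ x ∧ z ∉ x ∧ ¬ Relation.ReflTransGen R t x with hQdef
  have hP : ∀ x ∈ P, x ∈ T ∧ v ∈ x ∧ z ∉ x := by
    intro x hx
    rw [hPdef, Finset.mem_filter] at hx
    exact ⟨hx.1, hx.2.1, hx.2.2.1⟩
  have hQ : ∀ x ∈ Q, x ∈ T ∧ v ∈ x ∧ z ∉ x := by
    intro x hx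
    rw [hQdef, Finset.mem_filter] at hx
    exact ⟨hx.1, hx.2.1, hx.2.2.1⟩
  have hPcl : ∀ x ∈ P, ∀ x', adjT T x x' → v ∈ x' → z ∉ x' → x' ∈ P := by
    intro x hx x' hadj hvx' hzx'
    rw [hPdef, Finset.mem_filter] at hx ⊢
    exact ⟨hadj.2.1, hvx', hzx', hx.2.2.2.tail ⟨hadj, ⟨hx.2.1, hvx'⟩, hx.2.2.1, hzx'⟩⟩
  have hQcl : ∀ x ∈ Q, ∀ x', adjT T x x' → v ∈ x' → z ∉ x' → x' ∈ Q := by
    intro x hx x' hadj hvx' hzx'
    rw [hQdef, Finset.mem_filter] at hx ⊢
    refine ⟨hadj.2.1, hvx', hzx', fun hh => hx.2.2.2 ?_⟩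
    exact hh.tail ⟨hadj.symm, ⟨hvx', hx.2.1⟩, hzx', hx.2.2.1⟩
  have htP : t ∈ P := by
    rw [hPdef, Finset.mem_filter]
    exact ⟨ht, hv, hzt, Relation.ReflTransGen.refl⟩
  have ht'Q : t' ∈ Q := by
    rw [hQdef, Finset.mem_filter]
    exact ⟨ht', hv', hzt', hno⟩
  have ht'P : t' ∉ P := by
    intro hh
    rw [hPdef, Finset.mem_filter] at hh
    exact hno hh.2.2.2
  have htQ : t ∉ Q := by
    intro hh
    rw [hQdef, Finset.mem_filter] at hh
    exact hh.2.2.2 Relation.ReflTransGen.refl
  have hneP := yset_nonempty h P hP hPcl t t' htP ht' hv' ht'P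
  have hneQ := yset_nonempty h Q hQ hQcl t' t ht'Q ht hv htQ
  set YP := (yset T v z).filter fun y => ∃ x ∈ P, y ∈ x with hYP
  set YQ := (yset T v z).filter fun y => ∃ x ∈ Q, y ∈ x with hYQ
  have hdisj : Disjoint YP YQ := by
    rw [Finset.disjoint_left]
    intro y hy hy'
    rw [hYP, Finset.mem_filter] at hy
    rw [hYQ, Finset.mem_filter] at hy'
    obtain ⟨hyY, x, hxP, hyx⟩ := hy
    obtain ⟨_, x', hxQ, hyx'⟩ := hy'
    obtain ⟨hyz, hyv, s, hs, hvs, hzs, hys⟩ := mem_yset.mp hyY
    obtain ⟨hxT, hvx, hzx⟩ := hP x hxP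
    obtain ⟨hx'T, hvx', hzx'⟩ := hQ x' hxQ
    refine ecount_three h hyv.symm hxT hx'T hs hvx hyx hvx' hyx' hvs hys ?_ ?_ ?_
    · rintro rfl
      rw [hPdef, Finset.mem_filter] at hxP
      rw [hQdef, Finset.mem_filter] at hxQ
      exact hxQ.2.2.2 hxP.2.2.2
    · rintro rfl
      exact hzx hzs
    · rintro rfl
      exact hzx' hzs
  have hsub : (YP ∪ YQ).card ≤ (yset T v z).card := by
    apply Finset.card_le_card
    apply Finset.union_subset
    · exact Finset.filter_subset _ _
    · exact Finset.filter_subset _ _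
  rw [Finset.card_union_of_disjoint hdisj] at hsub
  have hcY := card_yset h hvz
  have hpP := Finset.card_pos.mpr hneP
  have hpQ := Finset.card_pos.mpr hneQ
  by_cases hvI : v ∈ VI T
  · have heP := even_yset h hvI P hP hPcl
    have heQ := even_yset h hvI Q hQ hQcl
    rw [← hYP] at heP
    rw [← hYQ] at heQ
    obtain ⟨a, ha⟩ := heP
    obtain ⟨b, hb⟩ := heQ
    have := h.le2 v z hvz
    omega
  · have hne2 : ecount T v z ≠ 2 := fun hh => by
      rcases hch v z hvz hh with h' | h'
      · exact hvI h'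
      · exact hz' h'
    have := h.le2 v z hvz
    omega


private theorem rtg_mono {A : Type} {r p : A → A → Prop} (hrp : ∀ a b, r a b → p a b) {a b : A}
    (hab : Relation.ReflTransGen r a b) : Relation.ReflTransGen p a b := by
  induction hab with
  | refl => exact Relation.ReflTransGen.refl
  | tail _ hstep ih => exact ih.tail (hrp _ _ hstep)

private theorem adjT_filter {z : V} {a b : Finset V} :
    adjT (T.filter fun t => z ∉ t) a b ↔ adjT T a b ∧ z ∉ a ∧ z ∉ b := by
  unfold adjT
  simp only [Finset.mem_filter]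
  constructor
  · rintro ⟨⟨h1, h2⟩, ⟨h3, h4⟩, h5, h6⟩
    exact ⟨⟨h1, h3, h5, h6⟩, h2, h4⟩
  · rintro ⟨⟨h1, h3, h5, h6⟩, h2, h4⟩
    exact ⟨⟨h1, h2⟩, ⟨h3, h4⟩, h5, h6⟩

/-- an adjacent triangle without `z` contains the opposite edge -/
private theorem opp_sub (h : Surf T) {s o : Finset V} (hadj : adjT T s o) {z : V} (hzs : z ∈ s) (hzo : z ∉ o)
    {u : V} (hu : u ∈ s) (huz : u ≠ z) : u ∈ o := by
  by_contra huo
  have h2 := adjT_inter h hadj
  have hsub : s ∩ o ⊆ (s.erase z).erase u := by
    intro w hw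
    rw [Finset.mem_inter] at hw
    rw [Finset.mem_erase, Finset.mem_erase]
    exact ⟨fun hh => huo (hh ▸ hw.2), fun hh => hzo (hh ▸ hw.2), hw.1⟩
  have := Finset.card_le_card hsub
  rw [Finset.card_erase_of_mem (Finset.mem_erase.mpr ⟨huz, hu⟩), Finset.card_erase_of_mem hzs,
    h.card3 s hadj.1] at this
  omega

private theorem opp_unique (h : Surf T) {s o o' : Finset V} (hadj : adjT T s o) (hadj' : adjT T s o') {z : V}
    (hzs : z ∈ s) (hzo : z ∉ o) (hzo' : z ∉ o') : o = o' := by
  obtain ⟨u, u', hu, hu', huz, huz', huu⟩ := exists_two (h.card3 s hadj.1) hzs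
  by_contra hne
  exact ecount_three h huu hadj.1 hadj.2.1 hadj'.2.1 hu hu' (opp_sub h hadj hzs hzo hu huz)
    (opp_sub h hadj hzs hzo hu' huz') (opp_sub h hadj' hzs hzo' hu huz) (opp_sub h hadj' hzs hzo' hu' huz')
    hadj.2.2.1 hadj'.2.2.1 hne

private theorem exists_opp (h : Surf T) (h2 : 2 ≤ T.card)
    (hch : ∀ c d, c ≠ d → ecount T c d = 2 → c ∈ VI T ∨ d ∈ VI T)
    (z : V) (hz' : z ∉ VI T) (s : Finset V) (hs : s ∈ T) (hzs : z ∈ s) :
    ∃ o, adjT T s o ∧ z ∉ o := by
  obtain ⟨u, u', hu, hu', huz, huz', huu⟩ := exists_two (h.card3 s hs) hzs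
  have he := peel_opp h h2 hch z hz' s hs hzs u u' hu hu' huz huz' huu
  obtain ⟨o, hadj, huo, hu'o⟩ := other h hs huu hu hu' he
  refine ⟨o, hadj, fun hzo => hadj.2.2.1 ?_⟩
  rw [three_mem (h.card3 s hs) hzs hu hu' huz.symm huz'.symm huu,
    three_mem (h.card3 o hadj.2.1) hzo huo hu'o huz.symm huz'.symm huu]

open Classical in
theorem peel (h : Surf T) (h1 : H1 T) (h2 : 2 ≤ T.card)
    (hch : ∀ c d, c ≠ d → ecount T c d = 2 → c ∈ VI T ∨ d ∈ VI T)
    (z : V) (hz : z ∈ verts T) (hz' : z ∉ VI T) :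
    (T.filter fun t => z ∉ t).Nonempty ∧ Surf (T.filter fun t => z ∉ t) ∧
      H1 (T.filter fun t => z ∉ t) ∧ verts T = insert z (verts (T.filter fun t => z ∉ t)) := by
  have hopp : ∀ s : Finset V, ∃ o : Finset V, s ∈ T → z ∈ s → adjT T s o ∧ z ∉ o := by
    intro s
    by_cases hs : s ∈ T ∧ z ∈ s
    · obtain ⟨o, ho⟩ := exists_opp h h2 hch z hz' s hs.1 hs.2
      exact ⟨o, fun _ _ => ho⟩
    · exact ⟨∅, fun h1 h2 => absurd ⟨h1, h2⟩ hs⟩
  choose o ho using hopp
  have hof : ∀ s ∈ T, z ∈ s → o s ∈ T.filter fun t => z ∉ t := by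
    intro s hs hzs
    rw [Finset.mem_filter]
    exact ⟨(ho s hs hzs).1.2.1, (ho s hs hzs).2⟩
  refine ⟨?_, ?_, ?_, ?_⟩
  · obtain ⟨s, hs, hzs⟩ := (mem_verts z).mp hz
    exact ⟨o s, hof s hs hzs⟩
  · refine ⟨?_, ?_, ?_, ?_⟩
    · intro t ht
      exact h.card3 t (Finset.mem_of_mem_filter t ht)
    · intro x y hxy
      refine le_trans (Finset.card_le_card ?_) (h.le2 x y hxy)
      exact Finset.filter_subset_filter _ (Finset.filter_subset _ _)
    · intro t ht t' ht'
      rw [Finset.mem_filter] at ht ht'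
      set P : Finset V → Prop := fun x =>
        (z ∉ x → Relation.ReflTransGen (adjT (T.filter fun t => z ∉ t)) t x) ∧
        (z ∈ x → Relation.ReflTransGen (adjT (T.filter fun t => z ∉ t)) t (o x)) with hPdef
      have hcl : ∀ a b, adjT T a b → P a → P b := by
        intro a b hab hPa
        by_cases hza : z ∈ a
        · have hra := hPa.2 hza
          obtain ⟨hoa, hzoa⟩ := ho a hab.1 hza
          refine ⟨fun hzb => ?_, fun hzb => ?_⟩
          · rw [← opp_unique h hoa hab hza hzoa hzb]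
            exact hra
          · obtain ⟨hob, hzob⟩ := ho b hab.2.1 hzb
            obtain ⟨u, huz, hua, hub⟩ := adjT_at h hab hza hzb
            have hstar := peel_star h h2 hch z hz' u huz (o a) (o b) hoa.2.1 hob.2.1
              (opp_sub h hoa hza hzoa hua huz) (opp_sub h hob hzb hzob hub huz) hzoa hzob
            exact hra.trans (rtg_mono (fun x y (hxy : adjT T x y ∧ (u ∈ x ∧ u ∈ y) ∧ z ∉ x ∧ z ∉ y) =>
              adjT_filter.mpr ⟨hxy.1, hxy.2.2⟩) hstar)
        · have hra := hPa.1 hza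
          refine ⟨fun hzb => hra.tail (adjT_filter.mpr ⟨hab, hza, hzb⟩), fun hzb => ?_⟩
          obtain ⟨hob, hzob⟩ := ho b hab.2.1 hzb
          rw [opp_unique h hob hab.symm hzb hzob hza]
          exact hra
      have := conn_closed h P hcl t ht.1 ⟨fun _ => Relation.ReflTransGen.refl, fun hh => absurd hh ht.2⟩ t' ht'.1
      exact this.1 ht'.2
    · intro v t ht t' ht' hv hv'
      rw [Finset.mem_filter] at ht ht'
      have hvz : v ≠ z := fun hh => ht.2 (hh ▸ hv)
      exact rtg_mono (fun x y (hxy : adjT T x y ∧ (v ∈ x ∧ v ∈ y) ∧ z ∉ x ∧ z ∉ y) =>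
        ⟨adjT_filter.mpr ⟨hxy.1, hxy.2.2⟩, hxy.2.1⟩)
        (peel_star h h2 hch z hz' v hvz t t' ht.1 ht'.1 hv hv' ht.2 ht'.2)
  · intro g' hg'
    choose φ hφ using hg'
    set pick : Finset V → V := fun A => if hA : A.Nonempty then hA.choose else z with hpick
    have hpick1 : ∀ u : V, pick {u} = u := by
      intro u
      have hne : ({u} : Finset V).Nonempty := Finset.singleton_nonempty u
      have : pick {u} ∈ ({u} : Finset V) := by
        rw [hpick]
        simp only [dif_pos hne]
        exact hne.choose_spec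
      exact Finset.mem_singleton.mp this
    set g : Finset V → Finset V → ℝ := fun t t' =>
      if z ∈ t then (if z ∈ t' then φ (pick ((t ∩ t').erase z)) (o t) - φ (pick ((t ∩ t').erase z)) (o t') else 0)
      else (if z ∈ t' then 0 else g' t t') with hg
    have hanti : ∀ t t', adjT T t t' → g t t' = - g t' t := by
      intro t t' hadj
      rw [hg]
      simp only
      by_cases h3 : z ∈ t <;> by_cases h4 : z ∈ t'
      · rw [if_pos h3, if_pos h4, if_pos h4, if_pos h3, Finset.inter_comm t' t]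
        ring
      · rw [if_pos h3, if_neg h4, if_neg h4, if_pos h3]
        ring
      · rw [if_neg h3, if_pos h4, if_pos h4, if_neg h3]
        ring
      · rw [if_neg h3, if_neg h4, if_neg h4, if_neg h3]
        obtain ⟨x, hx, hx'⟩ : ∃ x, x ∈ t ∧ x ∈ t' := by
          obtain ⟨_, _, _, x, y, _, hx, _, hx', _⟩ := hadj
          exact ⟨x, hx, hx'⟩
        rw [hφ x t t' (adjT_filter.mpr ⟨hadj, h3, h4⟩) hx hx',
          hφ x t' t (adjT_filter.mpr ⟨hadj.symm, h4, h3⟩) hx' hx]
        ring
    have hloc : LocEx T g := by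
      intro u
      by_cases huz : u = z
      · subst huz
        exact star_tree h u hz' g hanti
      · refine ⟨fun t => if z ∈ t then φ u (o t) else φ u t, ?_⟩
        intro t t' hadj hut hut'
        rw [hg]
        simp only
        by_cases h3 : z ∈ t <;> by_cases h4 : z ∈ t'
        · rw [if_pos h3, if_pos h4, if_pos h3, if_pos h4]
          have hc := adjT_inter h hadj
          have hzi : z ∈ t ∩ t' := Finset.mem_inter.mpr ⟨h3, h4⟩
          have hui : u ∈ (t ∩ t').erase z := Finset.mem_erase.mpr ⟨huz, Finset.mem_inter.mpr ⟨hut, hut'⟩⟩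
          have hc1 : ((t ∩ t').erase z).card = 1 := by rw [Finset.card_erase_of_mem hzi, hc]
          obtain ⟨w, hw⟩ := Finset.card_eq_one.mp hc1
          have huw : u = w := by rw [hw] at hui; exact Finset.mem_singleton.mp hui
          rw [hw, ← huw, hpick1]
        · rw [if_pos h3, if_neg h4, if_pos h3, if_neg h4]
          obtain ⟨hot, hzot⟩ := ho t hadj.1 h3
          rw [opp_unique h hot hadj h3 hzot h4]
          ring
        · rw [if_neg h3, if_pos h4, if_neg h3, if_pos h4]
          obtain ⟨hot, hzot⟩ := ho t' hadj.2.1 h4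
          rw [opp_unique h hot hadj.symm h4 hzot h3]
          ring
        · rw [if_neg h3, if_neg h4, if_neg h3, if_neg h4]
          exact hφ u t t' (adjT_filter.mpr ⟨hadj, h3, h4⟩) hut hut'
    obtain ⟨Φ, hΦ⟩ := h1 g hloc
    refine ⟨Φ, fun t t' hadj => ?_⟩
    obtain ⟨hadj, h3, h4⟩ := adjT_filter.mp hadj
    rw [← hΦ t t' hadj, hg]
    simp only [if_neg h3, if_neg h4]
  · ext w
    rw [Finset.mem_insert, mem_verts, mem_verts]
    constructor
    · rintro ⟨t, ht, hwt⟩
      by_cases hwz : w = z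
      · exact Or.inl hwz
      · right
        by_cases hzt : z ∈ t
        · refine ⟨o t, hof t ht hzt, ?_⟩
          exact opp_sub h (ho t ht hzt).1 hzt (ho t ht hzt).2 hwt hwz
        · exact ⟨t, Finset.mem_filter.mpr ⟨ht, hzt⟩, hwt⟩
    · rintro (rfl | ⟨t, ht, hwt⟩)
      · exact (mem_verts w).mp hz
      · exact ⟨t, Finset.mem_of_mem_filter t ht, hwt⟩

end BSpl
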