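import Pool.Agent.BSpl.CxSplit
import Pool.Agent.BSpl.CxPeel

/-!
# Bivariate splines, module CxOrder: an ordering of the vertices

PAPER PROOF.  Strong induction on `T.card`, for all `x y`.

`T.card = 1`: `T = {{x, y, z}}`, `ord x = 0`, `ord y = 1`, `ord z = 2` (and anything elsewhere); `VI T = ∅` because all edges are in one
triangle.

`T.card ≥ 2` and there is a chord: `c ≠ d`, `ecount T c d = 2`, `c, d ∉ VI T`. Let `t₀` be the triangle containing `x` and `y`, and `T1`, `T2` as
in `split`. Since `ecount T x y = ecount T1 x y + ecount T2 x y` and `t₀ ∈ T1`, `ecount T1 x y = 1`. Let `ord₁` be the order of `T1`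
for `x y` and `ord₂` that of `T2` for `c d`, `M` larger than all values of `ord₁` on `verts T1`; `ord v = ord₁ v` for
`v ∈ verts T1`, `ord v = M + ord₂ v` otherwise. For `v ∈ verts T2`, `v ≠ c, d` (so `v ∉ verts T1`): neighbours `a` in `T2` with
`ord₂ a < ord₂ v` have `ord a < ord v` (if `a = c` or `d` then `a ∈ verts T1`, `ord a < M`). If `v ∈ VI T` then `v ≠ c, d`; all triangles of `T` at
`v` are in `T1` or all are in `T2`, so `v ∈ VI T1` or `v ∈ VI T2`; in the second case the larger neighbour `e` of `v` for `ord₂` is not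
`c`, `d` as `ord₂ c, ord₂ d < ord₂ v`.

`T.card ≥ 2` without chords: `x ∉ VI T`, so there is `z ≠ y` with `Edge T x z`, `ecount T x z = 1` (`bd_vertex`); then `z ≠ x, y`,
`z ∈ verts T`, `z ∉ VI T` (`not_VI_of_ecount`). Let `T' = T.filter (z ∉ ·)` and use `peel`. The triangle `t₀` containing `x` and `y` does
not contain `z`: otherwise `t₀ = {x, y, z}`; `peel_opp` applied to `t₀` and `z` gives `ecount T x y = 2`, contradiction.
So `ecount T' x y = 1`, `T'.card < T.card`. Let `ord'` be the order of `T'`, `ord z` larger than all other values. A triangle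
at `z` gives two neighbours of `z`. Let `v ∈ VI T`; `v ≠ z`. If `v` is a neighbour of `z` then `z` is the larger neighbour. Otherwise all
triangles of `T` at `v` are in `T'` and `v ∈ VI T'`.
-/

set_option autoImplicit false

namespace BSpl

variable {V : Type} [DecidableEq V]

private lemma ecount_union_aux {T1 T2 : Finset (Finset V)} (hd : Disjoint T1 T2) (a b : V) :
    ecount (T1 ∪ T2) a b = ecount T1 a b + ecount T2 a b := by
  unfold ecount
  rw [Finset.filter_union, Finset.card_union_of_disjoint]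
  exact Finset.disjoint_filter_filter hd

private lemma ecount_mono_aux {T1 T2 : Finset (Finset V)} (hs : T1 ⊆ T2) (a b : V) :
    ecount T1 a b ≤ ecount T2 a b :=
  Finset.card_le_card (Finset.filter_subset_filter _ hs)

private lemma edge_mono_aux {T1 T2 : Finset (Finset V)} (hs : T1 ⊆ T2) {a b : V}
    (h : Edge T1 a b) : Edge T2 a b := by
  obtain ⟨hab, t, ht, h1, h2⟩ := h
  exact ⟨hab, t, hs ht, h1, h2⟩

private lemma edge_left_aux {T : Finset (Finset V)} {a b : V} (h : Edge T a b) : a ∈ verts T := by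
  obtain ⟨_, t, ht, h1, _⟩ := h
  exact (mem_verts a).2 ⟨t, ht, h1⟩

private lemma edge_right_aux {T : Finset (Finset V)} {a b : V} (h : Edge T a b) : b ∈ verts T := by
  obtain ⟨_, t, ht, _, h2⟩ := h
  exact (mem_verts b).2 ⟨t, ht, h2⟩

/-- an interior vertex of `T` whose triangles are all in the part `S` is an interior vertex of `S` -/
private lemma VI_part_aux {T S : Finset (Finset V)} (hs : S ⊆ T) {v : V} (hv : v ∈ VI T)
    (hall : ∀ t ∈ T, v ∈ t → t ∈ S) : v ∈ VI S := by
  rw [mem_VI] at hv ⊢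
  obtain ⟨hv1, hv2⟩ := hv
  refine ⟨?_, ?_⟩
  · obtain ⟨t, ht, hvt⟩ := (mem_verts v).1 hv1
    exact (mem_verts v).2 ⟨t, hall t ht hvt, hvt⟩
  · intro y hy
    have h2 := hv2 y (edge_mono_aux hs hy)
    have : ecount S v y = ecount T v y := by
      unfold ecount
      congr 1
      ext t
      simp only [Finset.mem_filter]
      constructor
      · rintro ⟨ht, h⟩
        exact ⟨hs ht, h⟩
      · rintro ⟨ht, h⟩
        exact ⟨hall t ht h.1, h⟩
    rw [this]
    exact h2

/-- the conclusion of the ordering theorem -/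
private def GoodOrd (T : Finset (Finset V)) (x y : V) (ord : V → ℕ) : Prop :=
  (∀ u ∈ verts T, ∀ v ∈ verts T, ord u = ord v → u = v) ∧
      (∀ v ∈ verts T, v ≠ x → v ≠ y → ord x < ord v ∧ ord y < ord v) ∧
      (∀ v ∈ verts T, v ≠ x → v ≠ y →
        ∃ a b, a ≠ b ∧ Edge T v a ∧ Edge T v b ∧ ord a < ord v ∧ ord b < ord v) ∧
      (∀ v ∈ VI T, ∃ e, Edge T v e ∧ ord v < ord e)

private lemma base_aux (T : Finset (Finset V)) (h : Surf T) (x y : V) (hxy : x ≠ y)
    (hb : ecount T x y = 1) (hT : T.card = 1) : ∃ ord, GoodOrd T x y ord := by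
  obtain ⟨t, rfl⟩ := Finset.card_eq_one.1 hT
  have ht3 : t.card = 3 := h.card3 t (Finset.mem_singleton_self t)
  have hxyt : x ∈ t ∧ y ∈ t := by
    have : (({t} : Finset (Finset V)).filter fun s => x ∈ s ∧ y ∈ s).Nonempty := by
      rw [← Finset.card_pos]
      unfold ecount at hb
      omega
    obtain ⟨s, hs⟩ := this
    simp only [Finset.mem_filter, Finset.mem_singleton] at hs
    obtain ⟨rfl, h1, h2⟩ := hs
    exact ⟨h1, h2⟩
  obtain ⟨hxt, hyt⟩ := hxyt
  -- vertices different from x and y coincide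
  have huniq : ∀ u ∈ t, ∀ v ∈ t, u ≠ x → u ≠ y → v ≠ x → v ≠ y → u = v := by
    intro u hu v hv hux huy hvx hvy
    by_contra huv
    have hsub : ({x, y, u, v} : Finset V) ⊆ t := by
      intro w hw
      simp only [Finset.mem_insert, Finset.mem_singleton] at hw
      rcases hw with rfl | rfl | rfl | rfl <;> assumption
    have hc : ({x, y, u, v} : Finset V).card = 4 := by
      rw [Finset.card_insert_of_notMem, Finset.card_insert_of_notMem,
        Finset.card_insert_of_notMem, Finset.card_singleton]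
      · simpa using huv
      · simp only [Finset.mem_insert, Finset.mem_singleton, not_or]
        exact ⟨fun e => huy e.symm, fun e => hvy e.symm⟩
      · simp only [Finset.mem_insert, Finset.mem_singleton, not_or]
        exact ⟨hxy, fun e => hux e.symm, fun e => hvx e.symm⟩
    have := Finset.card_le_card hsub
    omega
  have hv : ∀ v, v ∈ verts ({t} : Finset (Finset V)) ↔ v ∈ t := by
    intro v
    rw [mem_verts]
    simp
  refine ⟨fun v => if v = x then 0 else if v = y then 1 else 2, ?_, ?_, ?_, ?_⟩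
  · intro u hu v hv' huv
    rw [hv] at hu hv'
    by_cases hux : u = x
    · by_cases hvx : v = x
      · rw [hux, hvx]
      · by_cases hvy : v = y
        · simp [hux, hvy, hxy.symm] at huv
        · simp [hux, hvx, hvy] at huv
    · by_cases huy : u = y
      · by_cases hvx : v = x
        · simp [huy, hvx, hxy.symm] at huv
        · by_cases hvy : v = y
          · rw [huy, hvy]
          · simp [huy, hvx, hvy, hxy.symm] at huv
      · by_cases hvx : v = x
        · simp [hux, huy, hvx] at huv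
        · by_cases hvy : v = y
          · simp [hux, huy, hvy, hxy.symm] at huv
          · exact huniq u hu v hv' hux huy hvx hvy
  · intro v _ hvx hvy
    simp [hvx, hvy, hxy.symm]
  · intro v hv' hvx hvy
    rw [hv] at hv'
    refine ⟨x, y, hxy, ⟨hvx, t, Finset.mem_singleton_self t, hv', hxt⟩,
      ⟨hvy, t, Finset.mem_singleton_self t, hv', hyt⟩, ?_, ?_⟩
    · simp [hvx, hvy]
    · simp [hvx, hvy, hxy.symm]
  · intro v hv'
    exfalso
    rw [mem_VI] at hv'
    obtain ⟨h1, h2⟩ := hv'
    rw [hv] at h1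
    obtain ⟨w, hw, hwv⟩ : ∃ w ∈ t, w ≠ v := by
      by_cases hvx : v = x
      · exact ⟨y, hyt, fun e => hxy (by rw [e, hvx])⟩
      · exact ⟨x, hxt, fun e => hvx e.symm⟩
    have := h2 w ⟨hwv.symm, t, Finset.mem_singleton_self t, h1, hw⟩
    have hle : ecount ({t} : Finset (Finset V)) v w ≤ 1 := by
      unfold ecount
      exact (Finset.card_filter_le _ _).trans (by simp)
    omega

private lemma chord_aux (T T1 T2 : Finset (Finset V)) (x y c d : V)
    (hT : T = T1 ∪ T2) (hdis : Disjoint T1 T2)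
    (hx1 : x ∈ verts T1) (hy1 : y ∈ verts T1)
    (hc1 : c ∈ verts T1) (hd1 : d ∈ verts T1)
    (hcV : c ∉ VI T) (hdV : d ∉ VI T)
    (hcom : ∀ v, v ∈ verts T1 → v ∈ verts T2 → v = c ∨ v = d)
    (ord₁ ord₂ : V → ℕ) (h1 : GoodOrd T1 x y ord₁) (h2 : GoodOrd T2 c d ord₂) :
    ∃ ord, GoodOrd T x y ord := by
  obtain ⟨a1, a2, a3, a4⟩ := h1
  obtain ⟨b1, b2, b3, b4⟩ := h2
  have hs1 : T1 ⊆ T := by rw [hT]; exact Finset.subset_union_left
  have hs2 : T2 ⊆ T := by rw [hT]; exact Finset.subset_union_right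
  have hM : ∃ M : ℕ, ∀ v ∈ verts T1, ord₁ v < M :=
    ⟨(verts T1).sup ord₁ + 1, fun v hv => Nat.lt_succ_of_le (Finset.le_sup (f := ord₁) hv)⟩
  obtain ⟨M, hM⟩ := hM
  have hvT : ∀ v, v ∈ verts T → v ∉ verts T1 → v ∈ verts T2 := by
    intro v hv hv1
    obtain ⟨t, ht, hvt⟩ := (mem_verts v).1 hv
    rw [hT, Finset.mem_union] at ht
    rcases ht with ht | ht
    · exact absurd ((mem_verts v).2 ⟨t, ht, hvt⟩) hv1
    · exact (mem_verts v).2 ⟨t, ht, hvt⟩
  have e1 : ∀ v ∈ verts T1, (if v ∈ verts T1 then ord₁ v else M + ord₂ v) = ord₁ v := by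
    intro v hv
    rw [if_pos hv]
  have e2 : ∀ v, v ∉ verts T1 → (if v ∈ verts T1 then ord₁ v else M + ord₂ v) = M + ord₂ v := by
    intro v hv
    rw [if_neg hv]
  refine ⟨fun v => if v ∈ verts T1 then ord₁ v else M + ord₂ v, ?_, ?_, ?_, ?_⟩
  · intro u hu v hv huv
    simp only at huv
    by_cases hu1 : u ∈ verts T1
    · by_cases hv1 : v ∈ verts T1
      · rw [e1 u hu1, e1 v hv1] at huv
        exact a1 u hu1 v hv1 huv
      · rw [e1 u hu1, e2 v hv1] at huv
        have := hM u hu1
        omega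
    · by_cases hv1 : v ∈ verts T1
      · rw [e2 u hu1, e1 v hv1] at huv
        have := hM v hv1
        omega
      · rw [e2 u hu1, e2 v hv1] at huv
        exact b1 u (hvT u hu hu1) v (hvT v hv hv1) (by omega)
  · intro v hv hvx hvy
    simp only
    rw [e1 x hx1, e1 y hy1]
    by_cases hv1 : v ∈ verts T1
    · rw [e1 v hv1]
      exact a2 v hv1 hvx hvy
    · rw [e2 v hv1]
      have := hM x hx1
      have := hM y hy1
      omega
  · intro v hv hvx hvy
    simp only
    by_cases hv1 : v ∈ verts T1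
    · obtain ⟨a, b, hab, hea, heb, hla, hlb⟩ := a3 v hv1 hvx hvy
      refine ⟨a, b, hab, edge_mono_aux hs1 hea, edge_mono_aux hs1 heb, ?_, ?_⟩
      · rw [e1 v hv1, e1 a (edge_right_aux hea)]
        exact hla
      · rw [e1 v hv1, e1 b (edge_right_aux heb)]
        exact hlb
    · have hv2 := hvT v hv hv1
      have hvc : v ≠ c := fun e => hv1 (e ▸ hc1)
      have hvd : v ≠ d := fun e => hv1 (e ▸ hd1)
      obtain ⟨a, b, hab, hea, heb, hla, hlb⟩ := b3 v hv2 hvc hvd
      have key : ∀ w, ord₂ w < ord₂ v →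
          (if w ∈ verts T1 then ord₁ w else M + ord₂ w) < M + ord₂ v := by
        intro w hw
        by_cases hw1 : w ∈ verts T1
        · rw [e1 w hw1]
          have := hM w hw1
          omega
        · rw [e2 w hw1]
          omega
      refine ⟨a, b, hab, edge_mono_aux hs2 hea, edge_mono_aux hs2 heb, ?_, ?_⟩
      · rw [e2 v hv1]
        exact key a hla
      · rw [e2 v hv1]
        exact key b hlb
  · intro v hv
    simp only
    have hvc : v ≠ c := fun e => hcV (e ▸ hv)
    have hvd : v ≠ d := fun e => hdV (e ▸ hv)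
    by_cases hv1 : v ∈ verts T1
    · -- all triangles at v are in T1
      have hv2 : v ∉ verts T2 := by
        intro hv2
        rcases hcom v hv1 hv2 with h | h
        · exact hvc h
        · exact hvd h
      have hVI : v ∈ VI T1 := by
        refine VI_part_aux hs1 hv ?_
        intro t ht hvt
        rw [hT, Finset.mem_union] at ht
        rcases ht with ht | ht
        · exact ht
        · exact absurd ((mem_verts v).2 ⟨t, ht, hvt⟩) hv2
      obtain ⟨e, he, hlt⟩ := a4 v hVI
      refine ⟨e, edge_mono_aux hs1 he, ?_⟩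
      rw [e1 v hv1, e1 e (edge_right_aux he)]
      exact hlt
    · have hVI : v ∈ VI T2 := by
        refine VI_part_aux hs2 hv ?_
        intro t ht hvt
        rw [hT, Finset.mem_union] at ht
        rcases ht with ht | ht
        · exact absurd ((mem_verts v).2 ⟨t, ht, hvt⟩) hv1
        · exact ht
      have hv2 : v ∈ verts T2 := ((mem_VI v).1 hVI).1
      obtain ⟨e, he, hlt⟩ := b4 v hVI
      refine ⟨e, edge_mono_aux hs2 he, ?_⟩
      have hcd := b2 v hv2 hvc hvd
      have he1 : e ∉ verts T1 := by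
        intro he1
        rcases hcom e he1 (edge_right_aux he) with h | h
        · rw [h] at hlt
          omega
        · rw [h] at hlt
          omega
      rw [e2 v hv1, e2 e he1]
      omega

private lemma peel_aux (T : Finset (Finset V)) (h3 : ∀ t ∈ T, t.card = 3) (x y z : V)
    (hz : z ∈ verts T) (hzV : z ∉ VI T) (hzx : z ≠ x) (hzy : z ≠ y)
    (hv : verts T = insert z (verts (T.filter fun t => z ∉ t)))
    (ord' : V → ℕ) (h1 : GoodOrd (T.filter fun t => z ∉ t) x y ord')
    (hx' : x ∈ verts (T.filter fun t => z ∉ t)) (hy' : y ∈ verts (T.filter fun t => z ∉ t)) :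
    ∃ ord, GoodOrd T x y ord := by
  obtain ⟨a1, a2, a3, a4⟩ := h1
  have hs : (T.filter fun t => z ∉ t) ⊆ T := Finset.filter_subset _ _
  have hz' : z ∉ verts (T.filter fun t => z ∉ t) := by
    intro hh
    obtain ⟨t, ht, hzt⟩ := (mem_verts z).1 hh
    exact (Finset.mem_filter.1 ht).2 hzt
  have hM : ∃ M : ℕ, ∀ v ∈ verts (T.filter fun t => z ∉ t), ord' v < M :=
    ⟨(verts (T.filter fun t => z ∉ t)).sup ord' + 1,
      fun v hv => Nat.lt_succ_of_le (Finset.le_sup (f := ord') hv)⟩
  obtain ⟨M, hM⟩ := hM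
  have hcase : ∀ v ∈ verts T, v ≠ z → v ∈ verts (T.filter fun t => z ∉ t) := by
    intro v hv' hvz
    rw [hv, Finset.mem_insert] at hv'
    exact hv'.resolve_left hvz
  have hne : ∀ v ∈ verts (T.filter fun t => z ∉ t), v ≠ z := fun v hv' e => hz' (e ▸ hv')
  have e2 : ∀ v, v ≠ z → (if v = z then M else ord' v) = ord' v := by
    intro v hvz
    rw [if_neg hvz]
  refine ⟨fun v => if v = z then M else ord' v, ?_, ?_, ?_, ?_⟩
  · intro u hu v hv' huv
    simp only at huv
    by_cases huz : u = z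
    · by_cases hvz : v = z
      · rw [huz, hvz]
      · rw [if_pos huz, e2 v hvz] at huv
        have := hM v (hcase v hv' hvz)
        omega
    · by_cases hvz : v = z
      · rw [if_pos hvz, e2 u huz] at huv
        have := hM u (hcase u hu huz)
        omega
      · rw [e2 u huz, e2 v hvz] at huv
        exact a1 u (hcase u hu huz) v (hcase v hv' hvz) huv
  · intro v hv' hvx hvy
    simp only
    rw [e2 x (hne x hx'), e2 y (hne y hy')]
    by_cases hvz : v = z
    · rw [if_pos hvz]
      exact ⟨hM x hx', hM y hy'⟩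
    · rw [e2 v hvz]
      exact a2 v (hcase v hv' hvz) hvx hvy
  · intro v hv' hvx hvy
    simp only
    by_cases hvz : v = z
    · rw [if_pos hvz]
      obtain ⟨t, ht, hzt⟩ := (mem_verts z).1 hz
      have hc : 1 < (t.erase z).card := by
        rw [Finset.card_erase_of_mem hzt, h3 t ht]
        omega
      obtain ⟨a, ha, b, hb, hab⟩ := Finset.one_lt_card.1 hc
      rw [Finset.mem_erase] at ha hb
      refine ⟨a, b, hab, ⟨?_, t, ht, ?_, ha.2⟩, ⟨?_, t, ht, ?_, hb.2⟩, ?_, ?_⟩
      · rw [hvz]; exact ha.1.symm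
      · rw [hvz]; exact hzt
      · rw [hvz]; exact hb.1.symm
      · rw [hvz]; exact hzt
      · rw [e2 a ha.1]
        exact hM a (hcase a ((mem_verts a).2 ⟨t, ht, ha.2⟩) ha.1)
      · rw [e2 b hb.1]
        exact hM b (hcase b ((mem_verts b).2 ⟨t, ht, hb.2⟩) hb.1)
    · obtain ⟨a, b, hab, hea, heb, hla, hlb⟩ := a3 v (hcase v hv' hvz) hvx hvy
      refine ⟨a, b, hab, edge_mono_aux hs hea, edge_mono_aux hs heb, ?_, ?_⟩
      · rw [e2 v hvz, e2 a (hne a (edge_right_aux hea))]
        exact hla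
      · rw [e2 v hvz, e2 b (hne b (edge_right_aux heb))]
        exact hlb
  · intro v hvV
    simp only
    have hvz : v ≠ z := fun e => hzV (e ▸ hvV)
    have hv' : v ∈ verts T := ((mem_VI v).1 hvV).1
    by_cases hed : Edge T v z
    · refine ⟨z, hed, ?_⟩
      rw [if_pos rfl, e2 v hvz]
      exact hM v (hcase v hv' hvz)
    · have hVI : v ∈ VI (T.filter fun t => z ∉ t) := by
        refine VI_part_aux hs hvV ?_
        intro t ht hvt
        rw [Finset.mem_filter]
        exact ⟨ht, fun hzt => hed ⟨hvz, t, ht, hvt, hzt⟩⟩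
      obtain ⟨e, he, hlt⟩ := a4 v hVI
      refine ⟨e, edge_mono_aux hs he, ?_⟩
      rw [e2 v hvz, e2 e (hne e (edge_right_aux he))]
      exact hlt

private lemma ecount_pos_aux {T : Finset (Finset V)} {x y : V} (hb : ecount T x y = 1) :
    ∃ t ∈ T, x ∈ t ∧ y ∈ t := by
  have : (T.filter fun s => x ∈ s ∧ y ∈ s).Nonempty := by
    rw [← Finset.card_pos]
    unfold ecount at hb
    omega
  obtain ⟨s, hs⟩ := this
  rw [Finset.mem_filter] at hs
  exact ⟨s, hs.1, hs.2⟩

private lemma order_aux (n : ℕ) : ∀ (T : Finset (Finset V)), T.card = n → Surf T → H1 T →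
    ∀ x y : V, x ≠ y → ecount T x y = 1 → ∃ ord, GoodOrd T x y ord := by
  induction n using Nat.strong_induction_on with
  | _ n ih =>
    intro T hn h h1 x y hxy hb
    obtain ⟨t₀, ht₀, hx0, hy0⟩ := ecount_pos_aux hb
    have hpos : 1 ≤ T.card := Finset.card_pos.2 ⟨t₀, ht₀⟩
    by_cases hc1 : T.card = 1
    · exact base_aux T h x y hxy hb hc1
    have h2 : 2 ≤ T.card := by omega
    by_cases hch : ∀ c d, c ≠ d → ecount T c d = 2 → c ∈ VI T ∨ d ∈ VI T
    · -- no chords
      obtain ⟨hxv, hyv, hxV, hyV⟩ := not_VI_of_ecount hxy hb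
      obtain ⟨z, hzy, hez, hec⟩ := bd_vertex h x y hxv hxV
      have hxz : x ≠ z := hez.1
      obtain ⟨-, hzv, -, hzV⟩ := not_VI_of_ecount hxz hec
      obtain ⟨hne, hS, hH, hver⟩ := peel h h1 h2 hch z hzv hzV
      have hzt0 : z ∉ t₀ := by
        intro hz0
        have := peel_opp h h2 hch z hzV t₀ ht₀ hz0 x y hx0 hy0 hxz (fun e => hzy e.symm) hxy
        omega
      have ht0' : t₀ ∈ T.filter fun t => z ∉ t := Finset.mem_filter.2 ⟨ht₀, hzt0⟩
      have hcard : (T.filter fun t => z ∉ t).card < n := by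
        rw [← hn]
        apply Finset.card_lt_card
        rw [Finset.ssubset_iff_of_subset (Finset.filter_subset _ _)]
        obtain ⟨t, ht, hzt⟩ := (mem_verts z).1 hzv
        exact ⟨t, ht, fun hh => (Finset.mem_filter.1 hh).2 hzt⟩
      have hb' : ecount (T.filter fun t => z ∉ t) x y = 1 := by
        apply le_antisymm
        · rw [← hb]
          exact ecount_mono_aux (Finset.filter_subset _ _) x y
        · exact Finset.card_pos.2 ⟨t₀, Finset.mem_filter.2 ⟨ht0', hx0, hy0⟩⟩
      obtain ⟨ord', hord'⟩ := ih _ hcard _ rfl hS hH x y hxy hb'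
      exact peel_aux T h.card3 x y z hzv hzV hxz.symm hzy hver ord' hord'
        ((mem_verts x).2 ⟨t₀, ht0', hx0⟩) ((mem_verts y).2 ⟨t₀, ht0', hy0⟩)
    · push Not at hch
      obtain ⟨c, d, hcd, he, hc, hd⟩ := hch
      obtain ⟨T1, T2, hT, hdis, ht01, hne1, hne2, hS1, hS2, hH1, hH2, he1, he2, hcom⟩ :=
        split h h1 c d hcd he hc hd t₀ ht₀
      have hcardT : T.card = T1.card + T2.card := by
        rw [hT, Finset.card_union_of_disjoint hdis]
      have hp1 := Finset.card_pos.2 hne1
      have hp2 := Finset.card_pos.2 hne2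
      have hb1 : ecount T1 x y = 1 := by
        apply le_antisymm
        · rw [← hb]
          exact ecount_mono_aux (by rw [hT]; exact Finset.subset_union_left) x y
        · exact Finset.card_pos.2 ⟨t₀, Finset.mem_filter.2 ⟨ht01, hx0, hy0⟩⟩
      obtain ⟨ord₁, ho1⟩ := ih T1.card (by omega) T1 rfl hS1 hH1 x y hxy hb1
      obtain ⟨ord₂, ho2⟩ := ih T2.card (by omega) T2 rfl hS2 hH2 c d hcd he2
      obtain ⟨s, hs, hcs, hds⟩ := ecount_pos_aux he1
      exact chord_aux T T1 T2 x y c d hT hdis ((mem_verts x).2 ⟨t₀, ht01, hx0⟩)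
        ((mem_verts y).2 ⟨t₀, ht01, hy0⟩) ((mem_verts c).2 ⟨s, hs, hcs⟩)
        ((mem_verts d).2 ⟨s, hs, hds⟩) hc hd hcom ord₁ ord₂ ho1 ho2

theorem order_exists (T : Finset (Finset V)) (h : Surf T) (h1 : H1 T) (x y : V) (hxy : x ≠ y)
    (hb : ecount T x y = 1) :
    ∃ ord : V → ℕ, (∀ u ∈ verts T, ∀ v ∈ verts T, ord u = ord v → u = v) ∧
      (∀ v ∈ verts T, v ≠ x → v ≠ y → ord x < ord v ∧ ord y < ord v) ∧
      (∀ v ∈ verts T, v ≠ x → v ≠ y →
        ∃ a b, a ≠ b ∧ Edge T v a ∧ Edge T v b ∧ ord a < ord v ∧ ord b < ord v) ∧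
      (∀ v ∈ VI T, ∃ e, Edge T v e ∧ ord v < ord e) :=
  order_aux T.card T rfl h h1 x y hxy hb

end BSpl
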