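import Pool.Agent.BSpl.CxStar

/-!
# Bivariate splines, module CxSplit: cutting a disc along a chord

Let `c d` be an interior edge (in two triangles `t₁`, `t₂`) whose ends are boundary vertices.

PAPER PROOF.  Let `g` be the cochain with `g t₁ t₂ = 1`, `g t₂ t₁ = -1` and `0` for all other pairs. It is antisymmetric and
exact around every vertex: around `v ∈ VI T` or more generally `v ≠ c, d` it is zero on the adjacent pairs at `v` (if `v ∈ t₁` and
`v ∈ t₂`, `v ∈ t₁ ∩ t₂ = {c, d}`), for `v = c, d` use `star_tree`. By `H1 T` there is `φ` with `φ t₁ - φ t₂ = 1` and `φ t = φ t'`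
for all other adjacent pairs. Let `P = {t ∈ T | φ t = φ t₁}`, `Q = T \ P`. Then `t₁ ∈ P`, `t₂ ∈ Q`, and the only adjacent pairs between `P` and
`Q` are `(t₁, t₂)` and `(t₂, t₁)`. `T1` is the one of `P`, `Q` which contains `t₀`, `T2` the other one. (Everything below is symmetric
in `P` and `Q`.)

`ecount P c d = 1 = ecount Q c d`: the triangles containing `c` and `d` are `t₁`, `t₂`.

`P` is connected: let `t, t' ∈ P`. Consider a chain of adjacent triangles of `T` from `t` to `t'`. Prove by induction along the chain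
(`Relation.ReflTransGen.head_induction_on` or similar): for every `s` reachable from `t` in `T`, the triangle `s* := if s ∈ P then s else t₁` is
reachable from `t` inside `P` (an adjacent pair of `T` is: both in `P`; both in `Q`, then `s* = s'* = t₁`; or `(t₁, t₂)`, `(t₂, t₁)`,
again `s* = s'* = t₁`). Note `adjT P t t' ↔ adjT T t t' ∧ t ∈ P ∧ t' ∈ P`.

Common vertices: let `v ≠ c, d` be a vertex of `P` and of `Q`. By `Surf.star` the triangles of `T` at `v` are connected by adjacent pairs at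
`v`, none of which is `(t₁, t₂)` (as `v ∉ t₁ ∩ t₂ = {c, d}`), so `φ` is constant on the star of `v`: contradiction. So
for `v ≠ c, d` the star of `v` is contained in `P` or in `Q`, and stays connected. For `v = c` or `d` and `t, t' ∈ P` at `v`: same
argument as for the connectedness of `P` (replace the triangles of `Q` at `v` by `t₁`), along a chain of adjacent pairs at `v`.
So `Surf P` (`card3`, `le2` are clear).

`H1 P`: let `g'` be locally exact for `P`. Let `g t t' = g' t t'` if `t, t' ∈ P`, and `0` otherwise. It is antisymmetric on adjacent pairs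
(two adjacent triangles have a common vertex, use local exactness there). It is locally exact for `T`: for `v ≠ c, d` the star of
`v` is in `P` (use `g'`) or in `Q` (zero); for `v = c, d` use `star_tree`. So `g` is exact on `T`, `g'` is exact on `P`.
-/

set_option autoImplicit false

namespace BSpl

variable {V : Type} [DecidableEq V] {T : Finset (Finset V)}

/-- one of the two parts of the cut -/
structure SplHalf (T P : Finset (Finset V)) (tP tQ : Finset V) (c d : V) : Prop where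
  sub : P ⊆ T
  mP : tP ∈ P
  mQ : tQ ∈ T
  nQ : tQ ∉ P
  ne : c ≠ d
  adj : adjT T tP tQ
  cP : c ∈ tP
  dP : d ∈ tP
  cQ : c ∈ tQ
  dQ : d ∈ tQ
  cross : ∀ t ∈ P, ∀ t' ∈ T, t' ∉ P → adjT T t t' → t = tP ∧ t' = tQ

theorem spl_inter (h : Surf T) {t t' : Finset V} (ht : adjT T t t') {c d v : V} (hcd : c ≠ d)
    (h1 : c ∈ t) (h2 : d ∈ t) (h3 : c ∈ t') (h4 : d ∈ t') (hv : v ∈ t) (hv' : v ∈ t') :
    v = c ∨ v = d := by
  by_contra hne
  push Not at hne
  have hc := adjT_inter h ht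
  have hs : ({c, d, v} : Finset V) ⊆ t ∩ t' := by
    intro x hx
    simp only [Finset.mem_insert, Finset.mem_singleton] at hx
    rw [Finset.mem_inter]
    rcases hx with rfl | rfl | rfl
    · exact ⟨h1, h3⟩
    · exact ⟨h2, h4⟩
    · exact ⟨hv, hv'⟩
  have h3 : ({c, d, v} : Finset V).card = 3 :=
    Finset.card_eq_three.2 ⟨c, d, v, hcd, hne.1.symm, hne.2.symm, rfl⟩
  have := Finset.card_le_card hs
  omega

theorem SplHalf.symm {P : Finset (Finset V)} {tP tQ : Finset V} {c d : V}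
    (H : SplHalf T P tP tQ c d) : SplHalf T (T \ P) tQ tP c d where
  sub := Finset.sdiff_subset
  mP := Finset.mem_sdiff.2 ⟨H.mQ, H.nQ⟩
  mQ := H.sub H.mP
  nQ := fun h => (Finset.mem_sdiff.1 h).2 H.mP
  ne := H.ne
  adj := H.adj.symm
  cP := H.cQ
  dP := H.dQ
  cQ := H.cP
  dQ := H.dP
  cross := by
    intro t ht t' ht' hn ha
    have h1 : t' ∈ P := by
      by_contra h
      exact hn (Finset.mem_sdiff.2 ⟨ht', h⟩)
    have h2 := Finset.mem_sdiff.1 ht
    obtain ⟨h3, h4⟩ := H.cross t' h1 t h2.1 h2.2 ha.symm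
    exact ⟨h4, h3⟩

section
variable {P : Finset (Finset V)} {tP tQ : Finset V} {c d : V}

theorem SplHalf.star (h : Surf T) (H : SplHalf T P tP tQ c d) {v : V} (hc : v ≠ c) (hd : v ≠ d)
    {t t' : Finset V} (ht : t ∈ P) (ht' : t' ∈ T) (hv : v ∈ t) (hv' : v ∈ t') : t' ∈ P := by
  have hch := h.star v t (H.sub ht) t' ht' hv hv'
  clear hv'
  induction hch with
  | refl => exact ht
  | @tail a b hab hb ih =>
    have ha : a ∈ P := ih hb.1.1
    by_contra hn
    obtain ⟨e1, e2⟩ := H.cross a ha b hb.1.2.1 hn hb.1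
    have := spl_inter h H.adj H.ne H.cP H.dP H.cQ H.dQ (e1 ▸ hb.2.1) (e2 ▸ hb.2.2)
    rcases this with h1 | h1
    · exact hc h1
    · exact hd h1

theorem SplHalf.chain (H : SplHalf T P tP tQ c d) (X : Finset V → Finset V → Prop)
    {t t' : Finset V} (hch : Relation.ReflTransGen (fun a b => adjT T a b ∧ X a b) t t') :
    Relation.ReflTransGen (fun a b => adjT P a b ∧ X a b) (if t ∈ P then t else tP)
      (if t' ∈ P then t' else tP) := by
  induction hch with
  | refl => exact Relation.ReflTransGen.refl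
  | @tail a b hab hb ih =>
    refine ih.trans ?_
    by_cases ha : a ∈ P
    · by_cases hb' : b ∈ P
      · rw [if_pos ha, if_pos hb']
        exact Relation.ReflTransGen.single ⟨⟨ha, hb', hb.1.2.2⟩, hb.2⟩
      · obtain ⟨e1, e2⟩ := H.cross a ha b hb.1.2.1 hb' hb.1
        rw [if_pos ha, if_neg hb', e1]
    · by_cases hb' : b ∈ P
      · obtain ⟨e1, e2⟩ := H.cross b hb' a hb.1.1 ha hb.1.symm
        rw [if_neg ha, if_pos hb', e1]
      · rw [if_neg ha, if_neg hb']

theorem SplHalf.surf (h : Surf T) (H : SplHalf T P tP tQ c d) : Surf P where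
  card3 := fun t ht => h.card3 t (H.sub ht)
  le2 := fun x y hxy => (Finset.card_le_card (Finset.filter_subset_filter _ H.sub)).trans
    (h.le2 x y hxy)
  conn := by
    intro t ht t' ht'
    have h1 := h.conn t (H.sub ht) t' (H.sub ht')
    have h2 := H.chain (fun _ _ => True)
      (Relation.ReflTransGen.mono (fun a b hab => (⟨hab, trivial⟩ : adjT T a b ∧ True)) _ _ h1)
    rw [if_pos ht, if_pos ht'] at h2
    exact Relation.ReflTransGen.mono (fun a b hab => hab.1) _ _ h2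
  star := by
    intro v t ht t' ht' hv hv'
    have h2 := H.chain (fun a b => v ∈ a ∧ v ∈ b) (h.star v t (H.sub ht) t' (H.sub ht') hv hv')
    rw [if_pos ht, if_pos ht'] at h2
    exact h2

theorem SplHalf.h1 (h : Surf T) (h1 : H1 T) (H : SplHalf T P tP tQ c d) (hc : c ∉ VI T)
    (hd : d ∉ VI T) : H1 P := by
  intro g' hg'
  have hanti : ∀ t t', adjT P t t' → g' t t' = - g' t' t := by
    intro t t' ha
    obtain ⟨h1, h2, h3, x, y, hxy, hx, hy, hx', hy'⟩ := ha
    obtain ⟨φ, hφ⟩ := hg' x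
    rw [hφ t t' ⟨h1, h2, h3, x, y, hxy, hx, hy, hx', hy'⟩ hx hx',
      hφ t' t ⟨h2, h1, h3.symm, x, y, hxy, hx', hy', hx, hy⟩ hx' hx]
    ring
  let g : Finset V → Finset V → ℝ := fun t t' => if t ∈ P ∧ t' ∈ P then g' t t' else 0
  have hganti : ∀ t t', adjT T t t' → g t t' = - g t' t := by
    intro t t' ha
    show (if t ∈ P ∧ t' ∈ P then g' t t' else 0) = -(if t' ∈ P ∧ t ∈ P then g' t' t else 0)
    by_cases hP : t ∈ P ∧ t' ∈ P
    · rw [if_pos hP, if_pos hP.symm]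
      exact hanti t t' ⟨hP.1, hP.2, ha.2.2⟩
    · rw [if_neg hP, if_neg (fun hh => hP hh.symm)]
      ring
  have hloc : LocEx T g := by
    intro v
    by_cases hvc : v = c
    · exact star_tree h v (hvc ▸ hc) g hganti
    by_cases hvd : v = d
    · exact star_tree h v (hvd ▸ hd) g hganti
    by_cases hex : ∃ t ∈ P, v ∈ t
    · obtain ⟨t₀, ht₀, hv₀⟩ := hex
      obtain ⟨φ, hφ⟩ := hg' v
      refine ⟨φ, fun t t' ha hv hv' => ?_⟩
      have hP : t ∈ P := H.star h hvc hvd ht₀ ha.1 hv₀ hv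
      have hP' : t' ∈ P := H.star h hvc hvd ht₀ ha.2.1 hv₀ hv'
      show (if t ∈ P ∧ t' ∈ P then g' t t' else 0) = φ t - φ t'
      rw [if_pos ⟨hP, hP'⟩]
      exact hφ t t' ⟨hP, hP', ha.2.2⟩ hv hv'
    · refine ⟨fun _ => 0, fun t t' ha hv hv' => ?_⟩
      show (if t ∈ P ∧ t' ∈ P then g' t t' else 0) = (0 : ℝ) - 0
      rw [if_neg (fun hP => hex ⟨t, hP.1, hv⟩)]
      ring
  obtain ⟨φ, hφ⟩ := h1 g hloc
  refine ⟨φ, fun t t' ha => ?_⟩
  have h2 := hφ t t' ⟨H.sub ha.1, H.sub ha.2.1, ha.2.2⟩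
  have h3 : g t t' = g' t t' := if_pos ⟨ha.1, ha.2.1⟩
  rw [← h3, h2]

theorem SplHalf.ecount (h : Surf T) (H : SplHalf T P tP tQ c d) : ecount P c d = 1 := by
  unfold BSpl.ecount
  rw [Finset.card_eq_one]
  refine ⟨tP, Finset.eq_singleton_iff_unique_mem.2 ⟨Finset.mem_filter.2 ⟨H.mP, H.cP, H.dP⟩, ?_⟩⟩
  intro s hs
  obtain ⟨hsP, hsc, hsd⟩ := Finset.mem_filter.1 hs
  rcases (adjT_pair h H.adj H.ne H.cP H.dP H.cQ H.dQ).2 s (H.sub hsP) hsc hsd with h1 | h1
  · exact h1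
  · exact absurd (h1 ▸ hsP) H.nQ

theorem SplHalf.common (h : Surf T) (H : SplHalf T P tP tQ c d) {v : V} (hv : v ∈ verts P)
    (hv' : v ∈ verts (T \ P)) : v = c ∨ v = d := by
  by_contra hne
  push Not at hne
  obtain ⟨t, ht, hvt⟩ := (mem_verts v).1 hv
  obtain ⟨t', ht', hvt'⟩ := (mem_verts v).1 hv'
  have h2 := Finset.mem_sdiff.1 ht'
  exact h2.2 (H.star h hne.1 hne.2 ht h2.1 hvt hvt')

end

theorem exists_splHalf (h : Surf T) (h1 : H1 T) (c d : V) (hcd : c ≠ d) (he : ecount T c d = 2)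
    (hc : c ∉ VI T) (hd : d ∉ VI T) : ∃ P tP tQ, SplHalf T P tP tQ c d := by
  classical
  obtain ⟨t₁, t₂, ha, hc1, hd1, hc2, hd2⟩ := ecount_two hcd he
  have hne : t₁ ≠ t₂ := ha.2.2.1
  let g : Finset V → Finset V → ℝ := fun t t' =>
    if t = t₁ ∧ t' = t₂ then 1 else if t = t₂ ∧ t' = t₁ then -1 else 0
  have g12 : g t₁ t₂ = 1 := if_pos ⟨rfl, rfl⟩
  have g21 : g t₂ t₁ = -1 := by
    show (if t₂ = t₁ ∧ t₁ = t₂ then (1 : ℝ) else if t₂ = t₂ ∧ t₁ = t₁ then -1 else 0) = -1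
    rw [if_neg (fun hh => hne hh.2), if_pos ⟨rfl, rfl⟩]
  have g0 : ∀ t t', ¬ (t = t₁ ∧ t' = t₂) → ¬ (t = t₂ ∧ t' = t₁) → g t t' = 0 := by
    intro t t' e1 e2
    show (if t = t₁ ∧ t' = t₂ then (1 : ℝ) else if t = t₂ ∧ t' = t₁ then -1 else 0) = 0
    rw [if_neg e1, if_neg e2]
  have hganti : ∀ t t', adjT T t t' → g t t' = - g t' t := by
    intro t t' _
    by_cases e1 : t = t₁ ∧ t' = t₂
    · rw [e1.1, e1.2, g12, g21]; ring
    by_cases e2 : t = t₂ ∧ t' = t₁
    · rw [e2.1, e2.2, g12, g21]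
    rw [g0 t t' e1 e2, g0 t' t (fun hh => e2 hh.symm) (fun hh => e1 hh.symm)]
    ring
  have hloc : LocEx T g := by
    intro v
    by_cases hvc : v = c
    · exact star_tree h v (hvc ▸ hc) g hganti
    by_cases hvd : v = d
    · exact star_tree h v (hvd ▸ hd) g hganti
    refine ⟨fun _ => 0, fun t t' ht hv hv' => ?_⟩
    rw [sub_zero]
    refine g0 t t' (fun e => ?_) (fun e => ?_)
    · rcases spl_inter h ha hcd hc1 hd1 hc2 hd2 (e.1 ▸ hv) (e.2 ▸ hv') with h1 | h1
      · exact hvc h1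
      · exact hvd h1
    · rcases spl_inter h ha hcd hc1 hd1 hc2 hd2 (e.2 ▸ hv') (e.1 ▸ hv) with h1 | h1
      · exact hvc h1
      · exact hvd h1
  obtain ⟨φ, hφ⟩ := h1 g hloc
  have e12 : φ t₁ - φ t₂ = 1 := by rw [← hφ t₁ t₂ ha, g12]
  refine ⟨T.filter fun t => φ t = φ t₁, t₁, t₂, ⟨Finset.filter_subset _ _,
    Finset.mem_filter.2 ⟨ha.1, rfl⟩, ha.2.1, ?_, hcd, ha, hc1, hd1, hc2, hd2, ?_⟩⟩
  · intro hh
    have := (Finset.mem_filter.1 hh).2
    rw [this] at e12
    norm_num at e12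
  · intro t ht t' ht' hn hadj
    obtain ⟨htT, htφ⟩ := Finset.mem_filter.1 ht
    have hφ' : φ t' ≠ φ t₁ := fun e => hn (Finset.mem_filter.2 ⟨ht', e⟩)
    have h3 := hφ t t' hadj
    by_cases e1 : t = t₁ ∧ t' = t₂
    · exact e1
    by_cases e2 : t = t₂ ∧ t' = t₁
    · exact absurd (congrArg φ e2.2) hφ'
    rw [g0 t t' e1 e2] at h3
    exact absurd (by linarith) hφ'

theorem split (h : Surf T) (h1 : H1 T) (c d : V) (hcd : c ≠ d) (he : ecount T c d = 2)
    (hc : c ∉ VI T) (hd : d ∉ VI T) (t₀ : Finset V) (ht₀ : t₀ ∈ T) :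
    ∃ T1 T2 : Finset (Finset V), T = T1 ∪ T2 ∧ Disjoint T1 T2 ∧ t₀ ∈ T1 ∧ T1.Nonempty ∧ T2.Nonempty ∧
      Surf T1 ∧ Surf T2 ∧ H1 T1 ∧ H1 T2 ∧ ecount T1 c d = 1 ∧ ecount T2 c d = 1 ∧
      ∀ v, v ∈ verts T1 → v ∈ verts T2 → v = c ∨ v = d := by
  obtain ⟨P, tP, tQ, H⟩ := exists_splHalf h h1 c d hcd he hc hd
  have hU : T = P ∪ T \ P := by rw [Finset.union_sdiff_of_subset H.sub]
  by_cases h0 : t₀ ∈ P
  · exact ⟨P, T \ P, hU, Finset.disjoint_sdiff, h0, ⟨_, H.mP⟩, ⟨_, H.symm.mP⟩, H.surf h,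
      H.symm.surf h, H.h1 h h1 hc hd, H.symm.h1 h h1 hc hd, H.ecount h, H.symm.ecount h,
      fun v hv hv' => H.common h hv hv'⟩
  · exact ⟨T \ P, P, by rw [Finset.union_comm]; exact hU, Finset.sdiff_disjoint,
      Finset.mem_sdiff.2 ⟨ht₀, h0⟩, ⟨_, H.symm.mP⟩, ⟨_, H.mP⟩, H.symm.surf h, H.surf h,
      H.symm.h1 h h1 hc hd, H.h1 h h1 hc hd, H.symm.ecount h, H.ecount h,
      fun v hv hv' => H.common h hv' hv⟩

end BSpl
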