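import Pool.Agent.BSpl.CxBasic
import Pool.Agent.BSpl.CxGraph

/-!
# Bivariate splines, module CxStar: the star of a vertex

PAPER PROOFS.  Let `v ∈ verts T`, `S` the set of triangles containing `v` (a nonempty finite set), `R = adjT T`. By `Surf.star` the graph
`(S, R)` is connected (`GConn`). Two adjacent triangles `t, t' ∈ S` share exactly one edge `{v, y}` at `v` (`adjT_at`, `adjT_inter`), and
`ecount T v y = 2`; conversely a neighbour `y` with `ecount T v y = 2` gives exactly two ordered adjacent pairs. So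
`(prs S R).card = 2 * N₂`, with `N₂` the number of `y ∈ nbrs T v` with `ecount = 2`; let `N₁` be the number of those with `ecount = 1`.
By `star_sum`, `N₁ + 2 * N₂ = 2 * |S|`; by `conn_count`, `2 |S| ≤ 2 N₂ + 2`, so `N₁ ≤ 2` and `N₁` is even: `bd_count`. If `v ∉ VI T` then
`N₁ ≠ 0` (`Surf.le2`), so `N₁ = 2` and `2 N₂ = 2 |S| - 2`: `star_tree` follows from `tree_exact`.

`star_cycle`: `v ∈ VI T`. Each triangle `t = {v, y, z} ∈ S` has exactly two adjacent triangles in `S`, the other triangle at the edge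
`v y` and the other triangle at `v z`; they are different, since a triangle containing `v, y, z` is `t`. So the graph is
`2`-regular and `cycle_exact` applies, giving `lam₀ : Finset V → Finset V → ℝ`. Put
`lam y = 2 * lam₀ (tp {v, y}) (tm {v, y})` for `y ∈ nbrs T v` (and `1` for the other `y`). The sum over ordered pairs is the sum over
`y ∈ nbrs T v` of the two terms of the pairs `(tp {v, y}, tm {v, y})` and `(tm {v, y}, tp {v, y})`, which are equal.

`bd_vertex`: `v ∉ VI T`, `v ∈ verts T` : there are exactly two boundary edges at `v`, so for each neighbour `x` there is another one.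
`card_bdry`: double counting of the pairs (boundary vertex, boundary edge at it): each boundary vertex is on exactly two boundary
edges (`bd_count`), each boundary edge `{x, y}` has two ends, which are not in `VI T`.
-/

set_option autoImplicit false

namespace BSpl

variable {V : Type} [DecidableEq V] {T : Finset (Finset V)}

/-- `tp e` and `tm e` are the two triangles at the interior edge `e` -/
structure Orient (T : Finset (Finset V)) (tp tm : Finset V → Finset V) : Prop where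
  adj : ∀ e ∈ EI T, adjT T (tp e) (tm e)
  sp : ∀ e ∈ EI T, e ⊆ tp e
  sm : ∀ e ∈ EI T, e ⊆ tm e

private theorem ecount_le (h : Surf T) {v y : V} (hy : y ∈ nbrs T v) :
    ecount T v y = 1 ∨ ecount T v y = 2 := by
  have h1 := (mem_nbrs (T := T) v y).1 hy
  have h2 := (edge_iff (T := T) v y).1 h1
  have h3 := h.le2 v y h2.1
  omega

theorem exists_orient (T : Finset (Finset V)) : ∃ tp tm, Orient T tp tm := by
  classical
  have key : ∀ e : Finset V, ∃ p : Finset V × Finset V, e ∈ EI T →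
      adjT T p.1 p.2 ∧ e ⊆ p.1 ∧ e ⊆ p.2 := by
    intro e
    by_cases he : e ∈ EI T
    · obtain ⟨x, y, hxy, hc, rfl⟩ := (mem_EI (T := T) e).1 he
      obtain ⟨t, t', hadj, hx, hy, hx', hy'⟩ := ecount_two hxy hc
      refine ⟨(t, t'), fun _ => ⟨hadj, ?_, ?_⟩⟩
      · intro z hz
        rcases Finset.mem_insert.1 hz with rfl | hz
        · exact hx
        · rw [Finset.mem_singleton.1 hz]; exact hy
      · intro z hz
        rcases Finset.mem_insert.1 hz with rfl | hz
        · exact hx'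
        · rw [Finset.mem_singleton.1 hz]; exact hy'
    · exact ⟨(∅, ∅), fun h => absurd h he⟩
  choose p hp using key
  exact ⟨fun e => (p e).1, fun e => (p e).2, ⟨fun e he => (hp e he).1, fun e he => (hp e he).2.1,
    fun e he => (hp e he).2.2⟩⟩

/-- no two different neighbours are in both of two adjacent triangles at `v` -/
private theorem adj_unique (h : Surf T) {a b : Finset V} (hab : adjT T a b) {v y z : V}
    (hva : v ∈ a) (hvb : v ∈ b) (hya : y ∈ a) (hyb : y ∈ b) (hza : z ∈ a) (hzb : z ∈ b)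
    (hy : y ≠ v) (hz : z ≠ v) : y = z := by
  by_contra hyz
  have h2 := adjT_inter h hab
  have h3 : ({v, y, z} : Finset V) ⊆ a ∩ b := by
    intro w hw
    simp only [Finset.mem_insert, Finset.mem_singleton] at hw
    rcases hw with rfl | rfl | rfl
    · exact Finset.mem_inter.2 ⟨hva, hvb⟩
    · exact Finset.mem_inter.2 ⟨hya, hyb⟩
    · exact Finset.mem_inter.2 ⟨hza, hzb⟩
  have h4 : ({v, y, z} : Finset V).card = 3 :=
    Finset.card_eq_three.2 ⟨v, y, z, hy.symm, hz.symm, hyz, rfl⟩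
  have h5 := Finset.card_le_card h3
  omega

private theorem orient_facts {tp tm : Finset V → Finset V} (ho : Orient T tp tm)
    {v y : V} (hy : y ∈ (nbrs T v).filter fun y => ecount T v y = 2) :
    adjT T (tp {v, y}) (tm {v, y}) ∧ v ∈ tp {v, y} ∧ y ∈ tp {v, y} ∧ v ∈ tm {v, y} ∧ y ∈ tm {v, y} ∧
      y ≠ v := by
  obtain ⟨hy1, hy2⟩ := Finset.mem_filter.1 hy
  have hne : v ≠ y := ((mem_nbrs (T := T) v y).1 hy1).1
  have hE : ({v, y} : Finset V) ∈ EI T := (mem_EI (T := T) _).2 ⟨v, y, hne, hy2, rfl⟩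
  have hv : v ∈ ({v, y} : Finset V) := by simp
  have hy : y ∈ ({v, y} : Finset V) := by simp
  exact ⟨ho.adj _ hE, ho.sp _ hE hv, ho.sp _ hE hy, ho.sm _ hE hv, ho.sm _ hE hy, hne.symm⟩

open Classical in
private theorem prs_eq (h : Surf T) {tp tm : Finset V → Finset V} (ho : Orient T tp tm) (v : V) :
    prs (T.filter fun t => v ∈ t) (adjT T) =
      ((nbrs T v).filter fun y => ecount T v y = 2).biUnion fun y =>
        {(tp {v, y}, tm {v, y}), (tm {v, y}, tp {v, y})} := by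
  ext ⟨a, b⟩
  simp only [prs, Finset.mem_filter, Finset.mem_product, Finset.mem_biUnion, Finset.mem_insert,
    Finset.mem_singleton]
  constructor
  · rintro ⟨⟨⟨ha, hva⟩, ⟨hb, hvb⟩⟩, hab⟩
    obtain ⟨y, hyv, hya, hyb⟩ := adjT_at h hab hva hvb
    have hp := adjT_pair h hab hyv.symm hva hya hvb hyb
    have hyN : y ∈ nbrs T v := (mem_nbrs (T := T) v y).2 ⟨hyv.symm, a, ha, hva, hya⟩
    refine ⟨y, ⟨hyN, hp.1⟩, ?_⟩
    obtain ⟨h1, h2, h3, h4, h5, _⟩ := orient_facts ho (v := v) (y := y)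
      (Finset.mem_filter.2 ⟨hyN, hp.1⟩)
    have hne : tp {v, y} ≠ tm {v, y} := h1.2.2.1
    have hp1 := hp.2 _ h1.1 h2 h3
    have hm1 := hp.2 _ h1.2.1 h4 h5
    rcases hp1 with e1 | e1 <;> rcases hm1 with e2 | e2
    · exact absurd (e1.trans e2.symm) hne
    · left; rw [e1, e2]
    · right; rw [e1, e2]
    · exact absurd (e1.trans e2.symm) hne
  · rintro ⟨y, hy, hab⟩
    obtain ⟨h1, h2, h3, h4, h5, _⟩ := orient_facts ho (v := v) (y := y) (Finset.mem_filter.2 hy)
    rcases hab with hab | hab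
    · rw [Prod.mk.injEq] at hab
      rw [hab.1, hab.2]
      exact ⟨⟨⟨h1.1, h2⟩, ⟨h1.2.1, h4⟩⟩, h1⟩
    · rw [Prod.mk.injEq] at hab
      rw [hab.1, hab.2]
      exact ⟨⟨⟨h1.2.1, h4⟩, ⟨h1.1, h2⟩⟩, h1.symm⟩

private theorem sum_prs (h : Surf T) {tp tm : Finset V → Finset V} (ho : Orient T tp tm) (v : V)
    {M : Type} [AddCommMonoid M] (F : Finset V × Finset V → M) :
    ∑ q ∈ prs (T.filter fun t => v ∈ t) (adjT T), F q =
      ∑ y ∈ (nbrs T v).filter (fun y => ecount T v y = 2),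
        (F (tp {v, y}, tm {v, y}) + F (tm {v, y}, tp {v, y})) := by
  classical
  rw [prs_eq h ho v, Finset.sum_biUnion]
  · refine Finset.sum_congr rfl fun y hy => ?_
    obtain ⟨h1, h2, h3, h4, h5, _⟩ := orient_facts ho hy
    have hne : tp {v, y} ≠ tm {v, y} := h1.2.2.1
    rw [Finset.sum_pair]
    intro h
    rw [Prod.mk.injEq] at h
    exact hne h.1
  · intro y hy z hz hyz
    rw [Function.onFun, Finset.disjoint_left]
    rintro ⟨a, b⟩ hab1 hab2
    apply hyz
    obtain ⟨h1, h2, h3, h4, h5, hyv⟩ := orient_facts ho (Finset.mem_coe.1 hy)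
    obtain ⟨k1, k2, k3, k4, k5, hzv⟩ := orient_facts ho (Finset.mem_coe.1 hz)
    simp only [Finset.mem_insert, Finset.mem_singleton, Prod.mk.injEq] at hab1 hab2
    have A : adjT T a b ∧ v ∈ a ∧ v ∈ b ∧ y ∈ a ∧ y ∈ b := by
      rcases hab1 with ⟨e1, e2⟩ | ⟨e1, e2⟩
      · rw [e1, e2]; exact ⟨h1, h2, h4, h3, h5⟩
      · rw [e1, e2]; exact ⟨h1.symm, h4, h2, h5, h3⟩
    have B : z ∈ a ∧ z ∈ b := by
      rcases hab2 with ⟨e1, e2⟩ | ⟨e1, e2⟩
      · rw [e1, e2]; exact ⟨k3, k5⟩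
      · rw [e1, e2]; exact ⟨k5, k3⟩
    exact adj_unique h A.1 A.2.1 A.2.2.1 A.2.2.2.1 A.2.2.2.2 B.1 B.2 hyv hzv

private theorem prs_card (h : Surf T) (v : V) :
    (prs (T.filter fun t => v ∈ t) (adjT T)).card =
      2 * ((nbrs T v).filter fun y => ecount T v y = 2).card := by
  obtain ⟨tp, tm, ho⟩ := exists_orient T
  have := sum_prs h ho v (fun _ => (1 : ℕ))
  simp only [Finset.sum_const, smul_eq_mul, mul_one] at this
  rw [this]
  ring

private theorem N_sum (h : Surf T) (v : V) :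
    ((nbrs T v).filter fun y => ecount T v y = 1).card +
      2 * ((nbrs T v).filter fun y => ecount T v y = 2).card =
      2 * (T.filter fun t => v ∈ t).card := by
  rw [← star_sum h v, Finset.card_filter, Finset.card_filter, Finset.mul_sum,
    ← Finset.sum_add_distrib]
  refine Finset.sum_congr rfl fun y hy => ?_
  rcases ecount_le h hy with e | e <;> simp [e]

private theorem gconn (h : Surf T) (v : V) : GConn (T.filter fun t => v ∈ t) (adjT T) := by
  intro a ha b hb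
  have ha' := Finset.mem_filter.1 ha
  have hb' := Finset.mem_filter.1 hb
  have h1 := h.star v a ha'.1 b hb'.1 ha'.2 hb'.2
  have h2 : ∀ x y, (adjT T x y ∧ v ∈ x ∧ v ∈ y) → (adjT T x y ∧
      (x ∈ T.filter fun t => v ∈ t) ∧ (y ∈ T.filter fun t => v ∈ t)) := by
    rintro x y ⟨hxy, hx, hy⟩
    exact ⟨hxy, Finset.mem_filter.2 ⟨hxy.1, hx⟩, Finset.mem_filter.2 ⟨hxy.2.1, hy⟩⟩
  induction h1 with
  | refl => exact Relation.ReflTransGen.refl
  | tail hab hbc ih =>
    have hb'' := (h2 _ _ hbc).2.1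
    exact Relation.ReflTransGen.tail (ih hb'' (Finset.mem_filter.1 hb'')) (h2 _ _ hbc)

omit [DecidableEq V] in
private theorem adj_irr (a : Finset V) : ¬ adjT T a a := fun h => h.2.2.1 rfl

theorem bd_count (h : Surf T) (v : V) (hv : v ∈ verts T) :
    ((nbrs T v).filter fun y => ecount T v y = 1).card = 0 ∨
      ((nbrs T v).filter fun y => ecount T v y = 1).card = 2 := by
  have h1 := N_sum h v
  have h2 := prs_card h v
  have h3 := conn_count (T.filter fun t => v ∈ t) (adjT T) adj_irr (fun a b => adjT.symm)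
    (gconn h v)
  omega

theorem bd_count_two (h : Surf T) (v : V) (hv : v ∈ verts T) (hv' : v ∉ VI T) :
    ((nbrs T v).filter fun y => ecount T v y = 1).card = 2 := by
  rcases bd_count h v hv with h0 | h0
  · exfalso
    apply hv'
    refine (mem_VI v).2 ⟨hv, fun y hy => ?_⟩
    have hyN : y ∈ nbrs T v := (mem_nbrs v y).2 hy
    rcases ecount_le h hyN with e | e
    · have : y ∈ (nbrs T v).filter fun y => ecount T v y = 1 := Finset.mem_filter.2 ⟨hyN, e⟩
      rw [Finset.card_eq_zero] at h0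
      rw [h0] at this
      exact absurd this (Finset.notMem_empty y)
    · exact e
  · exact h0

theorem bd_vertex (h : Surf T) (v x : V) (hv : v ∈ verts T) (hv' : v ∉ VI T) :
    ∃ y, y ≠ x ∧ Edge T v y ∧ ecount T v y = 1 := by
  have h2 := bd_count_two h v hv hv'
  obtain ⟨y, hy, hyx⟩ := Finset.exists_mem_ne (s := (nbrs T v).filter fun y => ecount T v y = 1)
    (by omega) x
  obtain ⟨hy1, hy2⟩ := Finset.mem_filter.1 hy
  exact ⟨y, hyx, (mem_nbrs v y).1 hy1, hy2⟩

private theorem not_VI_aux {x y : V} (hxy : x ≠ y) (h : ecount T x y = 1) :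
    x ∈ verts T ∧ x ∉ VI T := by
  have hE : Edge T x y := (edge_iff x y).2 ⟨hxy, by omega⟩
  obtain ⟨_, t, ht, hx, hy⟩ := hE
  refine ⟨(mem_verts x).2 ⟨t, ht, hx⟩, fun hV => ?_⟩
  have := ((mem_VI x).1 hV).2 y ((edge_iff x y).2 ⟨hxy, by omega⟩)
  omega

theorem not_VI_of_ecount {x y : V} (hxy : x ≠ y) (h : ecount T x y = 1) :
    x ∈ verts T ∧ y ∈ verts T ∧ x ∉ VI T ∧ y ∉ VI T := by
  have h1 := not_VI_aux hxy h
  have h2 := not_VI_aux (T := T) hxy.symm ((ecount_comm T y x).trans h)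
  exact ⟨h1.1, h2.1, h1.2, h2.2⟩

theorem star_tree (h : Surf T) (v : V) (hv' : v ∉ VI T)
    (g : Finset V → Finset V → ℝ) (hg : ∀ t t', adjT T t t' → g t t' = - g t' t) :
    ∃ φ : Finset V → ℝ, ∀ t t', adjT T t t' → v ∈ t → v ∈ t' → g t t' = φ t - φ t' := by
  by_cases hv : v ∈ verts T
  · have h1 := N_sum h v
    have h2 := prs_card h v
    have h3 := bd_count_two h v hv hv'
    obtain ⟨φ, hφ⟩ := tree_exact (T.filter fun t => v ∈ t) (adjT T) adj_irr (fun a b => adjT.symm)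
      (gconn h v) (by omega) g (fun a _ b _ hab => hg a b hab)
    refine ⟨φ, fun t t' ht hvt hvt' => hφ t (Finset.mem_filter.2 ⟨ht.1, hvt⟩) t'
      (Finset.mem_filter.2 ⟨ht.2.1, hvt'⟩) ht⟩
  · exact ⟨fun _ => 0, fun t t' ht hvt _ => absurd ((mem_verts v).2 ⟨t, ht.1, hvt⟩) hv⟩

open Classical in
private theorem deg_two (h : Surf T) (v : V) (hv : v ∈ VI T) (a : Finset V)
    (ha : a ∈ T.filter fun t => v ∈ t) :
    ((T.filter fun t => v ∈ t).filter fun b => adjT T a b).card = 2 := by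
  obtain ⟨haT, hva⟩ := Finset.mem_filter.1 ha
  have hc : (a.erase v).card = 2 := by
    rw [Finset.card_erase_of_mem hva, h.card3 a haT]
  obtain ⟨y, z, hyz, hyz'⟩ := Finset.card_eq_two.1 hc
  have hy : y ∈ a.erase v := by rw [hyz']; simp
  have hz : z ∈ a.erase v := by rw [hyz']; simp
  obtain ⟨hyv, hya⟩ := Finset.mem_erase.1 hy
  obtain ⟨hzv, hza⟩ := Finset.mem_erase.1 hz
  have hVI := (mem_VI v).1 hv
  have hcy : ecount T v y = 2 := hVI.2 y ⟨hyv.symm, a, haT, hva, hya⟩
  have hcz : ecount T v z = 2 := hVI.2 z ⟨hzv.symm, a, haT, hva, hza⟩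
  obtain ⟨b₁, hb₁, hvb₁, hyb₁⟩ := other h haT hyv.symm hva hya hcy
  obtain ⟨b₂, hb₂, hvb₂, hzb₂⟩ := other h haT hzv.symm hva hza hcz
  refine Finset.card_eq_two.2 ⟨b₁, b₂, ?_, ?_⟩
  · rintro rfl
    exact hyz (adj_unique h hb₁ hva hvb₁ hya hyb₁ hza hzb₂ hyv hzv)
  · ext b
    simp only [Finset.mem_filter, Finset.mem_insert, Finset.mem_singleton]
    constructor
    · rintro ⟨⟨hbT, hvb⟩, hab⟩
      obtain ⟨w, hwv, hwa, hwb⟩ := adjT_at h hab hva hvb
      have hw : w ∈ a.erase v := Finset.mem_erase.2 ⟨hwv, hwa⟩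
      rw [hyz', Finset.mem_insert, Finset.mem_singleton] at hw
      have hne : b ≠ a := fun e => hab.2.2.1 e.symm
      rcases hw with rfl | rfl
      · left
        exact ((adjT_pair h hb₁ hwv.symm hva hwa hvb₁ hyb₁).2 b hbT hvb hwb).resolve_left hne
      · right
        exact ((adjT_pair h hb₂ hwv.symm hva hwa hvb₂ hzb₂).2 b hbT hvb hwb).resolve_left hne
    · rintro (rfl | rfl)
      · exact ⟨⟨hb₁.2.1, hvb₁⟩, hb₁⟩
      · exact ⟨⟨hb₂.2.1, hvb₂⟩, hb₂⟩

theorem star_cycle (h : Surf T) (tp tm : Finset V → Finset V) (ho : Orient T tp tm) (v : V)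
    (hv : v ∈ VI T) :
    ∃ lam : V → ℝ, (∀ y, lam y ≠ 0) ∧
      ∀ g : Finset V → Finset V → ℝ, (∀ t t', adjT T t t' → g t t' = - g t' t) →
        ((∃ φ : Finset V → ℝ, ∀ t t', adjT T t t' → v ∈ t → v ∈ t' → g t t' = φ t - φ t') ↔
          ∑ y ∈ nbrs T v, lam y * g (tp {v, y}) (tm {v, y}) = 0) := by
  classical
  have hVI := (mem_VI v).1 hv
  obtain ⟨t₀, ht₀, hvt₀⟩ := (mem_verts v).1 hVI.1
  obtain ⟨lam₀, hlam, hiff⟩ := cycle_exact (T.filter fun t => v ∈ t) (adjT T) adj_irr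
    (fun a b => adjT.symm) (gconn h v) (fun a ha => deg_two h v hv a ha)
    ⟨t₀, Finset.mem_filter.2 ⟨ht₀, hvt₀⟩⟩
  have hN : (nbrs T v).filter (fun y => ecount T v y = 2) = nbrs T v := by
    refine Finset.filter_true_of_mem fun y hy => hVI.2 y ((mem_nbrs v y).1 hy)
  have hfacts : ∀ y ∈ nbrs T v, adjT T (tp {v, y}) (tm {v, y}) ∧ v ∈ tp {v, y} ∧ y ∈ tp {v, y} ∧
      v ∈ tm {v, y} ∧ y ∈ tm {v, y} ∧ y ≠ v := by
    intro y hy
    exact orient_facts ho (by rw [hN]; exact hy)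
  refine ⟨fun y => if y ∈ nbrs T v then 2 * lam₀ (tp {v, y}) (tm {v, y}) else 1, ?_, ?_⟩
  · intro y
    by_cases hy : y ∈ nbrs T v
    · simp only [hy, if_true]
      obtain ⟨h1, h2, h3, h4, h5, _⟩ := hfacts y hy
      have := (hlam _ (Finset.mem_filter.2 ⟨h1.1, h2⟩) _ (Finset.mem_filter.2 ⟨h1.2.1, h4⟩) h1).1
      exact mul_ne_zero two_ne_zero this
    · simp [hy]
  · intro g hg
    have h1 := hiff g (fun a _ b _ hab => hg a b hab)
    rw [sum_prs h ho v, hN] at h1
    have h2 : ∑ y ∈ nbrs T v, (if y ∈ nbrs T v then 2 * lam₀ (tp {v, y}) (tm {v, y}) else 1) *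
        g (tp {v, y}) (tm {v, y}) = ∑ y ∈ nbrs T v, (lam₀ (tp {v, y}) (tm {v, y}) *
        g (tp {v, y}) (tm {v, y}) + lam₀ (tm {v, y}) (tp {v, y}) * g (tm {v, y}) (tp {v, y})) := by
      refine Finset.sum_congr rfl fun y hy => ?_
      obtain ⟨k1, k2, k3, k4, k5, _⟩ := hfacts y hy
      have e1 := (hlam _ (Finset.mem_filter.2 ⟨k1.1, k2⟩) _ (Finset.mem_filter.2 ⟨k1.2.1, k4⟩) k1).2
      have e2 := hg _ _ k1
      rw [if_pos hy, e1, e2]
      ring
    rw [h2, ← h1]
    constructor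
    · rintro ⟨φ, hφ⟩
      exact ⟨φ, fun a ha b hb hab => hφ a b hab (Finset.mem_filter.1 ha).2
        (Finset.mem_filter.1 hb).2⟩
    · rintro ⟨φ, hφ⟩
      exact ⟨φ, fun t t' ht hvt hvt' => hφ t (Finset.mem_filter.2 ⟨ht.1, hvt⟩) t'
        (Finset.mem_filter.2 ⟨ht.2.1, hvt'⟩) ht⟩

private theorem mem_bd (h : Surf T) (e : Finset V) : e ∈ (edgesF T) \ (EI T) ↔
    ∃ x y, x ≠ y ∧ ecount T x y = 1 ∧ e = {x, y} := by
  rw [Finset.mem_sdiff]
  constructor
  · rintro ⟨h1, h2⟩
    obtain ⟨x, y, hE, rfl⟩ := (mem_edgesF e).1 h1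
    refine ⟨x, y, hE.1, ?_, rfl⟩
    rcases ecount_le h ((mem_nbrs x y).2 hE) with e | e
    · exact e
    · exact absurd ((mem_EI _).2 ⟨x, y, hE.1, e, rfl⟩) h2
  · rintro ⟨x, y, hxy, hc, rfl⟩
    refine ⟨(mem_edgesF _).2 ⟨x, y, (edge_iff x y).2 ⟨hxy, by omega⟩, rfl⟩, fun hE => ?_⟩
    obtain ⟨x', y', hxy', hc', he⟩ := (mem_EI _).1 hE
    have hx' : x' ∈ ({x, y} : Finset V) := by rw [he]; simp
    have hy' : y' ∈ ({x, y} : Finset V) := by rw [he]; simp
    simp only [Finset.mem_insert, Finset.mem_singleton] at hx' hy'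
    rcases hx' with rfl | rfl <;> rcases hy' with rfl | rfl
    · exact hxy' rfl
    · omega
    · rw [ecount_comm] at hc'; omega
    · exact hxy' rfl

/-- the boundary has as many edges as vertices -/
theorem card_bdry (h : Surf T) :
    ((edgesF T) \ (EI T)).card = ((verts T) \ (VI T)).card := by
  classical
  have key := Finset.card_mul_eq_card_mul (s := (verts T) \ (VI T)) (t := (edgesF T) \ (EI T))
    (m := 2) (n := 2) (fun v e => v ∈ e) ?_ ?_
  · omega
  · intro v hv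
    obtain ⟨hv1, hv2⟩ := Finset.mem_sdiff.1 hv
    rw [← bd_count_two h v hv1 hv2]
    symm
    refine Finset.card_bij (fun y _ => ({v, y} : Finset V)) ?_ ?_ ?_
    · intro y hy
      obtain ⟨hy1, hy2⟩ := Finset.mem_filter.1 hy
      rw [Finset.mem_bipartiteAbove]
      exact ⟨(mem_bd h _).2 ⟨v, y, ((mem_nbrs v y).1 hy1).1, hy2, rfl⟩, by simp⟩
    · intro y hy z hz hyz
      obtain ⟨hy1, hy2⟩ := Finset.mem_filter.1 hy
      have hvy : v ≠ y := ((mem_nbrs v y).1 hy1).1
      have hyz' : y ∈ ({v, z} : Finset V) := by rw [← hyz]; simp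
      simp only [Finset.mem_insert, Finset.mem_singleton] at hyz'
      exact hyz'.resolve_left hvy.symm
    · intro e he
      rw [Finset.mem_bipartiteAbove] at he
      obtain ⟨x, y, hxy, hc, rfl⟩ := (mem_bd h e).1 he.1
      have hve := he.2
      simp only [Finset.mem_insert, Finset.mem_singleton] at hve
      rcases hve with rfl | rfl
      · exact ⟨y, Finset.mem_filter.2 ⟨(mem_nbrs _ _).2 ((edge_iff _ _).2 ⟨hxy, by omega⟩), hc⟩, rfl⟩
      · rw [ecount_comm] at hc
        exact ⟨x, Finset.mem_filter.2 ⟨(mem_nbrs _ _).2 ((edge_iff _ _).2 ⟨hxy.symm, by omega⟩), hc⟩,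
          Finset.pair_comm _ _⟩
  · intro e he
    obtain ⟨x, y, hxy, hc, rfl⟩ := (mem_bd h e).1 he
    have hV := not_VI_of_ecount hxy hc
    have : Finset.bipartiteBelow (fun v e => v ∈ e) ((verts T) \ (VI T)) ({x, y} : Finset V) =
        {x, y} := by
      ext w
      rw [Finset.mem_bipartiteBelow]
      constructor
      · exact fun h => h.2
      · intro hw
        refine ⟨?_, hw⟩
        simp only [Finset.mem_insert, Finset.mem_singleton] at hw
        rcases hw with rfl | rfl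
        · exact Finset.mem_sdiff.2 ⟨hV.1, hV.2.2.1⟩
        · exact Finset.mem_sdiff.2 ⟨hV.2.1, hV.2.2.2⟩
    rw [this, Finset.card_pair hxy]

end BSpl
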