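import Mathlib

/-!
# Bivariate splines: algebraic definitions

`Pol` are the real polynomials in two variables, `Pt` the points of the plane. `tr x h` is the translate `h (X - x)`,
`lf d` the linear form vanishing in the direction `d`, `ell x y` the affine function vanishing on the line through `x` and `y`,
`H m` the forms of degree `m`, `Deg k` the polynomials of degree at most `k`, `Ord x f` the polynomials vanishing to order at
least `f` at `x`.

`Gen n x y f g` are explicit polynomials of degree at most `n` which vanish to order `f` at `x` and to order `g` at `y`;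
the point is that each of them moves polynomially with `x` and `y`.

`Cfg V` is a configuration: a finite set `I` of (interior) vertices, edges `ii` between interior vertices, and edges `gr x b f`
from an interior vertex `x` to a ground vertex `b`, with flag `f`. `W` is the space spanned by the columns of the (flagged)
cofactor matrix: an edge `x y` and a polynomial `q` give the vector with entries `α x y • q * ell (p x) (p y) ^ (r+1)` at `x` and
`α y x • q * ell (p y) (p x) ^ (r+1)` at `y`; for edges to the ground there is only the entry at `x`. `Full` says that for some positions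
this space has the largest possible dimension. Throughout the degree of the splines is `k = n + r + 1`.
-/

set_option autoImplicit false

namespace BSpl

open MvPolynomial

/-- polynomials in two variables -/
abbrev Pol : Type := MvPolynomial (Fin 2) ℝ

/-- points of the plane -/
abbrev Pt : Type := Fin 2 → ℝ

/-- the translate `h (X - x)` of `h` -/
noncomputable def tr (x : Pt) : Pol →ₐ[ℝ] Pol := aeval fun i => X i - C (x i)

/-- the linear form vanishing in the direction `d` -/
noncomputable def lf (d : Pt) : Pol := C (d 1) * X 0 - C (d 0) * X 1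

/-- the affine function vanishing on the line through `x` and `y` -/
noncomputable def ell (x y : Pt) : Pol := tr x (lf (y - x))

/-- the determinant of two vectors -/
def det2 (d e : Pt) : ℝ := d 0 * e 1 - d 1 * e 0

/-- homogeneous polynomials of degree `m` -/
noncomputable abbrev H (m : ℕ) : Submodule ℝ Pol := homogeneousSubmodule (Fin 2) ℝ m

/-- polynomials of degree at most `k` -/
noncomputable abbrev Deg (k : ℕ) : Submodule ℝ Pol := restrictTotalDegree (Fin 2) ℝ k

/-- the polynomials vanishing to order at least `f` at the point `x` -/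
noncomputable def Ord (x : Pt) (f : ℕ) : Submodule ℝ Pol where
  carrier := {q | ∀ j < f, homogeneousComponent j (tr (-x) q) = 0}
  zero_mem' := by
    intro j _
    simp
  add_mem' := by
    intro a b ha hb j hj
    rw [map_add, map_add, ha j hj, hb j hj, add_zero]
  smul_mem' := by
    intro c a ha j hj
    rw [map_smul, map_smul, ha j hj, smul_zero]

/-- explicit polynomials of degree `≤ n`, vanishing to order `f` at `x` and to order `g` at `y` -/
def Gen (n : ℕ) (x y : Pt) (f g : ℕ) : Set Pol :=
  {q | ∃ (i a b : ℕ) (h h' μ : Pol), h ∈ H a ∧ h' ∈ H b ∧ f ≤ i + a ∧ g ≤ i + b ∧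
    μ.totalDegree + i + a + b ≤ n ∧ q = ell x y ^ i * tr x h * tr y h' * μ}

/-- `∑_{j = s}^{n} (j + r + 2)`: the dimension of the space of polynomials of degree `≤ n + r + 1` vanishing to order
`≥ s + r + 1` at a point -/
def dM (r n s : ℕ) : ℕ := ∑ j ∈ Finset.Icc s n, (j + r + 2)

/-- configurations -/
structure Cfg (V : Type) where
  I : Finset V
  ii : V → V → Prop
  gr : V → V → ℕ → Prop

variable {V : Type} [DecidableEq V]

/-- the vector of an edge -/
noncomputable def evec (r : ℕ) (α : V → V → ℝ) (p : V → Pt) (x y : V) (q : Pol) : V → Pol :=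
  Pi.single x (α x y • (q * ell (p x) (p y) ^ (r + 1))) +
    Pi.single y (α y x • (q * ell (p y) (p x) ^ (r + 1)))

/-- the vector of an edge to the ground -/
noncomputable def gvec (r : ℕ) (p : V → Pt) (x b : V) (q : Pol) : V → Pol :=
  Pi.single x (q * ell (p x) (p b) ^ (r + 1))

/-- the columns of the cofactor matrix -/
def cols (r n s : ℕ) (α : V → V → ℝ) (c : Cfg V) (p : V → Pt) : Set (V → Pol) :=
  {w | (∃ x ∈ c.I, ∃ y ∈ c.I, x ≠ y ∧ c.ii x y ∧ ∃ q ∈ Gen n (p x) (p y) s s, w = evec r α p x y q) ∨
    (∃ x ∈ c.I, ∃ b, b ∉ c.I ∧ ∃ f, c.gr x b f ∧ ∃ q ∈ Gen n (p x) (p b) s f, w = gvec r p x b q)}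

/-- the space spanned by the columns -/
noncomputable def W (r n s : ℕ) (α : V → V → ℝ) (c : Cfg V) (p : V → Pt) :
    Submodule ℝ (V → Pol) :=
  Submodule.span ℝ (cols r n s α c p)

/-- the cofactor matrix has full rank for some positions of the vertices -/
def Full (r n s : ℕ) (α : V → V → ℝ) (c : Cfg V) : Prop :=
  ∃ p : V → Pt, c.I.card * dM r n s ≤ Module.finrank ℝ (W r n s α c p)

/-- the numerical conditions under which the absorption argument works -/
structure Adm (r n s F : ℕ) : Prop where
  sF : s ≤ F
  rs : r ≤ 2 * s + 1
  Fn : 2 * F ≤ n + 1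
  high : ∀ j, F ≤ j → j ≤ n →
    j + r + 2 ≤ (j + 1 - (s + F - j)) + (j + 1 - (s + j - n)) + (j + 1 - (F + j - n))
  cell : ∀ j, s ≤ j → j ≤ n →
    j + r + 2 ≤ (j + 1 - (F + j - n)) + (j + 1 - (s + j - n)) + (j + 1 - (s + j - n))

end BSpl
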