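import Pool.Agent.SplF.Fin

set_option autoImplicit false

/-!
# The generic dimension of bivariate splines of smoothness `r` down to degree `2 r + 1` for many `r`

`T` is the set of the triangles of a triangulated disc, `p` a realisation, `SplineFn r k p T` the space of
the `C^r` piecewise polynomials of degree at most `k` on it. The number of Schumaker is
`sch r k T = (k + 2 choose 2) + (k - r + 1 choose 2) |E_I| - γ |V_I| + ∑ σ_v`, where `σ_v` is computed
with the number of edges at `v`.

The generic dimension is this number for `r ≥ 1` and `2 k ≥ 5 r - 1`, and whenever there is a prime power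
`q` with `r + 1 ≤ ⌊3 q / 2⌋` and `k ≥ r + ⌊3 q / 2⌋`; in particular for all `k ≥ 2 r + 1` if `r + 1` is
`⌊3 q / 2⌋` for a prime power `q`.
-/

namespace Pool.Agent.BSpl.DimensionRangeOld

open Pool.Agent.Spl1

/-- the number of edges at the vertex `v` -/
def deg {V : Type} [Fintype V] [DecidableEq V] (T : Finset (Finset V)) (v : V) : ℕ :=
  ((edges T).filter fun e => v ∈ e).card

/-- the number of Schumaker -/
def sch {V : Type} [Fintype V] [DecidableEq V] (r k : ℕ) (T : Finset (Finset V)) : ℤ :=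
  (k + 2).choose 2 + (k - r + 1).choose 2 * (intE T).card -
    (((k + 2).choose 2 : ℤ) - (r + 2).choose 2) * (intV T).card +
    ∑ v ∈ intV T, ∑ j ∈ Finset.Icc 1 (k - r), ((r + j + 1 - j * deg T v : ℕ) : ℤ)

/-- the generic dimension is the number of Schumaker: every realisation has at least this dimension, and
arbitrarily small perturbations of every realisation have this dimension -/
theorem result {V : Type} [Fintype V] [DecidableEq V] (T : Finset (Finset V)) (hT : Disc T)
    (p₀ : V × Fin 2 → ℝ) (hp₀ : IsTriang p₀ T) (r k : ℕ) (h : (1 ≤ r ∧ 5 * r ≤ 2 * k + 1) ∨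
      ∃ q, IsPrimePow q ∧ r + 1 ≤ 3 * q / 2 ∧ r + 3 * q / 2 ≤ k) :
    ∃ d : ℕ, (d : ℤ) = sch r k T ∧
      (∀ p : V × Fin 2 → ℝ, IsTriang p T → d ≤ Module.finrank ℝ (SplineFn r k p T)) ∧
      ∀ p : V × Fin 2 → ℝ, IsTriang p T → ∀ ε : ℝ, 0 < ε →
        ∃ p' : V × Fin 2 → ℝ, dist p' p < ε ∧ IsTriang p' T ∧
          Module.finrank ℝ (SplineFn r k p' T) = d := by
  obtain ⟨d, h1, h2, h3⟩ := SplF.gen_all hT hp₀ h
  refine ⟨d, ?_, h2, h3⟩
  rw [h1]
  unfold SplZ.Sch sch
  have hrk : r ≤ k := by
    rcases h with h | ⟨q, -, h4, h5⟩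
    · omega
    · omega
  have e1 : (((k + 2).choose 2 - (r + 2).choose 2 : ℕ) : ℤ) =
      ((k + 2).choose 2 : ℤ) - (r + 2).choose 2 :=
    Nat.cast_sub (Nat.choose_le_choose 2 (by omega))
  rw [e1]
  congr 1
  refine Finset.sum_congr rfl fun v _ => ?_
  refine Finset.sum_congr rfl fun j _ => ?_
  rw [SplF.nb_card_edges]
  rfl

end Pool.Agent.BSpl.DimensionRangeOld
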