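import Pool.Agent.BSpl.Basics

/-!
# Bivariate splines, module Engine: polynomial curves and semicontinuity of the rank

`PC w`: `w : ℝ → M` is a polynomial curve.

PAPER PROOF of `engine`.  If `N ≤ finrank (span S)` and `N ≥ 1` choose `N` linearly independent vectors `v 1, ..., v N` in `S`
(`exists_linearIndependent`, the span of a maximal independent subset of `S` is `span S`; if the span is infinite dimensional its
`finrank` is `0`), curves `w i` with `w i 0 = v i`, and linear functionals `φ j : M → ℝ` with `φ j (v i) = δ i j` (extend the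
coordinate functionals of `span (v i)`, `LinearMap.exists_extend`). The matrix `(φ j (w i t))` has entries which are polynomial
functions of `t`, so its determinant is a polynomial function `P t`, and `P 0 = 1`. Whenever `P t ≠ 0` and `t ≠ 0` the vectors
`w i t ∈ W t` are linearly independent, so `N ≤ finrank (W t)`. The nonzero polynomial `P` has finitely many zeros.

The closure properties of `PC` are straightforward; represent a polynomial curve with values in a module by its coefficients.
(It may be convenient to prove first that `PC w` iff `w t = ∑ i ∈ range N, t ^ i • c i` for all large `N`.)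
-/

set_option autoImplicit false

namespace BSpl

open MvPolynomial

/-- polynomial curves -/
def PC {M : Type} [AddCommGroup M] [Module ℝ M] (w : ℝ → M) : Prop :=
  ∃ (N : ℕ) (c : ℕ → M), ∀ t, w t = ∑ i ∈ Finset.range N, t ^ i • c i

section

variable {M M' : Type} [AddCommGroup M] [Module ℝ M] [AddCommGroup M'] [Module ℝ M']

/-- the coefficients may be taken eventually zero -/
private theorem pc_ext {w : ℝ → M} (h : PC w) : ∃ (N : ℕ) (c : ℕ → M), ∀ N', N ≤ N' →
    ∀ t, w t = ∑ i ∈ Finset.range N', t ^ i • c i := by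
  obtain ⟨N, c, hc⟩ := h
  refine ⟨N, fun i => if i < N then c i else 0, fun N' hN t => ?_⟩
  rw [hc t, ← Finset.sum_subset (Finset.range_mono hN)]
  · refine Finset.sum_congr rfl fun i hi => ?_
    beta_reduce
    rw [if_pos (Finset.mem_range.1 hi)]
  · intro i _ hi
    beta_reduce
    rw [if_neg (fun h => hi (Finset.mem_range.2 h)), smul_zero]

private theorem pc_mono (e : ℕ) (v : M) : PC (fun t : ℝ => t ^ e • v) := by
  refine ⟨e + 1, fun i => if i = e then v else 0, fun t => ?_⟩
  rw [Finset.sum_eq_single e]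
  · beta_reduce
    rw [if_pos rfl]
  · intro b _ hb
    beta_reduce
    rw [if_neg hb, smul_zero]
  · intro h
    exact absurd (Finset.mem_range.2 (Nat.lt_succ_self e)) h

theorem PC.const (v : M) : PC (fun _ : ℝ => v) := by
  have := pc_mono 0 v
  simpa using this

theorem PC.lin (v : M) : PC (fun t : ℝ => t • v) := by
  have := pc_mono 1 v
  simpa using this

theorem PC.add {w w' : ℝ → M} (h : PC w) (h' : PC w') : PC (fun t => w t + w' t) := by
  obtain ⟨N, c, hc⟩ := pc_ext h
  obtain ⟨N', c', hc'⟩ := pc_ext h'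
  refine ⟨max N N', fun i => c i + c' i, fun t => ?_⟩
  beta_reduce
  rw [hc _ (le_max_left N N') t, hc' _ (le_max_right N N') t, ← Finset.sum_add_distrib]
  refine Finset.sum_congr rfl fun i _ => ?_
  rw [smul_add]

theorem PC.map {w : ℝ → M} (h : PC w) (f : M →ₗ[ℝ] M') : PC (fun t => f (w t)) := by
  obtain ⟨N, c, hc⟩ := h
  refine ⟨N, fun i => f (c i), fun t => ?_⟩
  beta_reduce
  rw [hc t, map_sum]
  refine Finset.sum_congr rfl fun i _ => ?_
  rw [map_smul]

theorem PC.sub {w w' : ℝ → M} (h : PC w) (h' : PC w') : PC (fun t => w t - w' t) := by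
  have h1 := PC.add h (PC.map h' (-LinearMap.id))
  have h2 : (fun t => w t - w' t) = fun t => w t + (-LinearMap.id : M →ₗ[ℝ] M) (w' t) := by
    funext t
    simp [sub_eq_add_neg]
  rw [h2]
  exact h1

theorem PC.sum {ι : Type} (s : Finset ι) (w : ι → ℝ → M) (h : ∀ i ∈ s, PC (w i)) :
    PC (fun t => ∑ i ∈ s, w i t) := by
  classical
  induction s using Finset.induction_on with
  | empty =>
    simp only [Finset.sum_empty]
    exact PC.const 0
  | insert a s ha ih =>
    have h1 := PC.add (h a (Finset.mem_insert_self a s))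
      (ih fun i hi => h i (Finset.mem_insert_of_mem hi))
    have h2 : (fun t => ∑ i ∈ insert a s, w i t) = fun t => w a t + ∑ i ∈ s, w i t := by
      funext t
      rw [Finset.sum_insert ha]
    rw [h2]
    exact h1

theorem PC.smul {a : ℝ → ℝ} {w : ℝ → M} (ha : PC a) (h : PC w) : PC (fun t => a t • w t) := by
  obtain ⟨N, c, hc⟩ := ha
  obtain ⟨N', c', hc'⟩ := h
  have h1 : (fun t => a t • w t) = fun t => ∑ i ∈ Finset.range N, ∑ j ∈ Finset.range N',
      t ^ (i + j) • (c i • c' j) := by
    funext t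
    rw [hc t, hc' t, Finset.sum_smul]
    refine Finset.sum_congr rfl fun i _ => ?_
    rw [Finset.smul_sum]
    refine Finset.sum_congr rfl fun j _ => ?_
    rw [smul_smul, smul_smul, smul_eq_mul, pow_add]
    congr 1
    ring
  rw [h1]
  exact PC.sum _ _ fun i _ => PC.sum _ _ fun j _ => pc_mono _ _

end

theorem PC.mul {a b : ℝ → Pol} (ha : PC a) (hb : PC b) : PC (fun t => a t * b t) := by
  obtain ⟨N, c, hc⟩ := ha
  obtain ⟨N', c', hc'⟩ := hb
  have h1 : (fun t => a t * b t) = fun t => ∑ i ∈ Finset.range N, ∑ j ∈ Finset.range N',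
      t ^ (i + j) • (c i * c' j) := by
    funext t
    rw [hc t, hc' t, Finset.sum_mul_sum]
    refine Finset.sum_congr rfl fun i _ => ?_
    refine Finset.sum_congr rfl fun j _ => ?_
    rw [smul_mul_smul_comm, pow_add]
  rw [h1]
  exact PC.sum _ _ fun i _ => PC.sum _ _ fun j _ => pc_mono _ _

theorem PC.pow {a : ℝ → Pol} (ha : PC a) (e : ℕ) : PC (fun t => a t ^ e) := by
  induction e with
  | zero =>
    simp only [pow_zero]
    exact PC.const 1
  | succ e ih =>
    simp only [pow_succ]
    exact PC.mul ih ha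

private theorem pc_coord {x : ℝ → Pt} (hx : PC x) (i : Fin 2) :
    PC (fun t => (C (x t i) : Pol)) :=
  PC.map hx ((Algebra.linearMap ℝ Pol).comp (LinearMap.proj i))

private theorem pc_trX {x : ℝ → Pt} (hx : PC x) (i : Fin 2) :
    PC (fun t => BSpl.tr (x t) (X i)) := by
  have h1 : (fun t => BSpl.tr (x t) (X i)) = fun t => (X i : Pol) - C (x t i) := by
    funext t
    rw [tr_X]
  rw [h1]
  exact PC.sub (PC.const _) (pc_coord hx i)

/-- a moving point -/
theorem PC.tr {x : ℝ → Pt} (hx : PC x) (h : Pol) : PC (fun t => BSpl.tr (x t) h) := by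
  induction h using MvPolynomial.induction_on with
  | C a =>
    have h1 : (fun t => BSpl.tr (x t) (C a)) = fun _ => (C a : Pol) := by
      funext t
      rw [tr_C]
    rw [h1]
    exact PC.const _
  | add p q hp hq =>
    have h1 : (fun t => BSpl.tr (x t) (p + q)) = fun t => BSpl.tr (x t) p + BSpl.tr (x t) q := by
      funext t
      rw [map_add]
    rw [h1]
    exact PC.add hp hq
  | mul_X p i hp =>
    have h1 : (fun t => BSpl.tr (x t) (p * X i)) =
        fun t => BSpl.tr (x t) p * BSpl.tr (x t) (X i) := by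
      funext t
      rw [map_mul]
    rw [h1]
    exact PC.mul hp (pc_trX hx i)

theorem PC.ell {x y : ℝ → Pt} (hx : PC x) (hy : PC y) : PC (fun t => BSpl.ell (x t) (y t)) := by
  have hd : PC (fun t => y t - x t) := PC.sub hy hx
  have h1 : (fun t => BSpl.ell (x t) (y t)) = fun t =>
      C ((y t - x t) 1) * BSpl.tr (x t) (X 0) - C ((y t - x t) 0) * BSpl.tr (x t) (X 1) := by
    funext t
    unfold BSpl.ell lf
    rw [map_sub, map_mul, map_mul, tr_C, tr_C]
  rw [h1]
  exact PC.sub (PC.mul (pc_coord hd 1) (pc_trX hx 0)) (PC.mul (pc_coord hd 0) (pc_trX hx 1))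

/-- elements of `Gen` move with the points -/
theorem Gen_curve {n f g : ℕ} {x y : ℝ → Pt} (hx : PC x) (hy : PC y) {q : Pol}
    (hq : q ∈ Gen n (x 0) (y 0) f g) :
    ∃ c : ℝ → Pol, PC c ∧ c 0 = q ∧ ∀ t, c t ∈ Gen n (x t) (y t) f g := by
  obtain ⟨i, a, b, h, h', μ, h1, h2, h3, h4, h5, h6⟩ := hq
  refine ⟨fun t => BSpl.ell (x t) (y t) ^ i * BSpl.tr (x t) h * BSpl.tr (y t) h' * μ, ?_, ?_, ?_⟩
  · exact PC.mul (PC.mul (PC.mul (PC.pow (PC.ell hx hy) i) (PC.tr hx h)) (PC.tr hy h'))
      (PC.const μ)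
  · exact h6.symm
  · intro t
    exact ⟨i, a, b, h, h', μ, h1, h2, h3, h4, h5, rfl⟩

private theorem pc_single {V : Type} [DecidableEq V] (x : V) {q : ℝ → Pol} (hq : PC q) :
    PC (fun t => (Pi.single x (q t) : V → Pol)) :=
  PC.map hq (LinearMap.single ℝ (fun _ : V => Pol) x)

theorem PC_evec {V : Type} [DecidableEq V] (r : ℕ) (α : V → V → ℝ) {p : ℝ → V → Pt}
    (hp : ∀ v, PC (fun t => p t v)) (x y : V) {q : ℝ → Pol} (hq : PC q) :
    PC (fun t => evec r α (p t) x y (q t)) := by
  unfold evec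
  exact PC.add
    (pc_single x (PC.smul (PC.const _) (PC.mul hq (PC.pow (PC.ell (hp x) (hp y)) _))))
    (pc_single y (PC.smul (PC.const _) (PC.mul hq (PC.pow (PC.ell (hp y) (hp x)) _))))

theorem PC_gvec {V : Type} [DecidableEq V] (r : ℕ) {p : ℝ → V → Pt}
    (hp : ∀ v, PC (fun t => p t v)) (x b : V) {q : ℝ → Pol} (hq : PC q) :
    PC (fun t => gvec r (p t) x b (q t)) := by
  unfold gvec
  exact pc_single x (PC.mul hq (PC.pow (PC.ell (hp x) (hp b)) _))

/-- a nonzero polynomial function has finitely many zeros -/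
theorem PC.finite_zeros {w : ℝ → ℝ} (h : PC w) (t₀ : ℝ) (h0 : w t₀ ≠ 0) : {t | w t = 0}.Finite := by
  obtain ⟨N, c, hc⟩ := h
  obtain ⟨P, hP⟩ : ∃ P : Polynomial ℝ, ∀ t, w t = P.eval t := by
    refine ⟨∑ i ∈ Finset.range N, Polynomial.C (c i) * Polynomial.X ^ i, fun t => ?_⟩
    rw [hc t, Polynomial.eval_finsetSum]
    refine Finset.sum_congr rfl fun i _ => ?_
    rw [Polynomial.eval_mul, Polynomial.eval_C, Polynomial.eval_pow, Polynomial.eval_X,
      smul_eq_mul, mul_comm]
  have hP0 : P ≠ 0 := by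
    rintro rfl
    apply h0
    rw [hP, Polynomial.eval_zero]
  refine (Polynomial.finite_setOf_isRoot hP0).subset ?_
  intro t ht
  rw [Set.mem_setOf_eq] at ht ⊢
  rw [Polynomial.IsRoot.def, ← hP]
  exact ht

private theorem pc_prod {ι : Type} (s : Finset ι) (w : ι → ℝ → ℝ) (h : ∀ i ∈ s, PC (w i)) :
    PC (fun t => ∏ i ∈ s, w i t) := by
  classical
  induction s using Finset.induction_on with
  | empty =>
    simp only [Finset.prod_empty]
    exact PC.const 1
  | insert a s ha ih =>
    have h1 := PC.smul (h a (Finset.mem_insert_self a s))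
      (ih fun i hi => h i (Finset.mem_insert_of_mem hi))
    have h2 : (fun t => ∏ i ∈ insert a s, w i t) = fun t => w a t • ∏ i ∈ s, w i t := by
      funext t
      rw [Finset.prod_insert ha, smul_eq_mul]
    rw [h2]
    exact h1

private theorem pc_det {ι : Type} [Fintype ι] [DecidableEq ι] (A : ℝ → Matrix ι ι ℝ)
    (h : ∀ i j, PC (fun t => A t i j)) : PC (fun t => (A t).det) := by
  have h1 : (fun t => (A t).det) = fun t => ∑ σ : Equiv.Perm ι,
      ((Equiv.Perm.sign σ : ℤ) : ℝ) • ∏ i, A t (σ i) i := by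
    funext t
    rw [Matrix.det_apply']
    rfl
  rw [h1]
  exact PC.sum _ _ fun σ _ => PC.smul (PC.const _) (pc_prod _ _ fun i _ => h _ _)

theorem engine {M : Type} [AddCommGroup M] [Module ℝ M] (W : ℝ → Submodule ℝ M)
    (hW : ∀ t, FiniteDimensional ℝ (W t)) (S : Set M)
    (h : ∀ v ∈ S, ∃ w : ℝ → M, PC w ∧ w 0 = v ∧ ∀ t, t ≠ 0 → w t ∈ W t)
    (N : ℕ) (hN : N ≤ Module.finrank ℝ (Submodule.span ℝ S)) :
    {t : ℝ | ¬ N ≤ Module.finrank ℝ (W t)}.Finite := by
  classical
  rcases Nat.eq_zero_or_pos N with rfl | hN0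
  · have : {t : ℝ | ¬ 0 ≤ Module.finrank ℝ (W t)} = ∅ := by
      ext t
      simp
    rw [this]
    exact Set.finite_empty
  -- linearly independent vectors
  obtain ⟨b, hbS, hbs, hbi⟩ := exists_linearIndependent ℝ S
  haveI hfd : Module.Finite ℝ (Submodule.span ℝ S) :=
    Module.finite_of_finrank_pos (lt_of_lt_of_le hN0 hN)
  haveI : Module.Finite ℝ (Submodule.span ℝ b) := by
    rw [hbs]
    exact hfd
  have hbfin : b.Finite := by
    have h1 : LinearIndependent ℝ (fun x : b => (⟨x.1, Submodule.subset_span x.2⟩ :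
        Submodule.span ℝ b)) :=
      LinearIndependent.of_comp (Submodule.span ℝ b).subtype hbi
    exact h1.finite
  haveI : Fintype b := hbfin.fintype
  have hcard : Module.finrank ℝ (Submodule.span ℝ b) = b.toFinset.card :=
    finrank_span_set_eq_card hbi
  rw [← hbs, hcard] at hN
  obtain ⟨T, hTb, hTN⟩ := Finset.exists_subset_card_eq hN
  have hTb' : ∀ x ∈ T, x ∈ b := fun x hx => Set.mem_toFinset.1 (hTb hx)
  have hvi : LinearIndependent ℝ (fun x : T => (x : M)) :=
    hbi.comp (fun x : T => (⟨x.1, hTb' x.1 x.2⟩ : b)) (by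
      intro x y hxy
      apply Subtype.ext
      exact Subtype.mk_eq_mk.1 hxy)
  have hch : ∀ x : T, ∃ w : ℝ → M, PC w ∧ w 0 = (x : M) ∧ ∀ t, t ≠ 0 → w t ∈ W t :=
    fun x => h x.1 (hbS (hTb' x.1 x.2))
  choose w hw hw0 hwW using hch
  -- the functionals
  obtain ⟨ψ, hψ⟩ := LinearMap.exists_extend (hvi.repr : _ →ₗ[ℝ] (T →₀ ℝ))
  have hψv : ∀ x : T, ψ (x : M) = Finsupp.single x 1 := by
    intro x
    have h1 := congrArg (fun f => f ⟨(x : M), Submodule.subset_span ⟨x, rfl⟩⟩) hψ
    have h2 : ψ (x : M) = hvi.repr ⟨(x : M), Submodule.subset_span ⟨x, rfl⟩⟩ := h1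
    rw [h2]
    exact hvi.repr_eq_single x _ rfl
  let A : ℝ → Matrix T T ℝ := fun t i j => ψ (w i t) j
  have hA : ∀ i j, PC (fun t => A t i j) := fun i j =>
    PC.map (hw i) ((Finsupp.lapply j).comp ψ)
  have hdet := pc_det A hA
  have hdet0 : (A 0).det ≠ 0 := by
    have : A 0 = 1 := by
      ext i j
      show ψ (w i 0) j = (1 : Matrix T T ℝ) i j
      rw [hw0 i, hψv i, Finsupp.single_apply, Matrix.one_apply]
    rw [this, Matrix.det_one]
    exact one_ne_zero
  have hfin := PC.finite_zeros hdet 0 hdet0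
  refine (hfin.union (Set.finite_singleton 0)).subset ?_
  intro t ht
  rw [Set.mem_union, Set.mem_setOf_eq, Set.mem_singleton_iff]
  by_contra hcon
  push Not at hcon
  apply ht
  have hrows : LinearIndependent ℝ (fun i => A t i) :=
    Matrix.linearIndependent_rows_of_det_ne_zero hcon.1
  have hLI : LinearIndependent ℝ (fun i => w i t) := by
    apply LinearIndependent.of_comp (LinearMap.pi fun j => (Finsupp.lapply j).comp ψ)
    exact hrows
  have hLI2 : LinearIndependent ℝ (fun i => (⟨w i t, hwW i t hcon.2⟩ : W t)) :=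
    LinearIndependent.of_comp (W t).subtype hLI
  haveI := hW t
  have := hLI2.fintype_card_le_finrank
  rw [Fintype.card_coe, hTN] at this
  exact this

end BSpl
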