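import Pool.Agent.BSpl.Defs

/-!
# Bivariate splines, module PowLem: powers of linear forms in two variables

Let `l i = lf (d i)` be pairwise non proportional linear forms, `m` a degree, `e i` exponents.

PAPER PROOF of `pow_inj`.  Induction on the number of indices `i` with `A i ≠ 0`, for all `m` and `e` simultaneously (fix such an
index `i0`; if there is none we are done).  Put `δ i = m + 1 - e i`; for an index with `A i ≠ 0` we have `e i ≤ m`, `δ i ≥ 1`,
`deg A i = δ i - 1`.  Let `D` be the derivation of `Pol` with `D (l i0) = 0`, `D (X 0) = d i0 0`, `D (X 1) = d i0 1`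
(`MvPolynomial.mkDerivation`); it lowers degrees of forms by one, and `D (l i) = - det2 ..` is a nonzero constant for `i ≠ i0`.
Apply `D ^ (δ i0)` to the relation.  The term `i0` becomes `l i0 ^ e i0 * D ^ (δ i0) (A i0) = 0`.  For `i ≠ i0` with `A i ≠ 0`:
`e i ≥ δ i0` (as `δ i + δ i0 ≤ m + 1`) and `D ^ (δ i0) (l i ^ e i * A i) = l i ^ (e i - δ i0) * B i` with a form `B i` of degree
`m - e i` (in general `D ^ t (l ^ e * A) = l ^ (e - t) * (form of degree deg A)` for `t ≤ e`, by induction on `t`, `D l` constant).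
New relation: degree `m' = m - δ i0`, exponents `e' i = e i - δ i0`, so `m' + 1 - e' i = δ i`, and
`∑_{i ≠ i0} δ i ≤ m + 1 - δ i0 = m' + 1`.  By induction `B i = 0` for all `i ≠ i0`, that is `D ^ (δ i0) (l i ^ e i * A i) = 0`.
A form `f` of degree `m` with `D ^ t f = 0`, `t ≤ m + 1`, is divisible by `l i0 ^ (m + 1 - t)` (change coordinates so that `D` is
the derivative with respect to the first variable; or: by induction on `t`, a form with `D f = 0` of degree `m` is a constant times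
`l i0 ^ m`; alternatively use the following direct argument: let `c` be maximal with `l i0 ^ c ∣ f`, `f = l i0 ^ c * g`,
`D ^ t f = l i0 ^ c * D ^ t g`, and `g` restricted to the direction `d i0` is `eval (τ • d i0) g = τ ^ (m - c) * g (d i0)`,
`g (d i0) ≠ 0`, whose `t`-th derivative is nonzero if `t ≤ m - c`, and this is the value of `D ^ t g` on this line).
So `l i ^ e i * A i` is divisible by `l i ^ e i` and by `l i0 ^ e i0` (`m + 1 - δ i0 = e i0`), coprime, of total degree
`e i + e i0 = m + 1 - δ i + m + 1 - δ i0 ≥ m + 1 > m`: it is `0`, so `A i = 0` for all `i ≠ i0`, and then `A i0 = 0`.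

PAPER PROOF of `pow_surj`.  Enlarge the exponents: there are `e' i ≥ e i` with `∑ (m + 1 - e' i) = m + 1` exactly (decrease the
numbers `m + 1 - e i` one at a time).  The linear map `(A i) ↦ ∑ l i ^ e' i * A i` from the product of the spaces
`H (m - e' i)` (`0` if `e' i > m`) to `H m` is injective by `pow_inj`; the dimensions are `∑ (m + 1 - e' i) = m + 1 = dim H m`
(`dim H j = j + 1`), so it is surjective; finally `l i ^ e' i = l i ^ e i * l i ^ (e' i - e i)`.
-/

set_option linter.all false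
set_option autoImplicit false

namespace BSpl

open MvPolynomial

noncomputable def degEquiv (m : ℕ) : Fin (m + 1) ≃ ({d : Fin 2 →₀ ℕ | d.degree = m} : Set (Fin 2 →₀ ℕ)) where
  toFun k := ⟨Finsupp.single 0 (k : ℕ) + Finsupp.single 1 (m - (k : ℕ)), by
    simp only [Set.mem_setOf_eq, map_add, Finsupp.degree_single]
    omega⟩
  invFun d := ⟨d.1 0, by
    have h := d.2
    simp only [Set.mem_setOf_eq, Finsupp.degree_eq_sum, Fin.sum_univ_two] at h
    omega⟩
  left_inv k := by
    ext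
    simp
  right_inv d := by
    have h := d.2
    simp only [Set.mem_setOf_eq, Finsupp.degree_eq_sum, Fin.sum_univ_two] at h
    ext i
    fin_cases i
    · simp
    · simp
      omega

theorem H_eq (m : ℕ) : H m = restrictSupport ℝ {d : Fin 2 →₀ ℕ | d.degree = m} :=
  homogeneousSubmodule_eq_finsupp_supported (Fin 2) ℝ m

theorem finrank_H (m : ℕ) : Module.finrank ℝ (H m) = m + 1 := by
  rw [H_eq, Module.finrank_eq_nat_card_basis (basisRestrictSupport ℝ {d : Fin 2 →₀ ℕ | d.degree = m}),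
    ← Nat.card_congr (degEquiv m), Nat.card_eq_fintype_card, Fintype.card_fin]

theorem finiteDimensional_H (m : ℕ) : FiniteDimensional ℝ (H m) := by
  rw [H_eq]
  haveI : Finite ({d : Fin 2 →₀ ℕ | d.degree = m} : Set (Fin 2 →₀ ℕ)) := Finite.of_equiv _ (degEquiv m)
  exact (basisRestrictSupport ℝ {d : Fin 2 →₀ ℕ | d.degree = m}).finiteDimensional_of_finite

theorem lf_mem (d : Pt) : lf d ∈ H 1 := by
  rw [mem_homogeneousSubmodule]
  exact (isHomogeneous_C_mul_X _ _).sub (isHomogeneous_C_mul_X _ _)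

theorem H_mul {a b : ℕ} {p q : Pol} (hp : p ∈ H a) (hq : q ∈ H b) : p * q ∈ H (a + b) :=
  IsHomogeneous.mul hp hq

theorem H_pow {a : ℕ} {p : Pol} (hp : p ∈ H a) (n : ℕ) : p ^ n ∈ H (a * n) :=
  IsHomogeneous.pow hp n

theorem lf_pow_mem (d : Pt) (n : ℕ) : lf d ^ n ∈ H n := by
  have := H_pow (lf_mem d) n
  rwa [one_mul] at this

/-- the coefficient spaces -/
noncomputable def DD (m e : ℕ) : Submodule ℝ Pol := if e ≤ m then H (m - e) else ⊥

theorem mem_DD {m e : ℕ} {a : Pol} : a ∈ DD m e ↔ a ∈ H (m - e) ∧ (m < e → a = 0) := by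
  unfold DD
  by_cases h : e ≤ m
  · rw [if_pos h]
    exact ⟨fun ha => ⟨ha, fun hc => absurd h (not_le.2 hc)⟩, fun ha => ha.1⟩
  · rw [if_neg h, Submodule.mem_bot]
    refine ⟨fun ha => ⟨?_, fun _ => ha⟩, fun ha => ha.2 (not_le.1 h)⟩
    rw [ha]
    exact Submodule.zero_mem _

theorem finrank_DD (m e : ℕ) : Module.finrank ℝ (DD m e) = m + 1 - e := by
  unfold DD
  by_cases h : e ≤ m
  · rw [if_pos h, finrank_H]
    omega
  · rw [if_neg h, finrank_bot]
    omega

instance finiteDimensional_DD (m e : ℕ) : FiniteDimensional ℝ (DD m e) := by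
  unfold DD
  by_cases h : e ≤ m
  · rw [if_pos h]
    exact finiteDimensional_H _
  · rw [if_neg h]
    infer_instance

theorem DD_mul_mem {m e : ℕ} (d : Pt) {a : Pol} (ha : a ∈ DD m e) : lf d ^ e * a ∈ H m := by
  rw [mem_DD] at ha
  by_cases h : e ≤ m
  · have h1 := H_mul (lf_pow_mem d e) ha.1
    have h2 : e + (m - e) = m := by omega
    rwa [h2] at h1
  · rw [ha.2 (not_le.1 h), mul_zero]
    exact Submodule.zero_mem _

/-- the linear map of the statement -/
noncomputable def PhiP {ι : Type} [Fintype ι] (d : ι → Pt) (m : ℕ) (e : ι → ℕ) :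
    ((i : ι) → DD m (e i)) →ₗ[ℝ] Pol :=
  ∑ i, (LinearMap.mulLeft ℝ (lf (d i) ^ e i)) ∘ₗ (DD m (e i)).subtype ∘ₗ LinearMap.proj i

theorem PhiP_apply {ι : Type} [Fintype ι] (d : ι → Pt) (m : ℕ) (e : ι → ℕ)
    (A : (i : ι) → DD m (e i)) : PhiP d m e A = ∑ i, lf (d i) ^ e i * (A i : Pol) := by
  simp [PhiP]

theorem PhiP_mem {ι : Type} [Fintype ι] (d : ι → Pt) (m : ℕ) (e : ι → ℕ)
    (A : (i : ι) → DD m (e i)) : PhiP d m e A ∈ H m := by
  rw [PhiP_apply]
  exact Submodule.sum_mem _ fun i _ => DD_mul_mem (d i) (A i).2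

theorem PhiP_single {ι : Type} [Fintype ι] [DecidableEq ι] (d : ι → Pt) (m : ℕ) (e : ι → ℕ)
    (i : ι) (a : DD m (e i)) : PhiP d m e (Pi.single i a) = lf (d i) ^ e i * (a : Pol) := by
  rw [PhiP_apply, Finset.sum_eq_single i]
  · rw [Pi.single_eq_same]
  · intro j _ hj
    rw [Pi.single_eq_of_ne hj, Submodule.coe_zero, mul_zero]
  · intro h
    exact absurd (Finset.mem_univ i) h

/-- a direction `(1, s)` which is not proportional to the given ones -/
theorem exists_slope {ι : Type} [Fintype ι] (d : ι → Pt) (hd0 : ∀ i, d i ≠ 0) :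
    ∃ s : ℝ, ∀ i, d i 0 * s - d i 1 ≠ 0 := by
  classical
  obtain ⟨s, hs⟩ := Infinite.exists_notMem_finset (Finset.univ.image fun i => d i 1 / d i 0)
  refine ⟨s, fun i hc => ?_⟩
  by_cases h0 : d i 0 = 0
  · rw [h0, zero_mul, zero_sub, neg_eq_zero] at hc
    apply hd0 i
    ext j
    fin_cases j
    · exact h0
    · exact hc
  · apply hs
    rw [Finset.mem_image]
    refine ⟨i, Finset.mem_univ i, ?_⟩
    rw [div_eq_iff h0]
    linarith

/-- the values of a functional on the powers of the forms of a pencil -/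
theorem phi_pow (φ : Pol →ₗ[ℝ] ℝ) (a b : Pol) (t : ℝ) (m : ℕ) :
    φ ((a + C t * b) ^ m) =
      ∑ j ∈ Finset.range (m + 1), (m.choose j : ℝ) * φ (a ^ (m - j) * b ^ j) * t ^ j := by
  rw [add_comm a, add_pow, map_sum]
  refine Finset.sum_congr rfl fun j _ => ?_
  have : (C t * b) ^ j * a ^ (m - j) * (m.choose j : Pol)
      = ((m.choose j : ℝ) * t ^ j) • (a ^ (m - j) * b ^ j) := by
    rw [smul_eq_C_mul, map_mul, map_pow, mul_pow]
    have : (C (m.choose j : ℝ) : Pol) = (m.choose j : Pol) := by simp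
    rw [this]
    ring
  rw [this, map_smul, smul_eq_mul]
  ring

theorem phi_zero_of (φ : Pol →ₗ[ℝ] ℝ) (s : ℝ) (m : ℕ)
    (h : ∀ j ≤ m, φ (X 0 ^ (m - j) * lf ![1, s] ^ j) = 0) (g : Pol) (hg : g ∈ H m) : φ g = 0 := by
  have hX : (X 1 : Pol) = C s * X 0 - lf ![1, s] := by
    simp [lf]
  have hmon : ∀ D : Fin 2 →₀ ℕ, D.degree = m → φ (monomial D 1) = 0 := by
    intro D hD
    rw [Finsupp.degree_eq_sum, Fin.sum_univ_two] at hD
    have h1 : (monomial D (1 : ℝ) : Pol) = X 0 ^ D 0 * X 1 ^ D 1 := by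
      rw [monomial_eq, C_1, one_mul, Finsupp.prod_fintype _ _ (by simp), Fin.prod_univ_two]
    rw [h1, hX, sub_eq_add_neg, add_comm, add_pow, Finset.mul_sum, map_sum]
    refine Finset.sum_eq_zero fun k hk => ?_
    have hk2 : k ≤ D 1 := by
      rw [Finset.mem_range] at hk
      omega
    have h2 : (X 0 : Pol) ^ D 0 * ((-lf ![1, s]) ^ k * (C s * X 0) ^ (D 1 - k) * ((D 1).choose k : Pol))
        = ((-1) ^ k * s ^ (D 1 - k) * ((D 1).choose k : ℝ)) • (X 0 ^ (m - k) * lf ![1, s] ^ k) := by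
      rw [smul_eq_C_mul, map_mul, map_mul, map_pow, map_pow]
      have h3 : (C ((D 1).choose k : ℝ) : Pol) = ((D 1).choose k : Pol) := by simp
      have h4 : m - k = D 0 + (D 1 - k) := by omega
      have h5 : (C (-1 : ℝ) : Pol) = -1 := by simp
      rw [h3, h4, pow_add, mul_pow, h5, neg_pow]
      ring
    rw [h2, map_smul, h k (by omega), smul_zero]
  rw [g.as_sum, map_sum]
  refine Finset.sum_eq_zero fun D hD => ?_
  have h1 : D.degree = m := by
    by_contra hc
    exact (mem_support_iff.1 hD) (IsHomogeneous.coeff_eq_zero hg hc)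
  have h2 : (monomial D (coeff D g) : Pol) = (coeff D g) • monomial D 1 := by
    rw [smul_monomial, smul_eq_mul, mul_one]
  rw [h2, map_smul, hmon D h1, smul_zero]

theorem PhiP_surj {ι : Type} [Fintype ι] (d : ι → Pt) (hd0 : ∀ i, d i ≠ 0)
    (hd : ∀ i j, i ≠ j → det2 (d i) (d j) ≠ 0) (m : ℕ) (e : ι → ℕ)
    (he : m + 1 ≤ ∑ i, (m + 1 - e i)) (g : Pol) (hg : g ∈ H m) :
    ∃ A : (i : ι) → DD m (e i), PhiP d m e A = g := by
  classical
  by_contra hno
  have hnot : g ∉ LinearMap.range (PhiP d m e) := fun ⟨A, hA⟩ => hno ⟨A, hA⟩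
  obtain ⟨φ, hφg, hφ⟩ := Submodule.exists_le_ker_of_notMem hnot
  have hker : ∀ i, ∀ a ∈ DD m (e i), φ (lf (d i) ^ e i * a) = 0 := by
    intro i a ha
    have := hφ ⟨Pi.single i ⟨a, ha⟩, rfl⟩
    rw [PhiP_single] at this
    exact this
  obtain ⟨s, hs⟩ := exists_slope d hd0
  set l : Pol := lf ![1, s] with hl
  set G : Polynomial ℝ := ∑ j ∈ Finset.range (m + 1),
    Polynomial.C ((m.choose j : ℝ) * φ (X 0 ^ (m - j) * l ^ j)) * Polynomial.X ^ j with hG
  have hGe : ∀ t : ℝ, G.eval t = φ ((X 0 + C t * l) ^ m) := by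
    intro t
    rw [phi_pow, hG, Polynomial.eval_finset_sum]
    refine Finset.sum_congr rfl fun j _ => ?_
    simp
  set τ : ι → ℝ := fun i => - d i 0 / (d i 0 * s - d i 1) with hτ
  have hτinj : Function.Injective τ := by
    intro i j hij
    by_contra hne
    apply hd i j hne
    simp only [hτ] at hij
    rw [div_eq_div_iff (hs i) (hs j)] at hij
    unfold det2
    linarith
  have hdvd : ∀ i, (Polynomial.X - Polynomial.C (τ i)) ^ (m + 1 - e i) ∣ G := by
    intro i
    by_cases hei : m < e i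
    · have : m + 1 - e i = 0 := by omega
      rw [this, pow_zero]
      exact one_dvd _
    push Not at hei
    set lam : ℝ := - 1 / (d i 0 * s - d i 1) with hlam
    have hc := hs i
    have hline : (X 0 : Pol) + C (τ i) * l = C lam * lf (d i) := by
      have e0 : 1 + τ i * s = lam * d i 1 := by
        simp only [hτ, hlam]
        field_simp
        ring
      have e1 : τ i = lam * d i 0 := by
        simp only [hτ, hlam]
        field_simp
      have h1 : (X 0 : Pol) + C (τ i) * l = C (1 + τ i * s) * X 0 - C (τ i) * X 1 := by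
        simp [hl, lf]
        ring
      rw [h1, e0]
      nth_rewrite 1 [e1]
      simp only [lf, map_mul]
      ring
    have hexp : G = ∑ j ∈ Finset.range (m + 1),
        Polynomial.C ((m.choose j : ℝ) * φ ((C lam * lf (d i)) ^ (m - j) * l ^ j)) *
          (Polynomial.X - Polynomial.C (τ i)) ^ j := by
      refine Polynomial.funext fun t => ?_
      rw [hGe]
      have h1 : (X 0 : Pol) + C t * l = C lam * lf (d i) + C (t - τ i) * l := by
        rw [← hline, map_sub]
        ring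
      rw [h1, phi_pow, Polynomial.eval_finset_sum]
      refine Finset.sum_congr rfl fun j _ => ?_
      simp
    rw [hexp]
    refine Finset.dvd_sum fun j hj => ?_
    by_cases hjd : j < m + 1 - e i
    · have hz : φ ((C lam * lf (d i)) ^ (m - j) * l ^ j) = 0 := by
        have h1 : (C lam * lf (d i)) ^ (m - j) * l ^ j
            = lf (d i) ^ e i * (C (lam ^ (m - j)) * (lf (d i) ^ (m - j - e i) * l ^ j)) := by
          have h2 : m - j = e i + (m - j - e i) := by omega
          rw [mul_pow, map_pow]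
          nth_rewrite 2 [h2]
          rw [pow_add]
          ring
        rw [h1]
        apply hker
        rw [mem_DD]
        refine ⟨?_, fun hc => absurd hei (not_le.2 hc)⟩
        rw [← smul_eq_C_mul]
        apply Submodule.smul_mem
        have h3 := H_mul (lf_pow_mem (d i) (m - j - e i)) (lf_pow_mem ![1, s] j)
        have h4 : m - j - e i + j = m - e i := by omega
        rwa [h4] at h3
      rw [hz, mul_zero, Polynomial.C_0, zero_mul]
      exact dvd_zero _
    · push Not at hjd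
      exact Dvd.dvd.mul_left (pow_dvd_pow _ hjd) _
  have hprod : (∏ i, (Polynomial.X - Polynomial.C (τ i)) ^ (m + 1 - e i)) ∣ G := by
    refine Finset.prod_dvd_of_coprime ?_ fun i _ => hdvd i
    intro i _ j _ hij
    exact (Polynomial.pairwise_coprime_X_sub_C hτinj hij).pow
  have hdeg : (∏ i, (Polynomial.X - Polynomial.C (τ i)) ^ (m + 1 - e i)).natDegree
      = ∑ i, (m + 1 - e i) := by
    rw [Polynomial.natDegree_prod_of_monic _ _ fun i _ => (Polynomial.monic_X_sub_C _).pow _]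
    refine Finset.sum_congr rfl fun i _ => ?_
    rw [Polynomial.natDegree_pow, Polynomial.natDegree_X_sub_C, mul_one]
  have hGdeg : G.natDegree ≤ m := by
    refine Polynomial.natDegree_sum_le_of_forall_le _ _ fun j hj => ?_
    rw [Finset.mem_range] at hj
    exact (Polynomial.natDegree_C_mul_X_pow_le _ _).trans (by omega)
  have hG0 : G = 0 := Polynomial.eq_zero_of_dvd_of_natDegree_lt hprod (by rw [hdeg]; omega)
  apply hφg
  refine phi_zero_of φ s m (fun j hj => ?_) g hg
  have h1 : G.coeff j = (m.choose j : ℝ) * φ (X 0 ^ (m - j) * l ^ j) := by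
    rw [hG, Polynomial.finset_sum_coeff, Finset.sum_eq_single j]
    · rw [Polynomial.coeff_C_mul_X_pow, if_pos rfl]
    · intro k _ hk
      rw [Polynomial.coeff_C_mul_X_pow, if_neg (Ne.symm hk)]
    · intro hc
      exact absurd (Finset.mem_range.2 (by omega)) hc
  rw [hG0, Polynomial.coeff_zero] at h1
  have h2 : (m.choose j : ℝ) ≠ 0 := by
    have := Nat.choose_pos hj
    positivity
  exact (mul_eq_zero.1 h1.symm).resolve_left h2

theorem pow_surj {ι : Type} [Fintype ι] (d : ι → Pt) (hd0 : ∀ i, d i ≠ 0)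
    (hd : ∀ i j, i ≠ j → det2 (d i) (d j) ≠ 0) (m : ℕ) (e : ι → ℕ)
    (he : m + 1 ≤ ∑ i, (m + 1 - e i)) (g : Pol) (hg : g ∈ H m) :
    ∃ A : ι → Pol, (∀ i, A i ∈ H (m - e i)) ∧ (∀ i, m < e i → A i = 0) ∧
      g = ∑ i, lf (d i) ^ e i * A i := by
  obtain ⟨A, hA⟩ := PhiP_surj d hd0 hd m e he g hg
  refine ⟨fun i => (A i : Pol), fun i => (mem_DD.1 (A i).2).1, fun i => (mem_DD.1 (A i).2).2, ?_⟩
  rw [← hA, PhiP_apply]

/-- the case of equality -/
theorem pow_inj_eq {ι : Type} [Fintype ι] (d : ι → Pt) (hd0 : ∀ i, d i ≠ 0)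
    (hd : ∀ i j, i ≠ j → det2 (d i) (d j) ≠ 0) (m : ℕ) (e : ι → ℕ)
    (he : ∑ i, (m + 1 - e i) = m + 1) : Function.Injective (PhiP d m e) := by
  haveI := finiteDimensional_H m
  set Ψ : ((i : ι) → DD m (e i)) →ₗ[ℝ] H m := (PhiP d m e).codRestrict (H m) (PhiP_mem d m e) with hΨ
  have hfr : Module.finrank ℝ ((i : ι) → DD m (e i)) = Module.finrank ℝ (H m) := by
    rw [Module.finrank_pi_fintype, finrank_H, ← he]
    refine Finset.sum_congr rfl fun i _ => ?_
    rw [finrank_DD]
  have hsur : Function.Surjective Ψ := by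
    intro g
    obtain ⟨A, hA⟩ := PhiP_surj d hd0 hd m e he.ge g g.2
    exact ⟨A, Subtype.ext hA⟩
  have hinj : Function.Injective Ψ :=
    (LinearMap.injective_iff_surjective_of_finrank_eq_finrank hfr).2 hsur
  intro A B hAB
  exact hinj (Subtype.ext hAB)

theorem PhiP_inj {ι : Type} [Fintype ι] (d : ι → Pt) (hd0 : ∀ i, d i ≠ 0)
    (hd : ∀ i j, i ≠ j → det2 (d i) (d j) ≠ 0) (m : ℕ) (e : ι → ℕ)
    (he : ∑ i, (m + 1 - e i) ≤ m + 1) : Function.Injective (PhiP d m e) := by
  classical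
  obtain ⟨s, hs⟩ := exists_slope d hd0
  set d' : Option ι → Pt := fun o => o.elim ![1, s] d with hd'
  set e' : Option ι → ℕ := fun o => o.elim (∑ i, (m + 1 - e i)) e with he'
  have hd0' : ∀ o, d' o ≠ 0 := by
    intro o
    rcases o with _ | i
    · intro hc
      have := congrFun hc 0
      simp [hd'] at this
    · exact hd0 i
  have hdd' : ∀ o o', o ≠ o' → det2 (d' o) (d' o') ≠ 0 := by
    intro o o' hoo
    rcases o with _ | i <;> rcases o' with _ | j
    · exact absurd rfl hoo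
    · have := hs j
      simp only [hd', Option.elim, det2, Matrix.cons_val_zero, Matrix.cons_val_one]
      intro hc
      apply this
      linarith
    · have := hs i
      simp only [hd', Option.elim, det2, Matrix.cons_val_zero, Matrix.cons_val_one]
      intro hc
      apply this
      linarith
    · exact hd i j fun hc => hoo (by rw [hc])
  have hsum : ∑ o, (m + 1 - e' o) = m + 1 := by
    rw [Fintype.sum_option]
    simp only [he', Option.elim]
    omega
  have hinj := pow_inj_eq d' hd0' hdd' m e' hsum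
  intro A B hAB
  set A' : (o : Option ι) → DD m (e' o) := fun o => match o with
    | none => 0
    | some i => A i with hA'
  set B' : (o : Option ι) → DD m (e' o) := fun o => match o with
    | none => 0
    | some i => B i with hB'
  have h1 : PhiP d' m e' A' = PhiP d m e A := by
    rw [PhiP_apply, PhiP_apply, Fintype.sum_option]
    simp only [hA', hd', he', Option.elim, Submodule.coe_zero, mul_zero, zero_add]
  have h2 : PhiP d' m e' B' = PhiP d m e B := by
    rw [PhiP_apply, PhiP_apply, Fintype.sum_option]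
    simp only [hB', hd', he', Option.elim, Submodule.coe_zero, mul_zero, zero_add]
  have h3 : A' = B' := hinj (by rw [h1, h2, hAB])
  funext i
  exact congrFun h3 (some i)

theorem pow_inj {ι : Type} [Fintype ι] (d : ι → Pt) (hd0 : ∀ i, d i ≠ 0)
    (hd : ∀ i j, i ≠ j → det2 (d i) (d j) ≠ 0) (m : ℕ) (e : ι → ℕ)
    (he : ∑ i, (m + 1 - e i) ≤ m + 1) (A : ι → Pol) (hA : ∀ i, A i ∈ H (m - e i))
    (hA0 : ∀ i, m < e i → A i = 0) (hsum : ∑ i, lf (d i) ^ e i * A i = 0) (i : ι) : A i = 0 := by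
  have hinj := PhiP_inj d hd0 hd m e he
  set B : (i : ι) → DD m (e i) := fun i => ⟨A i, mem_DD.2 ⟨hA i, hA0 i⟩⟩ with hB
  have h1 : PhiP d m e B = PhiP d m e 0 := by
    rw [map_zero, PhiP_apply]
    exact hsum
  have h2 : B = 0 := hinj h1
  have h3 := congrFun h2 i
  exact congrArg Subtype.val h3

theorem ne_zero_of_det2_left {d e : Pt} (h : det2 d e ≠ 0) : d ≠ 0 := by
  intro hc
  apply h
  simp [det2, hc]

theorem ne_zero_of_det2_right {d e : Pt} (h : det2 d e ≠ 0) : e ≠ 0 := by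
  intro hc
  apply h
  simp [det2, hc]

theorem det2_comm (d e : Pt) : det2 e d = - det2 d e := by
  unfold det2
  ring

theorem three_ne {d₁ d₂ d₃ : Pt} (h12 : det2 d₁ d₂ ≠ 0) (h13 : det2 d₁ d₃ ≠ 0)
    (h23 : det2 d₂ d₃ ≠ 0) (i j : Fin 3) (hij : i ≠ j) :
    det2 ((![d₁, d₂, d₃] : Fin 3 → Pt) i) ((![d₁, d₂, d₃] : Fin 3 → Pt) j) ≠ 0 := by
  have h21 : det2 d₂ d₁ ≠ 0 := by rw [det2_comm]; exact neg_ne_zero.2 h12
  have h31 : det2 d₃ d₁ ≠ 0 := by rw [det2_comm]; exact neg_ne_zero.2 h13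
  have h32 : det2 d₃ d₂ ≠ 0 := by rw [det2_comm]; exact neg_ne_zero.2 h23
  fin_cases i <;> fin_cases j <;> first | exact absurd rfl hij | assumption

theorem three_ne0 {d₁ d₂ d₃ : Pt} (h12 : det2 d₁ d₂ ≠ 0) (h13 : det2 d₁ d₃ ≠ 0)
    (h23 : det2 d₂ d₃ ≠ 0) (i : Fin 3) : (![d₁, d₂, d₃] : Fin 3 → Pt) i ≠ 0 := by
  fin_cases i
  · exact ne_zero_of_det2_left h12
  · exact ne_zero_of_det2_right h12
  · exact ne_zero_of_det2_right h13

/-- three linear forms -/
theorem pow_surj3 (d₁ d₂ d₃ : Pt) (h12 : det2 d₁ d₂ ≠ 0) (h13 : det2 d₁ d₃ ≠ 0)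
    (h23 : det2 d₂ d₃ ≠ 0) (m e₁ e₂ e₃ : ℕ)
    (he : m + 1 ≤ (m + 1 - e₁) + (m + 1 - e₂) + (m + 1 - e₃)) (g : Pol) (hg : g ∈ H m) :
    ∃ A₁ ∈ H (m - e₁), ∃ A₂ ∈ H (m - e₂), ∃ A₃ ∈ H (m - e₃), (m < e₁ → A₁ = 0) ∧
      (m < e₂ → A₂ = 0) ∧ (m < e₃ → A₃ = 0) ∧
      g = lf d₁ ^ e₁ * A₁ + lf d₂ ^ e₂ * A₂ + lf d₃ ^ e₃ * A₃ := by
  obtain ⟨A, hA1, hA2, hA3⟩ := pow_surj ![d₁, d₂, d₃] (three_ne0 h12 h13 h23)
    (three_ne h12 h13 h23) m ![e₁, e₂, e₃] (by
      rw [Fin.sum_univ_three]
      exact he) g hg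
  refine ⟨A 0, hA1 0, A 1, hA1 1, A 2, hA1 2, hA2 0, hA2 1, hA2 2, ?_⟩
  rw [hA3, Fin.sum_univ_three]
  rfl

/-- three unscaled powers with the common exponent `r + 1` : the dimension is at least the expected one -/
theorem pow_dim3 (d₁ d₂ d₃ : Pt) (h12 : det2 d₁ d₂ ≠ 0) (h13 : det2 d₁ d₃ ≠ 0)
    (h23 : det2 d₂ d₃ ≠ 0) (r j : ℕ) (S : Submodule ℝ Pol)
    (hS : ∀ h ∈ H j, lf d₁ ^ (r + 1) * h ∈ S ∧ lf d₂ ^ (r + 1) * h ∈ S ∧ lf d₃ ^ (r + 1) * h ∈ S) :
    min (j + r + 2) (3 * (j + 1)) ≤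
      Module.finrank ℝ (S ⊓ H (j + r + 1) : Submodule ℝ Pol) := by
  haveI := finiteDimensional_H (j + r + 1)
  haveI : FiniteDimensional ℝ (S ⊓ H (j + r + 1) : Submodule ℝ Pol) :=
    Submodule.finiteDimensional_of_le inf_le_right
  set d : Fin 3 → Pt := ![d₁, d₂, d₃] with hd
  set e : Fin 3 → ℕ := fun _ => r + 1 with he
  have hsum : ∑ i, (j + r + 1 + 1 - e i) = 3 * (j + 1) := by
    simp only [he, Finset.sum_const, Finset.card_univ, Fintype.card_fin, smul_eq_mul]
    omega
  have hsub : j + r + 1 - (r + 1) = j := by omega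
  have hmem : ∀ A : (i : Fin 3) → DD (j + r + 1) (e i), PhiP d (j + r + 1) e A ∈ S := by
    intro A
    rw [PhiP_apply, Fin.sum_univ_three]
    have h : ∀ i, (A i : Pol) ∈ H j := fun i => by
      have := (mem_DD.1 (A i).2).1
      simp only [he] at this
      rwa [hsub] at this
    exact Submodule.add_mem _ (Submodule.add_mem _ (hS _ (h 0)).1 (hS _ (h 1)).2.1)
      (hS _ (h 2)).2.2
  rcases le_total (j + r + 2) (3 * (j + 1)) with hc | hc
  · rw [min_eq_left hc]
    have hle : H (j + r + 1) ≤ S ⊓ H (j + r + 1) := by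
      intro g hg
      refine ⟨?_, hg⟩
      obtain ⟨A, hA⟩ := PhiP_surj d (three_ne0 h12 h13 h23) (three_ne h12 h13 h23) (j + r + 1) e
        (by rw [hsum]; omega) g hg
      rw [← hA]
      exact hmem A
    have := Submodule.finrank_mono hle
    rw [finrank_H] at this
    omega
  · rw [min_eq_right hc]
    have hinj := PhiP_inj d (three_ne0 h12 h13 h23) (three_ne h12 h13 h23) (j + r + 1) e
        (by rw [hsum]; omega)
    set Ψ : ((i : Fin 3) → DD (j + r + 1) (e i)) →ₗ[ℝ] (S ⊓ H (j + r + 1) : Submodule ℝ Pol) :=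
      (PhiP d (j + r + 1) e).codRestrict _ (fun A => ⟨hmem A, PhiP_mem d (j + r + 1) e A⟩) with hΨ
    have hΨi : Function.Injective Ψ := by
      intro A B hAB
      exact hinj (congrArg Subtype.val hAB)
    have h1 := LinearMap.finrank_le_finrank_of_injective hΨi
    rw [Module.finrank_pi_fintype] at h1
    have h2 : ∑ i, Module.finrank ℝ (DD (j + r + 1) (e i)) = 3 * (j + 1) := by
      rw [← hsum]
      exact Finset.sum_congr rfl fun i _ => finrank_DD _ _
    omega

end BSpl
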