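import Pool.Agent.BSpl.Basics
import Pool.Agent.BSpl.PowLem

/-!
# Bivariate splines, module LocSpan: local spanning statements

PAPER PROOFS.  All three use `loc_gen` (module Basics) and `pow_surj3` (module PowLem).

`lin_tr`: a polynomial of degree at most `1` vanishing at `x` is `tr x` of a linear form.

`cell_span`: `loc_gen` with `U = v`, `k = n + r + 1`, `m0 = r + s + 1`. Let `r + s + 1 ≤ m ≤ k`, `j = m - r - 1 ∈ [s, n]`, `g ∈ H m`.
Put `f 1 = F`, `f 2 = f 3 = s`, `c i = f i + j - n` (truncated), `e i = r + 1 + c i`; `m + 1 - e i = j + 1 - c i`, so by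
`Adm.cell` and `pow_surj3` (`d i = x i - v`) `g = ∑ lf (x i - v) ^ e i * A i`. As `tr v (lf (x i - v)) = ell v (x i)`,
`tr v g * lam ^ (k - m) = ∑ (ell v (x i) ^ c i * tr v (A i) * lam ^ (n - j)) * ell v (x i) ^ (r + 1)`, and the bracket (if `A i ≠ 0`,
so `c i ≤ j`) is in `Gen n v (x i) s (f i)`: `i = c i`, `h = A i` of degree `j - c i`, `h'` of degree `n - j` with
`tr (x i) h' = lam ^ (n - j)` (`lin_tr`), `μ = 1`.

`high_span`: `loc_gen` with `U`, `m0 = r + F + 1`. For `m = j + r + 1`, `F ≤ j ≤ n`: exponents `r + 1 + (s + F - j)` for the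
direction `δ`, `r + 1 + (s + j - n)` for `a - U`, `r + 1 + (F + j - n)` for `b - U` (`Adm.high`). The terms of `a`, `b` are treated as
in `cell_span` (they are in `Gen n U a F s`, `Gen n U b F F`, as `j ≥ F`). The term of `δ` is `lf δ ^ (r + 1 + i0) * A` with
`i0 = s + F - j`, `A ∈ H (j - i0)`. Write `A` as a linear combination of `lf δ ^ u * β ^ w`, `u + w = j - i0`, `β = lf (a - U)`
(`H_span`). Put `i = i0 + u`, so `w = j - i`. Then `w ≥ (s - i) + (F - i)` (truncated subtractions: if `i ≥ F` this is `0`; if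
`s ≤ i < F` it is `F - i ≤ j - i`; if `i < s` it is `s + F - 2 i ≤ j - i` because `i ≥ s + F - j`). Use hypothesis `hd` with `i`,
`h₁ = β ^ (s - i)`, `h₂ = β ^ (w - (s - i))`, `μ = lam ^ (n - j)`.

`low_span`: `loc_gen` with `m0 = r + s + 1`; for `m ≥ r + F + 1` use `hhigh` (`tr U g * lam ^ (k - m)` is in
`Deg k ⊓ Ord U m`). For `m = j + r + 1`, `s ≤ j < F`: `g = ∑ lf (x i - U) ^ (r + 1) * A i`, `A i ∈ H j` (`pow_surj3`,
`3 (j + 1) ≥ j + r + 2` by `Adm.rs`). Take affine functions `lam i` with `lam i (U) = 1`, `lam i (x i) = 0`. The polynomial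
`tr U (A i) * lam i ^ (n - j)` is in `Gen n U (x i) s F` (`n - j ≥ F` by `Adm.Fn`), and
`tr U (A i) * lam i ^ (n - j) * ell ^ (r + 1) - tr U (A i) * lam ^ (n - j) * ell ^ (r + 1)` is in `Ord U (m + 1)`: so argue by
descending induction on `m` (first show `Deg k ⊓ Ord U m ≤ S` for all `m ≥ r + s + 1` by descending induction, using `loc_step`
with any `lam`).
-/

set_option autoImplicit false

namespace BSpl

open MvPolynomial

private theorem weight_one (e : Fin 2 →₀ ℕ) : Finsupp.weight (1 : Fin 2 → ℕ) e = e.degree := by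
  rw [Finsupp.degree_eq_weight_one]
  rfl

theorem lin_tr (x : Pt) (l : Pol) (hl : l ∈ Deg 1) (h : eval x l = 0) : ∃ l' ∈ H 1, l = tr x l' := by
  refine ⟨tr (-x) l, ?_, (tr_tr_neg x l).symm⟩
  have h1 : tr (-x) l ∈ Deg 1 := tr_mem_Deg _ hl
  rw [mem_Deg] at h1
  have h0 : eval 0 (tr (-x) l) = 0 := by
    rw [eval_tr]
    simpa using h
  rw [mem_homogeneousSubmodule]
  intro m hm
  have h2 : m.degree ≤ 1 := by
    have := le_totalDegree (mem_support_iff.mpr hm)
    exact this.trans h1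
  have h3 : m ≠ 0 := by
    rintro rfl
    apply hm
    have : constantCoeff (tr (-x) l) = 0 := by
      rw [← MvPolynomial.eval_zero]
      exact h0
    exact this
  have h4 : m.degree ≠ 0 := by
    intro h5
    exact h3 ((Finsupp.degree_eq_zero_iff m).mp h5)
  have h5 : m.degree = 1 := by omega
  rw [weight_one]
  exact h5

/-- an affine function with prescribed values `1` and `0` at two points -/
theorem exists_lam (U x : Pt) (h : U ≠ x) : ∃ lam ∈ Deg 1, eval U lam = 1 ∧ eval x lam = 0 := by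
  obtain ⟨i, hi⟩ := Function.ne_iff.mp h
  have hi' : U i - x i ≠ 0 := sub_ne_zero.mpr hi
  refine ⟨C (U i - x i)⁻¹ * (X i - C (x i)), ?_, ?_, ?_⟩
  · have h1 : (X i - C (x i) : Pol) ∈ Deg 1 := by
      refine Submodule.sub_mem _ ?_ ?_
      · rw [mem_Deg, totalDegree_X]
      · rw [mem_Deg, totalDegree_C]
        exact Nat.zero_le _
    have h0 : (C (U i - x i)⁻¹ : Pol) ∈ Deg 0 := by
      rw [mem_Deg, totalDegree_C]
    simpa using mul_mem_Deg h0 h1
  · simp [inv_mul_cancel₀ hi']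
  · simp

private theorem eval_lf (d z : Pt) : eval z (lf d) = d 1 * z 0 - d 0 * z 1 := by
  simp [lf]

/-- an affine function vanishing at two points and equal to `1` at a third -/
theorem exists_lam2 (U a b : Pt) (h : det2 (a - U) (b - U) ≠ 0) :
    ∃ lam ∈ Deg 1, eval U lam = 1 ∧ eval a lam = 0 ∧ eval b lam = 0 := by
  have hU : eval U (ell a b) = -det2 (a - U) (b - U) := by
    rw [ell_eq_left, eval_tr, eval_lf]
    simp only [det2, Pi.sub_apply]
    ring
  have hn : -det2 (a - U) (b - U) ≠ 0 := neg_ne_zero.mpr h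
  refine ⟨C (-det2 (a - U) (b - U))⁻¹ * ell a b, ?_, ?_, ?_, ?_⟩
  · have h0 : (C (-det2 (a - U) (b - U))⁻¹ : Pol) ∈ Deg 0 := by
      rw [mem_Deg, totalDegree_C]
    simpa using mul_mem_Deg h0 (ell_mem_Deg a b)
  · rw [map_mul, eval_C, hU, inv_mul_cancel₀ hn]
  · rw [map_mul, ell_eq_left, eval_tr, eval_lf]
    simp
  · rw [map_mul, ell_eq_left, eval_tr, eval_lf]
    simp only [Pi.sub_apply]
    ring

theorem H_span (d₁ d₂ : Pt) (h : det2 d₁ d₂ ≠ 0) (m : ℕ) (g : Pol) (hg : g ∈ H m) :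
    ∃ c : ℕ → ℝ, g = ∑ u ∈ Finset.range (m + 1), c u • (lf d₁ ^ u * lf d₂ ^ (m - u)) := by
  -- the span
  let T : ℕ → Submodule ℝ Pol := fun m =>
    Submodule.span ℝ {q | ∃ u ≤ m, q = lf d₁ ^ u * lf d₂ ^ (m - u)}
  have hT1 : ∀ m p, p ∈ T m → lf d₁ * p ∈ T (m + 1) := by
    intro m p hp
    induction hp using Submodule.span_induction with
    | mem x hx =>
      obtain ⟨u, hu, rfl⟩ := hx
      apply Submodule.subset_span
      refine ⟨u + 1, by omega, ?_⟩
      rw [Nat.add_sub_add_right, pow_succ]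
      ring
    | zero => rw [mul_zero]; exact Submodule.zero_mem _
    | add x y _ _ hx hy => rw [mul_add]; exact Submodule.add_mem _ hx hy
    | smul a x _ hx => rw [mul_smul_comm]; exact Submodule.smul_mem _ _ hx
  have hT2 : ∀ m p, p ∈ T m → lf d₂ * p ∈ T (m + 1) := by
    intro m p hp
    induction hp using Submodule.span_induction with
    | mem x hx =>
      obtain ⟨u, hu, rfl⟩ := hx
      apply Submodule.subset_span
      refine ⟨u, by omega, ?_⟩
      rw [Nat.sub_add_comm hu, pow_succ]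
      ring
    | zero => rw [mul_zero]; exact Submodule.zero_mem _
    | add x y _ _ hx hy => rw [mul_add]; exact Submodule.add_mem _ hx hy
    | smul a x _ hx => rw [mul_smul_comm]; exact Submodule.smul_mem _ _ hx
  have hX0 : (X 0 : Pol) = (-(d₂ 0) / det2 d₁ d₂) • lf d₁ + (d₁ 0 / det2 d₁ d₂) • lf d₂ := by
    have e1 : (-(d₂ 0) / det2 d₁ d₂) * d₁ 1 + (d₁ 0 / det2 d₁ d₂) * d₂ 1 = 1 := by
      field_simp
      simp only [det2]
      ring
    have e2 : (-(d₂ 0) / det2 d₁ d₂) * d₁ 0 + (d₁ 0 / det2 d₁ d₂) * d₂ 0 = 0 := by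
      field_simp
      ring
    have : (-(d₂ 0) / det2 d₁ d₂) • lf d₁ + (d₁ 0 / det2 d₁ d₂) • lf d₂
        = C ((-(d₂ 0) / det2 d₁ d₂) * d₁ 1 + (d₁ 0 / det2 d₁ d₂) * d₂ 1) * X 0
          - C ((-(d₂ 0) / det2 d₁ d₂) * d₁ 0 + (d₁ 0 / det2 d₁ d₂) * d₂ 0) * X 1 := by
      simp only [lf, smul_eq_C_mul, C_add, C_mul]
      ring
    rw [this, e1, e2]
    simp
  have hX1 : (X 1 : Pol) = (-(d₂ 1) / det2 d₁ d₂) • lf d₁ + (d₁ 1 / det2 d₁ d₂) • lf d₂ := by
    have e1 : (-(d₂ 1) / det2 d₁ d₂) * d₁ 1 + (d₁ 1 / det2 d₁ d₂) * d₂ 1 = 0 := by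
      field_simp
      ring
    have e2 : (-(d₂ 1) / det2 d₁ d₂) * d₁ 0 + (d₁ 1 / det2 d₁ d₂) * d₂ 0 = -1 := by
      field_simp
      simp only [det2]
      ring
    have : (-(d₂ 1) / det2 d₁ d₂) • lf d₁ + (d₁ 1 / det2 d₁ d₂) • lf d₂
        = C ((-(d₂ 1) / det2 d₁ d₂) * d₁ 1 + (d₁ 1 / det2 d₁ d₂) * d₂ 1) * X 0
          - C ((-(d₂ 1) / det2 d₁ d₂) * d₁ 0 + (d₁ 1 / det2 d₁ d₂) * d₂ 0) * X 1 := by
      simp only [lf, smul_eq_C_mul, C_add, C_mul]
      ring
    rw [this, e1, e2]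
    simp
  have hTX : ∀ (i : Fin 2) m p, p ∈ T m → X i * p ∈ T (m + 1) := by
    intro i m p hp
    fin_cases i
    · show X 0 * p ∈ _
      rw [hX0, add_mul, smul_mul_assoc, smul_mul_assoc]
      exact Submodule.add_mem _ (Submodule.smul_mem _ _ (hT1 m p hp))
        (Submodule.smul_mem _ _ (hT2 m p hp))
    · show X 1 * p ∈ _
      rw [hX1, add_mul, smul_mul_assoc, smul_mul_assoc]
      exact Submodule.add_mem _ (Submodule.smul_mem _ _ (hT1 m p hp))
        (Submodule.smul_mem _ _ (hT2 m p hp))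
  have hT0 : (1 : Pol) ∈ T 0 := by
    apply Submodule.subset_span
    exact ⟨0, le_refl _, by simp⟩
  have hTXp : ∀ (i : Fin 2) a m p, p ∈ T m → X i ^ a * p ∈ T (m + a) := by
    intro i a
    induction a with
    | zero => intro m p hp; simpa using hp
    | succ a ih =>
      intro m p hp
      have := hTX i _ _ (ih m p hp)
      rw [pow_succ', mul_assoc]
      exact this
  have hTm : ∀ e : Fin 2 →₀ ℕ, ∀ a : ℝ, monomial e a ∈ T e.degree := by
    intro e a
    have h1 : (monomial e a : Pol) = a • (X 1 ^ e 1 * (X 0 ^ e 0 * 1)) := by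
      rw [monomial_eq, Finsupp.prod_fintype _ _ (fun i => pow_zero _), Fin.prod_univ_two,
        smul_eq_C_mul]
      ring
    have h2 : e.degree = 0 + e 0 + e 1 := by
      rw [Finsupp.degree_eq_sum, Fin.sum_univ_two]
      ring
    rw [h1, h2]
    exact Submodule.smul_mem _ _ (hTXp 1 _ _ _ (hTXp 0 _ _ _ hT0))
  have hgT : g ∈ T m := by
    rw [g.as_sum]
    refine Submodule.sum_mem _ fun e he => ?_
    have h1 : e.degree = m := by
      have h2 := (mem_homogeneousSubmodule m g).mp hg (mem_support_iff.mp he)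
      rw [weight_one] at h2
      exact h2
    have := hTm e (coeff e g)
    rw [h1] at this
    exact this
  clear hTm hTXp hTX hT0 hX0 hX1 hT1 hT2 hg
  induction hgT using Submodule.span_induction with
  | mem x hx =>
    obtain ⟨u, hu, rfl⟩ := hx
    refine ⟨fun v => if v = u then 1 else 0, ?_⟩
    rw [Finset.sum_eq_single u]
    · simp
    · intro v _ hv
      simp [hv]
    · intro hv
      exfalso
      apply hv
      rw [Finset.mem_range]
      omega
  | zero => exact ⟨fun _ => 0, by simp⟩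
  | add x y _ _ hx hy =>
    obtain ⟨c, hc⟩ := hx
    obtain ⟨c', hc'⟩ := hy
    refine ⟨fun u => c u + c' u, ?_⟩
    simp only [add_smul, Finset.sum_add_distrib]
    rw [← hc, ← hc']
  | smul a x _ hx =>
    obtain ⟨c, hc⟩ := hx
    refine ⟨fun u => a * c u, ?_⟩
    simp only [mul_smul]
    rw [← Finset.smul_sum, ← hc]

/-- one term of the decomposition at a vertex -/
private theorem term_mem {n r j s f : ℕ} (U x : Pt) (lam : Pol) (hlam : lam ∈ Deg 1)
    (hx : eval x lam = 0) (hj : j ≤ n) (hs : s ≤ j) (A : Pol)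
    (hA : A ∈ H (j + r + 1 - (r + 1 + (f + j - n))))
    (hA0 : j + r + 1 < r + 1 + (f + j - n) → A = 0) (S : Submodule ℝ Pol)
    (hS : ∀ q ∈ Gen n U x s f, q * ell U x ^ (r + 1) ∈ S) :
    tr U (lf (x - U) ^ (r + 1 + (f + j - n)) * A) * lam ^ (n - j) ∈ S := by
  by_cases hc : j < f + j - n
  · rw [hA0 (by omega)]
    simp
  · obtain ⟨l', hl', hl⟩ := lin_tr x lam hlam hx
    have hA' : A ∈ H (j - (f + j - n)) := by
      have : j + r + 1 - (r + 1 + (f + j - n)) = j - (f + j - n) := by omega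
      rw [this] at hA
      exact hA
    have hl'' : l' ^ (n - j) ∈ H (n - j) := by
      have := pow_mem_H hl' (n - j)
      rwa [mul_one] at this
    have := hS (ell U x ^ (f + j - n) * tr U A * tr x (l' ^ (n - j)) * 1)
      ⟨f + j - n, j - (f + j - n), n - j, A, l' ^ (n - j), 1, hA', hl'', by omega, by omega, by
        rw [totalDegree_one]
        omega, rfl⟩
    rw [map_pow, ← hl] at this
    rw [map_mul, map_pow, ← ell_eq_left]
    have e : ell U x ^ (r + 1 + (f + j - n)) * tr U A * lam ^ (n - j)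
        = ell U x ^ (f + j - n) * tr U A * lam ^ (n - j) * 1 * ell U x ^ (r + 1) := by
      rw [pow_add]
      ring
    rw [e]
    exact this

theorem cell_span {r n s F : ℕ} (hA : Adm r n s F) (v x₁ x₂ x₃ : Pt) (lam : Pol)
    (hlam : lam ∈ Deg 1) (hv : eval v lam = 1) (h1 : eval x₁ lam = 0) (h2 : eval x₂ lam = 0)
    (h3 : eval x₃ lam = 0) (h12 : det2 (x₁ - v) (x₂ - v) ≠ 0) (h13 : det2 (x₁ - v) (x₃ - v) ≠ 0)
    (h23 : det2 (x₂ - v) (x₃ - v) ≠ 0) (S : Submodule ℝ Pol)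
    (hS1 : ∀ q ∈ Gen n v x₁ s F, q * ell v x₁ ^ (r + 1) ∈ S)
    (hS2 : ∀ q ∈ Gen n v x₂ s s, q * ell v x₂ ^ (r + 1) ∈ S)
    (hS3 : ∀ q ∈ Gen n v x₃ s s, q * ell v x₃ ^ (r + 1) ∈ S) :
    Deg (n + r + 1) ⊓ Ord v (r + s + 1) ≤ S := by
  apply loc_gen v lam hlam hv
  intro m hm1 hm2 g hg
  obtain ⟨j, rfl⟩ : ∃ j, m = j + r + 1 := ⟨m - r - 1, by omega⟩
  have hj1 : s ≤ j := by omega
  have hj2 : j ≤ n := by omega
  have hc := hA.cell j hj1 hj2
  obtain ⟨A₁, hA₁, A₂, hA₂, A₃, hA₃, hz1, hz2, hz3, rfl⟩ := pow_surj3 _ _ _ h12 h13 h23 (j + r + 1)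
    (r + 1 + (F + j - n)) (r + 1 + (s + j - n)) (r + 1 + (s + j - n)) (by omega) g hg
  have hk : n + r + 1 - (j + r + 1) = n - j := by omega
  rw [hk, map_add, map_add, add_mul, add_mul]
  refine Submodule.add_mem _ (Submodule.add_mem _ ?_ ?_) ?_
  · exact term_mem v x₁ lam hlam h1 hj2 hj1 A₁ hA₁ hz1 S hS1
  · exact term_mem v x₂ lam hlam h2 hj2 hj1 A₂ hA₂ hz2 S hS2
  · exact term_mem v x₃ lam hlam h3 hj2 hj1 A₃ hA₃ hz3 S hS3

theorem high_span {r n s F : ℕ} (hA : Adm r n s F) (U a b δ : Pt) (lam : Pol) (hlam : lam ∈ Deg 1)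
    (hU : eval U lam = 1) (ha : eval a lam = 0) (hb : eval b lam = 0)
    (hab : det2 (a - U) (b - U) ≠ 0) (hδa : det2 δ (a - U) ≠ 0) (hδb : det2 δ (b - U) ≠ 0)
    (S : Submodule ℝ Pol)
    (hd : ∀ (i a₁ a₂ : ℕ) (h₁ h₂ μ : Pol), h₁ ∈ H a₁ → h₂ ∈ H a₂ → s ≤ i + a₁ → F ≤ i + a₂ →
      μ.totalDegree + i + a₁ + a₂ ≤ n → tr U (lf δ) ^ (r + 1 + i) * tr U h₁ * tr U h₂ * μ ∈ S)
    (hSa : ∀ q ∈ Gen n U a F s, q * ell U a ^ (r + 1) ∈ S)
    (hSb : ∀ q ∈ Gen n U b F F, q * ell U b ^ (r + 1) ∈ S) :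
    Deg (n + r + 1) ⊓ Ord U (r + F + 1) ≤ S := by
  apply loc_gen U lam hlam hU
  intro m hm1 hm2 g hg
  obtain ⟨j, rfl⟩ : ∃ j, m = j + r + 1 := ⟨m - r - 1, by omega⟩
  have hj1 : F ≤ j := by omega
  have hj2 : j ≤ n := by omega
  have hsF := hA.sF
  have hc := hA.high j hj1 hj2
  obtain ⟨A₁, hA₁, A₂, hA₂, A₃, hA₃, hz1, hz2, hz3, rfl⟩ := pow_surj3 _ _ _ hδa hδb hab (j + r + 1)
    (r + 1 + (s + F - j)) (r + 1 + (s + j - n)) (r + 1 + (F + j - n)) (by omega) g hg
  have hk : n + r + 1 - (j + r + 1) = n - j := by omega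
  rw [hk, map_add, map_add, add_mul, add_mul]
  refine Submodule.add_mem _ (Submodule.add_mem _ ?_ ?_) ?_
  · by_cases hi0 : j < s + F - j
    · rw [hz1 (by omega)]
      simp
    · have hA₁' : A₁ ∈ H (j - (s + F - j)) := by
        have : j + r + 1 - (r + 1 + (s + F - j)) = j - (s + F - j) := by omega
        rw [this] at hA₁
        exact hA₁
      obtain ⟨c, hc⟩ := H_span δ (a - U) hδa _ A₁ hA₁'
      rw [hc, Finset.mul_sum, map_sum, Finset.sum_mul]
      refine Submodule.sum_mem _ fun u hu => ?_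
      rw [Finset.mem_range] at hu
      rw [mul_smul_comm, map_smul, smul_mul_assoc]
      refine Submodule.smul_mem _ _ ?_
      have hw : j - (s + F - j) - u = j - ((s + F - j) + u) := by omega
      rw [hw]
      obtain ⟨i, hi⟩ : ∃ i, i = (s + F - j) + u := ⟨_, rfl⟩
      have hij : i ≤ j := by omega
      have hi1 : s + F ≤ i + j := by omega
      have hl1 : lf (a - U) ^ (s - i) ∈ H (s - i) := by
        have := pow_mem_H (lf_H (a - U)) (s - i)
        rwa [mul_one] at this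
      have hl2 : lf (a - U) ^ (j - i - (s - i)) ∈ H (j - i - (s - i)) := by
        have := pow_mem_H (lf_H (a - U)) (j - i - (s - i))
        rwa [mul_one] at this
      have hdeg : (lam ^ (n - j)).totalDegree ≤ n - j := by
        have := pow_mem_Deg hlam (n - j)
        rwa [mem_Deg, mul_one] at this
      have := hd i (s - i) (j - i - (s - i)) _ _ (lam ^ (n - j)) hl1 hl2 (by omega) (by omega)
        (by omega)
      have e : tr U (lf δ ^ (r + 1 + (s + F - j)) * (lf δ ^ u * lf (a - U) ^ (j - ((s + F - j) + u))))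
          * lam ^ (n - j) = tr U (lf δ) ^ (r + 1 + i) * tr U (lf (a - U) ^ (s - i)) *
            tr U (lf (a - U) ^ (j - i - (s - i))) * lam ^ (n - j) := by
        have e2 : j - i = (s - i) + (j - i - (s - i)) := by omega
        rw [← hi]
        conv_lhs => rw [e2]
        simp only [map_mul, map_pow]
        rw [pow_add (tr U (lf (a - U)))]
        have e3 : r + 1 + i = r + 1 + (s + F - j) + u := by omega
        rw [e3, pow_add _ (r + 1 + (s + F - j))]
        ring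
      rw [e]
      exact this
  · exact term_mem U a lam hlam ha hj2 hj1 A₂ hA₂ hz2 S hSa
  · exact term_mem U b lam hlam hb hj2 hj1 A₃ hA₃ hz3 S hSb

private theorem ne_of_det {U x y : Pt} (h : det2 (x - U) (y - U) ≠ 0) : U ≠ x ∧ U ≠ y := by
  constructor
  · rintro rfl
    apply h
    simp [det2]
  · rintro rfl
    apply h
    simp [det2]

/-- one term of the low part -/
private theorem low_term {r n s F j : ℕ} (hA : Adm r n s F) (hsj : s ≤ j) (hjF : j < F) (U x : Pt)
    (hUx : U ≠ x) (lam : Pol) (hlam : lam ∈ Deg 1) (hU : eval U lam = 1) (A : Pol) (hAj : A ∈ H j)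
    (S : Submodule ℝ Pol) (hS : ∀ q ∈ Gen n U x s F, q * ell U x ^ (r + 1) ∈ S)
    (hnext : Deg (n + r + 1) ⊓ Ord U (j + r + 1 + 1) ≤ S) :
    tr U (lf (x - U) ^ (r + 1) * A) * lam ^ (n - j) ∈ S := by
  have hFn := hA.Fn
  obtain ⟨l, hl, hlU, hlx⟩ := exists_lam U x hUx
  obtain ⟨l', hl', hll⟩ := lin_tr x l hl hlx
  have hl'' : l' ^ (n - j) ∈ H (n - j) := by
    have := pow_mem_H hl' (n - j)
    rwa [mul_one] at this
  have h1 := hS (ell U x ^ 0 * tr U A * tr x (l' ^ (n - j)) * 1)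
      ⟨0, j, n - j, A, l' ^ (n - j), 1, hAj, hl'', by omega, by omega, by
        rw [totalDegree_one]
        omega, rfl⟩
  rw [map_pow, ← hll] at h1
  have h2 : ell U x ^ (r + 1) * tr U A * (lam ^ (n - j) - l ^ (n - j)) ∈ S := by
    apply hnext
    refine ⟨?_, ?_⟩
    · have a1 : ell U x ^ (r + 1) ∈ Deg (r + 1) := by
        have := pow_mem_Deg (ell_mem_Deg U x) (r + 1)
        rwa [mul_one] at this
      have a2 : tr U A ∈ Deg j := tr_mem_Deg U (H_le_Deg j hAj)
      have a3 : lam ^ (n - j) - l ^ (n - j) ∈ Deg (n - j) := by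
        refine Submodule.sub_mem _ ?_ ?_
        · have := pow_mem_Deg hlam (n - j)
          rwa [mul_one] at this
        · have := pow_mem_Deg hl (n - j)
          rwa [mul_one] at this
      have := mul_mem_Deg (mul_mem_Deg a1 a2) a3
      have e : r + 1 + j + (n - j) = n + r + 1 := by omega
      rwa [e] at this
    · have a1 : ell U x ^ (r + 1) ∈ Ord U (r + 1) := by
        have := pow_mem_Ord (ell_mem_Ord_left U x) (r + 1)
        rwa [mul_one] at this
      have a2 : tr U A ∈ Ord U j := tr_mem_Ord hAj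
      have a3 : lam ^ (n - j) - l ^ (n - j) ∈ Ord U 1 := by
        apply mem_Ord_one
        rw [map_sub, map_pow, map_pow, hU, hlU]
        simp
      have := mul_mem_Ord (mul_mem_Ord a1 a2) a3
      have e : r + 1 + j + 1 = j + r + 1 + 1 := by omega
      rwa [e] at this
  have e : tr U (lf (x - U) ^ (r + 1) * A) * lam ^ (n - j)
      = ell U x ^ (r + 1) * tr U A * (lam ^ (n - j) - l ^ (n - j)) +
        ell U x ^ 0 * tr U A * l ^ (n - j) * 1 * ell U x ^ (r + 1) := by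
    rw [map_mul, map_pow, ← ell_eq_left]
    ring
  rw [e]
  exact Submodule.add_mem _ h2 h1

theorem low_span {r n s F : ℕ} (hA : Adm r n s F) (U x₁ x₂ x₃ : Pt)
    (h12 : det2 (x₁ - U) (x₂ - U) ≠ 0) (h13 : det2 (x₁ - U) (x₃ - U) ≠ 0)
    (h23 : det2 (x₂ - U) (x₃ - U) ≠ 0) (S : Submodule ℝ Pol)
    (hS1 : ∀ q ∈ Gen n U x₁ s F, q * ell U x₁ ^ (r + 1) ∈ S)
    (hS2 : ∀ q ∈ Gen n U x₂ s F, q * ell U x₂ ^ (r + 1) ∈ S)
    (hS3 : ∀ q ∈ Gen n U x₃ s F, q * ell U x₃ ^ (r + 1) ∈ S)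
    (hhigh : Deg (n + r + 1) ⊓ Ord U (r + F + 1) ≤ S) :
    Deg (n + r + 1) ⊓ Ord U (r + s + 1) ≤ S := by
  have hsF := hA.sF
  have hFn := hA.Fn
  have hrs := hA.rs
  obtain ⟨lam, hlam, hU, -⟩ := exists_lam U x₁ (ne_of_det h12).1
  have key : ∀ t ≤ F - s, Deg (n + r + 1) ⊓ Ord U (r + F + 1 - t) ≤ S := by
    intro t
    induction t with
    | zero => intro _; exact hhigh
    | succ t ih =>
      intro ht
      have ih := ih (by omega)
      obtain ⟨j, hj⟩ : ∃ j, j = F - (t + 1) := ⟨_, rfl⟩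
      have hjF : j < F := by omega
      have hsj : s ≤ j := by omega
      have e1 : r + F + 1 - (t + 1) = j + r + 1 := by omega
      have e2 : r + F + 1 - t = j + r + 1 + 1 := by omega
      rw [e2] at ih
      rw [e1]
      intro q hq
      obtain ⟨g, hg, hgq⟩ := loc_step U lam hlam hU (n + r + 1) (j + r + 1) (by omega) q hq
      have h1 := ih hgq
      have h2 : tr U g * lam ^ (n + r + 1 - (j + r + 1)) ∈ S := by
        obtain ⟨A₁, hA₁, A₂, hA₂, A₃, hA₃, -, -, -, rfl⟩ := pow_surj3 _ _ _ h12 h13 h23 (j + r + 1)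
          (r + 1) (r + 1) (r + 1) (by omega) g hg
        have e3 : j + r + 1 - (r + 1) = j := by omega
        rw [e3] at hA₁ hA₂ hA₃
        have hk : n + r + 1 - (j + r + 1) = n - j := by omega
        rw [hk, map_add, map_add, add_mul, add_mul]
        refine Submodule.add_mem _ (Submodule.add_mem _ ?_ ?_) ?_
        · exact low_term hA hsj hjF U x₁ (ne_of_det h12).1 lam hlam hU A₁ hA₁ S hS1 ih
        · exact low_term hA hsj hjF U x₂ (ne_of_det h12).2 lam hlam hU A₂ hA₂ S hS2 ih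
        · exact low_term hA hsj hjF U x₃ (ne_of_det h13).2 lam hlam hU A₃ hA₃ S hS3 ih
      have := Submodule.add_mem _ h1 h2
      rwa [sub_add_cancel] at this
  have := key (F - s) (le_refl _)
  have e : r + F + 1 - (F - s) = r + s + 1 := by omega
  rwa [e] at this

end BSpl
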