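import Pool.Agent.BSpl.Conf
import Pool.Agent.BSpl.LocSpan

/-!
# Bivariate splines, module StepB: absorbing a vertex, version without flags

Here `s = 0` and all flags are `0`, so `Gen n x y 0 0` consists of all polynomials of degree at most `n`. The step increases the rank by at
least `dB r n = ∑_{j=0}^{n} min (j + r + 2) (3 (j + 1))`.

PAPER PROOF.  As in module StepL: let `p₀` be a position with `N ≤ finrank (W r n 0 α c' p₀)`, `p₁` a position with `p₁ U = (0, 0)`,
`p₁ a = (1, 0)`, `p₁ b = (0, 1)`; by `conf_line` and `det_line` there is `t` such that at `p = p₀ + t • (p₁ - p₀)` we have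
`N ≤ finrank (W r n 0 α c' p)` and `det2 (p a - p U) (p b - p U) ≠ 0`. Let `δ = (p a - p U) + (p b - p U)`,
`P t := Function.update p v (p U + t • δ)`, and use `engine` with the set `S` of the following vectors:
(i) `evec r α (P 0) x y q` for `x, y ∈ c.I`, `x ≠ y`, `c.ii x y`, and `gvec r (P 0) x y q` for `x ∈ c.I`, `y ∉ c.I`, `c.gr x y 0`, with
`q ∈ Gen n _ _ 0 0` (all of `Deg n`); (ii) `Pi.single v (tr (p U) (lf δ) ^ (r + 1) * q)`, `q ∈ Deg n`: for `t ≠ 0` the vector
`gvec r (P t) v U q = Pi.single v (q * (- t • tr (p U) (lf δ)) ^ (r + 1))` is a column; divide by `(- t) ^ (r + 1)`.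
Let `Σ = span S`.

The vectors `Pi.single v (ell (p U) (p a) ^ (r + 1) * q)`, `q ∈ Deg n`, are in `Σ`: if `a ∉ c.I` of type (i); if `a ∈ c.I` then
`evec r α (P 0) v a q` and `gvec r (P 0) a U q` are of type (i), the second summand of the first is a multiple of the second, and
`α v a ≠ 0`. The same for `b`.

Let `B = Σ ⊓ {w | w x = 0 for all x ≠ v}`; the map `w ↦ w v` from `B` is injective and its image contains `tr (p U)` of the space `R` spanned by
`lf d i ^ (r + 1) * q`, `q ∈ Deg n`, for the three pairwise nonproportional directions `δ`, `p a - p U`, `p b - p U`. Since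
`R` contains `R ⊓ H (j + r + 1)` for `j = 0, ..., n`, which are independent and of dimension at least `min (j + r + 2) (3 (j + 1))` by
`pow_dim3`, `dB r n ≤ finrank B`.

Let `π : (V → Pol) → (V → Pol)` set the coordinate `v` to `0` (`π w = Function.update w v 0`). Then `W r n 0 α c' p ≤ π Σ`: a column of `c'` is either
a column of `c` (of type (i), not changed by `π`), or for a new edge `x U` the vector `gvec r p x U q = π (α x v ⁻¹ • evec r α (P 0) x v q)`.
As `B` is the kernel of `π` on `Σ`, `N + dB r n ≤ finrank (π Σ) + finrank B = finrank Σ` (`Σ` is finite dimensional: contained in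
`MM r n 0 c.I (P 0)`). So `engine` gives `N + dB r n ≤ finrank (W r n 0 α c (P t))` for all but finitely many `t`.
-/

set_option autoImplicit false

namespace BSpl

open MvPolynomial

variable {V : Type} [DecidableEq V]

/-- the rank gained by a vertex -/
def dB (r n : ℕ) : ℕ := ∑ j ∈ Finset.range (n + 1), min (j + r + 2) (3 * (j + 1))

/-- the rank of the cofactor matrix is at least `|I| * dB` for some positions -/
def FullB (r n : ℕ) (α : V → V → ℝ) (c : Cfg V) : Prop :=
  ∃ p : V → Pt, c.I.card * dB r n ≤ Module.finrank ℝ (W r n 0 α c p)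

/-- the projection which sets the coordinate `v` to `0` -/
private noncomputable def prj (v : V) : (V → Pol) →ₗ[ℝ] (V → Pol) :=
  LinearMap.id - (LinearMap.single ℝ (fun _ : V => Pol) v).comp (LinearMap.proj v)

private theorem prj_apply (v : V) (w : V → Pol) : prj v w = w - Pi.single v (w v) := rfl

private theorem prj_single_self (v : V) (q : Pol) : prj v (Pi.single v q) = 0 := by
  rw [prj_apply, Pi.single_eq_same, sub_self]

private theorem prj_single_ne {v x : V} (h : x ≠ v) (q : Pol) :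
    prj v (Pi.single x q) = Pi.single x q := by
  rw [prj_apply, Pi.single_eq_of_ne h.symm, Pi.single_zero, sub_zero]

private theorem mem_gen_zero {n : ℕ} {x y : Pt} {q : Pol} (hq : q ∈ Deg n) : q ∈ Gen n x y 0 0 := by
  refine ⟨0, 0, 0, 1, 1, q, ?_, ?_, le_rfl, le_rfl, ?_, ?_⟩
  · exact (mem_homogeneousSubmodule _ _).2 (isHomogeneous_one _ _)
  · exact (mem_homogeneousSubmodule _ _).2 (isHomogeneous_one _ _)
  · have := mem_Deg.1 hq
    omega
  · rw [pow_zero, map_one, map_one, one_mul, one_mul, one_mul]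

/-- the set of limit vectors -/
private def lims (r n : ℕ) (α : V → V → ℝ) (c : Cfg V) (P : V → Pt) (v : V) (u δ : Pt) :
    Set (V → Pol) :=
  {w | (∃ x ∈ c.I, ∃ y ∈ c.I, x ≠ y ∧ c.ii x y ∧ ∃ q ∈ Deg n, w = evec r α P x y q) ∨
    (∃ x ∈ c.I, ∃ b, b ∉ c.I ∧ c.gr x b 0 ∧ ∃ q ∈ Deg n, w = gvec r P x b q) ∨
    (∃ q ∈ Deg n, w = Pi.single v (tr u (lf δ) ^ (r + 1) * q))}

private theorem lims_fd (r n : ℕ) (α : V → V → ℝ) (c : Cfg V) (P : V → Pt) (v : V) (u δ : Pt) :
    FiniteDimensional ℝ (Submodule.span ℝ (lims r n α c P v u δ)) := by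
  have h1 : FiniteDimensional ℝ (W r n 0 α c P) := finiteDimensional_W r n 0 α c P
  have h2 : FiniteDimensional ℝ (Deg (n + r + 1)) := finiteDimensional_Deg _
  have h3 : Submodule.span ℝ (lims r n α c P v u δ) ≤
      W r n 0 α c P ⊔ (Deg (n + r + 1)).map (LinearMap.single ℝ (fun _ : V => Pol) v) := by
    rw [Submodule.span_le]
    rintro w (⟨x, hx, y, hy, hxy, hii, q, hq, rfl⟩ | ⟨x, hx, b, hb, hgr, q, hq, rfl⟩ | ⟨q, hq, rfl⟩)
    · apply Submodule.mem_sup_left
      exact Submodule.subset_span (Or.inl ⟨x, hx, y, hy, hxy, hii, q, mem_gen_zero hq, rfl⟩)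
    · apply Submodule.mem_sup_left
      exact Submodule.subset_span (Or.inr ⟨x, hx, b, hb, 0, hgr, q, mem_gen_zero hq, rfl⟩)
    · apply Submodule.mem_sup_right
      refine ⟨_, ?_, rfl⟩
      have h4 := mul_mem_Deg (pow_mem_Deg (tr_mem_Deg u (H_le_Deg 1 (lf_H δ))) (r + 1)) hq
      have h5 : (r + 1) * 1 + n = n + r + 1 := by ring
      rw [h5] at h4
      exact h4
  exact Submodule.finiteDimensional_of_le h3

/-- a vector with one entry, at a limit position -/
private theorem single_mem_lims {r n : ℕ} {α : V → V → ℝ} (hα : ∀ x y, α x y ≠ 0)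
    {c : Cfg V} {P : V → Pt} {v U z : V} {u δ : Pt} (hv : v ∈ c.I) (hvz : v ≠ z)
    (hU : U ∉ c.I) (hPv : P v = u) (hPU : P U = u)
    (hz : (z ∈ c.I ∧ c.ii v z ∧ c.gr z U 0) ∨ (z ∉ c.I ∧ c.gr v z 0)) {q : Pol}
    (hq : q ∈ Deg n) :
    Pi.single v (q * ell u (P z) ^ (r + 1)) ∈ Submodule.span ℝ (lims r n α c P v u δ) := by
  rcases hz with ⟨hzI, hii, hgr⟩ | ⟨hzI, hgr⟩
  · have h1 : evec r α P v z q ∈ Submodule.span ℝ (lims r n α c P v u δ) :=
      Submodule.subset_span (Or.inl ⟨v, hv, z, hzI, hvz, hii, q, hq, rfl⟩)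
    have h2 : gvec r P z U q ∈ Submodule.span ℝ (lims r n α c P v u δ) :=
      Submodule.subset_span (Or.inr (Or.inl ⟨z, hzI, U, hU, hgr, q, hq, rfl⟩))
    have h3 := Submodule.smul_mem _ (α v z)⁻¹
      (Submodule.sub_mem _ h1 (Submodule.smul_mem _ (α z v) h2))
    convert h3 using 1
    unfold evec gvec
    rw [hPv, hPU, Pi.single_smul, Pi.single_smul, add_sub_cancel_right, smul_smul,
      inv_mul_cancel₀ (hα v z), one_smul]
  · refine Submodule.subset_span (Or.inr (Or.inl ⟨v, hv, z, hzI, hgr, q, hq, ?_⟩))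
    unfold gvec
    rw [hPv]

/-- the curves through the limit vectors -/
private theorem lims_curve {r n : ℕ} {α : V → V → ℝ} {c : Cfg V} {p : V → Pt} {v U : V} {δ : Pt}
    (hv : v ∈ c.I) (hvU : v ≠ U) (hU : U ∉ c.I) (hgU : c.gr v U 0) {w₀ : V → Pol}
    (hw : w₀ ∈ lims r n α c (Function.update p v (p U + (0 : ℝ) • δ)) v (p U) δ) :
    ∃ w : ℝ → (V → Pol), PC w ∧ w 0 = w₀ ∧
      ∀ t, t ≠ 0 → w t ∈ W r n 0 α c (Function.update p v (p U + t • δ)) := by
  have hP : ∀ x, PC (fun t : ℝ => Function.update p v (p U + t • δ) x) := by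
    intro x
    by_cases hx : x = v
    · subst hx
      have h1 : (fun t : ℝ => Function.update p x (p U + t • δ) x) =
          fun t : ℝ => p U + t • δ := by
        funext t
        rw [Function.update_self]
      rw [h1]
      exact (PC.const (p U)).add (PC.lin δ)
    · have h1 : (fun t : ℝ => Function.update p v (p U + t • δ) x) = fun _ : ℝ => p x := by
        funext t
        rw [Function.update_of_ne hx]
      rw [h1]
      exact PC.const (p x)
  rcases hw with ⟨x, hx, y, hy, hxy, hii, q, hq, rfl⟩ | ⟨x, hx, b, hb, hgr, q, hq, rfl⟩ | ⟨q, hq, rfl⟩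
  · refine ⟨_, PC_evec r α hP x y (PC.const q), rfl, fun t _ => ?_⟩
    exact Submodule.subset_span (Or.inl ⟨x, hx, y, hy, hxy, hii, q, mem_gen_zero hq, rfl⟩)
  · refine ⟨_, PC_gvec r hP x b (PC.const q), rfl, fun t _ => ?_⟩
    exact Submodule.subset_span (Or.inr ⟨x, hx, b, hb, 0, hgr, q, mem_gen_zero hq, rfl⟩)
  · refine ⟨_, PC.const _, rfl, fun t ht => ?_⟩
    have h1 : gvec r (Function.update p v (p U + t • δ)) v U q ∈
        W r n 0 α c (Function.update p v (p U + t • δ)) :=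
      Submodule.subset_span (Or.inr ⟨v, hv, U, hU, 0, hgU, q, mem_gen_zero hq, rfl⟩)
    have h2 := Submodule.smul_mem _ (((-t) ^ (r + 1))⁻¹) h1
    convert h2 using 1
    unfold gvec
    rw [Function.update_self, Function.update_of_ne hvU.symm, ell_swap, ell_eq_left,
      add_sub_cancel_left, lf_smul, map_mul, tr_C]
    have h3 : (-(C t * (tr (p U)) (lf δ))) ^ (r + 1) =
        C ((-t) ^ (r + 1)) * (tr (p U) (lf δ)) ^ (r + 1) := by
      rw [map_pow, map_neg, ← neg_mul, mul_pow]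
    rw [h3, ← Pi.single_smul]
    congr 1
    rw [smul_eq_C_mul]
    have h4 : (C (((-t) ^ (r + 1))⁻¹) : Pol) * C ((-t) ^ (r + 1)) = 1 := by
      rw [← map_mul, inv_mul_cancel₀ (pow_ne_zero _ (neg_ne_zero.2 ht)), map_one]
    linear_combination (- q * (tr (p U) (lf δ)) ^ (r + 1)) * h4

/-- the local rank -/
private theorem local_rank {r n : ℕ} {v : V} {u δ a' b' : Pt} (Sg : Submodule ℝ (V → Pol))
    [FiniteDimensional ℝ Sg]
    (h12 : det2 δ a' ≠ 0) (h13 : det2 δ b' ≠ 0) (h23 : det2 a' b' ≠ 0)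
    (h1 : ∀ q ∈ Deg n, Pi.single v (tr u (lf δ) ^ (r + 1) * q) ∈ Sg)
    (h2 : ∀ q ∈ Deg n, Pi.single v (tr u (lf a') ^ (r + 1) * q) ∈ Sg)
    (h3 : ∀ q ∈ Deg n, Pi.single v (tr u (lf b') ^ (r + 1) * q) ∈ Sg) :
    dB r n ≤ Module.finrank ℝ (LinearMap.ker ((prj v).domRestrict Sg)) := by
  classical
  let R : Submodule ℝ Pol :=
    Sg.comap ((LinearMap.single ℝ (fun _ : V => Pol) v).comp (tr u).toLinearMap)
  have hR : ∀ g, g ∈ R ↔ Pi.single v (tr u g) ∈ Sg := fun g => Iff.rfl
  have hdim : ∀ j : Fin (n + 1), min ((j : ℕ) + r + 2) (3 * ((j : ℕ) + 1)) ≤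
      Module.finrank ℝ (R ⊓ H ((j : ℕ) + r + 1) : Submodule ℝ Pol) := by
    intro j
    apply pow_dim3 δ a' b' h12 h13 h23 r j R
    intro h hh
    have hh' : tr u h ∈ Deg n :=
      Deg_mono (by omega : (j : ℕ) ≤ n) (tr_mem_Deg u (H_le_Deg _ hh))
    refine ⟨?_, ?_, ?_⟩
    · rw [hR, map_mul, map_pow]
      exact h1 _ hh'
    · rw [hR, map_mul, map_pow]
      exact h2 _ hh'
    · rw [hR, map_mul, map_pow]
      exact h3 _ hh'
  have hfdH : ∀ m, FiniteDimensional ℝ (R ⊓ H m : Submodule ℝ Pol) := by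
    intro m
    have := finiteDimensional_H m
    exact Submodule.finiteDimensional_inf_right _ _
  -- the sum map
  let sm : ((j : Fin (n + 1)) → (R ⊓ H ((j : ℕ) + r + 1) : Submodule ℝ Pol)) →ₗ[ℝ] Pol :=
    ∑ j : Fin (n + 1), (Submodule.subtype _).comp (LinearMap.proj j)
  have hsm : ∀ g, sm g = ∑ j : Fin (n + 1), ((g j : _) : Pol) := by
    intro g
    simp only [sm, LinearMap.sum_apply, LinearMap.comp_apply, LinearMap.proj_apply,
      Submodule.subtype_apply]
  have hsmR : ∀ g, sm g ∈ R := by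
    intro g
    rw [hsm]
    exact Submodule.sum_mem _ fun j _ => (g j).2.1
  have hsminj : Function.Injective sm := by
    rw [injective_iff_map_eq_zero]
    intro g hg
    rw [hsm] at hg
    funext j
    apply Subtype.ext
    have h4 := congrArg (homogeneousComponent ((j : ℕ) + r + 1)) hg
    rw [map_sum, map_zero] at h4
    rw [Finset.sum_eq_single j] at h4
    · rw [homogeneousComponent_of_mem (g j).2.2, if_pos rfl] at h4
      exact h4
    · intro i _ hij
      rw [homogeneousComponent_of_mem (g i).2.2, if_neg]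
      intro h5
      apply hij
      apply Fin.ext
      omega
    · intro h5
      exact absurd (Finset.mem_univ j) h5
  let Ps : ((j : Fin (n + 1)) → (R ⊓ H ((j : ℕ) + r + 1) : Submodule ℝ Pol)) →ₗ[ℝ] Sg :=
    (((LinearMap.single ℝ (fun _ : V => Pol) v).comp (tr u).toLinearMap).comp sm).codRestrict Sg
      (fun g => hsmR g)
  have hPs : ∀ g, ((Ps g : Sg) : V → Pol) = Pi.single v (tr u (sm g)) := fun g => rfl
  let Q : ((j : Fin (n + 1)) → (R ⊓ H ((j : ℕ) + r + 1) : Submodule ℝ Pol)) →ₗ[ℝ]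
      LinearMap.ker ((prj v).domRestrict Sg) :=
    Ps.codRestrict _ (fun g => by
      rw [LinearMap.mem_ker, LinearMap.domRestrict_apply, hPs, prj_single_self])
  have hQ : Function.Injective Q := by
    intro g g' hgg
    apply hsminj
    have h5 : Ps g = Ps g' := congrArg Subtype.val hgg
    have h6 : (Pi.single v (tr u (sm g)) : V → Pol) = Pi.single v (tr u (sm g')) := by
      rw [← hPs, ← hPs, h5]
    have h7 := Pi.single_injective (M := fun _ : V => Pol) v h6
    have h8 := congrArg (tr (-u)) h7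
    rwa [tr_neg_tr, tr_neg_tr] at h8
  have h9 := LinearMap.finrank_le_finrank_of_injective hQ
  rw [Module.finrank_pi_fintype] at h9
  refine le_trans ?_ h9
  unfold dB
  rw [← Fin.sum_univ_eq_sum_range (fun j => min (j + r + 2) (3 * (j + 1))) (n + 1)]
  exact Finset.sum_le_sum fun j _ => hdim j

theorem stepB {r n : ℕ} (α : V → V → ℝ) (hα : ∀ x y, α x y ≠ 0)
    (c c' : Cfg V) (hsym : ∀ x y, c.ii x y → c.ii y x) (v U a b : V) (hv : v ∈ c.I)
    (hvU : v ≠ U) (hva : v ≠ a) (hvb : v ≠ b) (hUa : U ≠ a) (hUb : U ≠ b) (hab : a ≠ b)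
    (hU : U ∉ c.I) (hgU : c.gr v U 0)
    (ha : (a ∈ c.I ∧ c.ii v a ∧ c.gr a U 0) ∨ (a ∉ c.I ∧ c.gr v a 0))
    (hb : (b ∈ c.I ∧ c.ii v b ∧ c.gr b U 0) ∨ (b ∉ c.I ∧ c.gr v b 0))
    (hI : c'.I = c.I.erase v)
    (hii : ∀ x ∈ c'.I, ∀ y ∈ c'.I, c'.ii x y → c.ii x y)
    (hgr : ∀ x ∈ c'.I, ∀ y, y ∉ c'.I → ∀ f, c'.gr x y f →
      (y ≠ v ∧ c.gr x y 0) ∨ (y = U ∧ c.ii x v))
    (h : FullB r n α c') : FullB r n α c := by
  classical
  obtain ⟨p₀, hp₀⟩ := h
  let p₁ : V → Pt := fun x => if x = a then ![1, 0] else if x = b then ![0, 1] else 0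
  have hdet : det2 (p₁ a - p₁ U) (p₁ b - p₁ U) ≠ 0 := by
    have h1 : p₁ a = ![1, 0] := by simp [p₁]
    have h2 : p₁ b = ![0, 1] := by simp [p₁, hab.symm]
    have h3 : p₁ U = 0 := by simp [p₁, hUa, hUb]
    rw [h1, h2, h3, sub_zero, sub_zero]
    simp [det2]
  obtain ⟨t₀, ht₀⟩ := ((conf_line r n 0 α c' p₀ p₁ _ hp₀).union
    (det_line p₀ p₁ U a b hdet)).infinite_compl.nonempty
  rw [Set.mem_compl_iff, Set.mem_union, not_or, Set.mem_setOf_eq, Set.mem_setOf_eq, not_not] at ht₀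
  obtain ⟨hN, hdet'⟩ := ht₀
  generalize p₀ + t₀ • (p₁ - p₀) = p at hN hdet'
  let a' : Pt := p a - p U
  let b' : Pt := p b - p U
  have hab' : det2 a' b' ≠ 0 := hdet'
  let δ : Pt := a' + b'
  have hδa : det2 δ a' ≠ 0 := by
    have : det2 δ a' = - det2 a' b' := by
      simp only [det2, δ, Pi.add_apply]; ring
    rw [this]; exact neg_ne_zero.2 hab'
  have hδb : det2 δ b' ≠ 0 := by
    have : det2 δ b' = det2 a' b' := by
      simp only [det2, δ, Pi.add_apply]; ring
    rw [this]; exact hab'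
  let P : ℝ → V → Pt := fun t => Function.update p v (p U + t • δ)
  have hP0v : P 0 v = p U := by
    simp only [P, Function.update_self, zero_smul, add_zero]
  have hP0 : ∀ x, x ≠ v → P 0 x = p x := by
    intro x hx
    simp only [P, Function.update_of_ne hx]
  let Sg : Submodule ℝ (V → Pol) := Submodule.span ℝ (lims r n α c (P 0) v (p U) δ)
  have hfd : FiniteDimensional ℝ Sg := lims_fd r n α c (P 0) v (p U) δ
  have hker : dB r n ≤ Module.finrank ℝ (LinearMap.ker ((prj v).domRestrict Sg)) := by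
    apply local_rank (r := r) (n := n) (v := v) (u := p U) (δ := δ) (a' := a') (b' := b') Sg hδa hδb hab'
    · intro q hq
      exact Submodule.subset_span (Or.inr (Or.inr ⟨q, hq, rfl⟩))
    · intro q hq
      have h1 := single_mem_lims (r := r) (n := n) (δ := δ) hα hv hva hU hP0v (hP0 U hvU.symm) ha hq
      rw [hP0 a hva.symm, ell_eq_left, mul_comm] at h1
      exact h1
    · intro q hq
      have h1 := single_mem_lims (r := r) (n := n) (δ := δ) hα hv hvb hU hP0v (hP0 U hvU.symm) hb hq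
      rw [hP0 b hvb.symm, ell_eq_left, mul_comm] at h1
      exact h1
  have hmap : W r n 0 α c' p ≤ Sg.map (prj v) := by
    unfold W
    rw [Submodule.span_le]
    rintro w (⟨x, hx, y, hy, hxy, hcii, q, hq, rfl⟩ | ⟨x, hx, y, hy, f, hcgr, q, hq, rfl⟩)
    · have hx' := hx
      have hy' := hy
      rw [hI, Finset.mem_erase] at hx' hy'
      have hq' : q ∈ Deg n := (Gen_spec hq).1
      refine ⟨evec r α (P 0) x y q, Submodule.subset_span
        (Or.inl ⟨x, hx'.2, y, hy'.2, hxy, hii x hx y hy hcii, q, hq', rfl⟩), ?_⟩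
      unfold evec
      rw [map_add, prj_single_ne hx'.1, prj_single_ne hy'.1, hP0 x hx'.1, hP0 y hy'.1]
    · have hx' := hx
      have hy' := hy
      rw [hI, Finset.mem_erase] at hx' hy'
      have hq' : q ∈ Deg n := (Gen_spec hq).1
      rcases hgr x hx y hy f hcgr with ⟨hyv, hg⟩ | ⟨rfl, hxv⟩
      · have hyI : y ∉ c.I := fun hyI => hy' ⟨hyv, hyI⟩
        refine ⟨gvec r (P 0) x y q, Submodule.subset_span
          (Or.inr (Or.inl ⟨x, hx'.2, y, hyI, hg, q, hq', rfl⟩)), ?_⟩
        unfold gvec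
        rw [prj_single_ne hx'.1, hP0 x hx'.1, hP0 y hyv]
      · refine ⟨(α x v)⁻¹ • evec r α (P 0) x v q, Submodule.smul_mem _ _ (Submodule.subset_span
          (Or.inl ⟨x, hx'.2, v, hv, hx'.1, hxv, q, hq', rfl⟩)), ?_⟩
        unfold evec gvec
        rw [map_smul, map_add, prj_single_ne hx'.1, prj_single_self, add_zero, hP0 x hx'.1, hP0v,
          Pi.single_smul, smul_smul, inv_mul_cancel₀ (hα x v), one_smul]
  have hrank : c.I.card * dB r n ≤ Module.finrank ℝ Sg := by
    have h1 := LinearMap.finrank_range_add_finrank_ker ((prj v).domRestrict Sg)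
    rw [LinearMap.range_domRestrict] at h1
    have h2 : Module.finrank ℝ (W r n 0 α c' p) ≤ Module.finrank ℝ (Sg.map (prj v)) :=
      Submodule.finrank_mono hmap
    have h3 : c.I.card = c'.I.card + 1 := by
      rw [hI, Finset.card_erase_of_mem hv]
      have := Finset.card_pos.2 ⟨v, hv⟩
      omega
    rw [h3, add_mul, one_mul]
    omega
  have hfin := engine (fun t => W r n 0 α c (P t)) (fun t => finiteDimensional_W r n 0 α c (P t))
    (lims r n α c (P 0) v (p U) δ) (fun w hw => lims_curve hv hvU hU hgU hw) _ hrank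
  obtain ⟨t, ht⟩ := hfin.infinite_compl.nonempty
  rw [Set.mem_compl_iff, Set.mem_setOf_eq, not_not] at ht
  exact ⟨P t, ht⟩

theorem fullB_empty {r n : ℕ} {α : V → V → ℝ} {c : Cfg V} (hI : c.I = ∅) : FullB r n α c := by
  refine ⟨fun _ => 0, ?_⟩
  rw [hI, Finset.card_empty, zero_mul]
  exact Nat.zero_le _

/-- more edges -/
theorem fullB_mono {r n : ℕ} {α : V → V → ℝ} {c c' : Cfg V} (hI : c'.I = c.I)
    (hii : ∀ x ∈ c.I, ∀ y ∈ c.I, c'.ii x y → c.ii x y)
    (hgr : ∀ x ∈ c.I, ∀ b, b ∉ c.I → ∀ f, c'.gr x b f → c.gr x b 0)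
    (h : FullB r n α c') : FullB r n α c := by
  obtain ⟨p, hp⟩ := h
  refine ⟨p, ?_⟩
  rw [← hI]
  refine hp.trans ?_
  have hfd : FiniteDimensional ℝ (W r n 0 α c p) := finiteDimensional_W r n 0 α c p
  apply Submodule.finrank_mono
  apply Submodule.span_mono
  rintro w (⟨x, hx, y, hy, hxy, hcii, q, hq, rfl⟩ | ⟨x, hx, y, hy, f, hcgr, q, hq, rfl⟩)
  · rw [hI] at hx hy
    exact Or.inl ⟨x, hx, y, hy, hxy, hii x hx y hy hcii, q, hq, rfl⟩
  · rw [hI] at hx hy
    exact Or.inr ⟨x, hx, y, hy, 0, hgr x hx y hy f hcgr, q, Gen_anti le_rfl (Nat.zero_le f) hq, rfl⟩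

end BSpl
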