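import Pool.Agent.BSpl.Conf
import Pool.Agent.BSpl.LocSpan

/-!
# Bivariate splines, module StepL: absorbing a vertex `v` into the ground vertex `U` by letting `v` tend to `U`

In the absorbed configuration `c'` the vertex `v` is gone, and every neighbour `x ∈ c'.I` of `v` has a ground edge to `U` with flag `F`.

PAPER PROOF.  Position. Let `p₀` be a position with full rank for `c'`, and let `p₁` be a position with `p₁ U = (0, 0)`,
`p₁ a = (1, 0)`, `p₁ b = (0, 1)`, `p₁ w = (1, 1)`. By `conf_line` and `det_line` (module Conf) there is `t` such that at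
`p := p₀ + t • (p₁ - p₀)` the configuration `c'` has full rank and the vectors `p a - p U`, `p b - p U`, `p w - p U` are
pairwise not proportional. So `W r n s α c' p = MM r n s c'.I p` (`W_full_eq`). Choose `δ` with
`det2 δ (p a - p U) ≠ 0`, `det2 δ (p b - p U) ≠ 0` (for example `δ = (p a - p U) + (p b - p U)`) and let
`P t := Function.update p v (p U + t • δ)`. For `t ≠ 0` we show `|c.I| * dM ≤ finrank (W r n s α c (P t))` for all but finitely
many `t`, by `engine` (module Engine), with the following set `S` of vectors, each the value at `0` of a polynomial curve which for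
`t ≠ 0` is in `W r n s α c (P t)`.

(i) `evec r α (P 0) x y q` for `x, y ∈ c.I`, `x ≠ y`, `c.ii x y`, `q ∈ Gen n (P 0 x) (P 0 y) s s`, and `gvec r (P 0) x y q` for
`x ∈ c.I`, `y ∉ c.I`, `c.gr x y f`, `q ∈ Gen n (P 0 x) (P 0 y) s f` (that is all elements of `cols r n s α c (P 0)`;
`P 0 v = p U`); curves by `Gen_curve`, `PC_evec`, `PC_gvec`.
(ii) `Pi.single v (tr (p U) (lf δ) ^ (r + 1 + i) * tr (p U) h₁ * tr (p U) h₂ * μ)` for `h₁ ∈ H a₁`, `h₂ ∈ H a₂`, `s ≤ i + a₁`,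
`F ≤ i + a₂`, `μ.totalDegree + i + a₁ + a₂ ≤ n`. Curve: `q t := ell (P t v) (p U) ^ i * tr (P t v) h₁ * tr (p U) h₂ * μ` is in
`Gen n (P t v) (p U) s F ⊆ Gen n (P t v) (p U) s f`, so `gvec r (P t) v U (q t) ∈ W`; since
`ell (P t v) (p U) = tr (p U) (lf (- t • δ)) = - t • tr (p U) (lf δ)` (`ell_eq_right`, `lf_smul`), for `t ≠ 0` division by
`(- t) ^ (i + r + 1)` gives the curve `Pi.single v (tr (p U) (lf δ) ^ (r + 1 + i) * tr (P t v) h₁ * tr (p U) h₂ * μ)`.

Let `Σ = span S`. Claim 1: `Pi.single v (q * ell (p U) (p a) ^ (r + 1)) ∈ Σ` for `q ∈ Gen n (p U) (p a) F s`. If `a ∉ c.I` it is of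
type (i) (`c.gr v a f` with `f ≤ s`; `Gen n (p U) (p a) F s ⊆ Gen n (p U) (p a) s f`). If `a ∈ c.I`: the vector
`evec r α (P 0) v a q` is of type (i) and its second summand is a multiple of `gvec r (P 0) a U q`, of type (i) because
`c.gr a U f` with `f ≤ F` and `q ∈ Gen n (p a) (p U) s F` (`Gen_symm`; note `P 0 a = p a`). As `α v a ≠ 0` the claim follows.
Claim 2: the same for `b` and `q ∈ Gen n (p U) (p b) F F`: the cases `b ∈ c.I`, `c.gr b U f`, `f ≤ F`; or `b ∉ c.I`, `c.gr v b f`,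
`f ≤ F`. By `high_span` (with `exists_lam2`; hypothesis `hd` is (ii)), applied to `S = Σ.comap (LinearMap.single ℝ _ v)`:
`Pi.single v q ∈ Σ` for all `q ∈ Deg (n + r + 1) ⊓ Ord (p U) (r + F + 1)`.

Claim 3: all columns of `c'` at `p` are in `Σ`: columns of edges of `c'` which are edges of `c` are of type (i) (positions of
`x, y ≠ v` do not change). For a new edge `c'.gr x U f'`, `f' ≥ F`, `c.ii x v`, and `q ∈ Gen n (p x) (p U) s f'`: the vector
`evec r α (P 0) x v q` is of type (i) (as `s ≤ F ≤ f'`), and its entry at `v` is in `Deg ⊓ Ord (p U) (r + F + 1)` (`Gen_symm`,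
`Gen_spec`, `ell_mem_Ord_left`, `mul_mem_Ord`, or `col_mem` with `s` replaced by `F`), so the entry at `x` alone is in `Σ`;
`α x v ≠ 0`. So `MM r n s c'.I p ≤ Σ`.

Claim 4: for `z ∈ {a, b, w}` and `q ∈ Gen n (p U) (p z) s F`: `Pi.single v (q * ell (p U) (p z) ^ (r + 1)) ∈ Σ`. If `z ∉ c.I` it is
of type (i), since `c.gr v z f` with `f ≤ F`. If `z ∈ c.I`, `c.ii v z`: `evec r α (P 0) v z q` is of type (i) and its entry at `z`
is in the target space of `z`, so `Pi.single z _ ∈ MM r n s c'.I p ≤ Σ` by Claim 3. By `low_span`: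
`Pi.single v q ∈ Σ` for all `q ∈ Deg (n + r + 1) ⊓ Ord (p U) (r + s + 1)`.

Together `MM r n s c.I (P 0) ≤ Σ` (`MM_le_of_single`; `P 0 v = p U`, `P 0 x = p x` for `x ≠ v`), so
`c.I.card * dM r n s = finrank (MM ..) ≤ finrank Σ` (`finrank_MM`; `Σ` is finite dimensional because it is contained in
`MM r n s c.I (P 0)`: the vectors (i) by `W_le_MM`, the vectors (ii) since `tr (p U) (lf δ) ^ (r + 1 + i) * tr (p U) h₁ ∈ Ord (p U) (r + 1 + i + a₁)`).
-/

set_option autoImplicit false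

namespace BSpl

open MvPolynomial

variable {V : Type} [DecidableEq V]

/-- removing the second entry of an edge vector -/
private theorem stepL_evec_left {r n s : ℕ} {α : V → V → ℝ} (hα : ∀ x y, α x y ≠ 0) {c : Cfg V}
    {Q : V → Pt} {T : Submodule ℝ (V → Pol)} (hT : cols r n s α c Q ⊆ T) {x y : V}
    (hx : x ∈ c.I) (hy : y ∈ c.I) (hxy : x ≠ y) (hii : c.ii x y) {q : Pol}
    (hq : q ∈ Gen n (Q x) (Q y) s s)
    (h : (Pi.single y (q * ell (Q y) (Q x) ^ (r + 1)) : V → Pol) ∈ T) :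
    (Pi.single x (q * ell (Q x) (Q y) ^ (r + 1)) : V → Pol) ∈ T := by
  have h1 : evec r α Q x y q ∈ T := hT (Or.inl ⟨x, hx, y, hy, hxy, hii, q, hq, rfl⟩)
  have h2 : (Pi.single y (α y x • (q * ell (Q y) (Q x) ^ (r + 1))) : V → Pol) ∈ T := by
    rw [Pi.single_smul]
    exact T.smul_mem _ h
  have h3 : (Pi.single x (α x y • (q * ell (Q x) (Q y) ^ (r + 1))) : V → Pol) ∈ T := by
    have e : (Pi.single x (α x y • (q * ell (Q x) (Q y) ^ (r + 1))) : V → Pol) =
        evec r α Q x y q - Pi.single y (α y x • (q * ell (Q y) (Q x) ^ (r + 1))) := by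
      rw [evec, add_sub_cancel_right]
    rw [e]
    exact T.sub_mem h1 h2
  rw [Pi.single_smul] at h3
  have h4 := T.smul_mem (α x y)⁻¹ h3
  rwa [smul_smul, inv_mul_cancel₀ (hα x y), one_smul] at h4

private theorem stepL_gvec {r n s : ℕ} {α : V → V → ℝ} {c : Cfg V}
    {Q : V → Pt} {T : Submodule ℝ (V → Pol)} (hT : cols r n s α c Q ⊆ T) {x y : V}
    (hx : x ∈ c.I) (hy : y ∉ c.I) {f : ℕ} (hgr : c.gr x y f) {q : Pol}
    (hq : q ∈ Gen n (Q x) (Q y) s f) :
    (Pi.single x (q * ell (Q x) (Q y) ^ (r + 1)) : V → Pol) ∈ T :=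
  hT (Or.inr ⟨x, hx, y, hy, f, hgr, q, hq, rfl⟩)

/-- a general position for the four vertices -/
private theorem stepL_position {r n s : ℕ} {α : V → V → ℝ} {c' : Cfg V} {U a b w : V}
    (hUa : U ≠ a) (hUb : U ≠ b) (hUw : U ≠ w) (hab : a ≠ b) (haw : a ≠ w) (hbw : b ≠ w)
    (h : Full r n s α c') :
    ∃ p : V → Pt, c'.I.card * dM r n s ≤ Module.finrank ℝ (W r n s α c' p) ∧
      det2 (p a - p U) (p b - p U) ≠ 0 ∧ det2 (p a - p U) (p w - p U) ≠ 0 ∧
      det2 (p b - p U) (p w - p U) ≠ 0 := by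
  obtain ⟨p₀, hp₀⟩ := h
  set p₁ : V → Pt := fun z => if z = a then ![1, 0] else if z = b then ![0, 1] else
    if z = w then ![1, 1] else 0 with hp₁
  have eU : p₁ U = 0 := by simp [hp₁, hUa, hUb, hUw]
  have ea : p₁ a = ![1, 0] := by simp [hp₁]
  have eb : p₁ b = ![0, 1] := by simp [hp₁, hab.symm]
  have ew : p₁ w = ![1, 1] := by simp [hp₁, haw.symm, hbw.symm]
  have d1 : det2 (p₁ a - p₁ U) (p₁ b - p₁ U) ≠ 0 := by
    rw [eU, ea, eb, sub_zero, sub_zero]; simp [det2]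
  have d2 : det2 (p₁ a - p₁ U) (p₁ w - p₁ U) ≠ 0 := by
    rw [eU, ea, ew, sub_zero, sub_zero]; simp [det2]
  have d3 : det2 (p₁ b - p₁ U) (p₁ w - p₁ U) ≠ 0 := by
    rw [eU, eb, ew, sub_zero, sub_zero]; simp [det2]
  have f0 := conf_line r n s α c' p₀ p₁ _ hp₀
  have f1 := det_line p₀ p₁ U a b d1
  have f2 := det_line p₀ p₁ U a w d2
  have f3 := det_line p₀ p₁ U b w d3
  obtain ⟨t, ht⟩ := (f0.union (f1.union (f2.union f3))).exists_notMem
  rw [Set.mem_union, Set.mem_union, Set.mem_union, not_or, not_or, not_or] at ht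
  obtain ⟨t0, t1, t2, t3⟩ := ht
  exact ⟨p₀ + t • (p₁ - p₀), not_not.1 t0, t1, t2, t3⟩

/-- the directional vectors -/
private def stepLDir (r n s F : ℕ) (v : V) (u δ : Pt) : Set (V → Pol) :=
  {z | ∃ (i a₁ a₂ : ℕ) (h₁ h₂ μ : Pol), h₁ ∈ H a₁ ∧ h₂ ∈ H a₂ ∧ s ≤ i + a₁ ∧ F ≤ i + a₂ ∧
    μ.totalDegree + i + a₁ + a₂ ≤ n ∧
    z = Pi.single v (tr u (lf δ) ^ (r + 1 + i) * tr u h₁ * tr u h₂ * μ)}

private theorem stepL_dir_mem {r n s F : ℕ} {c : Cfg V} {v : V} {u δ : Pt} {Q : V → Pt}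
    (hv : v ∈ c.I) (hQ : Q v = u) : stepLDir r n s F v u δ ⊆ MM r n s c.I Q := by
  rintro z ⟨i, a₁, a₂, h₁, h₂, μ, m1, m2, hs, hF, hd, rfl⟩
  apply single_mem_MM hv
  rw [hQ]
  refine Submodule.mem_inf.2 ⟨?_, ?_⟩
  · have e1 : tr u (lf δ) ^ (r + 1 + i) ∈ Deg ((r + 1 + i) * 1) :=
      pow_mem_Deg (tr_mem_Deg u (H_le_Deg 1 (lf_H δ))) _
    have e2 : tr u h₁ ∈ Deg a₁ := tr_mem_Deg u (H_le_Deg a₁ m1)
    have e3 : tr u h₂ ∈ Deg a₂ := tr_mem_Deg u (H_le_Deg a₂ m2)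
    have e4 : μ ∈ Deg μ.totalDegree := mem_Deg.2 le_rfl
    exact Deg_mono (by omega) (mul_mem_Deg (mul_mem_Deg (mul_mem_Deg e1 e2) e3) e4)
  · have e1 : tr u (lf δ) ^ (r + 1 + i) ∈ Ord u ((r + 1 + i) * 1) :=
      pow_mem_Ord (tr_mem_Ord (lf_H δ)) _
    have e2 : tr u h₁ ∈ Ord u a₁ := tr_mem_Ord m1
    have e3 : tr u h₂ ∈ Ord u 0 := by rw [Ord_zero]; exact Submodule.mem_top
    have e4 : μ ∈ Ord u 0 := by rw [Ord_zero]; exact Submodule.mem_top
    exact Ord_anti (by omega) (mul_mem_Ord (mul_mem_Ord (mul_mem_Ord e1 e2) e3) e4)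

/-- the curve of a column -/
private theorem stepL_col_curve {r n s : ℕ} {α : V → V → ℝ} {c : Cfg V} {P : ℝ → V → Pt}
    (hP : ∀ x, PC (fun t => P t x)) {z : V → Pol} (hz : z ∈ cols r n s α c (P 0)) :
    ∃ y : ℝ → V → Pol, PC y ∧ y 0 = z ∧ ∀ t, t ≠ 0 → y t ∈ W r n s α c (P t) := by
  rcases hz with ⟨x, hx, y, hy, hxy, hii, q, hq, rfl⟩ | ⟨x, hx, y, hy, f, hgr, q, hq, rfl⟩
  · obtain ⟨qt, h1, h2, h3⟩ := Gen_curve (x := fun t => P t x) (y := fun t => P t y)
      (hP x) (hP y) hq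
    refine ⟨fun t => evec r α (P t) x y (qt t), PC_evec r α hP x y h1, ?_, ?_⟩
    · show evec r α (P 0) x y (qt 0) = _
      rw [h2]
    · intro t _
      exact Submodule.subset_span (Or.inl ⟨x, hx, y, hy, hxy, hii, qt t, h3 t, rfl⟩)
  · obtain ⟨qt, h1, h2, h3⟩ := Gen_curve (x := fun t => P t x) (y := fun t => P t y)
      (hP x) (hP y) hq
    refine ⟨fun t => gvec r (P t) x y (qt t), PC_gvec r hP x y h1, ?_, ?_⟩
    · show gvec r (P 0) x y (qt 0) = _
      rw [h2]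
    · intro t _
      exact Submodule.subset_span (Or.inr ⟨x, hx, y, hy, f, hgr, qt t, h3 t, rfl⟩)

/-- the curve of a directional vector -/
private theorem stepL_dir_curve {r n s F : ℕ} {α : V → V → ℝ} {c : Cfg V} {v U : V}
    {P : ℝ → V → Pt} {u δ : Pt} (hv : v ∈ c.I) (hU : U ∉ c.I) {f : ℕ} (hf : f ≤ F)
    (hgr : c.gr v U f) (hPv : ∀ t, P t v = u + t • δ) (hPU : ∀ t, P t U = u)
    {z : V → Pol} (hz : z ∈ stepLDir r n s F v u δ) :
    ∃ y : ℝ → V → Pol, PC y ∧ y 0 = z ∧ ∀ t, t ≠ 0 → y t ∈ W r n s α c (P t) := by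
  obtain ⟨i, a₁, a₂, h₁, h₂, μ, m1, m2, hs, hF, hd, rfl⟩ := hz
  have hPC : PC (fun t : ℝ => u + t • δ) := (PC.const u).add (PC.lin δ)
  refine ⟨fun t => LinearMap.single ℝ (fun _ : V => Pol) v
    (tr u (lf δ) ^ (r + 1 + i) * tr (u + t • δ) h₁ * tr u h₂ * μ), ?_, ?_, ?_⟩
  · apply PC.map
    exact (((PC.const _).mul (PC.tr hPC h₁)).mul (PC.const _)).mul (PC.const _)
  · show (Pi.single v (tr u (lf δ) ^ (r + 1 + i) * tr (u + (0 : ℝ) • δ) h₁ * tr u h₂ * μ) :
      V → Pol) = _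
    rw [zero_smul, add_zero]
  · intro t ht
    have e1 : ell (u + t • δ) u = C (-t) * tr u (lf δ) := by
      rw [ell_eq_right]
      have : u - (u + t • δ) = (-t) • δ := by rw [neg_smul]; abel
      rw [this, lf_smul, map_mul, tr_C]
    have hq : ell (u + t • δ) u ^ i * tr (u + t • δ) h₁ * tr u h₂ * μ ∈
        Gen n (P t v) (P t U) s f := by
      rw [hPv, hPU]
      exact ⟨i, a₁, a₂, h₁, h₂, μ, m1, m2, hs, hf.trans hF, hd, rfl⟩
    have h5 : gvec r (P t) v U (ell (u + t • δ) u ^ i * tr (u + t • δ) h₁ * tr u h₂ * μ) ∈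
        W r n s α c (P t) :=
      Submodule.subset_span (Or.inr ⟨v, hv, U, hU, f, hgr, _, hq, rfl⟩)
    have h6 := Submodule.smul_mem _ ((-t) ^ (r + 1 + i))⁻¹ h5
    have hne : (-t) ^ (r + 1 + i) ≠ 0 := pow_ne_zero _ (neg_ne_zero.2 ht)
    convert h6 using 1
    show Pi.single v _ = _
    rw [gvec, ← Pi.single_smul, hPv, hPU, e1]
    congr 1
    have e2 : (C (-t) * tr u (lf δ)) ^ i * tr (u + t • δ) h₁ * tr u h₂ * μ *
        (C (-t) * tr u (lf δ)) ^ (r + 1) = C ((-t) ^ (r + 1 + i)) *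
        (tr u (lf δ) ^ (r + 1 + i) * tr (u + t • δ) h₁ * tr u h₂ * μ) := by
      rw [C_pow]; ring
    rw [e2, smul_eq_C_mul, ← mul_assoc, ← C_mul, inv_mul_cancel₀ hne, C_1, one_mul]

theorem stepL {r n s F : ℕ} (hA : Adm r n s F) (α : V → V → ℝ) (hα : ∀ x y, α x y ≠ 0)
    (c c' : Cfg V) (hsym : ∀ x y, c.ii x y → c.ii y x) (v U a b w : V) (hv : v ∈ c.I)
    (hvU : v ≠ U) (hva : v ≠ a) (hvb : v ≠ b) (hvw : v ≠ w) (hUa : U ≠ a) (hUb : U ≠ b)
    (hUw : U ≠ w) (hab : a ≠ b) (haw : a ≠ w) (hbw : b ≠ w)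
    (hU : U ∉ c.I) (hgU : ∃ f ≤ F, c.gr v U f)
    (ha : (a ∈ c.I ∧ c.ii v a ∧ ∃ f ≤ F, c.gr a U f) ∨ (a ∉ c.I ∧ ∃ f ≤ s, c.gr v a f))
    (hb : (b ∈ c.I ∧ c.ii v b ∧ ∃ f ≤ F, c.gr b U f) ∨ (b ∉ c.I ∧ ∃ f ≤ F, c.gr v b f))
    (hw : (w ∈ c.I ∧ c.ii v w) ∨ (w ∉ c.I ∧ ∃ f ≤ F, c.gr v w f))
    (hI : c'.I = c.I.erase v)
    (hii : ∀ x ∈ c'.I, ∀ y ∈ c'.I, c'.ii x y → c.ii x y)
    (hgr : ∀ x ∈ c'.I, ∀ y, y ∉ c'.I → ∀ f, c'.gr x y f →
      (y ≠ v ∧ ∃ g ≤ f, c.gr x y g) ∨ (y = U ∧ F ≤ f ∧ c.ii x v))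
    (h : Full r n s α c') : Full r n s α c := by
  obtain ⟨p, hfull, dab, daw, dbw⟩ := stepL_position hUa hUb hUw hab haw hbw h
  have hWM := W_full_eq hfull
  have hsF := hA.sF
  set δ : Pt := (p a - p U) + (p b - p U) with hδ
  have dδa : det2 δ (p a - p U) ≠ 0 := by
    have : det2 δ (p a - p U) = - det2 (p a - p U) (p b - p U) := by
      simp only [det2, hδ, Pi.add_apply]; ring
    rw [this]
    exact neg_ne_zero.2 dab
  have dδb : det2 δ (p b - p U) ≠ 0 := by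
    have : det2 δ (p b - p U) = det2 (p a - p U) (p b - p U) := by
      simp only [det2, hδ, Pi.add_apply]; ring
    rw [this]
    exact dab
  set P : ℝ → V → Pt := fun t => Function.update p v (p U + t • δ) with hP
  have hPv : ∀ t, P t v = p U + t • δ := fun t => by simp [hP]
  have hPx : ∀ t x, x ≠ v → P t x = p x := fun t x hx => by simp [hP, hx]
  have hPPC : ∀ x, PC (fun t => P t x) := by
    intro x
    by_cases hx : x = v
    · subst hx
      have : (fun t => P t x) = fun t => p U + t • δ := funext hPv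
      rw [this]
      exact (PC.const _).add (PC.lin _)
    · have : (fun t => P t x) = fun _ => p x := funext fun t => hPx t x hx
      rw [this]
      exact PC.const _
  set Q : V → Pt := P 0 with hQ
  have hQv : Q v = p U := by rw [hQ, hPv, zero_smul, add_zero]
  have hQx : ∀ x, x ≠ v → Q x = p x := fun x hx => hPx 0 x hx
  obtain ⟨fU, hfU, hgU⟩ := hgU
  set S : Set (V → Pol) := cols r n s α c Q ∪ stepLDir r n s F v (p U) δ with hS
  set T : Submodule ℝ (V → Pol) := Submodule.span ℝ S with hTdef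
  have hcT : cols r n s α c Q ⊆ T := fun z hz => Submodule.subset_span (Or.inl hz)
  have hdT : stepLDir r n s F v (p U) δ ⊆ T := fun z hz => Submodule.subset_span (Or.inr hz)
  -- Claims 1 and 2
  have key : ∀ z, z ∈ c.I → z ≠ v → c.ii v z → (∃ f ≤ F, c.gr z U f) → ∀ q ∈ Gen n (p U) (p z) F s,
      (Pi.single v (q * ell (p U) (p z) ^ (r + 1)) : V → Pol) ∈ T := by
    intro z hz hzv hzi hzU q hq
    obtain ⟨f, hf, hzU⟩ := hzU
    have h1 : (Pi.single z (q * ell (Q z) (Q U) ^ (r + 1)) : V → Pol) ∈ T := by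
      apply stepL_gvec hcT hz hU hzU
      rw [hQx z hzv, hQx U hvU.symm]
      exact Gen_anti le_rfl hf (Gen_symm hq)
    rw [hQx U hvU.symm, ← hQv] at h1
    have h2 := stepL_evec_left hα hcT hv hz hzv.symm hzi (q := q) (by
      rw [hQv, hQx z hzv]
      exact Gen_anti hsF le_rfl hq) h1
    rwa [hQv, hQx z hzv] at h2
  have claim1 : ∀ q ∈ Gen n (p U) (p a) F s,
      (Pi.single v (q * ell (p U) (p a) ^ (r + 1)) : V → Pol) ∈ T := by
    intro q hq
    rcases ha with ⟨h1, h2, h3⟩ | ⟨h1, f, hf, h2⟩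
    · exact key a h1 hva.symm h2 h3 q hq
    · have := stepL_gvec hcT hv h1 h2 (q := q) (by
        rw [hQv, hQx a hva.symm]
        exact Gen_anti hsF hf hq)
      rwa [hQv, hQx a hva.symm] at this
  have claim2 : ∀ q ∈ Gen n (p U) (p b) F F,
      (Pi.single v (q * ell (p U) (p b) ^ (r + 1)) : V → Pol) ∈ T := by
    intro q hq
    rcases hb with ⟨h1, h2, h3⟩ | ⟨h1, f, hf, h2⟩
    · exact key b h1 hvb.symm h2 h3 q (Gen_anti le_rfl hsF hq)
    · have := stepL_gvec hcT hv h1 h2 (q := q) (by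
        rw [hQv, hQx b hvb.symm]
        exact Gen_anti hsF hf hq)
      rwa [hQv, hQx b hvb.symm] at this
  obtain ⟨lam, hlam, lU, la, lb⟩ := exists_lam2 (p U) (p a) (p b) dab
  have high : ∀ q ∈ (Deg (n + r + 1) ⊓ Ord (p U) (r + F + 1) : Submodule ℝ Pol),
      (Pi.single v q : V → Pol) ∈ T := by
    intro q hq
    have h1 := high_span hA (p U) (p a) (p b) δ lam hlam lU la lb dab dδa dδb
      (T.comap (LinearMap.single ℝ (fun _ : V => Pol) v))
      (fun i a₁ a₂ h₁ h₂ μ m1 m2 i1 i2 i3 => hdT ⟨i, a₁, a₂, h₁, h₂, μ, m1, m2, i1, i2, i3, rfl⟩)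
      (fun q hq => claim1 q hq) (fun q hq => claim2 q hq)
    exact h1 hq
  -- Claim 3
  have claim3 : MM r n s c'.I p ≤ T := by
    rw [← hWM, W, Submodule.span_le]
    rintro z (⟨x, hx, y, hy, hxy, hxyi, q, hq, rfl⟩ | ⟨x, hx, y, hy, f, hxyg, q, hq, rfl⟩)
    · have hx' := hx
      have hy' := hy
      rw [hI, Finset.mem_erase] at hx' hy'
      have e : evec r α p x y q = evec r α Q x y q := by
        rw [evec, evec, hQx x hx'.1, hQx y hy'.1]
      rw [e]
      refine hcT (Or.inl ⟨x, hx'.2, y, hy'.2, hxy, hii x hx y hy hxyi, q, ?_, rfl⟩)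
      rw [hQx x hx'.1, hQx y hy'.1]
      exact hq
    · have hx' := hx
      rw [hI, Finset.mem_erase] at hx'
      rcases hgr x hx y hy f hxyg with ⟨hyv, g, hg, hxy2⟩ | ⟨hyU, hFf, hxv⟩
      · have hyI : y ∉ c.I := by
          intro hcon
          apply hy
          rw [hI, Finset.mem_erase]
          exact ⟨hyv, hcon⟩
        have := stepL_gvec hcT hx'.2 hyI hxy2 (q := q) (by
          rw [hQx x hx'.1, hQx y hyv]
          exact Gen_anti le_rfl hg hq)
        rw [hQx x hx'.1, hQx y hyv] at this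
        exact this
      · rw [hyU] at hq ⊢
        have h1 : (Pi.single v (q * ell (Q v) (Q x) ^ (r + 1)) : V → Pol) ∈ T := by
          apply high
          rw [hQv, hQx x hx'.1]
          exact col_mem (Gen_anti hFf le_rfl (Gen_symm hq))
        have h2 := stepL_evec_left hα hcT hx'.2 hv hx'.1 hxv (q := q) (by
          rw [hQv, hQx x hx'.1]
          exact Gen_anti le_rfl (hsF.trans hFf) hq) h1
        rw [hQv, hQx x hx'.1] at h2
        exact h2
  -- Claim 4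
  have claim4 : ∀ z, z ≠ v → ((z ∈ c.I ∧ c.ii v z) ∨ (z ∉ c.I ∧ ∃ f ≤ F, c.gr v z f)) →
      ∀ q ∈ Gen n (p U) (p z) s F,
      (Pi.single v (q * ell (p U) (p z) ^ (r + 1)) : V → Pol) ∈ T := by
    intro z hzv hz q hq
    rcases hz with ⟨hz, hzi⟩ | ⟨hz, f, hf, hzg⟩
    · have h1 : (Pi.single z (q * ell (Q z) (Q v) ^ (r + 1)) : V → Pol) ∈ T := by
        apply claim3
        rw [hQv, hQx z hzv]
        apply single_mem_MM
        · rw [hI, Finset.mem_erase]
          exact ⟨hzv, hz⟩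
        · exact col_mem (Gen_anti hsF le_rfl (Gen_symm hq))
      have h2 := stepL_evec_left hα hcT hv hz hzv.symm hzi (q := q) (by
        rw [hQv, hQx z hzv]
        exact Gen_anti le_rfl hsF hq) h1
      rwa [hQv, hQx z hzv] at h2
    · have := stepL_gvec hcT hv hz hzg (q := q) (by
        rw [hQv, hQx z hzv]
        exact Gen_anti le_rfl hf hq)
      rwa [hQv, hQx z hzv] at this
  have ha' : (a ∈ c.I ∧ c.ii v a) ∨ (a ∉ c.I ∧ ∃ f ≤ F, c.gr v a f) := by
    rcases ha with ⟨h1, h2, -⟩ | ⟨h1, f, hf, h2⟩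
    · exact Or.inl ⟨h1, h2⟩
    · exact Or.inr ⟨h1, f, hf.trans hsF, h2⟩
  have hb' : (b ∈ c.I ∧ c.ii v b) ∨ (b ∉ c.I ∧ ∃ f ≤ F, c.gr v b f) := by
    rcases hb with ⟨h1, h2, -⟩ | ⟨h1, f, hf, h2⟩
    · exact Or.inl ⟨h1, h2⟩
    · exact Or.inr ⟨h1, f, hf, h2⟩
  have low : ∀ q ∈ (Deg (n + r + 1) ⊓ Ord (p U) (r + s + 1) : Submodule ℝ Pol),
      (Pi.single v q : V → Pol) ∈ T := by
    intro q hq
    have h1 := low_span hA (p U) (p a) (p b) (p w) dab daw dbw
      (T.comap (LinearMap.single ℝ (fun _ : V => Pol) v))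
      (fun q hq => claim4 a hva.symm ha' q hq) (fun q hq => claim4 b hvb.symm hb' q hq)
      (fun q hq => claim4 w hvw.symm hw q hq) (fun q hq => high q hq)
    exact h1 hq
  have hMT : MM r n s c.I Q ≤ T := by
    apply MM_le_of_single
    intro x hx q hq
    by_cases hxv : x = v
    · subst hxv
      rw [hQv] at hq
      exact low q hq
    · rw [hQx x hxv] at hq
      apply claim3
      apply single_mem_MM _ hq
      rw [hI, Finset.mem_erase]
      exact ⟨hxv, hx⟩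
  have hTM : T ≤ MM r n s c.I Q := by
    rw [hTdef, Submodule.span_le, hS]
    apply Set.union_subset
    · exact fun z hz => W_le_MM r n s α c Q (Submodule.subset_span hz)
    · exact stepL_dir_mem hv hQv
  have hN : c.I.card * dM r n s ≤ Module.finrank ℝ (Submodule.span ℝ S) := by
    rw [← hTdef, le_antisymm hTM hMT, finrank_MM]
  have hfin := engine (fun t => W r n s α c (P t)) (fun t => finiteDimensional_W r n s α c (P t)) S
    (by
      rintro z (hz | hz)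
      · exact stepL_col_curve hPPC hz
      · exact stepL_dir_curve hv hU hfU hgU hPv (fun t => hPx t U hvU.symm) hz)
    _ hN
  obtain ⟨t, ht⟩ := hfin.exists_notMem
  exact ⟨P t, not_not.1 ht⟩

end BSpl
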