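import Pool.Agent.BSpl.StepE
import Pool.Agent.BSpl.StepL
import Pool.Agent.BSpl.StepB

set_option autoImplicit false

/-!
# Bivariate splines, module FullOrd: absorbing the interior vertices one after the other

`I₀` is the set of interior vertices, `E` the edge relation. `OrdData I₀ E ord` is the output of the combinatorial modules CxOrder and
CxLink.

PAPER PROOF of `full_of_ordData`.  Choose for every `v ∈ I₀` data `a v, b v, t₁ v, t₂ v`. Define the root `ρ v`: `ρ v = v` if `v ∉ I₀`, and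
`ρ v = ρ (t₁ v)` if `v ∈ I₀`; this is well founded because `ord (t₁ v) > ord v` and `ord` is bounded on the finite set `I₀`. By induction
`ρ v ∉ I₀` and `ord v ≤ ord (ρ v)`, with `ord v < ord (ρ v)` for `v ∈ I₀`.

For `m : ℕ` let `c m` be the configuration with `I = I₀.filter (ord · < m)`, `ii = E` and
`gr x y f ↔ (y ∉ I₀ ∧ E x y ∧ f = 0) ∨ (∃ z ∈ I₀, m ≤ ord z ∧ E x z ∧ y = ρ z ∧ f = F)`.
We show `Full r n s α (c m)` for all `m` by induction on `m`. `c 0` has no interior vertices (`full_empty`). Step from `m` to `m + 1`: if no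
`v ∈ I₀` has `ord v = m` then use `full_mono`. Otherwise such a `v` is unique (`inj`). Write `c = c (m + 1)`, `c' = c m`,
`c'.I = c.I.erase v`. Let `U = ρ (t₁ v)`, a `U ∉ I₀`; `gr v U f` holds in `c` with `f = 0` (if `t₁ v ∉ I₀`) or `f = F`
(if `t₁ v ∈ I₀`, since `ord (t₁ v) ≥ m + 1`). For every `x ∈ I₀` with `ord x < ord v` we write `x` is a before-neighbour if `E v x`; also
for `x ∉ I₀`. A before-neighbour `x ∉ I₀` has `gr v x 0`, a before-neighbour `x ∈ I₀` is in `c.I`. The root `ρ t` of an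
after-neighbour `t` (`ord v < ord t`, `E v t`) is not in `I₀`, `ord (ρ t) > ord v`, so it is different from all before-neighbours
and from `v`, and `gr v (ρ t) f` holds with `f ≤ F`. If `x ∈ c.I` is a before-neighbour with `E x t` then `gr x (ρ t) f` with `f ≤ F`.

The hypothesis `hgr` of `stepL` holds: if `c'.gr x y f` comes from `z ∈ I₀`, `m ≤ ord z`, then either `m + 1 ≤ ord z` and `c.gr x y f`
(`y = ρ z ∉ I₀`, so `y ≠ v`), or `z = v`, `y = ρ v = U`, `f = F`, `E x v`.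

Case 1: `ρ (t₂ v) ≠ U`. Use `stepL` with `U`, `a = a v`, `b = ρ (t₂ v)`, `w = b v`.
Case 2: `ρ (t₂ v) = U` and there is a neighbour `w` of `v` with: (`ord w < ord v` and `w ≠ a v, b v`), or (`ord v < ord w` and
`ρ w ≠ U`). Use `stepL` with `U`, `a v`, `b v` and `w`, respectively `ρ w`.
Case 3: otherwise, use `stepE` with `U, a v, b v`: an edge `c'.gr x y f` with `x ∈ c'.I` coming from `z = v` has `E x v`,
`ord x < ord v`, so `x = a v` or `x = b v`, `y = U`, `f = F`, and `gr x U g` holds in `c` for some `g ≤ F` because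
`E (a v) (t₁ v)`, `E (b v) (t₂ v)`, `ρ (t₁ v) = ρ (t₂ v) = U`. (All neighbours of `v` have `ord ≠ ord v` by hypothesis `ne`.)

Finally for `m` larger than all values of `ord` on `I₀`, `c m` has `I = I₀` and `gr x y f ↔ (y ∉ I₀ ∧ E x y ∧ f = 0)`; `full_mono`.

`fullB_of_ordData`: the same with `stepB` in all cases (all flags `0`): in case 1 with `a v` and `ρ (t₂ v)`, otherwise with `a v` and `b v`.
-/

namespace BSpl

open MvPolynomial

variable {V : Type} [DecidableEq V]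

/-- the data needed for the absorption -/
structure OrdData (I₀ : Finset V) (E : V → V → Prop) (ord : V → ℕ) : Prop where
  irr : ∀ x, ¬ E x x
  symm : ∀ x y, E x y → E y x
  inj : ∀ u ∈ I₀, ∀ v ∈ I₀, ord u = ord v → u = v
  ne : ∀ u ∈ I₀, ∀ v, E u v → ord u ≠ ord v
  data : ∀ v ∈ I₀, ∃ a b t₁ t₂, a ≠ b ∧ E v a ∧ E v b ∧ E v t₁ ∧ E v t₂ ∧ E a t₁ ∧ E b t₂ ∧
    ord a < ord v ∧ ord b < ord v ∧ ord v < ord t₁ ∧ ord v < ord t₂

namespace FullOrdAux

theorem root_exists (I₀ : Finset V) (ord : V → ℕ) (t : V → V)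
    (ht : ∀ v ∈ I₀, ord v < ord (t v)) :
    ∃ ρ : V → V, (∀ v, ρ v ∉ I₀) ∧ (∀ v, v ∉ I₀ → ρ v = v) ∧ (∀ v ∈ I₀, ρ v = ρ (t v)) ∧
      ∀ v, ord v ≤ ord (ρ v) := by
  obtain ⟨f, hf⟩ : ∃ f : V → V, f = fun v => if v ∈ I₀ then t v else v := ⟨_, rfl⟩
  have f1 : ∀ v ∈ I₀, f v = t v := fun v hv => by rw [hf]; exact if_pos hv
  have f2 : ∀ v, v ∉ I₀ → f v = v := fun v hv => by rw [hf]; exact if_neg hv
  have k1 : ∀ k v, f^[k] v ∈ I₀ → k + ord v ≤ ord (f^[k] v) := by
    intro k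
    induction k with
    | zero => intro v _; simp
    | succ k ih =>
      intro v hv
      rw [Function.iterate_succ_apply'] at hv ⊢
      have h1 : f^[k] v ∈ I₀ := by
        by_contra hcon
        rw [f2 _ hcon] at hv
        exact hcon hv
      have h2 := ih v h1
      have h3 := ht _ h1
      rw [f1 _ h1]
      omega
  have k2 : ∀ k v, ord v ≤ ord (f^[k] v) := by
    intro k
    induction k with
    | zero => intro v; simp
    | succ k ih =>
      intro v
      rw [Function.iterate_succ_apply']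
      have h2 := ih v
      by_cases h1 : f^[k] v ∈ I₀
      · have h3 := ht _ h1
        rw [f1 _ h1]
        omega
      · rw [f2 _ h1]
        exact h2
  have k3 : ∀ k v, v ∉ I₀ → f^[k] v = v := by
    intro k
    induction k with
    | zero => intro v _; rfl
    | succ k ih =>
      intro v hv
      rw [Function.iterate_succ_apply, f2 v hv, ih v hv]
  have k4 : ∀ v, f^[I₀.sup ord + 1] v ∉ I₀ := by
    intro v hv
    have h1 := k1 _ v hv
    have h2 : ord (f^[I₀.sup ord + 1] v) ≤ I₀.sup ord := Finset.le_sup (f := ord) hv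
    omega
  refine ⟨f^[I₀.sup ord + 1], k4, fun v hv => k3 _ v hv, fun v hv => ?_, fun v => k2 _ v⟩
  have h1 : f^[I₀.sup ord + 1] (f v) = f (f^[I₀.sup ord + 1] v) := by
    rw [← Function.iterate_succ_apply, Function.iterate_succ_apply']
  rw [← f1 v hv, h1, f2 _ (k4 v)]

/-- the configuration after absorbing all vertices of order at least `m` -/
def cm (I₀ : Finset V) (E : V → V → Prop) (ord : V → ℕ) (ρ : V → V) (F m : ℕ) : Cfg V :=
  ⟨I₀.filter (fun x => ord x < m), E, fun x y f => (y ∉ I₀ ∧ E x y ∧ f = 0) ∨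
    ∃ z ∈ I₀, m ≤ ord z ∧ E x z ∧ y = ρ z ∧ f = F⟩

section

variable {I₀ : Finset V} {E : V → V → Prop} {ord : V → ℕ} {ρ : V → V} {F : ℕ}

theorem mem_cm {m : ℕ} {x : V} : x ∈ (cm I₀ E ord ρ F m).I ↔ x ∈ I₀ ∧ ord x < m :=
  Finset.mem_filter

theorem gr_cm {m : ℕ} {x y : V} {f : ℕ} : (cm I₀ E ord ρ F m).gr x y f ↔
    (y ∉ I₀ ∧ E x y ∧ f = 0) ∨ ∃ z ∈ I₀, m ≤ ord z ∧ E x z ∧ y = ρ z ∧ f = F := Iff.rfl

theorem I_same {m : ℕ} (hno : ∀ v ∈ I₀, ord v ≠ m) :
    (cm I₀ E ord ρ F m).I = (cm I₀ E ord ρ F (m + 1)).I := by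
  ext x
  rw [mem_cm, mem_cm]
  constructor
  · rintro ⟨h1, h2⟩
    exact ⟨h1, by omega⟩
  · rintro ⟨h1, h2⟩
    have := hno x h1
    exact ⟨h1, by omega⟩

theorem I_erase {m : ℕ} (h : OrdData I₀ E ord) {v : V} (hv : v ∈ I₀) (hm : ord v = m) :
    (cm I₀ E ord ρ F m).I = (cm I₀ E ord ρ F (m + 1)).I.erase v := by
  ext x
  rw [Finset.mem_erase, mem_cm, mem_cm]
  constructor
  · rintro ⟨h1, h2⟩
    refine ⟨?_, h1, by omega⟩
    rintro rfl
    omega
  · rintro ⟨h0, h1, h2⟩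
    refine ⟨h1, ?_⟩
    have : ord x ≠ ord v := fun he => h0 (h.inj x h1 v hv he)
    omega

theorem gr_same {m : ℕ} (hno : ∀ v ∈ I₀, ord v ≠ m) {x y : V} {f : ℕ}
    (hg : (cm I₀ E ord ρ F m).gr x y f) : (cm I₀ E ord ρ F (m + 1)).gr x y f := by
  rcases hg with hg | ⟨z, hz, h1, h2, h3, h4⟩
  · exact Or.inl hg
  · have := hno z hz
    exact Or.inr ⟨z, hz, by omega, h2, h3, h4⟩

/-- edges to an after-neighbour give edges to its root -/
theorem g1 {m : ℕ} (hρ2 : ∀ v, v ∉ I₀ → ρ v = v) {x t : V} (hE : E x t) (ht : m + 1 ≤ ord t) :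
    ∃ f ≤ F, (cm I₀ E ord ρ F (m + 1)).gr x (ρ t) f := by
  by_cases h : t ∈ I₀
  · exact ⟨F, le_rfl, Or.inr ⟨t, h, ht, hE, rfl, rfl⟩⟩
  · rw [hρ2 t h]
    exact ⟨0, Nat.zero_le _, Or.inl ⟨h, hE, rfl⟩⟩

/-- edges to a before-neighbour -/
theorem g2 {m : ℕ} {v x : V} (hE : E v x) (hx : ord x < m + 1) :
    (x ∈ (cm I₀ E ord ρ F (m + 1)).I ∧ (cm I₀ E ord ρ F (m + 1)).ii v x) ∨
      (x ∉ (cm I₀ E ord ρ F (m + 1)).I ∧ (cm I₀ E ord ρ F (m + 1)).gr v x 0) := by
  by_cases h : x ∈ I₀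
  · exact Or.inl ⟨mem_cm.2 ⟨h, hx⟩, hE⟩
  · exact Or.inr ⟨fun h' => h (mem_cm.1 h').1, Or.inl ⟨h, hE, rfl⟩⟩

/-- the edges of the absorbed configuration -/
theorem g3 {m : ℕ} (h : OrdData I₀ E ord) (hρ1 : ∀ v, ρ v ∉ I₀) {v : V} (hv : v ∈ I₀)
    (hm : ord v = m) {x y : V} {f : ℕ} (hg : (cm I₀ E ord ρ F m).gr x y f) :
    (y ≠ v ∧ (cm I₀ E ord ρ F (m + 1)).gr x y f) ∨ (y = ρ v ∧ f = F ∧ E x v) := by
  rcases hg with hg | ⟨z, hz, h1, h2, h3, h4⟩
  · exact Or.inl ⟨fun he => hg.1 (he ▸ hv), Or.inl hg⟩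
  · by_cases hzm : ord z = m
    · have : z = v := h.inj z hz v hv (hzm.trans hm.symm)
      subst this
      exact Or.inr ⟨h3, h4, h2⟩
    · refine Or.inl ⟨fun he => hρ1 z (by rw [← h3, he]; exact hv), Or.inr ⟨z, hz, ?_, h2, h3, h4⟩⟩
      omega

theorem top_I : (cm I₀ E ord ρ F (I₀.sup ord + 1)).I = I₀ := by
  ext x
  rw [mem_cm]
  constructor
  · exact fun hx => hx.1
  · intro hx
    have : ord x ≤ I₀.sup ord := Finset.le_sup (f := ord) hx
    exact ⟨hx, by omega⟩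

theorem top_gr {x y : V} {f : ℕ} (hg : (cm I₀ E ord ρ F (I₀.sup ord + 1)).gr x y f) :
    E x y ∧ f = 0 := by
  rcases hg with hg | ⟨z, hz, h1, h2, h3, h4⟩
  · exact hg.2
  · have : ord z ≤ I₀.sup ord := Finset.le_sup (f := ord) hz
    omega

end

end FullOrdAux

open FullOrdAux

theorem full_of_ordData {r n s F : ℕ} (hA : Adm r n s F) (α : V → V → ℝ) (hα : ∀ x y, α x y ≠ 0)
    (I₀ : Finset V) (E : V → V → Prop) (ord : V → ℕ) (h : OrdData I₀ E ord) :
    Full r n s α ⟨I₀, E, fun x b f => E x b ∧ f = 0⟩ := by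
  have hdata : ∀ v : V, ∃ a b t₁ t₂ : V, v ∈ I₀ → (a ≠ b ∧ E v a ∧ E v b ∧ E v t₁ ∧ E v t₂ ∧
      E a t₁ ∧ E b t₂ ∧ ord a < ord v ∧ ord b < ord v ∧ ord v < ord t₁ ∧ ord v < ord t₂) := by
    intro v
    by_cases hv : v ∈ I₀
    · obtain ⟨a, b, t₁, t₂, hd⟩ := h.data v hv
      exact ⟨a, b, t₁, t₂, fun _ => hd⟩
    · exact ⟨v, v, v, v, fun h' => absurd h' hv⟩
  choose a b t₁ t₂ hd using hdata
  obtain ⟨ρ, hρ1, hρ2, hρ3, hρ4⟩ := root_exists I₀ ord t₁
    (fun v hv => (hd v hv).2.2.2.2.2.2.2.2.2.1)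
  have key : ∀ m, Full r n s α (cm I₀ E ord ρ F m) := by
    intro m
    induction m with
    | zero =>
      refine full_empty ?_
      ext x
      rw [mem_cm]
      simp
    | succ m ih =>
      by_cases hno : ∀ v ∈ I₀, ord v ≠ m
      · exact full_mono (I_same hno) (fun x _ y _ hxy => hxy)
          (fun x _ b _ f hg => ⟨f, le_rfl, gr_same hno hg⟩) ih
      · push Not at hno
        obtain ⟨v, hv, hm⟩ := hno
        obtain ⟨hab, hEa, hEb, hE1, hE2, hEa1, hEb2, hoa, hob, ho1, ho2⟩ := hd v hv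
        have hvc : v ∈ (cm I₀ E ord ρ F (m + 1)).I := mem_cm.2 ⟨hv, by omega⟩
        have hUI : ∀ x, ρ x ∉ (cm I₀ E ord ρ F (m + 1)).I := fun x hx => hρ1 x (mem_cm.1 hx).1
        have hvρ : ∀ x, v ≠ ρ x := fun x he => hρ1 x (he ▸ hv)
        have hne : ∀ x y, ord x < ord v → ord v < ord y → ρ y ≠ x := by
          intro x y hx hy he
          have := hρ4 y
          rw [he] at this
          omega
        have hvne : ∀ x, E v x → v ≠ x := by
          intro x hx he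
          rw [← he] at hx
          exact h.irr v hx
        have hρv : ρ v = ρ (t₁ v) := hρ3 v hv
        have hgU : ∃ f ≤ F, (cm I₀ E ord ρ F (m + 1)).gr v (ρ (t₁ v)) f :=
          g1 hρ2 hE1 (by omega)
        have haa : (a v ∈ (cm I₀ E ord ρ F (m + 1)).I ∧ (cm I₀ E ord ρ F (m + 1)).ii v (a v) ∧
            ∃ f ≤ F, (cm I₀ E ord ρ F (m + 1)).gr (a v) (ρ (t₁ v)) f) ∨
            (a v ∉ (cm I₀ E ord ρ F (m + 1)).I ∧
              ∃ f ≤ s, (cm I₀ E ord ρ F (m + 1)).gr v (a v) f) := by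
          rcases g2 (ord := ord) (ρ := ρ) (F := F) (I₀ := I₀) (m := m) hEa (by omega) with h1 | h1
          · exact Or.inl ⟨h1.1, h1.2, g1 hρ2 hEa1 (by omega)⟩
          · exact Or.inr ⟨h1.1, 0, Nat.zero_le _, h1.2⟩
        by_cases hc1 : ρ (t₂ v) = ρ (t₁ v)
        · by_cases hc2 : ∃ w, E v w ∧ ord w < ord v ∧ w ≠ a v ∧ w ≠ b v
          · obtain ⟨w, hEw, how, hwa, hwb⟩ := hc2
            refine stepL hA α hα (cm I₀ E ord ρ F (m + 1)) (cm I₀ E ord ρ F m) (fun x y hxy => h.symm x y hxy) v (ρ (t₁ v)) (a v) (b v) w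
              hvc (hvρ _) (hvne _ hEa) (hvne _ hEb) (hvne _ hEw) (hne _ _ hoa ho1)
              (hne _ _ hob ho1) (hne _ _ how ho1) hab (Ne.symm hwa) (Ne.symm hwb) (hUI _) hgU haa
              ?_ ?_ (I_erase h hv hm) (fun x _ y _ hxy => hxy) ?_ ih
            · rcases g2 (ord := ord) (ρ := ρ) (F := F) (I₀ := I₀) (m := m) hEb (by omega) with h1 | h1
              · refine Or.inl ⟨h1.1, h1.2, ?_⟩
                rw [← hc1]
                exact g1 hρ2 hEb2 (by omega)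
              · exact Or.inr ⟨h1.1, 0, Nat.zero_le _, h1.2⟩
            · rcases g2 (ord := ord) (ρ := ρ) (F := F) (I₀ := I₀) (m := m) hEw (by omega) with h1 | h1
              · exact Or.inl h1
              · exact Or.inr ⟨h1.1, 0, Nat.zero_le _, h1.2⟩
            · intro x _ y _ f hg
              rcases g3 h hρ1 hv hm hg with h1 | h1
              · exact Or.inl ⟨h1.1, f, le_rfl, h1.2⟩
              · exact Or.inr ⟨h1.1.trans hρv, h1.2.1.ge, h1.2.2⟩
          · refine stepE hA α hα (cm I₀ E ord ρ F (m + 1)) (cm I₀ E ord ρ F m) v (ρ (t₁ v)) (a v) (b v) hvc (hvρ _) (hvne _ hEa)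
              (hvne _ hEb) (hne _ _ hoa ho1) (hne _ _ hob ho1) hab (hUI _) hgU ?_ ?_
              (I_erase h hv hm) (fun x _ y _ hxy => hxy) ?_ ih
            · rcases g2 (ord := ord) (ρ := ρ) (F := F) (I₀ := I₀) (m := m) hEa (by omega) with h1 | h1
              · exact Or.inl h1
              · exact Or.inr ⟨h1.1, 0, Nat.zero_le _, h1.2⟩
            · rcases g2 (ord := ord) (ρ := ρ) (F := F) (I₀ := I₀) (m := m) hEb (by omega) with h1 | h1
              · exact Or.inl h1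
              · exact Or.inr ⟨h1.1, 0, Nat.zero_le _, h1.2⟩
            · intro x hx y _ f hg
              rcases g3 h hρ1 hv hm hg with h1 | ⟨h1, h2, h3⟩
              · exact ⟨h1.1, f, le_rfl, h1.2⟩
              · have hox := (mem_cm.1 hx).2
                have hxab : x = a v ∨ x = b v := by
                  by_contra hcon
                  push Not at hcon
                  exact hc2 ⟨x, h.symm _ _ h3, by omega, hcon.1, hcon.2⟩
                refine ⟨fun he => hvρ v (he.symm.trans h1), ?_⟩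
                rw [h1, hρv, h2]
                rcases hxab with rfl | rfl
                · exact g1 hρ2 hEa1 (by omega)
                · rw [← hc1]
                  exact g1 hρ2 hEb2 (by omega)
        · refine stepL hA α hα (cm I₀ E ord ρ F (m + 1)) (cm I₀ E ord ρ F m) (fun x y hxy => h.symm x y hxy) v (ρ (t₁ v)) (a v) (ρ (t₂ v))
            (b v) hvc (hvρ _) (hvne _ hEa) (hvρ _) (hvne _ hEb) (hne _ _ hoa ho1)
            (Ne.symm hc1) (hne _ _ hob ho1) (Ne.symm (hne _ _ hoa ho2)) hab (hne _ _ hob ho2)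
            (hUI _) hgU haa (Or.inr ⟨hUI _, g1 hρ2 hE2 (by omega)⟩)
            ?_ (I_erase h hv hm) (fun x _ y _ hxy => hxy) ?_ ih
          · rcases g2 (ord := ord) (ρ := ρ) (F := F) (I₀ := I₀) (m := m) hEb (by omega) with h1 | h1
            · exact Or.inl h1
            · exact Or.inr ⟨h1.1, 0, Nat.zero_le _, h1.2⟩
          · intro x _ y _ f hg
            rcases g3 h hρ1 hv hm hg with h1 | h1
            · exact Or.inl ⟨h1.1, f, le_rfl, h1.2⟩
            · exact Or.inr ⟨h1.1.trans hρv, h1.2.1.ge, h1.2.2⟩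
  refine full_mono (c' := cm I₀ E ord ρ F (I₀.sup ord + 1)) top_I (fun x _ y _ hxy => hxy)
    (fun x _ b _ f hg => ⟨f, le_rfl, top_gr hg⟩) (key _)

theorem fullB_of_ordData {r n : ℕ} (α : V → V → ℝ) (hα : ∀ x y, α x y ≠ 0)
    (I₀ : Finset V) (E : V → V → Prop) (ord : V → ℕ) (h : OrdData I₀ E ord) :
    FullB r n α ⟨I₀, E, fun x b f => E x b ∧ f = 0⟩ := by
  have hdata : ∀ v : V, ∃ a b t₁ t₂ : V, v ∈ I₀ → (a ≠ b ∧ E v a ∧ E v b ∧ E v t₁ ∧ E v t₂ ∧
      E a t₁ ∧ E b t₂ ∧ ord a < ord v ∧ ord b < ord v ∧ ord v < ord t₁ ∧ ord v < ord t₂) := by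
    intro v
    by_cases hv : v ∈ I₀
    · obtain ⟨a, b, t₁, t₂, hd⟩ := h.data v hv
      exact ⟨a, b, t₁, t₂, fun _ => hd⟩
    · exact ⟨v, v, v, v, fun h' => absurd h' hv⟩
  choose a b t₁ t₂ hd using hdata
  obtain ⟨ρ, hρ1, hρ2, hρ3, hρ4⟩ := root_exists I₀ ord t₁
    (fun v hv => (hd v hv).2.2.2.2.2.2.2.2.2.1)
  have g10 : ∀ {m : ℕ} {x t : V}, E x t → m + 1 ≤ ord t →
      (cm I₀ E ord ρ 0 (m + 1)).gr x (ρ t) 0 := by
    intro m x t hE ht
    obtain ⟨f, hf, hg⟩ := g1 (F := 0) (I₀ := I₀) (ρ := ρ) (ord := ord) hρ2 hE ht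
    obtain rfl : f = 0 := Nat.le_zero.1 hf
    exact hg
  have key : ∀ m, FullB r n α (cm I₀ E ord ρ 0 m) := by
    intro m
    induction m with
    | zero =>
      refine fullB_empty ?_
      ext x
      rw [mem_cm]
      simp
    | succ m ih =>
      have hf0 : ∀ {k : ℕ} {x y : V} {f : ℕ}, (cm I₀ E ord ρ 0 k).gr x y f → f = 0 := by
        intro k x y f hg
        rcases hg with hg | ⟨z, _, _, _, _, h4⟩
        · exact hg.2.2
        · exact h4
      by_cases hno : ∀ v ∈ I₀, ord v ≠ m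
      · exact fullB_mono (I_same hno) (fun x _ y _ hxy => hxy)
          (fun x _ b _ f hg => by
            have := hf0 hg
            subst this
            exact gr_same hno hg) ih
      · push Not at hno
        obtain ⟨v, hv, hm⟩ := hno
        obtain ⟨hab, hEa, hEb, hE1, hE2, hEa1, hEb2, hoa, hob, ho1, ho2⟩ := hd v hv
        have hvc : v ∈ (cm I₀ E ord ρ 0 (m + 1)).I := mem_cm.2 ⟨hv, by omega⟩
        have hUI : ∀ x, ρ x ∉ (cm I₀ E ord ρ 0 (m + 1)).I := fun x hx => hρ1 x (mem_cm.1 hx).1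
        have hvρ : ∀ x, v ≠ ρ x := fun x he => hρ1 x (he ▸ hv)
        have hne : ∀ x y, ord x < ord v → ord v < ord y → ρ y ≠ x := by
          intro x y hx hy he
          have := hρ4 y
          rw [he] at this
          omega
        have hvne : ∀ x, E v x → v ≠ x := by
          intro x hx he
          rw [← he] at hx
          exact h.irr v hx
        have hρv : ρ v = ρ (t₁ v) := hρ3 v hv
        have haa : (a v ∈ (cm I₀ E ord ρ 0 (m + 1)).I ∧ (cm I₀ E ord ρ 0 (m + 1)).ii v (a v) ∧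
            (cm I₀ E ord ρ 0 (m + 1)).gr (a v) (ρ (t₁ v)) 0) ∨
            (a v ∉ (cm I₀ E ord ρ 0 (m + 1)).I ∧
              (cm I₀ E ord ρ 0 (m + 1)).gr v (a v) 0) := by
          rcases g2 (ord := ord) (ρ := ρ) (F := 0) (I₀ := I₀) (m := m) hEa (by omega) with h1 | h1
          · exact Or.inl ⟨h1.1, h1.2, g10 hEa1 (by omega)⟩
          · exact Or.inr h1
        have hgr : ∀ x ∈ (cm I₀ E ord ρ 0 m).I, ∀ y, y ∉ (cm I₀ E ord ρ 0 m).I → ∀ f,
            (cm I₀ E ord ρ 0 m).gr x y f →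
            (y ≠ v ∧ (cm I₀ E ord ρ 0 (m + 1)).gr x y 0) ∨
              (y = ρ (t₁ v) ∧ (cm I₀ E ord ρ 0 (m + 1)).ii x v) := by
          intro x _ y _ f hg
          have := hf0 hg
          subst this
          rcases g3 h hρ1 hv hm hg with h1 | h1
          · exact Or.inl h1
          · exact Or.inr ⟨h1.1.trans hρv, h1.2.2⟩
        by_cases hc1 : ρ (t₂ v) = ρ (t₁ v)
        · refine stepB α hα (cm I₀ E ord ρ 0 (m + 1)) (cm I₀ E ord ρ 0 m) (fun x y hxy => h.symm x y hxy) v (ρ (t₁ v)) (a v) (b v)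
            hvc (hvρ _) (hvne _ hEa) (hvne _ hEb) (hne _ _ hoa ho1)
            (hne _ _ hob ho1) hab (hUI _) (g10 hE1 (by omega)) haa
            ?_ (I_erase h hv hm) (fun x _ y _ hxy => hxy) hgr ih
          rcases g2 (ord := ord) (ρ := ρ) (F := 0) (I₀ := I₀) (m := m) hEb (by omega) with h1 | h1
          · refine Or.inl ⟨h1.1, h1.2, ?_⟩
            rw [← hc1]
            exact g10 hEb2 (by omega)
          · exact Or.inr h1
        · exact stepB α hα (cm I₀ E ord ρ 0 (m + 1)) (cm I₀ E ord ρ 0 m) (fun x y hxy => h.symm x y hxy) v (ρ (t₁ v)) (a v) (ρ (t₂ v))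
            hvc (hvρ _) (hvne _ hEa) (hvρ _) (hne _ _ hoa ho1)
            (Ne.symm hc1) (Ne.symm (hne _ _ hoa ho2)) (hUI _) (g10 hE1 (by omega)) haa
            (Or.inr ⟨hUI _, g10 hE2 (by omega)⟩)
            (I_erase h hv hm) (fun x _ y _ hxy => hxy) hgr ih
  refine fullB_mono (c' := cm I₀ E ord ρ 0 (I₀.sup ord + 1)) top_I (fun x _ y _ hxy => hxy)
    (fun x _ b _ f hg => ⟨(top_gr hg).1, rfl⟩) (key _)

end BSpl
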