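import Pool.Agent.BSpl.Main

set_option autoImplicit false

/-! # The generic dimension of bivariate splines for `2 k ≥ 5 r - 1`

`T` is a triangulation of a disc, given by its set of triangles (`Disc T`: every triangle has three
vertices, every edge is in one or two triangles, `T` and all stars of vertices are connected through
edges, there is a boundary edge, and the Euler characteristic is `1`). `IsTri T p` says that the
positions `p` of the vertices realise `T`: the triangles are non-degenerate and meet edge to edge.
`Spl r k T p` is the space of the splines of smoothness `r` and degree `k` on the union of the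
triangles. `IsGenericDim r k T d` is the definition of the generic dimension of the problem file:
arbitrarily small perturbations of the vertices (keeping the combinatorial type) of any realisation
have a spline space of dimension `d`.

For `r ≥ 1` and `2 k ≥ 5 r - 1` the generic dimension is
`(k + 2 choose 2) + (k - r + 1 choose 2) |E_I| - γ |V_I| + ∑ σ_v`, where `σ_v` is computed with the
number of edges at `v`. -/

namespace Pool.Agent.Results.MP_92924b_an.GenericDimension

open BSpl

/-- the generic dimension of the spline space of smoothness `r` and degree `k` on `T` is `d` -/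
def IsGenericDim {V : Type} [DecidableEq V] (r k : ℕ) (T : Finset (Finset V)) (d : ℕ) : Prop :=
  ∀ p : V → Pt, IsTri T p → ∀ ε : ℝ, 0 < ε →
    ∃ p' : V → Pt, (∀ v ∈ verts T, ‖p' v - p v‖ < ε) ∧ IsTri T p' ∧
      Module.finrank ℝ (Spl r k T p') = d

theorem result (V : Type) [DecidableEq V] (r k : ℕ) (hr : 1 ≤ r) (hk : 5 * r ≤ 2 * k + 1)
    (T : Finset (Finset V)) (h : Disc T) :
    ∃ d : ℕ, (d : ℤ) = (k + 2).choose 2 + (k - r + 1).choose 2 * (EI T).card -
      gam r k * (VI T).card + ∑ v ∈ VI T, (sig r k (nbrs T v).card : ℤ) ∧
      IsGenericDim r k T d ∧ ∀ p : V → Pt, IsTri T p → d ≤ Module.finrank ℝ (Spl r k T p) := by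
  obtain ⟨d, hd⟩ := exists_Form r k hr hk T h
  refine ⟨d, ?_, ?_, ?_⟩
  · unfold Form at hd
    have h1 : ((d + gam r k * (VI T).card : ℕ) : ℤ) =
        (((k + 2).choose 2 + (k - r + 1).choose 2 * (EI T).card +
          ∑ v ∈ VI T, sig r k (nbrs T v).card : ℕ) : ℤ) := by
      rw [hd]
    push_cast at h1
    linarith
  · intro p hp ε hε
    obtain ⟨p', h1, h2, h3⟩ := generic_dim r k hr hk T h p hp ε hε
    refine ⟨p', h1, h2, ?_⟩
    unfold Form at hd h3
    omega
  · intro p hp
    have h1 := lower_bound r k (by omega) T h p hp
    unfold Form at hd
    omega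

end Pool.Agent.Results.MP_92924b_an.GenericDimension
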