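import Pool.Agent.BSpl.GeoBasic

/-!
# Bivariate splines, module GeoSep: triangulations are stable under small perturbations

`Sep p t t'`: there is an affine function which is `0` on the common vertices, positive on the other vertices of `t`, negative on the other
vertices of `t'`.

PAPER PROOF.
`inter_of_sep`: `⊇` by `hull_mono`. `⊆`: let `z` be in both hulls, `z = ∑ i ∈ t, a i • p i` a convex combination
(`Finset.mem_convexHull'`, `Finset.centerMass`). If `φ` is the affine function, `φ z = ∑ a i * φ (p i) ≥ 0`, similarly `φ z ≤ 0`, so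
`φ z = 0` and `a i = 0` for `i ∈ t \ t'`; so `z` is in the hull of the common vertices.

`sep_of_inter`: `t`, `t'` different triangles, so `c = t ∩ t'` has at most two elements. (0) `c = ∅`: the hulls are disjoint compact convex sets:
strict separation, `geometric_hahn_banach_compact_closed`, with a suitable constant. (1) `c = {v}`: let `t = {v, y₁, y₂}`,
`t' = {v, z₁, z₂}`, `A` the set of the four vectors `p y₁ - p v, p y₂ - p v, p v - p z₁, p v - p z₂`. Claim `0 ∉ convexHull A`. Suppose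
`a₁ (p y₁ - p v) + a₂ (p y₂ - p v) = b₁ (p z₁ - p v) + b₂ (p z₂ - p v) =: w` with nonnegative coefficients, not all zero. For small
`ε > 0` the point `p v + ε • w` is in both triangles, so it is `p v`, `w = 0`, and by affine independence of both triangles all
coefficients are zero: contradiction. So there is a linear `φ` which is positive on the compact convex set `convexHull A` (separation of
`0` and this set), and `z ↦ φ (z - p v)` is the wanted function. (2) `c = {x, y}`: `± area (p x) (p y) z`, by `opposite`.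

`sep_open`: by cases on `c` as above. If `c = ∅` the same affine function works for all close `p'`. If `c = {v}`: `φ' z = φ z - φ (p' v)`.
If `c = {x, y}`: from `Sep`, the affine function vanishes at `p x ≠ p y`, so it is a multiple `κ * area (p x) (p y) z`, `κ ≠ 0`; take
`φ' z = κ * area (p' x) (p' y) z`. Each is a strict inequality at finitely many points, continuous in `p'`. (It is convenient to prove each
statement in the form: for every continuous function on `V → Pt` depending on finitely many values; or with explicit `ε`, using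
that `p' ↦ area (p' x) (p' y) (p' u)` is continuous at `p` for the topology of `V → Pt`, and that the sets
`{p' | ∀ v ∈ F, ‖p' v - p v‖ < ε}`, `F` finite, form a neighbourhood basis for functions of the values on `F`. One may also first replace `V` by the
finite set of the vertices, or use sequences `ε = 1 / n` and compactness.)

`isTri_open`: finitely many strict conditions: `area ≠ 0` for each triangle (`indep_iff`), `Sep` for each pair `t ≠ t'`.
-/

set_option autoImplicit false

namespace BSpl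

open MvPolynomial

variable {V : Type} [DecidableEq V]

/-- separated triangles -/
def Sep (p : V → Pt) (t t' : Finset V) : Prop :=
  ∃ (d : Pt) (c₀ : ℝ), (∀ y ∈ t, y ∈ t' → d 0 * p y 0 + d 1 * p y 1 + c₀ = 0) ∧
    (∀ y ∈ t, y ∉ t' → 0 < d 0 * p y 0 + d 1 * p y 1 + c₀) ∧
    (∀ y ∈ t', y ∉ t → d 0 * p y 0 + d 1 * p y 1 + c₀ < 0)

/-- the affine function of `Sep` -/
def gsF (d : Pt) (c₀ : ℝ) (z : Pt) : ℝ := d 0 * z 0 + d 1 * z 1 + c₀

lemma gsF_comb (d : Pt) (c₀ : ℝ) (x y : Pt) {a b : ℝ} (hab : a + b = 1) :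
    gsF d c₀ (a • x + b • y) = a * gsF d c₀ x + b * gsF d c₀ y := by
  have hb : b = 1 - a := by linarith
  subst hb
  unfold gsF
  simp only [Pi.add_apply, Pi.smul_apply, smul_eq_mul]
  ring

lemma gsF_neg (d : Pt) (c₀ : ℝ) (z : Pt) : gsF (-d) (-c₀) z = - gsF d c₀ z := by
  unfold gsF
  simp only [Pi.neg_apply]
  ring

lemma gsHalf {d : Pt} {c₀ : ℝ} {S A : Set Pt} (h1 : ∀ y ∈ S, y ∈ A ∨ 0 < gsF d c₀ y)
    (h2 : ∀ y ∈ A, gsF d c₀ y = 0) :
    convexHull ℝ S ⊆ {z | 0 < gsF d c₀ z} ∪ convexHull ℝ A := by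
  have h3 : ∀ y ∈ convexHull ℝ A, gsF d c₀ y = 0 := by
    have : convexHull ℝ A ⊆ {z | gsF d c₀ z = 0} := by
      refine convexHull_min (fun y hy => h2 y hy) ?_
      intro x hx y hy a b _ _ hab
      have hx' : gsF d c₀ x = 0 := hx
      have hy' : gsF d c₀ y = 0 := hy
      show gsF d c₀ (a • x + b • y) = 0
      rw [gsF_comb d c₀ x y hab, hx', hy']
      ring
    exact fun y hy => this hy
  refine convexHull_min ?_ ?_
  · intro y hy
    rcases h1 y hy with h | h
    · exact Or.inr (subset_convexHull ℝ A h)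
    · exact Or.inl h
  · intro x hx y hy a b ha hb hab
    have key : ∀ (x y : Pt) (a b : ℝ), 0 ≤ a → 0 ≤ b → a + b = 1 → 0 < gsF d c₀ x →
        y ∈ {z | 0 < gsF d c₀ z} ∪ convexHull ℝ A →
        a • x + b • y ∈ {z | 0 < gsF d c₀ z} ∪ convexHull ℝ A := by
      intro x y a b ha hb hab hx hy
      rcases ha.eq_or_lt with ha | ha
      · have hb1 : b = 1 := by linarith
        rw [← ha, hb1, zero_smul, one_smul, zero_add]
        exact hy
      · refine Or.inl ?_
        show 0 < gsF d c₀ (a • x + b • y)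
        rw [gsF_comb d c₀ x y hab]
        have hy' : 0 ≤ gsF d c₀ y := by
          rcases hy with h | h
          · exact le_of_lt h
          · exact (h3 y h).ge
        have e1 := mul_pos ha hx
        have e2 := mul_nonneg hb hy'
        linarith
    rcases hx with hx | hx
    · exact key x y a b ha hb hab hx hy
    · rcases hy with hy | hy
      · rw [add_comm]
        exact key y x b a hb ha (by linarith) hy (Or.inr hx)
      · exact Or.inr (convex_convexHull ℝ A hx hy ha hb hab)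

theorem inter_of_sep (p : V → Pt) (t t' : Finset V) (h : Sep p t t') :
    hull p t ∩ hull p t' = hull p (t ∩ t') := by
  obtain ⟨d, c₀, h0, h1, h2⟩ := h
  apply Set.Subset.antisymm
  · rintro z ⟨hz, hz'⟩
    have e1 : z ∈ {z | 0 < gsF d c₀ z} ∪ convexHull ℝ (p '' ((t ∩ t' : Finset V) : Set V)) := by
      refine gsHalf ?_ ?_ hz
      · rintro _ ⟨y, hy, rfl⟩
        by_cases hy' : y ∈ t'
        · exact Or.inl ⟨y, Finset.mem_coe.2 (Finset.mem_inter.2 ⟨hy, hy'⟩), rfl⟩
        · exact Or.inr (h1 y hy hy')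
      · rintro _ ⟨y, hy, rfl⟩
        have := Finset.mem_inter.1 (Finset.mem_coe.1 hy)
        exact h0 y this.1 this.2
    have e2 : z ∈ {z | 0 < gsF (-d) (-c₀) z} ∪
        convexHull ℝ (p '' ((t ∩ t' : Finset V) : Set V)) := by
      refine gsHalf ?_ ?_ hz'
      · rintro _ ⟨y, hy, rfl⟩
        by_cases hy' : y ∈ t
        · exact Or.inl ⟨y, Finset.mem_coe.2 (Finset.mem_inter.2 ⟨hy', hy⟩), rfl⟩
        · right
          rw [gsF_neg]
          have := h2 y hy hy'
          unfold gsF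
          linarith
      · rintro _ ⟨y, hy, rfl⟩
        have := Finset.mem_inter.1 (Finset.mem_coe.1 hy)
        rw [gsF_neg]
        have := h0 y this.1 this.2
        unfold gsF
        rw [this, neg_zero]
    rcases e1 with e1 | e1
    · rcases e2 with e2 | e2
      · exfalso
        have a1 : 0 < gsF d c₀ z := e1
        have a2 : 0 < gsF (-d) (-c₀) z := e2
        rw [gsF_neg] at a2
        linarith
      · exact e2
    · exact e1
  · exact Set.subset_inter (hull_mono p Finset.inter_subset_left)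
      (hull_mono p Finset.inter_subset_right)

lemma gsCoef {ι E : Type} [DecidableEq ι] [AddCommGroup E] [Module ℝ E] (q : ι → E)
    (S : Finset ι) {z : E} (hz : z ∈ convexHull ℝ (q '' (S : Set ι))) :
    ∃ w : ι → ℝ, (∀ v ∈ S, 0 ≤ w v) ∧ ∑ v ∈ S, w v = 1 ∧ ∑ v ∈ S, w v • q v = z := by
  have h : convexHull ℝ (q '' (S : Set ι)) ⊆
      {z | ∃ w : ι → ℝ, (∀ v ∈ S, 0 ≤ w v) ∧ ∑ v ∈ S, w v = 1 ∧ ∑ v ∈ S, w v • q v = z} := by
    refine convexHull_min ?_ ?_
    · rintro _ ⟨v, hv, rfl⟩
      have hv' : v ∈ S := hv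
      refine ⟨fun u => if u = v then 1 else 0, fun u _ => ?_, ?_, ?_⟩
      · show (0 : ℝ) ≤ if u = v then 1 else 0
        split_ifs <;> norm_num
      · rw [Finset.sum_ite_eq' S v (fun _ => (1 : ℝ)), if_pos hv']
      · simp only [ite_smul, one_smul, zero_smul]
        rw [Finset.sum_ite_eq' S v q, if_pos hv']
    · rintro x ⟨w, hw0, hw1, hw2⟩ y ⟨w', hw0', hw1', hw2'⟩ a b ha hb hab
      refine ⟨fun v => a * w v + b * w' v, fun v hv => ?_, ?_, ?_⟩
      · have e1 := mul_nonneg ha (hw0 v hv)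
        have e2 := mul_nonneg hb (hw0' v hv)
        show 0 ≤ a * w v + b * w' v
        linarith
      · rw [Finset.sum_add_distrib, ← Finset.mul_sum, ← Finset.mul_sum, hw1, hw1']
        linarith
      · simp only [add_smul, mul_smul]
        rw [Finset.sum_add_distrib, ← Finset.smul_sum, ← Finset.smul_sum, hw2, hw2']
  exact h hz

lemma gsMem {p : V → Pt} {t : Finset V} {w : V → ℝ} (h0 : ∀ v ∈ t, 0 ≤ w v)
    (h1 : ∑ v ∈ t, w v = 1) : ∑ v ∈ t, w v • p v ∈ hull p t :=
  (convex_convexHull ℝ _).sum_mem h0 h1 fun v hv => subset_convexHull ℝ _ ⟨v, hv, rfl⟩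

lemma gsIndep {p : V → Pt} {t : Finset V} (h : AffineIndependent ℝ (fun i : t => p i))
    (w : V → ℝ) (h0 : ∑ v ∈ t, w v = 0) (h1 : ∑ v ∈ t, w v • p v = 0) : ∀ v ∈ t, w v = 0 := by
  intro v hv
  refine affineIndependent_iff.1 h Finset.univ (fun i => w i) ?_ ?_ ⟨v, hv⟩ (Finset.mem_univ _)
  · rw [← h0]
    exact Finset.sum_coe_sort t w
  · rw [← h1]
    exact Finset.sum_coe_sort t (fun v => w v • p v)

lemma gsZero {p : V → Pt} {t t' : Finset V} (h : AffineIndependent ℝ (fun i : t => p i))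
    {A : V → ℝ} {z : Pt} (h0 : ∑ v ∈ t, A v = 1) (h1 : ∑ v ∈ t, A v • p v = z)
    (hz : z ∈ hull p (t ∩ t')) : ∀ v ∈ t, v ∉ t' → A v = 0 := by
  obtain ⟨g, -, g1, g2⟩ := gsCoef p (t ∩ t') hz
  intro v hv hv'
  have e := gsIndep h (fun v => A v - if v ∈ t' then g v else 0) ?_ ?_ v hv
  · simp only [if_neg hv', sub_zero] at e
    exact e
  · rw [Finset.sum_sub_distrib, h0, ← Finset.sum_filter, Finset.filter_mem_eq_inter, g1, sub_self]
  · simp only [sub_smul, ite_smul, zero_smul]
    rw [Finset.sum_sub_distrib, h1, ← Finset.sum_filter, Finset.filter_mem_eq_inter, g2, sub_self]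

/-- the lifted point -/
def gsHat (p : V → Pt) (v : V) : Pt × ℝ := (p v, 1)

/-- no relation between the lifted vertices of two triangles -/
lemma gsNoRel {p : V → Pt} {t t' : Finset V} (hi : AffineIndependent ℝ (fun i : t => p i))
    (hi' : AffineIndependent ℝ (fun i : t' => p i))
    (hin : hull p t ∩ hull p t' = hull p (t ∩ t')) {A B : V → ℝ} (hA : ∀ v ∈ t, 0 ≤ A v)
    (hB : ∀ v ∈ t', 0 ≤ B v)
    (h : ∑ v ∈ t, A v • gsHat p v = ∑ v ∈ t', B v • gsHat p v) :
    (∀ v ∈ t, v ∉ t' → A v = 0) ∧ (∀ v ∈ t', v ∉ t → B v = 0) := by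
  have h1 : ∑ v ∈ t, A v • p v = ∑ v ∈ t', B v • p v := by
    have := congrArg Prod.fst h
    rw [Prod.fst_sum, Prod.fst_sum] at this
    exact this
  have h2 : ∑ v ∈ t, A v = ∑ v ∈ t', B v := by
    have := congrArg Prod.snd h
    rw [Prod.snd_sum, Prod.snd_sum] at this
    simpa [gsHat] using this
  rcases (Finset.sum_nonneg hA).eq_or_lt with hs | hs
  · have e1 := (Finset.sum_eq_zero_iff_of_nonneg hA).1 hs.symm
    have e2 := (Finset.sum_eq_zero_iff_of_nonneg hB).1 (h2.symm.trans hs.symm)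
    exact ⟨fun v hv _ => e1 v hv, fun v hv _ => e2 v hv⟩
  · set s := ∑ v ∈ t, A v with hsdef
    have k1 : ∑ v ∈ t, s⁻¹ * A v = 1 := by
      rw [← Finset.mul_sum, ← hsdef]
      exact inv_mul_cancel₀ hs.ne'
    have k2 : ∑ v ∈ t', s⁻¹ * B v = 1 := by
      rw [← Finset.mul_sum, ← h2]
      exact inv_mul_cancel₀ hs.ne'
    have k3 : ∑ v ∈ t, (s⁻¹ * A v) • p v = ∑ v ∈ t', (s⁻¹ * B v) • p v := by
      simp only [mul_smul]
      rw [← Finset.smul_sum, ← Finset.smul_sum, h1]
    have m1 : ∑ v ∈ t, (s⁻¹ * A v) • p v ∈ hull p t :=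
      gsMem (fun v hv => mul_nonneg (inv_nonneg.2 hs.le) (hA v hv)) k1
    have m2 : ∑ v ∈ t', (s⁻¹ * B v) • p v ∈ hull p t' :=
      gsMem (fun v hv => mul_nonneg (inv_nonneg.2 hs.le) (hB v hv)) k2
    have m3 : ∑ v ∈ t, (s⁻¹ * A v) • p v ∈ hull p (t ∩ t') := by
      rw [← hin]
      refine ⟨m1, ?_⟩
      rw [k3]
      exact m2
    constructor
    · intro v hv hv'
      have e := gsZero hi k1 rfl m3 v hv hv'
      exact (mul_eq_zero.1 e).resolve_left (inv_ne_zero hs.ne')
    · intro v hv hv'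
      rw [Finset.inter_comm, k3] at m3
      have e := gsZero hi' k2 rfl m3 v hv hv'
      exact (mul_eq_zero.1 e).resolve_left (inv_ne_zero hs.ne')

theorem sep_of_inter {T : Finset (Finset V)} {p : V → Pt} (hT : ∀ t ∈ T, t.card = 3)
    (hp : IsTri T p) (t t' : Finset V) (ht : t ∈ T) (ht' : t' ∈ T) (h : t ≠ t') : Sep p t t' := by
  have _ := hT
  have _ := h
  have hi := hp.indep t ht
  have hi' := hp.indep t' ht'
  have hin := hp.inter t ht t' ht'
  -- the vectors
  set q : V → Pt × ℝ := fun v => if v ∈ t then gsHat p v else - gsHat p v with hq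
  set S : Finset V := (t \ t') ∪ (t' \ t) with hS
  have hdisj : Disjoint (convexHull ℝ (q '' (S : Set V)))
      ((Submodule.span ℝ (gsHat p '' ((t ∩ t' : Finset V) : Set V)) : Submodule ℝ (Pt × ℝ)) :
        Set (Pt × ℝ)) := by
    rw [Set.disjoint_left]
    intro x hx hxU
    obtain ⟨w, w0, w1, w2⟩ := gsCoef q S hx
    obtain ⟨g, hg⟩ := (Submodule.mem_span_image_finset_iff_exists_fun' ℝ).1 hxU
    have d1 : Disjoint (t \ t') (t' \ t) := by
      rw [Finset.disjoint_left]
      intro v hv hv'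
      exact (Finset.mem_sdiff.1 hv').2 (Finset.mem_sdiff.1 hv).1
    have k := gsNoRel hi hi' hin (A := fun v => if v ∈ t' then max (-g v) 0 else w v)
      (B := fun v => if v ∈ t then max (g v) 0 else w v) ?_ ?_ ?_
    · obtain ⟨k1, k2⟩ := k
      rw [hS, Finset.sum_union d1] at w1
      rw [Finset.sum_eq_zero, Finset.sum_eq_zero] at w1
      · norm_num at w1
      · intro v hv
        obtain ⟨a1, a2⟩ := Finset.mem_sdiff.1 hv
        have := k2 v a1 a2
        simpa [a2] using this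
      · intro v hv
        obtain ⟨a1, a2⟩ := Finset.mem_sdiff.1 hv
        have := k1 v a1 a2
        simpa [a2] using this
    · intro v hv
      show 0 ≤ if v ∈ t' then max (-g v) 0 else w v
      split_ifs with hv'
      · exact le_max_right _ _
      · exact w0 v (Finset.mem_union_left _ (Finset.mem_sdiff.2 ⟨hv, hv'⟩))
    · intro v hv
      show 0 ≤ if v ∈ t then max (g v) 0 else w v
      split_ifs with hv'
      · exact le_max_right _ _
      · exact w0 v (Finset.mem_union_right _ (Finset.mem_sdiff.2 ⟨hv, hv'⟩))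
    · have e1 : ∑ v ∈ t, (if v ∈ t' then max (-g v) 0 else w v) • gsHat p v =
          ∑ v ∈ t ∩ t', max (-g v) 0 • gsHat p v + ∑ v ∈ t \ t', w v • gsHat p v := by
        rw [← Finset.sum_inter_add_sum_sdiff t t']
        congr 1
        · refine Finset.sum_congr rfl fun v hv => ?_
          rw [if_pos (Finset.mem_inter.1 hv).2]
        · refine Finset.sum_congr rfl fun v hv => ?_
          rw [if_neg (Finset.mem_sdiff.1 hv).2]
      have e2 : ∑ v ∈ t', (if v ∈ t then max (g v) 0 else w v) • gsHat p v =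
          ∑ v ∈ t ∩ t', max (g v) 0 • gsHat p v + ∑ v ∈ t' \ t, w v • gsHat p v := by
        rw [← Finset.sum_inter_add_sum_sdiff t' t, Finset.inter_comm t' t]
        congr 1
        · refine Finset.sum_congr rfl fun v hv => ?_
          rw [if_pos (Finset.mem_inter.1 hv).1]
        · refine Finset.sum_congr rfl fun v hv => ?_
          rw [if_neg (Finset.mem_sdiff.1 hv).2]
      have e3 : ∑ v ∈ S, w v • q v =
          ∑ v ∈ t \ t', w v • gsHat p v - ∑ v ∈ t' \ t, w v • gsHat p v := by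
        rw [hS, Finset.sum_union d1, sub_eq_add_neg, ← Finset.sum_neg_distrib]
        congr 1
        · refine Finset.sum_congr rfl fun v hv => ?_
          simp only [hq]
          rw [if_pos (Finset.mem_sdiff.1 hv).1]
        · refine Finset.sum_congr rfl fun v hv => ?_
          simp only [hq]
          rw [if_neg (Finset.mem_sdiff.1 hv).2, smul_neg]
      have e4 : ∑ v ∈ t ∩ t', g v • gsHat p v =
          ∑ v ∈ t ∩ t', max (g v) 0 • gsHat p v - ∑ v ∈ t ∩ t', max (-g v) 0 • gsHat p v := by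
        rw [← Finset.sum_sub_distrib]
        refine Finset.sum_congr rfl fun v _ => ?_
        rw [← sub_smul]
        congr 1
        rcases le_total 0 (g v) with hv | hv
        · rw [max_eq_left hv, max_eq_right (by linarith)]
          ring
        · rw [max_eq_right hv, max_eq_left (by linarith)]
          ring
      show ∑ v ∈ t, (if v ∈ t' then max (-g v) 0 else w v) • gsHat p v =
        ∑ v ∈ t', (if v ∈ t then max (g v) 0 else w v) • gsHat p v
      rw [e1, e2]
      rw [e3] at w2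
      rw [e4] at hg
      rw [← sub_eq_zero]
      rw [← sub_eq_zero] at w2
      have e5 := w2
      rw [← hg] at e5
      rw [← e5]
      abel
  obtain ⟨f, a, b, hf1, hab, hf2⟩ := geometric_hahn_banach_compact_closed
    (convex_convexHull ℝ (q '' (S : Set V))) ((S.finite_toSet.image q).isCompact_convexHull ℝ)
    (Submodule.convex _) (Submodule.closed_of_finiteDimensional _) hdisj
  have hb0 : b < 0 := by
    have := hf2 0 (Submodule.zero_mem _)
    rwa [map_zero] at this
  have hfU : ∀ x ∈ Submodule.span ℝ (gsHat p '' ((t ∩ t' : Finset V) : Set V)), f x = 0 := by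
    intro x hx
    by_contra hc
    have h1 := hf2 ((b / f x) • x) (Submodule.smul_mem _ _ hx)
    rw [map_smul, smul_eq_mul, div_mul_cancel₀ _ hc] at h1
    exact lt_irrefl _ h1
  have hfS : ∀ v ∈ S, f (q v) < 0 := by
    intro v hv
    have := hf1 (q v) (subset_convexHull ℝ _ ⟨v, hv, rfl⟩)
    linarith
  have hval : ∀ v, f (gsHat p v) =
      f (Pi.single 0 1, 0) * p v 0 + f (Pi.single 1 1, 0) * p v 1 + f (0, 1) := by
    intro v
    have e : gsHat p v = p v 0 • ((Pi.single 0 1, 0) : Pt × ℝ) +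
        p v 1 • ((Pi.single 1 1, 0) : Pt × ℝ) + ((0, 1) : Pt × ℝ) := by
      refine Prod.ext ?_ ?_
      · funext i
        fin_cases i <;> simp [gsHat]
      · simp [gsHat]
    rw [e, map_add, map_add, map_smul, map_smul, smul_eq_mul, smul_eq_mul]
    ring
  refine ⟨![- f (Pi.single 0 1, 0), - f (Pi.single 1 1, 0)], - f (0, 1), ?_, ?_, ?_⟩
  · intro y hy hy'
    have h1 := hfU (gsHat p y) (Submodule.subset_span
      ⟨y, Finset.mem_coe.2 (Finset.mem_inter.2 ⟨hy, hy'⟩), rfl⟩)
    rw [hval] at h1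
    simp only [Matrix.cons_val_zero, Matrix.cons_val_one]
    linarith
  · intro y hy hy'
    have h1 := hfS y (Finset.mem_union_left _ (Finset.mem_sdiff.2 ⟨hy, hy'⟩))
    simp only [hq, if_pos hy] at h1
    rw [hval] at h1
    simp only [Matrix.cons_val_zero, Matrix.cons_val_one]
    linarith
  · intro y hy hy'
    have h1 := hfS y (Finset.mem_union_right _ (Finset.mem_sdiff.2 ⟨hy, hy'⟩))
    simp only [hq, if_neg hy', map_neg] at h1
    rw [hval] at h1
    simp only [Matrix.cons_val_zero, Matrix.cons_val_one]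
    linarith

lemma gsEps (F : Finset V) (p : V → Pt) (G : (F → Pt) → ℝ) (hG : Continuous G)
    (h0 : 0 < G (fun v => p v)) :
    ∀ᶠ ε in nhdsWithin (0 : ℝ) (Set.Ioi 0), ∀ p' : V → Pt, (∀ v ∈ F, ‖p' v - p v‖ < ε) →
      0 < G (fun v => p' v) := by
  have h1 := hG.continuousAt.eventually (lt_mem_nhds h0)
  obtain ⟨ε, hε, h2⟩ := Metric.eventually_nhds_iff.1 h1
  refine Filter.mem_of_superset (Ioo_mem_nhdsGT hε) ?_
  intro ε' hε' p' hp'
  refine h2 ?_
  rw [dist_pi_lt_iff hε]
  intro v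
  rw [dist_eq_norm]
  exact (hp' v v.2).trans hε'.2

/-- an affine function with given values at three points -/
lemma gsAff {a b c : Pt} (h : area a b c ≠ 0) (α β γ : ℝ) :
    ∃ (d : Pt) (c₀ : ℝ), ∀ z : Pt, d 0 * z 0 + d 1 * z 1 + c₀ =
      (area b c z * α + area c a z * β + area a b z * γ) / area a b c := by
  refine ⟨![(-(c 1 - b 1) * α - (a 1 - c 1) * β - (b 1 - a 1) * γ) / area a b c,
    ((c 0 - b 0) * α + (a 0 - c 0) * β + (b 0 - a 0) * γ) / area a b c],
    ((-(c 0 - b 0) * b 1 + (c 1 - b 1) * b 0) * α + (-(a 0 - c 0) * c 1 + (a 1 - c 1) * c 0) * β +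
      (-(b 0 - a 0) * a 1 + (b 1 - a 1) * a 0) * γ) / area a b c, fun z => ?_⟩
  simp only [Matrix.cons_val_zero, Matrix.cons_val_one]
  rw [div_mul_eq_mul_div, div_mul_eq_mul_div, ← add_div, ← add_div]
  congr 1
  unfold area det2
  simp only [Pi.sub_apply]
  ring

lemma gsBary (a b c z d : Pt) (c₀ : ℝ) :
    area b c z * (d 0 * a 0 + d 1 * a 1 + c₀) + area c a z * (d 0 * b 0 + d 1 * b 1 + c₀) +
      area a b z * (d 0 * c 0 + d 1 * c 1 + c₀) = area a b c * (d 0 * z 0 + d 1 * z 1 + c₀) := by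
  unfold area det2
  simp only [Pi.sub_apply]
  ring

lemma gsArea1 (a b : Pt) : area a b a = 0 := by
  unfold area det2
  simp only [Pi.sub_apply]
  ring

lemma gsArea2 (a b : Pt) : area a b b = 0 := by
  unfold area det2
  simp only [Pi.sub_apply]
  ring

lemma gsArea3 (a b c : Pt) : area b c a = area a b c := by
  unfold area det2
  simp only [Pi.sub_apply]
  ring

lemma gsIndepOpen {p : V → Pt} {t : Finset V} (hc : t.card = 3)
    (hi : AffineIndependent ℝ (fun i : t => p i)) {F : Finset V} (hF : t ⊆ F) :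
    ∀ᶠ ε in nhdsWithin (0 : ℝ) (Set.Ioi 0), ∀ p' : V → Pt, (∀ v ∈ F, ‖p' v - p v‖ < ε) →
      AffineIndependent ℝ (fun i : t => p' i) := by
  obtain ⟨x, y, u, hxy, hxu, hyu, rfl⟩ := Finset.card_eq_three.1 hc
  rw [indep_iff p x y u hxy hxu hyu] at hi
  have hx : x ∈ F := hF (by simp)
  have hy : y ∈ F := hF (by simp)
  have hu : u ∈ F := hF (by simp)
  have h1 := gsEps F p (fun q => (area (q ⟨x, hx⟩) (q ⟨y, hy⟩) (q ⟨u, hu⟩)) ^ 2)
    (by unfold area det2; fun_prop) (by positivity)
  filter_upwards [h1] with ε hε p' hp'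
  rw [indep_iff p' x y u hxy hxu hyu]
  intro hc
  have h2 : 0 < (area (p' x) (p' y) (p' u)) ^ 2 := hε p' hp'
  rw [hc] at h2
  norm_num at h2

lemma gsSepOpen {T : Finset (Finset V)} {p : V → Pt} (hT : ∀ t ∈ T, t.card = 3) (hp : IsTri T p)
    (t t' : Finset V) (ht : t ∈ T) (ht' : t' ∈ T) (h : t ≠ t') {F : Finset V} (hF : t ⊆ F)
    (hF' : t' ⊆ F) :
    ∀ᶠ ε in nhdsWithin (0 : ℝ) (Set.Ioi 0), ∀ p' : V → Pt, (∀ v ∈ F, ‖p' v - p v‖ < ε) →
      Sep p' t t' := by
  obtain ⟨d, c₀, s0, s1, s2⟩ := sep_of_inter hT hp t t' ht ht' h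
  have hi := hp.indep t ht
  have hcard := hT t ht
  have hI := gsIndepOpen hcard hi hF
  obtain ⟨x, y, u, hxy, hxu, hyu, hteq⟩ := Finset.card_eq_three.1 hcard
  subst hteq
  rw [indep_iff p x y u hxy hxu hyu] at hi
  have hx : x ∈ F := hF (by simp)
  have hy : y ∈ F := hF (by simp)
  have hu : u ∈ F := hF (by simp)
  -- the conditions
  have hW : ∀ᶠ ε in nhdsWithin (0 : ℝ) (Set.Ioi 0), ∀ w ∈ t' \ {x, y, u}, ∀ p' : V → Pt,
      (∀ v ∈ F, ‖p' v - p v‖ < ε) →
      0 < -((area (p' y) (p' u) (p' w) * gsF d c₀ (p x) + area (p' u) (p' x) (p' w) * gsF d c₀ (p y) +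
        area (p' x) (p' y) (p' w) * gsF d c₀ (p u)) * area (p' x) (p' y) (p' u)) := by
    rw [Filter.eventually_all_finset]
    intro w hw
    obtain ⟨hw1, hw2⟩ := Finset.mem_sdiff.1 hw
    have hwF : w ∈ F := hF' hw1
    have k := gsEps F p (fun q => -((area (q ⟨y, hy⟩) (q ⟨u, hu⟩) (q ⟨w, hwF⟩) * gsF d c₀ (p x) +
        area (q ⟨u, hu⟩) (q ⟨x, hx⟩) (q ⟨w, hwF⟩) * gsF d c₀ (p y) +
        area (q ⟨x, hx⟩) (q ⟨y, hy⟩) (q ⟨w, hwF⟩) * gsF d c₀ (p u)) *
        area (q ⟨x, hx⟩) (q ⟨y, hy⟩) (q ⟨u, hu⟩)))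
      (by unfold area det2; fun_prop) ?_
    · exact k
    · show 0 < -((area (p y) (p u) (p w) * gsF d c₀ (p x) + area (p u) (p x) (p w) * gsF d c₀ (p y) +
        area (p x) (p y) (p w) * gsF d c₀ (p u)) * area (p x) (p y) (p u))
      unfold gsF
      rw [gsBary]
      have e1 := s2 w hw1 hw2
      have e2 : 0 < area (p x) (p y) (p u) ^ 2 := by positivity
      nlinarith
  filter_upwards [hI, hW] with ε h1 h2 p' hp'
  have hD := h1 p' hp'
  rw [indep_iff p' x y u hxy hxu hyu] at hD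
  obtain ⟨d', c', hd'⟩ := gsAff hD (gsF d c₀ (p x)) (gsF d c₀ (p y)) (gsF d c₀ (p u))
  have vx : d' 0 * p' x 0 + d' 1 * p' x 1 + c' = gsF d c₀ (p x) := by
    rw [hd', gsArea3, gsArea2, gsArea1]
    field_simp
    ring
  have vy : d' 0 * p' y 0 + d' 1 * p' y 1 + c' = gsF d c₀ (p y) := by
    rw [hd', gsArea1, gsArea2, ← gsArea3 (p' x) (p' y) (p' u), ← gsArea3 (p' y) (p' u) (p' x)]
    rw [← gsArea3 (p' x) (p' y) (p' u), ← gsArea3 (p' y) (p' u) (p' x)] at hD
    field_simp
    ring
  have vu : d' 0 * p' u 0 + d' 1 * p' u 1 + c' = gsF d c₀ (p u) := by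
    rw [hd', gsArea1, gsArea2]
    field_simp
    ring
  have vall : ∀ v ∈ ({x, y, u} : Finset V), d' 0 * p' v 0 + d' 1 * p' v 1 + c' =
      gsF d c₀ (p v) := by
    intro v hv
    simp only [Finset.mem_insert, Finset.mem_singleton] at hv
    rcases hv with rfl | rfl | rfl
    · exact vx
    · exact vy
    · exact vu
  refine ⟨d', c', ?_, ?_, ?_⟩
  · intro v hv hv'
    rw [vall v hv]
    exact s0 v hv hv'
  · intro v hv hv'
    rw [vall v hv]
    exact s1 v hv hv'
  · intro w hw hw'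
    have e1 := h2 w (Finset.mem_sdiff.2 ⟨hw, hw'⟩) p' hp'
    rw [hd']
    rw [neg_pos] at e1
    rcases lt_or_gt_of_ne hD with hD' | hD'
    · refine div_neg_of_pos_of_neg ?_ hD'
      unfold gsF
      unfold gsF at e1
      nlinarith
    · refine div_neg_of_neg_of_pos ?_ hD'
      unfold gsF
      unfold gsF at e1
      nlinarith

theorem sep_open {T : Finset (Finset V)} {p : V → Pt} (hT : ∀ t ∈ T, t.card = 3) (hp : IsTri T p)
    (t t' : Finset V) (ht : t ∈ T) (ht' : t' ∈ T) (h : t ≠ t') :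
    ∃ ε > (0 : ℝ), ∀ p' : V → Pt, (∀ v ∈ t ∪ t', ‖p' v - p v‖ < ε) → Sep p' t t' := by
  have h1 := gsSepOpen hT hp t t' ht ht' h (F := t ∪ t') Finset.subset_union_left
    Finset.subset_union_right
  obtain ⟨ε, h2, h3⟩ := (h1.and self_mem_nhdsWithin).exists
  exact ⟨ε, h3, h2⟩

theorem isTri_open {T : Finset (Finset V)} {p : V → Pt} (hT : ∀ t ∈ T, t.card = 3)
    (hp : IsTri T p) :
    ∃ ε > (0 : ℝ), ∀ p' : V → Pt, (∀ v ∈ verts T, ‖p' v - p v‖ < ε) → IsTri T p' := by
  have hsub : ∀ t ∈ T, t ⊆ verts T := fun t ht v hv => Finset.mem_biUnion.2 ⟨t, ht, hv⟩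
  have h1 : ∀ᶠ ε in nhdsWithin (0 : ℝ) (Set.Ioi 0), ∀ t ∈ T, ∀ p' : V → Pt,
      (∀ v ∈ verts T, ‖p' v - p v‖ < ε) → AffineIndependent ℝ (fun i : t => p' i) := by
    rw [Filter.eventually_all_finset]
    exact fun t ht => gsIndepOpen (hT t ht) (hp.indep t ht) (hsub t ht)
  have h2 : ∀ᶠ ε in nhdsWithin (0 : ℝ) (Set.Ioi 0), ∀ t ∈ T, ∀ t' ∈ T, ∀ p' : V → Pt,
      (∀ v ∈ verts T, ‖p' v - p v‖ < ε) → hull p' t ∩ hull p' t' = hull p' (t ∩ t') := by
    rw [Filter.eventually_all_finset]
    intro t ht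
    rw [Filter.eventually_all_finset]
    intro t' ht'
    by_cases h : t = t'
    · subst h
      refine Filter.Eventually.of_forall fun ε p' _ => ?_
      rw [Set.inter_self, Finset.inter_self]
    · have k := gsSepOpen hT hp t t' ht ht' h (hsub t ht) (hsub t' ht')
      filter_upwards [k] with ε hε p' hp'
      exact inter_of_sep p' t t' (hε p' hp')
  obtain ⟨ε, ⟨h3, h4⟩, h5⟩ := ((h1.and h2).and self_mem_nhdsWithin).exists
  exact ⟨ε, h5, fun p' hp' => ⟨fun t ht => h3 t ht p' hp', fun t ht t' ht' => h4 t ht t' ht' p' hp'⟩⟩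

end BSpl
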