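import Pool.Agent.BSpl.SplDefs

/-!
# Bivariate splines, module SplAlg: splines and cofactors

PAPER PROOF of `exists_alpha`.  Let `tp`, `tm` be an orientation (`exists_orient`), and for every `e ∈ EI T` choose an ordered pair
`(px e, py e)` with `e = {px e, py e}`, `px e ≠ py e`. For `v ∈ VI T` let `lam v : V → ℝ` be the weights of `star_cycle`. For an interior
edge `e = {x, y}` write `L e = ell (p (px e)) (p (py e))`; by `ell_swap`, `ell (p v) (p y) ^ (r + 1) = sg v y • L {v, y} ^ (r + 1)` where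
`sg v y = 1` if `v = px {v, y}` and `(-1) ^ (r + 1)` otherwise. Put `α v y = lam v y * sg v y` for `v ∈ VI T` (`1` if `v` is not in `VI T`); it
is never `0`, does not depend on `p`, `n`, and for `v ∈ VI T`, `y ∈ nbrs T v` (note `{v, y} ∈ EI T`):
`α v y • (q {v, y} * ell (p v) (p y) ^ (r + 1)) = lam v y • (q {v, y} * L {v, y} ^ (r + 1))` as `sg ^ 2 = 1`.

Consider the linear map `J : ASpline → (Finset V → Pol)`, `J f e = f (tp e) - f (tm e)` for `e ∈ EI T`, `0` otherwise.
Kernel: `f` with `f t = f t'` for all adjacent `t, t'` (an adjacent pair is `{tp e, tm e}` for `e = t ∩ t' ∈ EI T`, `adjT_pair`), so by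
`conn_closed` `f` is constant on `T`: the kernel is isomorphic to `Deg k` (`T` is not empty), of dimension `(n + r + 3).choose 2` (`finrank_Deg`).
Range: equal to the image of `KK` under the map `q ↦ (e ↦ q e * L e ^ (r + 1))`, which is linear and injective on `KK` because `L e ≠ 0` for
`e ∈ EI T` (`ell x y ≠ 0` if `x ≠ y`: compare coefficients, or evaluate at a point off the line). So `finrank` of the range is
`finrank KK`, and rank-nullity gives the theorem (`ASpline` is finite dimensional, it embeds into a finite product of `Deg k`).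

Range `⊆`: let `f ∈ ASpline`, `f (tp e) - f (tm e) = L e ^ (r + 1) * q e`; the degree of `q e` is at most `k - r - 1 = n` (`L e` has total
degree `1`, `MvPolynomial.totalDegree_mul_of_isDomain`). For `v ∈ VI T` and each monomial `m` apply `star_cycle` to the cochain
`g t t' = coeff m (f t - f t')`, which is exact: `∑ y, lam v y * coeff m (q {v, y} * L {v, y} ^ (r + 1)) = 0`.

Range `⊇`: let `q ∈ KK`. For each monomial `m` let `g_m` be the antisymmetric cochain with `g_m (tp e) (tm e) = coeff m (q e * L e ^ (r + 1))`,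
`g_m (tm e) (tp e) = - ...`. It is locally exact: at `v ∉ VI T` by `star_tree`, at `v ∈ VI T` by `star_cycle`. By `H1` it is exact, with
potential `φ_m`, normalised so that `φ_m t₀ = 0` for a fixed `t₀ ∈ T`. Then `φ_m = 0` on `T` if the degree of `m` is larger than `k`
(`g_m = 0`, `conn_closed`). Let `f t = ∑_m φ_m t * X ^ m` (finite sum over the monomials of degree `≤ k`) for `t ∈ T`, `0` otherwise. Then
`f ∈ ASpline` and `J f e = q e * L e ^ (r + 1)`. (Divisibility for an adjacent pair: the common edge is `{x, y} = e`, and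
`ell (p x) (p y) = ± L e`.)
-/

set_option autoImplicit false

namespace BSpl

open MvPolynomial

variable {V : Type} [DecidableEq V]

theorem eval_ell_left (x y : Pt) : eval x (ell x y) = 0 := by
  unfold ell
  rw [eval_tr, sub_self]
  simp [lf]

theorem ell_ne_zero {x y : Pt} (h : x ≠ y) : ell x y ≠ 0 := by
  intro h0
  apply h
  set w : Pt := ![(y - x) 1, -((y - x) 0)] with hw
  have h1 : eval (x + w) (ell x y) = 0 := by rw [h0, map_zero]
  unfold ell at h1
  rw [eval_tr, add_sub_cancel_left] at h1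
  have h2 : (y - x) 1 ^ 2 + (y - x) 0 ^ 2 = 0 := by
    simp [lf, hw] at h1
    simp only [Pi.sub_apply]
    linarith
  have s0 := sq_nonneg ((y - x) 1)
  have s1 := sq_nonneg ((y - x) 0)
  have h3 : (y - x) 1 = 0 := pow_eq_zero_iff (two_ne_zero) |>.1 (by linarith)
  have h4 : (y - x) 0 = 0 := pow_eq_zero_iff (two_ne_zero) |>.1 (by linarith)
  funext i
  fin_cases i
  · have : y 0 - x 0 = 0 := h4
    change x 0 = y 0
    linarith
  · have : y 1 - x 1 = 0 := h3
    change x 1 = y 1
    linarith

theorem totalDegree_ell {x y : Pt} (h : x ≠ y) : 1 ≤ (ell x y).totalDegree := by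
  by_contra h1
  have h2 : (ell x y).totalDegree = 0 := by omega
  rw [totalDegree_eq_zero_iff_eq_C] at h2
  have h3 := eval_ell_left x y
  rw [h2, eval_C] at h3
  rw [h3, C_0] at h2
  exact ell_ne_zero h h2

theorem finiteDimensional_ASpline (r k : ℕ) (T : Finset (Finset V)) (p : V → Pt) :
    FiniteDimensional ℝ (ASpline r k T p) := by
  have := finiteDimensional_Deg k
  let F : ASpline r k T p →ₗ[ℝ] (T → Deg k) :=
    { toFun := fun f t => ⟨f.1 t.1, f.2.1 t.1 t.2⟩
      map_add' := fun f g => by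
        funext t
        apply Subtype.ext
        rfl
      map_smul' := fun c f => by
        funext t
        apply Subtype.ext
        rfl }
  apply FiniteDimensional.of_injective F
  intro f g hfg
  apply Subtype.ext
  funext t
  by_cases ht : t ∈ T
  · have := congrFun hfg ⟨t, ht⟩
    exact congrArg Subtype.val this
  · rw [f.2.2.1 t ht, g.2.2.1 t ht]

theorem finiteDimensional_KK (r n : ℕ) (α : V → V → ℝ) (T : Finset (Finset V)) (p : V → Pt) :
    FiniteDimensional ℝ (KK r n α T p) := by
  have := finiteDimensional_Deg n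
  let F : KK r n α T p →ₗ[ℝ] (EI T → Deg n) :=
    { toFun := fun f t => ⟨f.1 t.1, f.2.1 t.1 t.2⟩
      map_add' := fun f g => by
        funext t
        apply Subtype.ext
        rfl
      map_smul' := fun c f => by
        funext t
        apply Subtype.ext
        rfl }
  apply FiniteDimensional.of_injective F
  intro f g hfg
  apply Subtype.ext
  funext t
  by_cases ht : t ∈ EI T
  · have := congrFun hfg ⟨t, ht⟩
    exact congrArg Subtype.val this
  · rw [f.2.2.1 t ht, g.2.2.1 t ht]

theorem pair_cases {x y a b : V} (hxy : x ≠ y) (h : ({x, y} : Finset V) = {a, b}) :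
    (x = a ∧ y = b) ∨ (x = b ∧ y = a) := by
  have h1 : x ∈ ({a, b} : Finset V) := by rw [← h]; simp
  have h2 : y ∈ ({a, b} : Finset V) := by rw [← h]; simp
  rw [Finset.mem_insert, Finset.mem_singleton] at h1 h2
  rcases h1 with h1 | h1 <;> rcases h2 with h2 | h2
  · exact absurd (h1.trans h2.symm) hxy
  · exact Or.inl ⟨h1, h2⟩
  · exact Or.inr ⟨h1, h2⟩
  · exact absurd (h1.trans h2.symm) hxy

theorem edge_pair {T : Finset (Finset V)} (h : Surf T) {tp tm : Finset V → Finset V} (ho : Orient T tp tm)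
    {t t' : Finset V} (ht : adjT T t t') {x y : V} (hxy : x ≠ y) (hx : x ∈ t) (hy : y ∈ t)
    (hx' : x ∈ t') (hy' : y ∈ t') :
    ({x, y} : Finset V) ∈ EI T ∧ t ∩ t' = {x, y} ∧
      ((t = tp {x, y} ∧ t' = tm {x, y}) ∨ (t = tm {x, y} ∧ t' = tp {x, y})) := by
  obtain ⟨hc, hs⟩ := adjT_pair h ht hxy hx hy hx' hy'
  have he : ({x, y} : Finset V) ∈ EI T := (mem_EI _).2 ⟨x, y, hxy, hc, rfl⟩
  have hxe : x ∈ ({x, y} : Finset V) := by simp
  have hye : y ∈ ({x, y} : Finset V) := by simp
  have hadj := ho.adj _ he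
  have h1 := hs _ hadj.1 (ho.sp _ he hxe) (ho.sp _ he hye)
  have h2 := hs _ hadj.2.1 (ho.sm _ he hxe) (ho.sm _ he hye)
  have h3 := hadj.2.2.1
  refine ⟨he, ?_, ?_⟩
  · symm
    apply Finset.eq_of_subset_of_card_le
    · intro z hz
      rw [Finset.mem_insert, Finset.mem_singleton] at hz
      rw [Finset.mem_inter]
      rcases hz with rfl | rfl
      · exact ⟨hx, hx'⟩
      · exact ⟨hy, hy'⟩
    · rw [adjT_inter h ht, Finset.card_pair hxy]
  · rcases h1 with h1 | h1 <;> rcases h2 with h2 | h2
    · exact absurd (h1.trans h2.symm) h3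
    · exact Or.inl ⟨h1.symm, h2.symm⟩
    · exact Or.inr ⟨h2.symm, h1.symm⟩
    · exact absurd (h1.trans h2.symm) h3

theorem adj_edge {T : Finset (Finset V)} (h : Surf T) {tp tm : Finset V → Finset V} (ho : Orient T tp tm)
    {t t' : Finset V} (ht : adjT T t t') :
    t ∩ t' ∈ EI T ∧ ((t = tp (t ∩ t') ∧ t' = tm (t ∩ t')) ∨ (t = tm (t ∩ t') ∧ t' = tp (t ∩ t'))) := by
  obtain ⟨x, y, hxy, hx, hy, hx', hy'⟩ := ht.2.2.2
  obtain ⟨h1, h2, h3⟩ := edge_pair h ho ht hxy hx hy hx' hy'
  rw [h2]
  exact ⟨h1, h3⟩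

theorem inter_orient {T : Finset (Finset V)} (h : Surf T) {tp tm : Finset V → Finset V} (ho : Orient T tp tm)
    {e : Finset V} (he : e ∈ EI T) : tp e ∩ tm e = e := by
  obtain ⟨x, y, hxy, _, rfl⟩ := (mem_EI e).1 he
  have hxe : x ∈ ({x, y} : Finset V) := by simp
  have hye : y ∈ ({x, y} : Finset V) := by simp
  exact (edge_pair h ho (ho.adj _ he) hxy (ho.sp _ he hxe) (ho.sp _ he hye) (ho.sm _ he hxe)
    (ho.sm _ he hye)).2.1

/-- choices: the ends of the interior edges and the weights at the interior vertices -/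
structure Ch (T : Finset (Finset V)) (tp tm : Finset V → Finset V) (px py : Finset V → V)
    (lam : V → V → ℝ) : Prop where
  ne : ∀ e ∈ EI T, px e ≠ py e
  ec : ∀ e ∈ EI T, ecount T (px e) (py e) = 2
  eq : ∀ e ∈ EI T, e = {px e, py e}
  lam0 : ∀ v y, lam v y ≠ 0
  cyc : ∀ v ∈ VI T, ∀ g : Finset V → Finset V → ℝ, (∀ t t', adjT T t t' → g t t' = - g t' t) →
        ((∃ φ : Finset V → ℝ, ∀ t t', adjT T t t' → v ∈ t → v ∈ t' → g t t' = φ t - φ t') ↔
          ∑ y ∈ nbrs T v, lam v y * g (tp {v, y}) (tm {v, y}) = 0)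

theorem exists_ch {T : Finset (Finset V)} (h : Surf T) (hne : T.Nonempty) {tp tm : Finset V → Finset V}
    (ho : Orient T tp tm) : ∃ px py lam, Ch T tp tm px py lam := by
  classical
  have hV : Nonempty V := by
    obtain ⟨t, ht⟩ := hne
    have h3 := h.card3 t ht
    have : t.Nonempty := by
      rw [← Finset.card_pos]
      omega
    exact ⟨this.choose⟩
  have h1 : ∀ e : Finset V, ∃ a b : V, e ∈ EI T → a ≠ b ∧ ecount T a b = 2 ∧ e = {a, b} := by
    intro e
    by_cases he : e ∈ EI T
    · obtain ⟨x, y, hxy, hc, heq⟩ := (mem_EI e).1 he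
      exact ⟨x, y, fun _ => ⟨hxy, hc, heq⟩⟩
    · exact ⟨Classical.arbitrary V, Classical.arbitrary V, fun h' => absurd h' he⟩
  choose px py hp using h1
  have h2 : ∀ v : V, ∃ lam : V → ℝ, (∀ y, lam y ≠ 0) ∧ (v ∈ VI T →
      ∀ g : Finset V → Finset V → ℝ, (∀ t t', adjT T t t' → g t t' = - g t' t) →
        ((∃ φ : Finset V → ℝ, ∀ t t', adjT T t t' → v ∈ t → v ∈ t' → g t t' = φ t - φ t') ↔
          ∑ y ∈ nbrs T v, lam y * g (tp {v, y}) (tm {v, y}) = 0)) := by
    intro v
    by_cases hv : v ∈ VI T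
    · obtain ⟨lam, h3, h4⟩ := star_cycle h tp tm ho v hv
      exact ⟨lam, h3, fun _ => h4⟩
    · exact ⟨fun _ => 1, fun _ => one_ne_zero, fun h' => absurd h' hv⟩
  choose lam hl using h2
  exact ⟨px, py, lam, fun e he => (hp e he).1, fun e he => (hp e he).2.1, fun e he => (hp e he).2.2,
    fun v => (hl v).1, fun v hv => (hl v).2 hv⟩

/-- the sign -/
def sg (r : ℕ) (px : Finset V → V) (v y : V) : ℝ := if v = px {v, y} then 1 else (-1) ^ (r + 1)

/-- the coefficients -/
noncomputable def al (r : ℕ) (T : Finset (Finset V)) (px : Finset V → V) (lam : V → V → ℝ) (v y : V) : ℝ :=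
  if v ∈ VI T then lam v y * sg r px v y else 1

theorem sg_ne (r : ℕ) (px : Finset V → V) (v y : V) : sg r px v y ≠ 0 := by
  unfold sg
  split_ifs
  · exact one_ne_zero
  · exact pow_ne_zero _ (by norm_num)

theorem al_ne {r : ℕ} {T : Finset (Finset V)} {tp tm : Finset V → Finset V} {px py : Finset V → V}
    {lam : V → V → ℝ} (hc : Ch T tp tm px py lam) (v y : V) : al r T px lam v y ≠ 0 := by
  unfold al
  split_ifs
  · exact mul_ne_zero (hc.lam0 v y) (sg_ne r px v y)
  · exact one_ne_zero

/-- an edge at an interior vertex is an interior edge -/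
theorem EI_of_VI {T : Finset (Finset V)} {v y : V} (hv : v ∈ VI T) (hy : y ∈ nbrs T v) :
    v ≠ y ∧ ({v, y} : Finset V) ∈ EI T := by
  have h1 := (mem_nbrs v y).1 hy
  have h2 := ((mem_VI v).1 hv).2 y h1
  exact ⟨h1.1, (mem_EI _).2 ⟨v, y, h1.1, h2, rfl⟩⟩

/-- the affine function of an edge -/
noncomputable def LL (px py : Finset V → V) (p : V → Pt) (e : Finset V) : Pol := ell (p (px e)) (p (py e))

theorem ell_pair {T : Finset (Finset V)} {tp tm : Finset V → Finset V} {px py : Finset V → V}
    {lam : V → V → ℝ} (hc : Ch T tp tm px py lam) (p : V → Pt) {x y : V} (hxy : x ≠ y)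
    (he : ({x, y} : Finset V) ∈ EI T) :
    (x = px {x, y} ∧ ell (p x) (p y) = LL px py p {x, y}) ∨
      (x ≠ px {x, y} ∧ ell (p x) (p y) = - LL px py p {x, y}) := by
  have h1 := hc.eq _ he
  have hne := hc.ne _ he
  unfold LL
  rcases pair_cases hxy h1 with ⟨h2, h3⟩ | ⟨h2, h3⟩
  · left
    refine ⟨h2, ?_⟩
    rw [← h2, ← h3]
  · right
    refine ⟨?_, ?_⟩
    · intro h4
      exact hne (h4.symm.trans h2)
    · rw [← h2, ← h3, ell_swap (p x) (p y), neg_neg]

theorem al_smul {r : ℕ} {T : Finset (Finset V)} {tp tm : Finset V → Finset V} {px py : Finset V → V}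
    {lam : V → V → ℝ} (hc : Ch T tp tm px py lam) (p : V → Pt) {v y : V} (hv : v ∈ VI T)
    (hy : y ∈ nbrs T v) (Q : Pol) :
    al r T px lam v y • (Q * ell (p v) (p y) ^ (r + 1)) =
      lam v y • (Q * LL px py p {v, y} ^ (r + 1)) := by
  obtain ⟨hvy, he⟩ := EI_of_VI hv hy
  unfold al
  rw [if_pos hv]
  rcases ell_pair hc p hvy he with ⟨h1, h2⟩ | ⟨h1, h2⟩
  · rw [h2]
    unfold sg
    rw [if_pos h1, mul_one]
  · rw [h2]
    unfold sg
    rw [if_neg h1, mul_smul]
    congr 1
    rw [neg_pow (LL px py p {v, y}), MvPolynomial.smul_eq_C_mul]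
    have h3 : (C ((-1 : ℝ) ^ (r + 1)) : Pol) * (-1) ^ (r + 1) = 1 := by
      rw [map_pow, map_neg, C_1, ← mul_pow]
      simp
    linear_combination (Q * LL px py p {v, y} ^ (r + 1)) * h3

theorem LL_ne {T : Finset (Finset V)} {tp tm : Finset V → Finset V} {px py : Finset V → V}
    {lam : V → V → ℝ} (hc : Ch T tp tm px py lam) {p : V → Pt} (hp : ∀ x y, Edge T x y → p x ≠ p y)
    {e : Finset V} (he : e ∈ EI T) : p (px e) ≠ p (py e) := by
  apply hp
  rw [edge_iff]
  refine ⟨hc.ne e he, ?_⟩
  rw [hc.ec e he]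
  norm_num

/-- the jump -/
noncomputable def J0 (T : Finset (Finset V)) (tp tm : Finset V → Finset V) :
    (Finset V → Pol) →ₗ[ℝ] (Finset V → Pol) where
  toFun f e := if e ∈ EI T then f (tp e) - f (tm e) else 0
  map_add' f g := by
    funext e
    change (if e ∈ EI T then f (tp e) + g (tp e) - (f (tm e) + g (tm e)) else 0) =
      (if e ∈ EI T then f (tp e) - f (tm e) else 0) + (if e ∈ EI T then g (tp e) - g (tm e) else 0)
    split_ifs
    · ring
    · rw [add_zero]
  map_smul' c f := by
    funext e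
    change (if e ∈ EI T then c • f (tp e) - c • f (tm e) else 0) =
      c • (if e ∈ EI T then f (tp e) - f (tm e) else 0)
    split_ifs
    · rw [smul_sub]
    · rw [smul_zero]

theorem J0_apply (T : Finset (Finset V)) (tp tm : Finset V → Finset V) (f : Finset V → Pol)
    (e : Finset V) : J0 T tp tm f e = if e ∈ EI T then f (tp e) - f (tm e) else 0 := rfl

omit [DecidableEq V] in
/-- multiplication by the affine functions -/
noncomputable def P0 (r : ℕ) (L : Finset V → Pol) : (Finset V → Pol) →ₗ[ℝ] (Finset V → Pol) where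
  toFun q e := q e * L e ^ (r + 1)
  map_add' f g := by
    funext e
    rw [Pi.add_apply, Pi.add_apply, add_mul]
  map_smul' c f := by
    funext e
    rw [Pi.smul_apply, Pi.smul_apply, smul_mul_assoc, RingHom.id_apply]

omit [DecidableEq V] in
theorem P0_apply (r : ℕ) (L : Finset V → Pol) (q : Finset V → Pol) (e : Finset V) :
    P0 r L q e = q e * L e ^ (r + 1) := rfl

/-- the kernel of the jump map on splines -/
theorem finrank_ker (r k : ℕ) {T : Finset (Finset V)} (h : Surf T) (hne : T.Nonempty)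
    {tp tm : Finset V → Finset V} (ho : Orient T tp tm) (p : V → Pt) :
    Module.finrank ℝ (LinearMap.ker ((J0 T tp tm).comp (ASpline r k T p).subtype)) =
      (k + 2).choose 2 := by
  classical
  obtain ⟨t₀, ht₀⟩ := hne
  rw [← finrank_Deg k]
  let D : Deg k →ₗ[ℝ] ASpline r k T p :=
    { toFun := fun q => ⟨fun t => if t ∈ T then q.1 else 0, by
        refine ⟨fun t ht => ?_, fun t ht => ?_, ?_⟩
        · change (if t ∈ T then q.1 else 0) ∈ Deg k
          rw [if_pos ht]
          exact q.2
        · change (if t ∈ T then q.1 else 0) = 0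
          rw [if_neg ht]
        · intro t t' htt x y _ _ _ _ _
          change _ ∣ (if t ∈ T then q.1 else 0) - (if t' ∈ T then q.1 else 0)
          rw [if_pos htt.1, if_pos htt.2.1, sub_self]
          exact dvd_zero _⟩
      map_add' := fun a b => by
        apply Subtype.ext
        funext t
        change (if t ∈ T then a.1 + b.1 else 0) = (if t ∈ T then a.1 else 0) + (if t ∈ T then b.1 else 0)
        split_ifs
        · rfl
        · rw [add_zero]
      map_smul' := fun c a => by
        apply Subtype.ext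
        funext t
        change (if t ∈ T then c • a.1 else 0) = c • (if t ∈ T then a.1 else 0)
        split_ifs
        · rfl
        · rw [smul_zero] }
  have hDinj : Function.Injective D := by
    intro a b hab
    apply Subtype.ext
    have h1 : (D a).1 t₀ = (D b).1 t₀ := by rw [hab]
    change (if t₀ ∈ T then a.1 else 0) = (if t₀ ∈ T then b.1 else 0) at h1
    rwa [if_pos ht₀, if_pos ht₀] at h1
  have hrange : LinearMap.range D = LinearMap.ker ((J0 T tp tm).comp (ASpline r k T p).subtype) := by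
    ext f
    rw [LinearMap.mem_range, LinearMap.mem_ker]
    constructor
    · rintro ⟨q, rfl⟩
      funext e
      change (if e ∈ EI T then (if tp e ∈ T then q.1 else 0) - (if tm e ∈ T then q.1 else 0) else 0) = 0
      split_ifs with he h1 h2 h2
      · exact sub_self _
      · exact absurd (ho.adj e he).2.1 h2
      · exact absurd (ho.adj e he).1 h1
      · exact sub_self _
      · rfl
    · intro hf
      have hadj : ∀ t t', adjT T t t' → f.1 t = f.1 t₀ → f.1 t' = f.1 t₀ := by
        intro t t' htt ht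
        obtain ⟨he, h1⟩ := adj_edge h ho htt
        have h2 : (J0 T tp tm) f.1 (t ∩ t') = 0 := congrFun hf (t ∩ t')
        rw [J0_apply, if_pos he, sub_eq_zero] at h2
        rcases h1 with ⟨h3, h4⟩ | ⟨h3, h4⟩
        · rw [← h3, ← h4] at h2
          rw [← h2, ht]
        · rw [← h3, ← h4] at h2
          rw [h2, ht]
      have hall : ∀ t ∈ T, f.1 t = f.1 t₀ := fun t ht =>
        conn_closed h (fun t => f.1 t = f.1 t₀) hadj t₀ ht₀ rfl t ht
      refine ⟨⟨f.1 t₀, f.2.1 t₀ ht₀⟩, ?_⟩
      apply Subtype.ext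
      funext t
      change (if t ∈ T then f.1 t₀ else 0) = f.1 t
      split_ifs with ht
      · exact (hall t ht).symm
      · exact (f.2.2.1 t ht).symm
  rw [← hrange]
  exact LinearMap.finrank_range_of_inj hDinj

/-- the quotient of a polynomial by a power of an affine function -/
theorem exists_quot {x y : Pt} (hxy : x ≠ y) (r n : ℕ) {F : Pol} (hF : F ∈ Deg (n + r + 1))
    (hd : ell x y ^ (r + 1) ∣ F) : ∃ q ∈ Deg n, F = q * ell x y ^ (r + 1) := by
  obtain ⟨q, hq⟩ := hd
  refine ⟨q, ?_, by rw [hq]; ring⟩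
  rw [mem_Deg] at hF ⊢
  by_cases hq0 : q = 0
  · rw [hq0]
    simp
  · have hL := ell_ne_zero hxy
    have h1 : ∀ m : ℕ, m * 1 ≤ (ell x y ^ m).totalDegree := by
      intro m
      induction m with
      | zero => simp
      | succ m ih =>
        rw [pow_succ, totalDegree_mul_of_isDomain (pow_ne_zero m hL) hL]
        have := totalDegree_ell hxy
        omega
    have h2 := h1 (r + 1)
    rw [hq, totalDegree_mul_of_isDomain (pow_ne_zero _ hL) hq0] at hF
    omega

/-- the range of the jump map is contained in the range of the multiplication map -/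
theorem range_le (r n : ℕ) {T : Finset (Finset V)} (h : Surf T)
    {tp tm : Finset V → Finset V} (ho : Orient T tp tm) {px py : Finset V → V}
    {lam : V → V → ℝ} (hc : Ch T tp tm px py lam) {p : V → Pt} (hp : ∀ x y, Edge T x y → p x ≠ p y) :
    LinearMap.range ((J0 T tp tm).comp (ASpline r (n + r + 1) T p).subtype) ≤
      LinearMap.range ((P0 r (LL px py p)).comp (KK r n (al r T px lam) T p).subtype) := by
  classical
  rintro _ ⟨f, rfl⟩
  have h1 : ∀ e : Finset V, ∃ q : Pol, (e ∈ EI T → q ∈ Deg n ∧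
      f.1 (tp e) - f.1 (tm e) = q * LL px py p e ^ (r + 1)) ∧ (e ∉ EI T → q = 0) := by
    intro e
    by_cases he : e ∈ EI T
    · have hadj := ho.adj e he
      have hpe : px e ∈ e := by
        have h0 : px e ∈ ({px e, py e} : Finset V) := by simp
        rwa [← hc.eq e he] at h0
      have hpye : py e ∈ e := by
        have h0 : py e ∈ ({px e, py e} : Finset V) := by simp
        rwa [← hc.eq e he] at h0
      have h2 : f.1 (tp e) - f.1 (tm e) ∈ Deg (n + r + 1) :=
        Submodule.sub_mem _ (f.2.1 _ hadj.1) (f.2.1 _ hadj.2.1)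
      have h3 := f.2.2.2 _ _ hadj (px e) (py e) (hc.ne e he) (ho.sp e he hpe) (ho.sp e he hpye)
        (ho.sm e he hpe) (ho.sm e he hpye)
      obtain ⟨q, hq, hq2⟩ := exists_quot (LL_ne hc hp he) r n h2 h3
      exact ⟨q, fun _ => ⟨hq, hq2⟩, fun h' => absurd he h'⟩
    · exact ⟨0, fun h' => absurd h' he, fun _ => rfl⟩
  choose q hq hq0 using h1
  refine ⟨⟨q, fun e he => (hq e he).1, fun e he => hq0 e he, ?_⟩, ?_⟩
  · intro v hv
    have h2 : ∑ y ∈ nbrs T v, al r T px lam v y • (q {v, y} * ell (p v) (p y) ^ (r + 1)) =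
        ∑ y ∈ nbrs T v, lam v y • (f.1 (tp {v, y}) - f.1 (tm {v, y})) := by
      apply Finset.sum_congr rfl
      intro y hy
      rw [al_smul hc p hv hy, ← (hq _ (EI_of_VI hv hy).2).2]
    rw [h2]
    ext m
    rw [coeff_sum, coeff_zero]
    have h3 := (hc.cyc v hv (fun t t' => coeff m (f.1 t) - coeff m (f.1 t')) (fun t t' _ => by ring)).1
      ⟨fun t => coeff m (f.1 t), fun t t' _ _ _ => rfl⟩
    rw [← h3]
    apply Finset.sum_congr rfl
    intro y _
    rw [coeff_smul, coeff_sub, smul_eq_mul]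
  · funext e
    change q e * LL px py p e ^ (r + 1) = if e ∈ EI T then f.1 (tp e) - f.1 (tm e) else 0
    split_ifs with he
    · exact (hq e he).2.symm
    · rw [hq0 e he, zero_mul]

/-- the range of the multiplication map is contained in the range of the jump map -/
theorem le_range (r n : ℕ) {T : Finset (Finset V)} (h : Surf T) (h1 : H1 T) (hne : T.Nonempty)
    {tp tm : Finset V → Finset V} (ho : Orient T tp tm) {px py : Finset V → V}
    {lam : V → V → ℝ} (hc : Ch T tp tm px py lam) {p : V → Pt} (hp : ∀ x y, Edge T x y → p x ≠ p y) :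
    LinearMap.range ((P0 r (LL px py p)).comp (KK r n (al r T px lam) T p).subtype) ≤
      LinearMap.range ((J0 T tp tm).comp (ASpline r (n + r + 1) T p).subtype) := by
  classical
  rintro _ ⟨q, rfl⟩
  obtain ⟨t₀, ht₀⟩ := hne
  set G : Finset V → Pol := fun e => q.1 e * LL px py p e ^ (r + 1) with hG
  have hGdeg : ∀ e ∈ EI T, G e ∈ Deg (n + r + 1) := by
    intro e he
    have h2 := mul_mem_Deg (q.2.1 e he) (pow_mem_Deg (ell_mem_Deg (p (px e)) (p (py e))) (r + 1))
    have h3 : n + (r + 1) * 1 = n + r + 1 := by ring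
    rw [h3] at h2
    exact h2
  -- the cochains
  let g : (Fin 2 →₀ ℕ) → Finset V → Finset V → ℝ := fun m t t' =>
    if t = tp (t ∩ t') then coeff m (G (t ∩ t')) else - coeff m (G (t ∩ t'))
  have hg1 : ∀ m e, e ∈ EI T → g m (tp e) (tm e) = coeff m (G e) := by
    intro m e he
    have h2 := inter_orient h ho he
    change (if tp e = tp (tp e ∩ tm e) then coeff m (G (tp e ∩ tm e)) else - coeff m (G (tp e ∩ tm e))) = _
    rw [h2, if_pos rfl]
  have hg2 : ∀ m e, e ∈ EI T → g m (tm e) (tp e) = - coeff m (G e) := by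
    intro m e he
    have h2 := inter_orient h ho he
    change (if tm e = tp (tm e ∩ tp e) then coeff m (G (tm e ∩ tp e)) else - coeff m (G (tm e ∩ tp e))) = _
    rw [Finset.inter_comm (tm e), h2, if_neg (fun h' => (ho.adj e he).2.2.1 h'.symm)]
  have hganti : ∀ m t t', adjT T t t' → g m t t' = - g m t' t := by
    intro m t t' htt
    obtain ⟨he, h3 | h3⟩ := adj_edge h ho htt
    · have e1 := hg1 m _ he
      have e2 := hg2 m _ he
      rw [← h3.1, ← h3.2] at e1 e2
      rw [e1, e2, neg_neg]
    · have e1 := hg1 m _ he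
      have e2 := hg2 m _ he
      rw [← h3.1, ← h3.2] at e1 e2
      rw [e1, e2]
  have hloc : ∀ m, LocEx T (g m) := by
    intro m v
    by_cases hv : v ∈ VI T
    · rw [hc.cyc v hv (g m) (hganti m)]
      have h2 : ∑ y ∈ nbrs T v, lam v y * g m (tp {v, y}) (tm {v, y}) =
          coeff m (∑ y ∈ nbrs T v, al r T px lam v y • (q.1 {v, y} * ell (p v) (p y) ^ (r + 1))) := by
        rw [coeff_sum]
        apply Finset.sum_congr rfl
        intro y hy
        rw [al_smul hc p hv hy, coeff_smul, smul_eq_mul, hg1 m _ (EI_of_VI hv hy).2]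
      rw [h2, q.2.2.2 v hv, coeff_zero]
    · exact star_tree h v hv (g m) (hganti m)
  have hex : ∀ m, Ex T (g m) := fun m => h1 _ (hloc m)
  choose φ hφ using hex
  let ψ : (Fin 2 →₀ ℕ) → Finset V → ℝ := fun m t => φ m t - φ m t₀
  have hψ : ∀ m t t', adjT T t t' → g m t t' = ψ m t - ψ m t' := by
    intro m t t' htt
    rw [hφ m t t' htt]
    change _ = φ m t - φ m t₀ - (φ m t' - φ m t₀)
    ring
  -- the monomials
  let S : Finset (Fin 2 →₀ ℕ) := (EI T).biUnion (fun e => (G e).support)
  have hS0 : ∀ m, m ∉ S → ∀ t ∈ T, ψ m t = 0 := by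
    intro m hm t ht
    have hz : ∀ e ∈ EI T, coeff m (G e) = 0 := by
      intro e he
      by_contra hcon
      exact hm (Finset.mem_biUnion.2 ⟨e, he, mem_support_iff.2 hcon⟩)
    apply conn_closed h (fun t => ψ m t = 0) _ t₀ ht₀ (sub_self _) t ht
    intro t t' htt h3
    have h4 := hψ m t t' htt
    have h5 : g m t t' = 0 := by
      obtain ⟨he, h6 | h6⟩ := adj_edge h ho htt
      · have e1 := hg1 m _ he
        rw [← h6.1, ← h6.2] at e1
        rw [e1, hz _ he]
      · have e1 := hg2 m _ he
        rw [← h6.1, ← h6.2] at e1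
        rw [e1, hz _ he, neg_zero]
    rw [h5, h3] at h4
    linarith
  let F : Finset V → Pol := fun t => if t ∈ T then ∑ m ∈ S, monomial m (ψ m t) else 0
  have hF0 : ∀ t, t ∉ T → F t = 0 := fun t ht => if_neg ht
  have hF1 : ∀ t, t ∈ T → F t = ∑ m ∈ S, monomial m (ψ m t) := fun t ht => if_pos ht
  have hFc : ∀ t ∈ T, ∀ m, coeff m (F t) = ψ m t := by
    intro t ht m
    rw [hF1 t ht, coeff_sum]
    simp only [coeff_monomial]
    rw [Finset.sum_ite_eq']
    split_ifs with hm
    · rfl
    · exact (hS0 m hm t ht).symm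
  have hFd : ∀ t ∈ T, F t ∈ Deg (n + r + 1) := by
    intro t ht
    rw [hF1 t ht]
    apply Submodule.sum_mem
    intro m hm
    rw [mem_Deg]
    refine (totalDegree_monomial_le _ _).trans ?_
    obtain ⟨e, he, hme⟩ := Finset.mem_biUnion.1 hm
    have h3 := le_totalDegree hme
    have h4 := (mem_Deg).1 (hGdeg e he)
    exact h3.trans h4
  have hJ1 : ∀ e ∈ EI T, F (tp e) - F (tm e) = G e := by
    intro e he
    have hadj := ho.adj e he
    ext m
    rw [coeff_sub, hFc _ hadj.1, hFc _ hadj.2.1, ← hψ m _ _ hadj, hg1 m e he]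
  have hdiff : ∀ t t', adjT T t t' → F t - F t' = G (t ∩ t') ∨ F t - F t' = - G (t ∩ t') := by
    intro t t' htt
    obtain ⟨he, h6 | h6⟩ := adj_edge h ho htt
    · left
      have e1 := hJ1 _ he
      rw [← h6.1, ← h6.2] at e1
      exact e1
    · right
      have e1 := hJ1 _ he
      rw [← h6.1, ← h6.2] at e1
      rw [← e1]
      ring
  refine ⟨⟨F, hFd, hF0, ?_⟩, ?_⟩
  · intro t t' htt x y hxy hx hy hx' hy'
    obtain ⟨he, h2, _⟩ := edge_pair h ho htt hxy hx hy hx' hy'
    have h3 : ell (p x) (p y) ^ (r + 1) ∣ G {x, y} := by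
      rcases ell_pair hc p hxy he with ⟨_, h4⟩ | ⟨_, h4⟩
      · rw [h4]
        exact Dvd.intro_left _ rfl
      · rw [h4, neg_pow]
        have h5 : G {x, y} = ((-1) ^ (r + 1) * LL px py p {x, y} ^ (r + 1)) *
            ((-1) ^ (r + 1) * q.1 {x, y}) := by
          have h6 : ((-1 : Pol)) ^ (r + 1) * (-1) ^ (r + 1) = 1 := by
            rw [← mul_pow]
            simp
          change q.1 {x, y} * LL px py p {x, y} ^ (r + 1) = _
          linear_combination (-(q.1 {x, y} * LL px py p {x, y} ^ (r + 1))) * h6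
        rw [h5]
        exact Dvd.intro _ rfl
    rcases hdiff t t' htt with h4 | h4
    · rw [h4, h2]
      exact h3
    · rw [h4, h2]
      exact (dvd_neg).2 h3
  · funext e
    change (if e ∈ EI T then F (tp e) - F (tm e) else 0) = q.1 e * LL px py p e ^ (r + 1)
    split_ifs with he
    · exact hJ1 e he
    · rw [q.2.2.1 e he, zero_mul]

theorem exists_alpha (r : ℕ) (T : Finset (Finset V)) (h : Surf T) (h1 : H1 T) (hne : T.Nonempty) :
    ∃ α : V → V → ℝ, (∀ x y, α x y ≠ 0) ∧
      ∀ (n : ℕ) (p : V → Pt), (∀ x y, Edge T x y → p x ≠ p y) →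
        Module.finrank ℝ (ASpline r (n + r + 1) T p) =
          (n + r + 3).choose 2 + Module.finrank ℝ (KK r n α T p) := by
  obtain ⟨tp, tm, ho⟩ := exists_orient T
  obtain ⟨px, py, lam, hc⟩ := exists_ch h hne ho
  refine ⟨al r T px lam, fun x y => al_ne hc x y, ?_⟩
  intro n p hp
  have : FiniteDimensional ℝ (ASpline r (n + r + 1) T p) := finiteDimensional_ASpline _ _ _ _
  have h2 := LinearMap.finrank_range_add_finrank_ker
    ((J0 T tp tm).comp (ASpline r (n + r + 1) T p).subtype)
  rw [finrank_ker r (n + r + 1) h hne ho p] at h2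
  have h3 : LinearMap.range ((J0 T tp tm).comp (ASpline r (n + r + 1) T p).subtype) =
      LinearMap.range ((P0 r (LL px py p)).comp (KK r n (al r T px lam) T p).subtype) :=
    le_antisymm (range_le r n h ho hc hp) (le_range r n h h1 hne ho hc hp)
  have h4 : Function.Injective ((P0 r (LL px py p)).comp (KK r n (al r T px lam) T p).subtype) := by
    intro a b hab
    apply Subtype.ext
    funext e
    by_cases he : e ∈ EI T
    · have h5 : a.1 e * LL px py p e ^ (r + 1) = b.1 e * LL px py p e ^ (r + 1) := congrFun hab e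
      have h6 : LL px py p e ≠ 0 := ell_ne_zero (LL_ne hc hp he)
      exact mul_right_cancel₀ (pow_ne_zero _ h6) h5
    · rw [a.2.2.1 e he, b.2.2.1 e he]
  rw [h3, LinearMap.finrank_range_of_inj h4] at h2
  have h5 : n + r + 1 + 2 = n + r + 3 := by ring
  rw [h5] at h2
  omega

end BSpl
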