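import Pool.Agent.BSpl.SplLow

/-!
# Bivariate splines, module SplUp: the upper bound for the cofactor space by supersplines

PAPER PROOF of `KK_upper`.  Let `Ds ≤ D0 n T` be the subspace of the `q` such that `q e ∈ Ord (p v) s` for all `e ∈ EI T` and all `v ∈ e` with
`v ∈ VI T`. It is a product over `e ∈ EI T` of the spaces `Deg n` (no end of `e` in `VI T`), `Deg n ⊓ Ord (p v) s` (one end), or
`Deg n ⊓ Ord (p v) s ⊓ Ord (p w) s` (two ends `v ≠ w`), of dimension `(n + 2).choose 2 - c * ∑ j ∈ range s, (j + 1)`, `c` the number of ends in `VI T`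
(`finrank_two` of module DimA with `f, g ∈ {0, s}`, `2 s ≤ n + 1`; `p v ≠ p w` by `hsl` because every `v ∈ VI T` has at least three neighbours: choose
another neighbour `z`, `det2 (p w - p v) (p z - p v) ≠ 0`). All edges at `v ∈ VI T` are in `EI T`. So
(1) `finrank Ds + ∑ v ∈ VI T, (nbrs T v).card * ∑ j ∈ range s, (j + 1) = (n + 2).choose 2 * (EI T).card`.
(2) `W r n s α (cfgT T) p ≤ Phi (Ds)`: as in `KK_upperB` (`Phi_single_ii`, `Phi_single_gr`; by `Gen_spec` the polynomials `q` have the right
orders). So `finrank (Ds ⊓ ker Phi) + (VI T).card * dM r n s ≤ finrank Ds`.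
(3) `finrank KK ≤ finrank (Ds ⊓ ker Phi) + ∑ v ∈ VI T, ∑ j ∈ range s, ((nbrs T v).card * (j + 1) - min (j + r + 2) ((nbrs T v).card * (j + 1)))`.
Consider the linear map which sends `q ∈ KK` to the family `h v j y = homogeneousComponent j (tr (- p v) (q {v, y}))`, `v ∈ VI T`, `j < s`,
`y ∈ nbrs T v`. Its kernel is `Ds ⊓ ker Phi = KK ⊓ Ds`. Applying `tr (- p v)` to the relation at `v` (`tr (- p v) (ell (p v) (p y)) = lf (p y - p v)`, a
form of degree `1`) and taking the component of degree `j + r + 1` gives `∑ y, α v y • (h v j y * lf (p y - p v) ^ (r + 1)) = 0`. So the family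
`h v j` is in the space `Syz v j` of module-valued relations; `syz_dim`: `finrank (Syz v j) ≤ m (j + 1) - min (j + r + 2) (m (j + 1))` with
`m = (nbrs T v).card`, because the map `(h y) ↦ ∑ y, α v y • (h y * lf (p y - p v) ^ (r + 1))` from `H j ^ m` to `H (j + r + 1)` is injective if
`m (j + 1) ≤ j + r + 2` (`pow_inj` with all exponents `r + 1`) and onto if `m (j + 1) ≥ j + r + 2` (`pow_surj`); its source has dimension
`m (j + 1)`, its target `j + r + 2`.
(4) For `s ≤ j ≤ n` and `v ∈ VI T`: `min (j + r + 2) ((nbrs T v).card * (j + 1)) = j + r + 2`, since `(nbrs T v).card ≥ 3` (`nbrs_card`) and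
`3 (j + 1) ≥ j + r + 2` by `r ≤ 2 s + 1`. Adding up (1), (2), (3) gives the claim (`range (n + 1)` is the union of `range s` and `Icc s n`).
-/

set_option autoImplicit false

namespace BSpl

open MvPolynomial

/-- families supported on `Y` with values in given subspaces -/
def upProd {ι M : Type} [AddCommGroup M] [Module ℝ M] (Y : Finset ι) (S : ι → Submodule ℝ M) :
    Submodule ℝ (ι → M) where
  carrier := {h | (∀ y ∈ Y, h y ∈ S y) ∧ ∀ y, y ∉ Y → h y = 0}
  zero_mem' := ⟨fun y _ => Submodule.zero_mem _, fun y _ => rfl⟩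
  add_mem' := by
    intro a b ha hb
    refine ⟨fun t ht => Submodule.add_mem _ (ha.1 t ht) (hb.1 t ht), fun t ht => ?_⟩
    rw [Pi.add_apply, ha.2 t ht, hb.2 t ht, add_zero]
  smul_mem' := by
    intro c a ha
    refine ⟨fun t ht => Submodule.smul_mem _ _ (ha.1 t ht), fun t ht => ?_⟩
    rw [Pi.smul_apply, ha.2 t ht, smul_zero]

theorem mem_upProd {ι M : Type} [AddCommGroup M] [Module ℝ M] {Y : Finset ι}
    {S : ι → Submodule ℝ M} {h : ι → M} :
    h ∈ upProd Y S ↔ (∀ y ∈ Y, h y ∈ S y) ∧ ∀ y, y ∉ Y → h y = 0 := Iff.rfl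

/-- the product as a product of submodules -/
noncomputable def upProdEquiv {ι M : Type} [AddCommGroup M] [Module ℝ M] [DecidableEq ι] (Y : Finset ι)
    (S : ι → Submodule ℝ M) : upProd Y S ≃ₗ[ℝ] (∀ y : Y, S y) where
  toFun h := fun y => ⟨h.1 y, h.2.1 y y.2⟩
  invFun g := ⟨fun y => if hy : y ∈ Y then (g ⟨y, hy⟩ : M) else 0, by
    refine ⟨fun y hy => ?_, fun y hy => ?_⟩
    · simp only [dif_pos hy]
      exact (g ⟨y, hy⟩).2
    · simp only [dif_neg hy]⟩
  map_add' := by
    intro a b
    rfl
  map_smul' := by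
    intro c a
    rfl
  left_inv := by
    intro h
    ext y
    by_cases hy : y ∈ Y
    · simp [hy]
    · simp [hy, h.2.2 y hy]
  right_inv := by
    intro g
    funext y
    ext
    simp

theorem finiteDimensional_upProd {ι M : Type} [AddCommGroup M] [Module ℝ M] [DecidableEq ι] (Y : Finset ι)
    (S : ι → Submodule ℝ M) (hS : ∀ y ∈ Y, FiniteDimensional ℝ (S y)) :
    FiniteDimensional ℝ (upProd Y S) := by
  have : ∀ y : Y, FiniteDimensional ℝ (S y) := fun y => hS y y.2
  exact LinearEquiv.finiteDimensional (upProdEquiv Y S).symm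

theorem finrank_upProd {ι M : Type} [AddCommGroup M] [Module ℝ M] [DecidableEq ι] (Y : Finset ι)
    (S : ι → Submodule ℝ M) (hS : ∀ y ∈ Y, FiniteDimensional ℝ (S y)) :
    Module.finrank ℝ (upProd Y S) = ∑ y ∈ Y, Module.finrank ℝ (S y) := by
  have : ∀ y : Y, FiniteDimensional ℝ (S y) := fun y => hS y y.2
  rw [LinearEquiv.finrank_eq (upProdEquiv Y S), Module.finrank_pi_fintype,
    ← Finset.sum_coe_sort Y (fun y => Module.finrank ℝ (S y))]

/-- rank-nullity for a subspace of the domain of a linear map -/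
theorem up_rank_null {M N : Type} [AddCommGroup M] [Module ℝ M] [AddCommGroup N] [Module ℝ N]
    (f : M →ₗ[ℝ] N) (D : Submodule ℝ M) (hD : FiniteDimensional ℝ D) :
    Module.finrank ℝ (D ⊓ LinearMap.ker f : Submodule ℝ M) + Module.finrank ℝ (D.map f) =
      Module.finrank ℝ D := by
  have h1 := LinearMap.finrank_range_add_finrank_ker (f.domRestrict D)
  have h2 : LinearMap.range (f.domRestrict D) = D.map f := by
    ext y
    simp only [LinearMap.mem_range, Submodule.mem_map, LinearMap.domRestrict_apply, Subtype.exists,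
      exists_prop]
  have h3 : Module.finrank ℝ (LinearMap.ker (f.domRestrict D)) =
      Module.finrank ℝ (D ⊓ LinearMap.ker f : Submodule ℝ M) := by
    have h4 : (LinearMap.ker (f.domRestrict D)).map D.subtype = (D ⊓ LinearMap.ker f : Submodule ℝ M) := by
      ext x
      simp only [Submodule.mem_map, LinearMap.mem_ker, LinearMap.domRestrict_apply,
        Submodule.subtype_apply, Subtype.exists, exists_and_right, exists_eq_right, Submodule.mem_inf]
      constructor
      · rintro ⟨h, h'⟩
        exact ⟨h, h'⟩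
      · rintro ⟨h, h'⟩
        exact ⟨h, h'⟩
    rw [← h4]
    exact (LinearEquiv.finrank_eq (Submodule.equivMapOfInjective D.subtype
      (Submodule.injective_subtype D) _))
  rw [h2, h3] at h1
  omega

/-- the local map -/
noncomputable def locMap {V : Type} (Y : Finset V) (v : V) (p : V → Pt) (a : V → ℝ) (r : ℕ) :
    (V → Pol) →ₗ[ℝ] Pol where
  toFun h := ∑ y ∈ Y, a y • (h y * lf (p y - p v) ^ (r + 1))
  map_add' := by
    intro a b
    simp only [Pi.add_apply, add_mul, smul_add, Finset.sum_add_distrib]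
  map_smul' := by
    intro c b
    rw [RingHom.id_apply, Finset.smul_sum]
    refine Finset.sum_congr rfl fun y _ => ?_
    rw [Pi.smul_apply, smul_mul_assoc, smul_comm]

variable {V : Type} [DecidableEq V]

/-- the distinct edges at interior vertices are not parallel -/
def Slopes (T : Finset (Finset V)) (p : V → Pt) : Prop :=
  ∀ v ∈ VI T, ∀ y ∈ nbrs T v, ∀ z ∈ nbrs T v, y ≠ z → det2 (p y - p v) (p z - p v) ≠ 0

/-- local relations -/
theorem syz_dim (Y : Finset V) (v : V) (p : V → Pt) (a : V → ℝ) (ha : ∀ y, a y ≠ 0) (r j : ℕ)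
    (h0 : ∀ y ∈ Y, p y ≠ p v)
    (hp : ∀ y ∈ Y, ∀ z ∈ Y, y ≠ z → det2 (p y - p v) (p z - p v) ≠ 0)
    (L : Submodule ℝ (V → Pol))
    (hL : ∀ h ∈ L, (∀ y ∈ Y, h y ∈ H j) ∧ (∀ y, y ∉ Y → h y = 0) ∧
      ∑ y ∈ Y, a y • (h y * lf (p y - p v) ^ (r + 1)) = 0) :
    Module.finrank ℝ L + min (j + r + 2) (Y.card * (j + 1)) ≤ Y.card * (j + 1) := by
  classical
  have hfd : FiniteDimensional ℝ (H j) := finiteDimensional_H j
  have hfd' : FiniteDimensional ℝ (H (j + r + 1)) := finiteDimensional_H (j + r + 1)
  set P : Submodule ℝ (V → Pol) := upProd Y (fun _ => H j) with hP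
  have hPfd : FiniteDimensional ℝ P := finiteDimensional_upProd Y _ (fun _ _ => hfd)
  have hPr : Module.finrank ℝ P = Y.card * (j + 1) := by
    rw [hP, finrank_upProd Y _ (fun _ _ => hfd)]
    simp only [finrank_H, Finset.sum_const, smul_eq_mul]
  have hrn := up_rank_null (locMap Y v p a r) P hPfd
  have hLle : L ≤ P ⊓ LinearMap.ker (locMap Y v p a r) := by
    intro h hh
    obtain ⟨h1, h2, h3⟩ := hL h hh
    exact ⟨⟨h1, h2⟩, h3⟩
  have : FiniteDimensional ℝ (P ⊓ LinearMap.ker (locMap Y v p a r) : Submodule ℝ (V → Pol)) :=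
    Submodule.finiteDimensional_of_le inf_le_left
  have hLr := Submodule.finrank_mono hLle
  have hd0 : ∀ i : Y, p i - p v ≠ 0 := fun i => sub_ne_zero.mpr (h0 i i.2)
  have hd : ∀ i k : Y, i ≠ k → det2 (p i - p v) (p k - p v) ≠ 0 := fun i k hik =>
    hp i i.2 k k.2 (fun h => hik (Subtype.ext h))
  have hsum : ∑ _i : Y, (j + r + 1 + 1 - (r + 1)) = Y.card * (j + 1) := by
    rw [Finset.sum_const, Finset.card_univ, Fintype.card_coe, smul_eq_mul]
    congr 1
    omega
  have hdeg : j + r + 1 - (r + 1) = j := by omega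
  rcases le_total (Y.card * (j + 1)) (j + r + 2) with hc | hc
  · -- injective case
    have hker : P ⊓ LinearMap.ker (locMap Y v p a r) = ⊥ := by
      rw [eq_bot_iff]
      rintro h ⟨⟨h1, h2⟩, h3⟩
      rw [Submodule.mem_bot]
      have h3' : ∑ y ∈ Y, a y • (h y * lf (p y - p v) ^ (r + 1)) = 0 := h3
      have key := pow_inj (ι := Y) (fun i => p i - p v) hd0 hd (j + r + 1) (fun _ => r + 1)
        (by rw [hsum]; omega) (fun i => a i • h i)
        (by
          intro i
          rw [hdeg]
          exact Submodule.smul_mem _ _ (h1 i i.2))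
        (by intro i hi; omega)
        (by
          rw [← Finset.sum_coe_sort] at h3'
          rw [← h3']
          refine Finset.sum_congr rfl fun i _ => ?_
          rw [mul_smul_comm, mul_comm])
      funext y
      by_cases hy : y ∈ Y
      · have := key ⟨y, hy⟩
        simp only [smul_eq_zero, ha y, false_or] at this
        exact this
      · exact h2 y hy
    rw [hker] at hLr
    rw [finrank_bot] at hLr
    rw [min_eq_right hc]
    omega
  · -- surjective case
    have himg : H (j + r + 1) ≤ P.map (locMap Y v p a r) := by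
      intro g hg
      obtain ⟨A, hA1, _, hA3⟩ := pow_surj (ι := Y) (fun i => p i - p v) hd0 hd (j + r + 1)
        (fun _ => r + 1) (by rw [hsum]; omega) g hg
      refine Submodule.mem_map.mpr ⟨fun y => if hy : y ∈ Y then (a y)⁻¹ • A ⟨y, hy⟩ else 0, ?_, ?_⟩
      · refine ⟨fun y hy => ?_, fun y hy => ?_⟩
        · simp only [dif_pos hy]
          have := hA1 ⟨y, hy⟩
          rw [hdeg] at this
          exact Submodule.smul_mem _ _ this
        · simp only [dif_neg hy]
      · change ∑ y ∈ Y, a y • ((if hy : y ∈ Y then (a y)⁻¹ • A ⟨y, hy⟩ else 0) *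
          lf (p y - p v) ^ (r + 1)) = g
        rw [hA3, ← Finset.sum_coe_sort]
        refine Finset.sum_congr rfl fun i _ => ?_
        simp only [i.2, dif_pos]
        rw [smul_mul_assoc, smul_smul, mul_inv_cancel₀ (ha i), one_smul, mul_comm]
    have : FiniteDimensional ℝ (P.map (locMap Y v p a r)) := inferInstance
    have h5 := Submodule.finrank_mono himg
    rw [finrank_H] at h5
    rw [min_eq_left hc]
    omega

/-! ### the upper bound -/

theorem up_hc_mul {k : ℕ} {b : Pol} (hb : b ∈ H k) (j : ℕ) (a : Pol) :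
    homogeneousComponent (j + k) (a * b) = homogeneousComponent j a * b := by
  conv_lhs => rw [← sum_homogeneousComponent a, Finset.sum_mul, map_sum]
  have h1 : ∀ i ∈ Finset.range (a.totalDegree + 1),
      homogeneousComponent (j + k) (homogeneousComponent i a * b) =
        if i = j then homogeneousComponent j a * b else 0 := by
    intro i _
    have h2 : homogeneousComponent i a * b ∈ H (i + k) :=
      mul_mem_H (homogeneousComponent_mem i a) hb
    rw [homogeneousComponent_of_mem h2]
    by_cases hij : i = j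
    · subst hij
      rw [if_pos rfl, if_pos rfl]
    · rw [if_neg (fun h => hij (by omega)), if_neg hij]
  rw [Finset.sum_congr rfl h1, Finset.sum_ite_eq']
  split_ifs with hj
  · rfl
  · rw [homogeneousComponent_eq_zero, zero_mul]
    rw [Finset.mem_range] at hj
    omega

theorem ne_of_slopes {T : Finset (Finset V)} (h : Surf T) {p : V → Pt} (hsl : Slopes T p) {v y : V}
    (hv : v ∈ VI T) (hy : y ∈ nbrs T v) : p y ≠ p v := by
  have h3 := nbrs_card h v hv
  have h4 : ∃ z ∈ nbrs T v, z ≠ y := by
    by_contra hcon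
    push Not at hcon
    have h5 : nbrs T v ⊆ {y} := fun z hz => Finset.mem_singleton.mpr (hcon z hz)
    have h6 := Finset.card_le_card h5
    rw [Finset.card_singleton] at h6
    omega
  obtain ⟨z, hz, hzy⟩ := h4
  intro heq
  apply hsl v hv y hy z hz (Ne.symm hzy)
  rw [heq, sub_self]
  simp [det2]

/-- the conditions at an edge -/
noncomputable def condE (n s : ℕ) (T : Finset (Finset V)) (p : V → Pt) (e : Finset V) : Submodule ℝ Pol :=
  Deg n ⊓ ⨅ v ∈ e ∩ VI T, Ord (p v) s

theorem mem_condE {n s : ℕ} {T : Finset (Finset V)} {p : V → Pt} {e : Finset V} {q : Pol} :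
    q ∈ condE n s T p e ↔ q ∈ Deg n ∧ ∀ v ∈ e, v ∈ VI T → q ∈ Ord (p v) s := by
  unfold condE
  rw [Submodule.mem_inf]
  simp only [Submodule.mem_iInf, Finset.mem_inter]
  constructor
  · rintro ⟨h1, h2⟩
    exact ⟨h1, fun v hv hv' => h2 v ⟨hv, hv'⟩⟩
  · rintro ⟨h1, h2⟩
    exact ⟨h1, fun v hv => h2 v hv.1 hv.2⟩

theorem finrank_condE {n s : ℕ} (hsn : 2 * s ≤ n + 1) {T : Finset (Finset V)} (h : Surf T) {p : V → Pt}
    (hsl : Slopes T p) {e : Finset V} (he : e ∈ EI T) :
    Module.finrank ℝ (condE n s T p e) + (e ∩ VI T).card * (∑ j ∈ Finset.range s, (j + 1)) =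
      (n + 2).choose 2 := by
  obtain ⟨x, y, hxy, hc, rfl⟩ := (mem_EI e).mp he
  have hE : Edge T x y := (edge_iff x y).mpr ⟨hxy, by omega⟩
  by_cases hx : x ∈ VI T
  · have hne : p y ≠ p x := ne_of_slopes h hsl hx ((mem_nbrs x y).mpr hE)
    by_cases hy : y ∈ VI T
    · have h1 : ({x, y} : Finset V) ∩ VI T = {x, y} := by
        apply Finset.inter_eq_left.mpr
        intro z hz
        rcases Finset.mem_insert.mp hz with rfl | hz
        · exact hx
        · rw [Finset.mem_singleton.mp hz]
          exact hy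
      have h2 : condE n s T p {x, y} = (Deg n ⊓ Ord (p x) s ⊓ Ord (p y) s : Submodule ℝ Pol) := by
        ext q
        rw [mem_condE, Submodule.mem_inf, Submodule.mem_inf]
        constructor
        · rintro ⟨h1, h2⟩
          exact ⟨⟨h1, h2 x (by simp) hx⟩, h2 y (by simp) hy⟩
        · rintro ⟨⟨h1, h2⟩, h3⟩
          refine ⟨h1, fun v hv _ => ?_⟩
          rcases Finset.mem_insert.mp hv with rfl | hv
          · exact h2
          · rw [Finset.mem_singleton.mp hv]
            exact h3
      rw [h1, h2, Finset.card_pair hxy]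
      have h3 := finrank_two n s s (p x) (p y) (Ne.symm hne) (by omega)
      omega
    · have h1 : ({x, y} : Finset V) ∩ VI T = {x} := by
        ext z
        simp only [Finset.mem_inter, Finset.mem_insert, Finset.mem_singleton]
        constructor
        · rintro ⟨rfl | rfl, hz⟩
          · rfl
          · exact absurd hz hy
        · rintro rfl
          exact ⟨Or.inl rfl, hx⟩
      have h2 : condE n s T p {x, y} = (Deg n ⊓ Ord (p x) s ⊓ Ord (p y) 0 : Submodule ℝ Pol) := by
        ext q
        rw [mem_condE, Submodule.mem_inf, Submodule.mem_inf, Ord_zero]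
        constructor
        · rintro ⟨h1, h2⟩
          exact ⟨⟨h1, h2 x (by simp) hx⟩, trivial⟩
        · rintro ⟨⟨h1, h2⟩, h3⟩
          refine ⟨h1, fun v hv hv' => ?_⟩
          rcases Finset.mem_insert.mp hv with rfl | hv
          · exact h2
          · rw [Finset.mem_singleton.mp hv] at hv'
            exact absurd hv' hy
      rw [h1, h2, Finset.card_singleton]
      have h3 := finrank_two n s 0 (p x) (p y) (Ne.symm hne) (by omega)
      simp only [Finset.range_zero, Finset.sum_empty] at h3
      omega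
  · by_cases hy : y ∈ VI T
    · have hne : p x ≠ p y := ne_of_slopes h hsl hy ((mem_nbrs y x).mpr hE.symm)
      have h1 : ({x, y} : Finset V) ∩ VI T = {y} := by
        ext z
        simp only [Finset.mem_inter, Finset.mem_insert, Finset.mem_singleton]
        constructor
        · rintro ⟨rfl | rfl, hz⟩
          · exact absurd hz hx
          · rfl
        · rintro rfl
          exact ⟨Or.inr rfl, hy⟩
      have h2 : condE n s T p {x, y} = (Deg n ⊓ Ord (p y) s ⊓ Ord (p x) 0 : Submodule ℝ Pol) := by
        ext q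
        rw [mem_condE, Submodule.mem_inf, Submodule.mem_inf, Ord_zero]
        constructor
        · rintro ⟨h1, h2⟩
          exact ⟨⟨h1, h2 y (by simp) hy⟩, trivial⟩
        · rintro ⟨⟨h1, h2⟩, h3⟩
          refine ⟨h1, fun v hv hv' => ?_⟩
          rcases Finset.mem_insert.mp hv with rfl | hv
          · exact absurd hv' hx
          · rw [Finset.mem_singleton.mp hv]
            exact h2
      rw [h1, h2, Finset.card_singleton]
      have h3 := finrank_two n s 0 (p y) (p x) (Ne.symm hne) (by omega)
      simp only [Finset.range_zero, Finset.sum_empty] at h3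
      omega
    · have h1 : ({x, y} : Finset V) ∩ VI T = ∅ := by
        ext z
        simp only [Finset.mem_inter, Finset.mem_insert, Finset.mem_singleton, Finset.notMem_empty, iff_false]
        rintro ⟨rfl | rfl, hz⟩
        · exact hx hz
        · exact hy hz
      have h2 : condE n s T p {x, y} = Deg n := by
        ext q
        rw [mem_condE]
        constructor
        · rintro ⟨h1, h2⟩
          exact h1
        · intro h1
          refine ⟨h1, fun v hv hv' => ?_⟩
          rcases Finset.mem_insert.mp hv with rfl | hv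
          · exact absurd hv' hx
          · rw [Finset.mem_singleton.mp hv] at hv'
            exact absurd hv' hy
      rw [h1, h2, finrank_Deg]
      simp

/-- the interior edges at an interior vertex -/
theorem card_EI_at {T : Finset (Finset V)} {v : V} (hv : v ∈ VI T) :
    ((EI T).filter fun e => v ∈ e).card = (nbrs T v).card := by
  symm
  apply Finset.card_bij (fun y _ => ({v, y} : Finset V))
  · intro y hy
    rw [Finset.mem_filter]
    have hE := (mem_nbrs v y).mp hy
    exact ⟨(mem_EI _).mpr ⟨v, y, hE.1, ((mem_VI v).mp hv).2 y hE, rfl⟩, by simp⟩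
  · intro y hy z hz heq
    have hE := (mem_nbrs v y).mp hy
    have h1 : y ∈ ({v, z} : Finset V) := by
      have : y ∈ ({v, y} : Finset V) := by simp
      have heq' : ({v, y} : Finset V) = {v, z} := heq
      rwa [heq'] at this
    rcases Finset.mem_insert.mp h1 with h1 | h1
    · exact absurd h1.symm hE.1
    · exact Finset.mem_singleton.mp h1
  · intro e he
    rw [Finset.mem_filter] at he
    obtain ⟨x, y, hxy, hc, rfl⟩ := (mem_EI e).mp he.1
    rcases Finset.mem_insert.mp he.2 with h1 | h1
    · subst h1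
      exact ⟨y, (mem_nbrs _ _).mpr ((edge_iff _ _).mpr ⟨hxy, by omega⟩), rfl⟩
    · have h2 := Finset.mem_singleton.mp h1
      subst h2
      refine ⟨x, (mem_nbrs _ _).mpr ((edge_iff _ _).mpr ⟨Ne.symm hxy, ?_⟩), Finset.pair_comm _ _⟩
      rw [ecount_comm]
      omega

theorem sum_card_inter (T : Finset (Finset V)) :
    ∑ e ∈ EI T, (e ∩ VI T).card = ∑ v ∈ VI T, (nbrs T v).card := by
  have h1 : ∀ e ∈ EI T, (e ∩ VI T).card = ∑ v ∈ VI T, if v ∈ e then 1 else 0 := by
    intro e _
    rw [← Finset.card_filter, Finset.inter_comm, ← Finset.filter_mem_eq_inter]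
  rw [Finset.sum_congr rfl h1, Finset.sum_comm]
  refine Finset.sum_congr rfl fun v hv => ?_
  rw [← Finset.card_filter, card_EI_at hv]

/-- the low order coefficients at the interior vertices -/
noncomputable def lowMap (s : ℕ) (T : Finset (Finset V)) (p : V → Pt) :
    (Finset V → Pol) →ₗ[ℝ] (V × ℕ → (V → Pol)) where
  toFun q vj y := if vj.1 ∈ VI T ∧ vj.2 < s ∧ y ∈ nbrs T vj.1 then
    homogeneousComponent vj.2 (tr (-p vj.1) (q {vj.1, y})) else 0
  map_add' := by
    intro a b
    funext vj y
    simp only [Pi.add_apply]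
    split_ifs with h
    · rw [map_add, map_add]
    · rw [add_zero]
  map_smul' := by
    intro c a
    funext vj y
    simp only [Pi.smul_apply, RingHom.id_apply]
    split_ifs with h
    · rw [map_smul, map_smul]
    · rw [smul_zero]

/-- the local syzygies -/
noncomputable def SyzL (r : ℕ) (α : V → V → ℝ) (T : Finset (Finset V)) (p : V → Pt) (vj : V × ℕ) :
    Submodule ℝ (V → Pol) :=
  upProd (nbrs T vj.1) (fun _ => H vj.2) ⊓ LinearMap.ker (locMap (nbrs T vj.1) vj.1 p (α vj.1) r)

theorem finiteDimensional_SyzL (r : ℕ) (α : V → V → ℝ) (T : Finset (Finset V)) (p : V → Pt)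
    (vj : V × ℕ) : FiniteDimensional ℝ (SyzL r α T p vj) := by
  have : FiniteDimensional ℝ (upProd (nbrs T vj.1) (fun _ => H vj.2)) :=
    finiteDimensional_upProd _ _ (fun _ _ => finiteDimensional_H _)
  exact Submodule.finiteDimensional_of_le inf_le_left

theorem low_mem_Syz {r n s : ℕ} {α : V → V → ℝ} {T : Finset (Finset V)} {p : V → Pt}
    {q : Finset V → Pol} (hq : q ∈ KK r n α T p) :
    lowMap s T p q ∈ upProd (VI T ×ˢ Finset.range s) (SyzL r α T p) := by
  refine ⟨?_, ?_⟩
  · rintro ⟨v, j⟩ hvj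
    rw [Finset.mem_product, Finset.mem_range] at hvj
    obtain ⟨hv, hj⟩ := hvj
    simp only at hv hj
    have hval : ∀ y ∈ nbrs T v, lowMap s T p q (v, j) y =
        homogeneousComponent j (tr (-p v) (q {v, y})) := by
      intro y hy
      exact if_pos ⟨hv, hj, hy⟩
    refine ⟨⟨?_, ?_⟩, ?_⟩
    · intro y hy
      rw [hval y hy]
      exact homogeneousComponent_mem j _
    · intro y hy
      exact if_neg (fun hh => hy hh.2.2)
    · change ∑ y ∈ nbrs T v, α v y • (lowMap s T p q (v, j) y * lf (p y - p v) ^ (r + 1)) = 0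
      have h1 := hq.2.2 v hv
      have h2 := congrArg (fun z => homogeneousComponent (j + (r + 1)) (tr (-p v) z)) h1
      simp only [map_zero, map_sum, map_smul, map_mul, map_pow] at h2
      rw [← h2]
      refine Finset.sum_congr rfl fun y hy => ?_
      rw [hval y hy, ell_eq_left, tr_neg_tr]
      have h3 : lf (p y - p v) ^ (r + 1) ∈ H (r + 1) := by
        have := pow_mem_H (lf_H (p y - p v)) (r + 1)
        rwa [mul_one] at this
      rw [up_hc_mul h3]
  · rintro ⟨v, j⟩ hvj
    rw [Finset.mem_product, Finset.mem_range] at hvj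
    simp only at hvj
    funext y
    exact if_neg (fun hh => hvj ⟨hh.1, hh.2.1⟩)

theorem KK_upper (r n s : ℕ) (hrs : r ≤ 2 * s + 1) (hsn : 2 * s ≤ n + 1) (α : V → V → ℝ)
    (hα : ∀ x y, α x y ≠ 0) (T : Finset (Finset V)) (h : Surf T) (p : V → Pt) (hsl : Slopes T p)
    (hW : (VI T).card * dM r n s ≤ Module.finrank ℝ (W r n s α (cfgT T) p)) :
    Module.finrank ℝ (KK r n α T p) +
      ∑ v ∈ VI T, ∑ j ∈ Finset.range (n + 1), min (j + r + 2) ((nbrs T v).card * (j + 1)) ≤
        (n + 2).choose 2 * (EI T).card := by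
  classical
  have hDegfd := finiteDimensional_Deg n
  have hfdc : ∀ e ∈ EI T, FiniteDimensional ℝ (condE n s T p e) := fun e _ =>
    Submodule.finiteDimensional_of_le (S₂ := Deg n) inf_le_left
  set Ds : Submodule ℝ (Finset V → Pol) := upProd (EI T) (condE n s T p) with hDs
  have hDsfd : FiniteDimensional ℝ Ds := finiteDimensional_upProd _ _ hfdc
  have hD0 : FiniteDimensional ℝ (D0 n T) := finiteDimensional_D0 n T
  have hKKfd : FiniteDimensional ℝ (KK r n α T p) := by
    rw [KK_eq]
    exact Submodule.finiteDimensional_of_le (S₂ := D0 n T) inf_le_left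
  -- (1)
  have e1 : Module.finrank ℝ Ds + (∑ v ∈ VI T, (nbrs T v).card) * (∑ j ∈ Finset.range s, (j + 1)) =
      (n + 2).choose 2 * (EI T).card := by
    rw [hDs, finrank_upProd _ _ hfdc, ← sum_card_inter, Finset.sum_mul, ← Finset.sum_add_distrib,
      Finset.sum_congr rfl (fun e he => finrank_condE hsn h hsl he), Finset.sum_const, smul_eq_mul,
      mul_comm]
  -- (2)
  have hWle : W r n s α (cfgT T) p ≤ Ds.map (Phi r α T p) := by
    unfold W
    rw [Submodule.span_le]
    rintro w (⟨x, hx, y, hy, hxy, hE, q, hq, rfl⟩ | ⟨x, hx, b, hb, f, ⟨hE, hf⟩, q, hq, rfl⟩)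
    · have hx' : x ∈ VI T := hx
      have hy' : y ∈ VI T := hy
      have hE' : Edge T x y := hE
      obtain ⟨hq1, hq2, hq3⟩ := Gen_spec hq
      rw [SetLike.mem_coe, ← Phi_single_ii r α T p x y hx' hy' hE' q]
      refine Submodule.mem_map_of_mem ⟨fun e he => ?_, fun e he => ?_⟩
      · by_cases h1 : e = {x, y}
        · subst h1
          rw [Pi.single_eq_same, mem_condE]
          refine ⟨hq1, fun v hv _ => ?_⟩
          rcases Finset.mem_insert.mp hv with rfl | hv
          · exact hq2
          · rw [Finset.mem_singleton.mp hv]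
            exact hq3
        · rw [Pi.single_eq_of_ne h1]
          exact Submodule.zero_mem _
      · rw [Pi.single_eq_of_ne]
        rintro rfl
        exact he ((mem_EI _).mpr ⟨x, y, hxy, ((mem_VI x).mp hx').2 y hE', rfl⟩)
    · subst hf
      have hx' : x ∈ VI T := hx
      have hb' : b ∉ VI T := hb
      obtain ⟨hq1, hq2, hq3⟩ := Gen_spec hq
      have h1 : Phi r α T p (Pi.single {x, b} ((α x b)⁻¹ • q)) = gvec r p x b q := by
        rw [Phi_single_gr r α T p x b hx' hb' hE]
        unfold gvec
        rw [← Pi.single_smul, smul_mul_assoc, smul_smul, mul_inv_cancel₀ (hα x b), one_smul]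
      rw [SetLike.mem_coe, ← h1]
      refine Submodule.mem_map_of_mem ⟨fun e he => ?_, fun e he => ?_⟩
      · by_cases h1 : e = {x, b}
        · subst h1
          rw [Pi.single_eq_same, mem_condE]
          refine ⟨Submodule.smul_mem _ _ hq1, fun v hv hv' => ?_⟩
          rcases Finset.mem_insert.mp hv with rfl | hv
          · exact Submodule.smul_mem _ _ hq2
          · rw [Finset.mem_singleton.mp hv] at hv'
            exact absurd hv' hb'
        · rw [Pi.single_eq_of_ne h1]
          exact Submodule.zero_mem _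
      · rw [Pi.single_eq_of_ne]
        rintro rfl
        exact he ((mem_EI _).mpr ⟨x, b, hE.1, ((mem_VI x).mp hx').2 b hE, rfl⟩)
  have hmapfd : FiniteDimensional ℝ (Ds.map (Phi r α T p)) := inferInstance
  have e2 : Module.finrank ℝ (Ds ⊓ LinearMap.ker (Phi r α T p) : Submodule ℝ (Finset V → Pol)) +
      (VI T).card * dM r n s ≤ Module.finrank ℝ Ds := by
    have h1 := up_rank_null (Phi r α T p) Ds hDsfd
    have h2 := Submodule.finrank_mono hWle
    omega
  -- (3)
  have e3 : Module.finrank ℝ (KK r n α T p) + ∑ v ∈ VI T, ∑ j ∈ Finset.range s,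
      min (j + r + 2) ((nbrs T v).card * (j + 1)) ≤
      Module.finrank ℝ (Ds ⊓ LinearMap.ker (Phi r α T p) : Submodule ℝ (Finset V → Pol)) +
        ∑ v ∈ VI T, ∑ j ∈ Finset.range s, (nbrs T v).card * (j + 1) := by
    have h1 := up_rank_null (lowMap s T p) (KK r n α T p) hKKfd
    have h2 : KK r n α T p ⊓ LinearMap.ker (lowMap s T p) ≤ Ds ⊓ LinearMap.ker (Phi r α T p) := by
      rintro q ⟨hq, hq0⟩
      have hq1 : q ∈ KK r n α T p := hq
      rw [KK_eq] at hq1
      refine ⟨⟨fun e he => ?_, fun e he => hq.2.1 e he⟩, hq1.2⟩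
      rw [mem_condE]
      refine ⟨hq.1 e he, fun v hv hv' => ?_⟩
      obtain ⟨x, y, hxy, hc, rfl⟩ := (mem_EI e).mp he
      have hq0' : lowMap s T p q = 0 := hq0
      have h3 : ∀ w, w ∈ nbrs T v → q {v, w} ∈ Ord (p v) s := by
        intro w hw j hj
        have h4 := congrFun (congrFun hq0' (v, j)) w
        change (if v ∈ VI T ∧ j < s ∧ w ∈ nbrs T v then
          homogeneousComponent j (tr (-p v) (q {v, w})) else 0) = 0 at h4
        rwa [if_pos ⟨hv', hj, hw⟩] at h4
      rcases Finset.mem_insert.mp hv with h5 | h5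
      · subst h5
        exact h3 y ((mem_nbrs _ _).mpr ((edge_iff _ _).mpr ⟨hxy, by omega⟩))
      · have h6 := Finset.mem_singleton.mp h5
        subst h6
        have h7 := h3 x ((mem_nbrs _ _).mpr ((edge_iff _ _).mpr ⟨Ne.symm hxy, by
          rw [ecount_comm]
          omega⟩))
        rwa [Finset.pair_comm] at h7
    have hfd1 : FiniteDimensional ℝ (Ds ⊓ LinearMap.ker (Phi r α T p) : Submodule ℝ (Finset V → Pol)) :=
      Submodule.finiteDimensional_of_le inf_le_left
    have h3 := Submodule.finrank_mono h2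
    have h4 : (KK r n α T p).map (lowMap s T p) ≤ upProd (VI T ×ˢ Finset.range s) (SyzL r α T p) := by
      rw [Submodule.map_le_iff_le_comap]
      intro q hq
      exact low_mem_Syz hq
    have hfd2 : FiniteDimensional ℝ (upProd (VI T ×ˢ Finset.range s) (SyzL r α T p)) :=
      finiteDimensional_upProd _ _ (fun vj _ => finiteDimensional_SyzL r α T p vj)
    have h5 := Submodule.finrank_mono h4
    rw [finrank_upProd _ _ (fun vj _ => finiteDimensional_SyzL r α T p vj), Finset.sum_product] at h5
    have h6 : ∀ v ∈ VI T, ∀ j ∈ Finset.range s, Module.finrank ℝ (SyzL r α T p (v, j)) +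
        min (j + r + 2) ((nbrs T v).card * (j + 1)) ≤ (nbrs T v).card * (j + 1) := by
      intro v hv j _
      apply syz_dim (nbrs T v) v p (α v) (hα v) r j (fun y hy => ne_of_slopes h hsl hv hy)
        (fun y hy z hz hyz => hsl v hv y hy z hz hyz)
      rintro g ⟨⟨h1, h2⟩, h3⟩
      exact ⟨h1, h2, h3⟩
    have h7 : ∑ v ∈ VI T, ∑ j ∈ Finset.range s, Module.finrank ℝ (SyzL r α T p (v, j)) +
        ∑ v ∈ VI T, ∑ j ∈ Finset.range s, min (j + r + 2) ((nbrs T v).card * (j + 1)) ≤
        ∑ v ∈ VI T, ∑ j ∈ Finset.range s, (nbrs T v).card * (j + 1) := by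
      rw [← Finset.sum_add_distrib]
      refine Finset.sum_le_sum fun v hv => ?_
      rw [← Finset.sum_add_distrib]
      exact Finset.sum_le_sum fun j hj => h6 v hv j hj
    omega
  -- (4)
  have e4 : ∑ v ∈ VI T, ∑ j ∈ Finset.range (n + 1), min (j + r + 2) ((nbrs T v).card * (j + 1)) =
      ∑ v ∈ VI T, ∑ j ∈ Finset.range s, min (j + r + 2) ((nbrs T v).card * (j + 1)) +
        (VI T).card * dM r n s := by
    rw [← smul_eq_mul (VI T).card, ← Finset.sum_const, ← Finset.sum_add_distrib]
    refine Finset.sum_congr rfl fun v hv => ?_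
    have h3 := nbrs_card h v hv
    rw [← Finset.sum_range_add_sum_Ico _ (by omega : s ≤ n + 1)]
    congr 1
    unfold dM
    have h5 : Finset.Icc s n = Finset.Ico s (n + 1) := by
      ext z
      simp only [Finset.mem_Icc, Finset.mem_Ico]
      omega
    rw [h5]
    refine Finset.sum_congr rfl fun j hj => ?_
    rw [Finset.mem_Ico] at hj
    apply min_eq_left
    have h4 : 3 * (j + 1) ≤ (nbrs T v).card * (j + 1) := Nat.mul_le_mul_right _ h3
    omega
  have e5 : ∑ v ∈ VI T, ∑ j ∈ Finset.range s, (nbrs T v).card * (j + 1) =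
      (∑ v ∈ VI T, (nbrs T v).card) * (∑ j ∈ Finset.range s, (j + 1)) := by
    rw [Finset.sum_mul]
    refine Finset.sum_congr rfl fun v _ => ?_
    rw [Finset.mul_sum]
  omega

end BSpl
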