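import Pool.Agent.BSpl.Num
import Pool.Agent.BSpl.FullOrd
import Pool.Agent.BSpl.CxLink
import Pool.Agent.BSpl.CxOrder
import Pool.Agent.BSpl.CxEuler
import Pool.Agent.BSpl.SplAlg
import Pool.Agent.BSpl.SplUp
import Pool.Agent.BSpl.GeoSep
import Pool.Agent.BSpl.AnaFin

/-!
# Bivariate splines, module Main: the generic dimension for `2 k ≥ 5 r - 1`

`beta`, `gam`, `sig` are the numbers of the problem. `Form r k T d` says that `d` is given by Schumaker's formula with `e_v` the number of edges at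
the interior vertex `v`.
-/

set_option autoImplicit false

namespace BSpl

open MvPolynomial

variable {V : Type} [DecidableEq V]

/-- `γ = (k + 2 choose 2) - (r + 2 choose 2)` -/
def gam (r k : ℕ) : ℕ := (k + 2).choose 2 - (r + 2).choose 2

/-- `σ_v = ∑_{j = 1}^{k - r} (r + j + 1 - j e_v)_+` -/
def sig (r k e : ℕ) : ℕ := ∑ j ∈ Finset.Icc 1 (k - r), (r + j + 1 - j * e)

/-- Schumaker's formula, with `e_v` the number of edges at `v` -/
def Form (r k : ℕ) (T : Finset (Finset V)) (d : ℕ) : Prop :=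
  d + gam r k * (VI T).card =
    (k + 2).choose 2 + (k - r + 1).choose 2 * (EI T).card + ∑ v ∈ VI T, sig r k (nbrs T v).card

theorem sum_tri (r n : ℕ) :
    ∑ j ∈ Finset.range (n + 1), (j + r + 2) + (r + 2).choose 2 = (n + r + 1 + 2).choose 2 := by
  induction n with
  | zero =>
    rw [Finset.sum_range_one]
    have e : (0 + r + 1 + 2) = (r + 2) + 1 := by ring
    rw [e, Nat.choose_succ_succ' (r + 2) 1, Nat.choose_one_right]
    ring
  | succ n ih =>
    rw [Finset.sum_range_succ]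
    have e : (n + 1 + r + 1 + 2) = (n + r + 1 + 2) + 1 := by ring
    rw [e, Nat.choose_succ_succ' (n + r + 1 + 2) 1, Nat.choose_one_right, ← ih]
    ring

theorem gam_eq (r n : ℕ) : gam r (n + r + 1) = ∑ j ∈ Finset.range (n + 1), (j + r + 2) := by
  unfold gam
  have := sum_tri r n
  omega

theorem sum_min (r n e : ℕ) :
    ∑ j ∈ Finset.range (n + 1), min (j + r + 2) (e * (j + 1)) + sig r (n + r + 1) e =
      gam r (n + r + 1) := by
  rw [gam_eq]
  unfold sig
  have e1 : n + r + 1 - r = n + 1 := by omega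
  rw [e1]
  have e2 : ∑ j ∈ Finset.Icc 1 (n + 1), (r + j + 1 - j * e) =
      ∑ j ∈ Finset.range (n + 1), (r + (j + 1) + 1 - (j + 1) * e) := by
    rw [Finset.range_eq_Ico, Finset.sum_Ico_add' (fun j => r + j + 1 - j * e) 0 (n + 1) 1]
    rfl
  rw [e2, ← Finset.sum_add_distrib]
  refine Finset.sum_congr rfl fun j _ => ?_
  have e3 : e * (j + 1) = (j + 1) * e := Nat.mul_comm _ _
  rw [e3]
  omega

theorem disc_nonempty {T : Finset (Finset V)} (h : Disc T) : T.Nonempty := by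
  obtain ⟨x, y, _, hb⟩ := h.bdry
  unfold ecount at hb
  have : 0 < (T.filter fun t => x ∈ t ∧ y ∈ t).card := by omega
  obtain ⟨t, ht⟩ := Finset.card_pos.mp this
  exact ⟨t, (Finset.mem_filter.mp ht).1⟩

theorem edge_of_tri {T : Finset (Finset V)} {x y z : V} (h : ({x, y, z} : Finset V) ∈ T)
    (hxy : x ≠ y) : Edge T x y :=
  ⟨hxy, _, h, by simp, by simp⟩

theorem ordData (T : Finset (Finset V)) (h : Disc T) :
    ∃ ord : V → ℕ, OrdData (VI T) (Edge T) ord := by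
  have h1 := H1_of_disc T h
  obtain ⟨x, y, hxy, hb⟩ := h.bdry
  obtain ⟨ord, hinj, hbase, h2, h3⟩ := order_exists T h.surf h1 x y hxy hb
  obtain ⟨-, -, hx, hy⟩ := not_VI_of_ecount hxy hb
  have hVv : ∀ v, v ∈ VI T → v ∈ verts T := fun v hv => ((mem_VI v).mp hv).1
  have hEv : ∀ u v, Edge T u v → v ∈ verts T := by
    rintro u v ⟨_, t, ht, _, hv⟩
    exact (mem_verts v).mpr ⟨t, ht, hv⟩
  refine ⟨ord, ?_, ?_, ?_, ?_, ?_⟩
  · intro u hu
    exact hu.1 rfl
  · intro u v huv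
    exact huv.symm
  · intro u hu v hv huv
    exact hinj u (hVv u hu) v (hVv v hv) huv
  · intro u hu v huv he
    exact huv.1 (hinj u (hVv u hu) v (hEv u v huv) he)
  · intro v hv
    have hvx : v ≠ x := fun e => hx (e ▸ hv)
    have hvy : v ≠ y := fun e => hy (e ▸ hv)
    have hne : ∀ y, Edge T v y → ord y ≠ ord v := by
      intro y hy he
      exact hy.1 (hinj v (hVv v hv) y (hEv v y hy) he.symm)
    obtain ⟨a, b, t₁, t₂, hab, ha, hb', ht1, ht2, hT1, hT2⟩ :=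
      link_data h.surf v hv ord hne (h2 v (hVv v hv) hvx hvy) (h3 v hv)
    have nva : v ≠ a := fun e => by rw [e] at ha; exact lt_irrefl _ ha
    have nvb : v ≠ b := fun e => by rw [e] at hb'; exact lt_irrefl _ hb'
    have nvt1 : v ≠ t₁ := fun e => by rw [e] at ht1; exact lt_irrefl _ ht1
    have nvt2 : v ≠ t₂ := fun e => by rw [e] at ht2; exact lt_irrefl _ ht2
    have nat1 : a ≠ t₁ := fun e => by rw [e] at ha; exact lt_irrefl _ (ha.trans ht1)
    have nbt2 : b ≠ t₂ := fun e => by rw [e] at hb'; exact lt_irrefl _ (hb'.trans ht2)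
    refine ⟨a, b, t₁, t₂, hab, ⟨nva, _, hT1, ?_, ?_⟩, ⟨nvb, _, hT2, ?_, ?_⟩,
      ⟨nvt1, _, hT1, ?_, ?_⟩, ⟨nvt2, _, hT2, ?_, ?_⟩, ⟨nat1, _, hT1, ?_, ?_⟩,
      ⟨nbt2, _, hT2, ?_, ?_⟩, ha, hb', ht1, ht2⟩ <;> simp

theorem lower_bound (r k : ℕ) (hk : r < k) (T : Finset (Finset V)) (h : Disc T) (p : V → Pt)
    (hp : IsTri T p) :
    (k + 2).choose 2 + (k - r + 1).choose 2 * (EI T).card + ∑ v ∈ VI T, sig r k (nbrs T v).card ≤
      Module.finrank ℝ (Spl r k T p) + gam r k * (VI T).card := by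
  obtain ⟨n, rfl⟩ : ∃ n, k = n + r + 1 := ⟨k - r - 1, by omega⟩
  obtain ⟨α, hα, hdim⟩ := exists_alpha r T h.surf (H1_of_disc T h) (disc_nonempty h)
  rw [finrank_Spl r _ T h.surf p hp, hdim n p (fun x y hxy => hp.ne hxy)]
  have hl := KK_lower r n α T p
  have hs : ∑ v ∈ VI T, ∑ j ∈ Finset.range (n + 1), min (j + r + 2) ((nbrs T v).card * (j + 1)) +
      ∑ v ∈ VI T, sig r (n + r + 1) (nbrs T v).card = gam r (n + r + 1) * (VI T).card := by
    rw [← Finset.sum_add_distrib, Finset.sum_congr rfl fun v _ => sum_min r n (nbrs T v).card,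
      Finset.sum_const, smul_eq_mul, Nat.mul_comm]
  have e1 : n + r + 1 - r + 1 = n + 2 := by omega
  have e2 : n + r + 1 + 2 = n + r + 3 := by omega
  rw [e1, e2]
  omega

/-- points on a parabola: no three of them are on a line -/
theorem exists_parabola (S : Finset V) :
    ∃ p : V → Pt, ∀ v ∈ S, ∀ y ∈ S, ∀ z ∈ S, v ≠ y → v ≠ z → y ≠ z →
      det2 (p y - p v) (p z - p v) ≠ 0 := by
  classical
  obtain ⟨ι, hι⟩ : ∃ ι : V → ℝ, ∀ u ∈ S, ∀ v ∈ S, ι u = ι v → u = v := by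
    refine ⟨fun v => if h : v ∈ S then ((S.equivFin ⟨v, h⟩ : Fin S.card) : ℕ) else 0, ?_⟩
    intro u hu v hv huv
    simp only [hu, hv, dif_pos] at huv
    have h1 : ((S.equivFin ⟨u, hu⟩ : Fin S.card) : ℕ) = ((S.equivFin ⟨v, hv⟩ : Fin S.card) : ℕ) := by
      exact_mod_cast huv
    have h2 := S.equivFin.injective (Fin.ext h1)
    exact congrArg Subtype.val h2
  refine ⟨fun v => ![ι v, ι v ^ 2], ?_⟩
  intro v hv y hy z hz hvy hvz hyz
  have h1 : ι y - ι v ≠ 0 := sub_ne_zero.mpr fun e => hvy (hι v hv y hy e.symm)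
  have h2 : ι z - ι v ≠ 0 := sub_ne_zero.mpr fun e => hvz (hι v hv z hz e.symm)
  have h3 : ι z - ι y ≠ 0 := sub_ne_zero.mpr fun e => hyz (hι y hy z hz e.symm)
  have h4 : det2 ((![ι y, ι y ^ 2] : Pt) - ![ι v, ι v ^ 2]) (![ι z, ι z ^ 2] - ![ι v, ι v ^ 2]) =
      (ι y - ι v) * (ι z - ι v) * (ι z - ι y) := by
    unfold det2
    simp
    ring
  change det2 ((![ι y, ι y ^ 2] : Pt) - ![ι v, ι v ^ 2]) (![ι z, ι z ^ 2] - ![ι v, ι v ^ 2]) ≠ 0
  rw [h4]
  exact mul_ne_zero (mul_ne_zero h1 h2) h3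

/-- the bad parameters for the slopes on a line are finitely many -/
theorem slopes_line (T : Finset (Finset V)) (p₀ p₁ : V → Pt) (h : Slopes T p₁) :
    {t : ℝ | ¬ Slopes T (p₀ + t • (p₁ - p₀))}.Finite := by
  classical
  have hfin : (⋃ v ∈ VI T, ⋃ y ∈ nbrs T v, ⋃ z ∈ nbrs T v, {t : ℝ | y ≠ z ∧
      det2 ((p₀ + t • (p₁ - p₀)) y - (p₀ + t • (p₁ - p₀)) v)
      ((p₀ + t • (p₁ - p₀)) z - (p₀ + t • (p₁ - p₀)) v) = 0}).Finite := by
    refine Set.Finite.biUnion (Finset.finite_toSet _) fun v hv => ?_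
    refine Set.Finite.biUnion (Finset.finite_toSet _) fun y hy => ?_
    refine Set.Finite.biUnion (Finset.finite_toSet _) fun z hz => ?_
    by_cases hyz : y = z
    · refine Set.Finite.subset Set.finite_empty ?_
      rintro t ⟨ht, _⟩
      exact absurd hyz ht
    · refine Set.Finite.subset (det_line p₀ p₁ v y z (h v hv y hy z hz hyz)) ?_
      rintro t ⟨_, ht⟩
      exact ht
  refine Set.Finite.subset hfin ?_
  intro t ht
  simp only [Set.mem_ofPred_eq, Slopes, not_forall, not_not] at ht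
  obtain ⟨v, hv, y, hy, z, hz, hyz, h0⟩ := ht
  simp only [Set.mem_iUnion]
  exact ⟨v, hv, y, hy, z, hz, hyz, h0⟩

theorem exists_good {r n s F : ℕ} (hA : Adm r n s F) (α : V → V → ℝ) (hα : ∀ x y, α x y ≠ 0)
    (T : Finset (Finset V)) (h : Disc T) :
    ∃ p : V → Pt, (VI T).card * dM r n s ≤ Module.finrank ℝ (W r n s α (cfgT T) p) ∧
      Slopes T p := by
  obtain ⟨ord, hord⟩ := ordData T h
  obtain ⟨p₀, hp₀⟩ : Full r n s α (cfgT T) := full_of_ordData hA α hα (VI T) (Edge T) ord hord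
  obtain ⟨p₁, hp₁⟩ := exists_parabola (verts T)
  have hs : Slopes T p₁ := by
    intro v hv y hy z hz hyz
    have hv' := ((mem_VI v).mp hv).1
    have hy' := (Finset.mem_filter.mp hy).1
    have hz' := (Finset.mem_filter.mp hz).1
    exact hp₁ v hv' y hy' z hz' ((mem_nbrs v y).mp hy).1 ((mem_nbrs v z).mp hz).1 hyz
  have hfin := (conf_line r n s α (cfgT T) p₀ p₁ _ hp₀).union (slopes_line T p₀ p₁ hs)
  obtain ⟨t, ht⟩ := hfin.exists_notMem
  simp only [Set.mem_union, Set.mem_ofPred_eq, not_or, not_not] at ht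
  exact ⟨_, ht.1, ht.2⟩

theorem perturb {r n s F : ℕ} (hA : Adm r n s F) (α : V → V → ℝ) (hα : ∀ x y, α x y ≠ 0)
    (T : Finset (Finset V)) (h : Disc T) (p : V → Pt) (hp : IsTri T p) (ε : ℝ) (hε : 0 < ε) :
    ∃ p' : V → Pt, (∀ v ∈ verts T, ‖p' v - p v‖ < ε) ∧ IsTri T p' ∧
      (VI T).card * dM r n s ≤ Module.finrank ℝ (W r n s α (cfgT T) p') ∧ Slopes T p' := by
  obtain ⟨p₂, h2, hs2⟩ := exists_good hA α hα T h
  obtain ⟨ε₁, hε₁, hopen⟩ := isTri_open h.surf.card3 hp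
  have hfin := (conf_line' r n s α (cfgT T) p p₂ _ h2).union (slopes_line T p p₂ hs2)
  set M : ℝ := ∑ v ∈ verts T, ‖p₂ v - p v‖ + 1 with hM
  have hMpos : 0 < M := by
    have : 0 ≤ ∑ v ∈ verts T, ‖p₂ v - p v‖ := Finset.sum_nonneg fun _ _ => norm_nonneg _
    linarith
  have hδ : 0 < min ε ε₁ / M := div_pos (lt_min hε hε₁) hMpos
  obtain ⟨t, ht1, ht2⟩ := (Set.Ioo_infinite hδ).exists_notMem_finite hfin
  simp only [Set.mem_union, Set.mem_ofPred_eq, not_or, not_not] at ht2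
  have hsmall : ∀ v ∈ verts T, ‖(p + t • (p₂ - p)) v - p v‖ < min ε ε₁ := by
    intro v hv
    have e : (p + t • (p₂ - p)) v - p v = t • (p₂ v - p v) := by
      simp
    rw [e, norm_smul, Real.norm_of_nonneg ht1.1.le]
    have h1 : ‖p₂ v - p v‖ ≤ ∑ v ∈ verts T, ‖p₂ v - p v‖ :=
      Finset.single_le_sum (f := fun v => ‖p₂ v - p v‖) (fun _ _ => norm_nonneg _) hv
    calc t * ‖p₂ v - p v‖ ≤ t * M := by
          refine mul_le_mul_of_nonneg_left ?_ ht1.1.le
          linarith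
      _ < min ε ε₁ / M * M := mul_lt_mul_of_pos_right ht1.2 hMpos
      _ = min ε ε₁ := div_mul_cancel₀ _ hMpos.ne'
  exact ⟨p + t • (p₂ - p), fun v hv => (hsmall v hv).trans_le (min_le_left _ _),
    hopen _ fun v hv => (hsmall v hv).trans_le (min_le_right _ _), ht2.1, ht2.2⟩

/-- the dimension at a position with full rank and distinct slopes -/
theorem dim_of_full {r n s : ℕ} (hrs : r ≤ 2 * s + 1) (hsn : 2 * s ≤ n + 1) (T : Finset (Finset V))
    (h : Disc T) (α : V → V → ℝ) (hα : ∀ x y, α x y ≠ 0)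
    (hdim : ∀ (n : ℕ) (p : V → Pt), (∀ x y, Edge T x y → p x ≠ p y) →
        Module.finrank ℝ (ASpline r (n + r + 1) T p) =
          (n + r + 3).choose 2 + Module.finrank ℝ (KK r n α T p)) (p : V → Pt) (hp : IsTri T p)
    (hW : (VI T).card * dM r n s ≤ Module.finrank ℝ (W r n s α (cfgT T) p)) (hsl : Slopes T p) :
    Form r (n + r + 1) T (Module.finrank ℝ (Spl r (n + r + 1) T p)) := by
  unfold Form
  rw [finrank_Spl r _ T h.surf p hp, hdim n p (fun x y hxy => hp.ne hxy)]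
  have hl := KK_lower r n α T p
  have hu := KK_upper r n s hrs hsn α hα T h.surf p hsl hW
  have hs : ∑ v ∈ VI T, ∑ j ∈ Finset.range (n + 1), min (j + r + 2) ((nbrs T v).card * (j + 1)) +
      ∑ v ∈ VI T, sig r (n + r + 1) (nbrs T v).card = gam r (n + r + 1) * (VI T).card := by
    rw [← Finset.sum_add_distrib, Finset.sum_congr rfl fun v _ => sum_min r n (nbrs T v).card,
      Finset.sum_const, smul_eq_mul, Nat.mul_comm]
  have e1 : n + r + 1 - r + 1 = n + 2 := by omega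
  have e2 : n + r + 1 + 2 = n + r + 3 := by omega
  rw [e1, e2]
  omega

theorem generic_dim (r k : ℕ) (hr : 1 ≤ r) (hk : 5 * r ≤ 2 * k + 1) (T : Finset (Finset V))
    (h : Disc T) (p : V → Pt) (hp : IsTri T p) (ε : ℝ) (hε : 0 < ε) :
    ∃ p' : V → Pt, (∀ v ∈ verts T, ‖p' v - p v‖ < ε) ∧ IsTri T p' ∧
      Form r k T (Module.finrank ℝ (Spl r k T p')) := by
  obtain ⟨n, rfl⟩ : ∃ n, k = n + r + 1 := ⟨k - r - 1, by omega⟩
  have hA := adm_of_le r (n + r + 1) hr hk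
  have e : n + r + 1 - r - 1 = n := by omega
  rw [e] at hA
  obtain ⟨α, hα, hdim⟩ := exists_alpha r T h.surf (H1_of_disc T h) (disc_nonempty h)
  obtain ⟨p', h1, h2, h3, h4⟩ := perturb hA α hα T h p hp ε hε
  have hsn : 2 * (r / 2) ≤ n + 1 := by
    have := hA.Fn
    have := hA.sF
    omega
  exact ⟨p', h1, h2, dim_of_full hA.rs hsn T h α hα hdim p' h2 h3 h4⟩

/-- Schumaker's formula gives a natural number -/
theorem exists_Form (r k : ℕ) (hr : 1 ≤ r) (hk : 5 * r ≤ 2 * k + 1) (T : Finset (Finset V))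
    (h : Disc T) : ∃ d : ℕ, Form r k T d := by
  obtain ⟨n, rfl⟩ : ∃ n, k = n + r + 1 := ⟨k - r - 1, by omega⟩
  have hA := adm_of_le r (n + r + 1) hr hk
  have e : n + r + 1 - r - 1 = n := by omega
  rw [e] at hA
  have hsn : 2 * (r / 2) ≤ n + 1 := by
    have := hA.Fn
    have := hA.sF
    omega
  have hα : ∀ x y : V, (fun _ _ => (1 : ℝ) : V → V → ℝ) x y ≠ 0 := fun _ _ => one_ne_zero
  obtain ⟨p, hW, hsl⟩ := exists_good hA (fun _ _ => (1 : ℝ)) hα T h
  refine ⟨(n + r + 1 + 2).choose 2 + Module.finrank ℝ (KK r n (fun _ _ => (1 : ℝ)) T p), ?_⟩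
  unfold Form
  have hl := KK_lower r n (fun _ _ => (1 : ℝ)) T p
  have hu := KK_upper r n (r / 2) hA.rs hsn (fun _ _ => (1 : ℝ)) hα T h.surf p hsl hW
  have hs : ∑ v ∈ VI T, ∑ j ∈ Finset.range (n + 1), min (j + r + 2) ((nbrs T v).card * (j + 1)) +
      ∑ v ∈ VI T, sig r (n + r + 1) (nbrs T v).card = gam r (n + r + 1) * (VI T).card := by
    rw [← Finset.sum_add_distrib, Finset.sum_congr rfl fun v _ => sum_min r n (nbrs T v).card,
      Finset.sum_const, smul_eq_mul, Nat.mul_comm]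
  have e1 : n + r + 1 - r + 1 = n + 2 := by omega
  rw [e1]
  omega

end BSpl
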