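import Pool.Agent.BSpl.Defs

/-!
# Bivariate splines, module Num: the numerical conditions
-/

set_option autoImplicit false

namespace BSpl

theorem adm_of_le (r k : ℕ) (hr : 1 ≤ r) (hk : 5 * r ≤ 2 * k + 1) :
    Adm r (k - r - 1) (r / 2) ((r + r / 2) / 2) := by
  constructor
  · omega
  · omega
  · omega
  · intro j h1 h2
    have hr4 : ∃ m i, i < 4 ∧ r = 4 * m + i := ⟨r / 4, r % 4, by omega, by omega⟩
    obtain ⟨m, i, hi, rfl⟩ := hr4
    have hn : ∃ n, n = k - (4 * m + i) - 1 := ⟨_, rfl⟩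
    obtain ⟨n, hn⟩ := hn
    rw [← hn] at h2 ⊢
    interval_cases i
    · have e1 : (4 * m + 0) / 2 = 2 * m := by omega
      have e2 : (4 * m + 0 + 2 * m) / 2 = 3 * m := by omega
      rw [e1, e2] at *
      omega
    · have e1 : (4 * m + 1) / 2 = 2 * m := by omega
      have e2 : (4 * m + 1 + 2 * m) / 2 = 3 * m := by omega
      rw [e1, e2] at *
      omega
    · have e1 : (4 * m + 2) / 2 = 2 * m + 1 := by omega
      have e2 : (4 * m + 2 + (2 * m + 1)) / 2 = 3 * m + 1 := by omega
      rw [e1, e2] at *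
      omega
    · have e1 : (4 * m + 3) / 2 = 2 * m + 1 := by omega
      have e2 : (4 * m + 3 + (2 * m + 1)) / 2 = 3 * m + 2 := by omega
      rw [e1, e2] at *
      omega
  · intro j h1 h2
    omega

end BSpl
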