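import Pool.Agent.BSpl.Conf
import Pool.Agent.BSpl.CxStar

/-!
# Bivariate splines, module SplDefs: the algebraic spline space, the cofactor space, the geometric definitions

`ASpline r k T p`: one polynomial `f t` of degree at most `k` for each triangle `t`, such that for adjacent triangles the difference is
divisible by the `(r + 1)`-st power of the affine function of the common edge.

`KK r n α T p`: one polynomial `q e` of degree at most `n` for each interior edge, with one relation for each interior vertex.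

`hull p t` is the closed triangle, `Omega T p` the union of the triangles, `IsTri T p` says that `p` realises `T` as a triangulation
of `Omega T p` with triangles meeting edge to edge, and `Spl r k T p` is the space of the splines: the functions on `Omega T p` which
are `C^r` and which are on each triangle of `T` a polynomial of total degree at most `k`.
-/

set_option autoImplicit false

namespace BSpl

open MvPolynomial

variable {V : Type} [DecidableEq V]

/-- the algebraic spline space -/
noncomputable def ASpline (r k : ℕ) (T : Finset (Finset V)) (p : V → Pt) :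
    Submodule ℝ (Finset V → Pol) where
  carrier := {f | (∀ t ∈ T, f t ∈ Deg k) ∧ (∀ t, t ∉ T → f t = 0) ∧
    ∀ t t', adjT T t t' → ∀ x y, x ≠ y → x ∈ t → y ∈ t → x ∈ t' → y ∈ t' →
      ell (p x) (p y) ^ (r + 1) ∣ f t - f t'}
  zero_mem' := by
    refine ⟨fun t _ => Submodule.zero_mem _, fun t _ => rfl, ?_⟩
    intro t t' _ x y _ _ _ _ _
    simp
  add_mem' := by
    intro a b ha hb
    refine ⟨fun t ht => Submodule.add_mem _ (ha.1 t ht) (hb.1 t ht), fun t ht => ?_, ?_⟩
    · rw [Pi.add_apply, ha.2.1 t ht, hb.2.1 t ht, add_zero]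
    · intro t t' h x y hxy h1 h2 h3 h4
      have e : (a + b) t - (a + b) t' = (a t - a t') + (b t - b t') := by
        simp only [Pi.add_apply]
        ring
      rw [e]
      exact dvd_add (ha.2.2 t t' h x y hxy h1 h2 h3 h4) (hb.2.2 t t' h x y hxy h1 h2 h3 h4)
  smul_mem' := by
    intro c a ha
    refine ⟨fun t ht => Submodule.smul_mem _ _ (ha.1 t ht), fun t ht => ?_, ?_⟩
    · rw [Pi.smul_apply, ha.2.1 t ht, smul_zero]
    · intro t t' h x y hxy h1 h2 h3 h4
      have e : (c • a) t - (c • a) t' = c • (a t - a t') := by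
        simp only [Pi.smul_apply, smul_sub]
      rw [e, MvPolynomial.smul_eq_C_mul]
      exact Dvd.dvd.mul_left (ha.2.2 t t' h x y hxy h1 h2 h3 h4) _

/-- the cofactor space -/
noncomputable def KK (r n : ℕ) (α : V → V → ℝ) (T : Finset (Finset V)) (p : V → Pt) :
    Submodule ℝ (Finset V → Pol) where
  carrier := {q | (∀ e ∈ EI T, q e ∈ Deg n) ∧ (∀ e, e ∉ EI T → q e = 0) ∧
    ∀ v ∈ VI T, ∑ y ∈ nbrs T v, α v y • (q {v, y} * ell (p v) (p y) ^ (r + 1)) = 0}
  zero_mem' := by
    refine ⟨fun t _ => Submodule.zero_mem _, fun t _ => rfl, ?_⟩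
    intro v _
    simp
  add_mem' := by
    intro a b ha hb
    refine ⟨fun t ht => Submodule.add_mem _ (ha.1 t ht) (hb.1 t ht), fun t ht => ?_, ?_⟩
    · rw [Pi.add_apply, ha.2.1 t ht, hb.2.1 t ht, add_zero]
    · intro v hv
      have h1 := ha.2.2 v hv
      have h2 := hb.2.2 v hv
      simp only [Pi.add_apply, add_mul, smul_add, Finset.sum_add_distrib]
      rw [h1, h2, add_zero]
  smul_mem' := by
    intro c a ha
    refine ⟨fun t ht => Submodule.smul_mem _ _ (ha.1 t ht), fun t ht => ?_, ?_⟩
    · rw [Pi.smul_apply, ha.2.1 t ht, smul_zero]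
    · intro v hv
      have h1 := ha.2.2 v hv
      have e : ∀ y ∈ nbrs T v, α v y • ((c • a) {v, y} * ell (p v) (p y) ^ (r + 1)) =
          c • (α v y • (a {v, y} * ell (p v) (p y) ^ (r + 1))) := by
        intro y _
        rw [Pi.smul_apply, smul_mul_assoc, smul_comm]
      rw [Finset.sum_congr rfl e, ← Finset.smul_sum, h1, smul_zero]

/-- the configuration of a triangulation -/
def cfgT (T : Finset (Finset V)) : Cfg V := ⟨VI T, Edge T, fun x b f => Edge T x b ∧ f = 0⟩

/-- the closed triangle -/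
def hull (p : V → Pt) (t : Finset V) : Set Pt := convexHull ℝ (p '' (t : Set V))

/-- the domain -/
def Omega (T : Finset (Finset V)) (p : V → Pt) : Set Pt := ⋃ t ∈ T, hull p t

/-- `p` realises `T` as a triangulation: the triangles are non-degenerate and meet edge to edge -/
structure IsTri (T : Finset (Finset V)) (p : V → Pt) : Prop where
  indep : ∀ t ∈ T, AffineIndependent ℝ (fun x : t => p x)
  inter : ∀ t ∈ T, ∀ t' ∈ T, hull p t ∩ hull p t' = hull p (t ∩ t')

/-- the spline space -/
noncomputable def Spl (r k : ℕ) (T : Finset (Finset V)) (p : V → Pt) :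
    Submodule ℝ (Omega T p → ℝ) where
  carrier := {s | (∃ g : Pt → ℝ, ContDiffOn ℝ r g (Omega T p) ∧ ∀ x : Omega T p, s x = g x) ∧
    ∀ t ∈ T, ∃ q ∈ Deg k, ∀ x : Omega T p, (x : Pt) ∈ hull p t → s x = eval (x : Pt) q}
  zero_mem' := by
    refine ⟨⟨fun _ => 0, contDiffOn_const, fun x => rfl⟩, fun t _ => ⟨0, Submodule.zero_mem _, ?_⟩⟩
    intro x _
    simp
  add_mem' := by
    rintro a b ⟨⟨g, hg, hg'⟩, ha⟩ ⟨⟨g2, hg2, hg2'⟩, hb⟩
    refine ⟨⟨fun x => g x + g2 x, hg.add hg2, fun x => ?_⟩, fun t ht => ?_⟩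
    · rw [Pi.add_apply, hg' x, hg2' x]
    · obtain ⟨q, hq, hq'⟩ := ha t ht
      obtain ⟨q2, hq2, hq2'⟩ := hb t ht
      refine ⟨q + q2, Submodule.add_mem _ hq hq2, fun x hx => ?_⟩
      rw [Pi.add_apply, hq' x hx, hq2' x hx, map_add]
  smul_mem' := by
    rintro c a ⟨⟨g, hg, hg'⟩, ha⟩
    refine ⟨⟨fun x => c * g x, contDiffOn_const.mul hg, fun x => ?_⟩, fun t ht => ?_⟩
    · rw [Pi.smul_apply, hg' x, smul_eq_mul]
    · obtain ⟨q, hq, hq'⟩ := ha t ht
      refine ⟨c • q, Submodule.smul_mem _ _ hq, fun x hx => ?_⟩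
      rw [Pi.smul_apply, hq' x hx, MvPolynomial.smul_eval, smul_eq_mul]

end BSpl
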