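import Pool.Agent.BSpl.SplDefs
import Pool.Agent.BSpl.StepB

/-!
# Bivariate splines, module SplLow: the cofactor map, lower and upper bounds for its kernel

`D0 n T` is the space of all functions `q` with `q e ∈ Deg n` for `e ∈ EI T`, `0` otherwise, and `Phi` the cofactor map
`Phi q v = ∑ y ∈ nbrs T v, α v y • (q {v, y} * ell (p v) (p y) ^ (r + 1))` for `v ∈ VI T`, `0` otherwise.

PAPER PROOF.  `finrank_D0`: a product of `(EI T).card` copies of `Deg n` (`finrank_Deg`). `KK = D0 ⊓ ker Phi`, so
`finrank KK + finrank (Phi (D0)) = finrank D0` (rank-nullity for the restriction of `Phi` to `D0`).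

`KK_lower`: `Phi (D0)` is contained in the product over `v ∈ VI T` of the spaces
`R v = {∑ y ∈ nbrs T v, q y * ell (p v) (p y) ^ (r + 1) : q y ∈ Deg n}`. Apply `tr (- p v)`, which is injective, `tr (- p v) (ell (p v) (p y)) =
lf (p y - p v)`: `R v` has the same dimension as the sum over `y` of `lf (p y - p v) ^ (r + 1) * Deg n`. Each `q ∈ Deg n` is the sum of its
homogeneous components of degree `j ≤ n`, so this space is contained in the sum over `j ≤ n` of
`R v j = ∑ y, lf (p y - p v) ^ (r + 1) * H j`, which is contained in `H (j + r + 1)` of dimension `j + r + 2`, and has dimension at most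
`(nbrs T v).card * (j + 1)`. So `finrank (R v) ≤ ∑ j ∈ range (n + 1), min (j + r + 2) ((nbrs T v).card * (j + 1))`.

`W_le_Phi`: every column of `cfgT T` is in `Phi (D0)`: for `x, y ∈ VI T`, `Edge T x y` (so `{x, y} ∈ EI T`), `evec r α p x y q = Phi (Pi.single {x, y} q)`
(check the entries at `x`, at `y`, elsewhere; `{v, y'} = {x, y}` iff `v = x, y' = y` or `v = y, y' = x`); for `x ∈ VI T`,
`b ∉ VI T`, `Edge T x b`: `gvec r p x b q = Phi (Pi.single {x, b} ((α x b)⁻¹ • q))`.
`KK_upperB`: `W r n 0 ≤ Phi (D0)` and rank-nullity.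
-/

set_option autoImplicit false

namespace BSpl

open MvPolynomial

variable {V : Type} [DecidableEq V]

/-- the domain of the cofactor map -/
noncomputable def D0 (n : ℕ) (T : Finset (Finset V)) : Submodule ℝ (Finset V → Pol) where
  carrier := {q | (∀ e ∈ EI T, q e ∈ Deg n) ∧ ∀ e, e ∉ EI T → q e = 0}
  zero_mem' := ⟨fun e _ => Submodule.zero_mem _, fun e _ => rfl⟩
  add_mem' := by
    intro a b ha hb
    refine ⟨fun t ht => Submodule.add_mem _ (ha.1 t ht) (hb.1 t ht), fun t ht => ?_⟩
    rw [Pi.add_apply, ha.2 t ht, hb.2 t ht, add_zero]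
  smul_mem' := by
    intro c a ha
    refine ⟨fun t ht => Submodule.smul_mem _ _ (ha.1 t ht), fun t ht => ?_⟩
    rw [Pi.smul_apply, ha.2 t ht, smul_zero]

/-- the cofactor map -/
noncomputable def Phi (r : ℕ) (α : V → V → ℝ) (T : Finset (Finset V)) (p : V → Pt) :
    (Finset V → Pol) →ₗ[ℝ] (V → Pol) where
  toFun q v := if v ∈ VI T then ∑ y ∈ nbrs T v, α v y • (q {v, y} * ell (p v) (p y) ^ (r + 1)) else 0
  map_add' := by
    intro a b
    funext v
    rw [Pi.add_apply]
    split_ifs with h
    · simp only [Pi.add_apply, add_mul, smul_add, Finset.sum_add_distrib]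
    · rw [add_zero]
  map_smul' := by
    intro c a
    funext v
    rw [Pi.smul_apply]
    split_ifs with h
    · rw [RingHom.id_apply, Finset.smul_sum]
      refine Finset.sum_congr rfl fun y _ => ?_
      rw [Pi.smul_apply, smul_mul_assoc, smul_comm]
    · rw [smul_zero]

/-- products of subspaces -/
private def prodSub {ι : Type} (I : Finset ι) (R : ι → Submodule ℝ Pol) : Submodule ℝ (ι → Pol) where
  carrier := {w | (∀ x ∈ I, w x ∈ R x) ∧ ∀ x, x ∉ I → w x = 0}
  zero_mem' := ⟨fun x _ => Submodule.zero_mem _, fun x _ => rfl⟩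
  add_mem' := by
    intro a b ha hb
    refine ⟨fun t ht => Submodule.add_mem _ (ha.1 t ht) (hb.1 t ht), fun t ht => ?_⟩
    rw [Pi.add_apply, ha.2 t ht, hb.2 t ht, add_zero]
  smul_mem' := by
    intro c a ha
    refine ⟨fun t ht => Submodule.smul_mem _ _ (ha.1 t ht), fun t ht => ?_⟩
    rw [Pi.smul_apply, ha.2 t ht, smul_zero]

open Classical in
private noncomputable def prodEquiv {ι : Type} (I : Finset ι) (R : ι → Submodule ℝ Pol) :
    prodSub I R ≃ₗ[ℝ] ((x : {x // x ∈ I}) → R x.1) where
  toFun w x := ⟨w.1 x.1, w.2.1 x.1 x.2⟩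
  map_add' a b := rfl
  map_smul' c a := rfl
  invFun f := ⟨fun x => if h : x ∈ I then (f ⟨x, h⟩ : Pol) else 0, by
    refine ⟨fun x hx => ?_, fun x hx => ?_⟩
    · simp only [hx, dif_pos]
      exact (f ⟨x, hx⟩).2
    · simp only [hx, dif_neg, not_false_eq_true]⟩
  left_inv w := by
    apply Subtype.ext
    funext x
    by_cases h : x ∈ I
    · simp [h]
    · simp [h, w.2.2 x h]
  right_inv f := by
    funext x
    apply Subtype.ext
    simp [x.2]

private theorem prod_fd {ι : Type} (I : Finset ι) (R : ι → Submodule ℝ Pol)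
    (h : ∀ x, FiniteDimensional ℝ (R x)) : FiniteDimensional ℝ (prodSub I R) := by
  have := h
  exact Module.Finite.equiv (prodEquiv I R).symm

private theorem prod_finrank {ι : Type} (I : Finset ι) (R : ι → Submodule ℝ Pol)
    (h : ∀ x, FiniteDimensional ℝ (R x)) :
    Module.finrank ℝ (prodSub I R) = ∑ x ∈ I, Module.finrank ℝ (R x) := by
  have := h
  rw [LinearEquiv.finrank_eq (prodEquiv I R), Module.finrank_pi_fintype]
  exact Finset.sum_coe_sort I (fun x => Module.finrank ℝ (R x))

private theorem D0_eq (n : ℕ) (T : Finset (Finset V)) : D0 n T = prodSub (EI T) (fun _ => Deg n) := rfl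

theorem finiteDimensional_D0 (n : ℕ) (T : Finset (Finset V)) : FiniteDimensional ℝ (D0 n T) := by
  rw [D0_eq]
  exact prod_fd _ _ (fun _ => finiteDimensional_Deg n)

theorem finrank_D0 (n : ℕ) (T : Finset (Finset V)) :
    Module.finrank ℝ (D0 n T) = (n + 2).choose 2 * (EI T).card := by
  rw [D0_eq, prod_finrank _ _ (fun _ => finiteDimensional_Deg n)]
  simp only [finrank_Deg, Finset.sum_const, smul_eq_mul]
  rw [mul_comm]

theorem KK_eq (r n : ℕ) (α : V → V → ℝ) (T : Finset (Finset V)) (p : V → Pt) :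
    KK r n α T p = D0 n T ⊓ LinearMap.ker (Phi r α T p) := by
  ext q
  constructor
  · intro h
    refine ⟨⟨h.1, h.2.1⟩, ?_⟩
    change Phi r α T p q = 0
    funext v
    by_cases hv : v ∈ VI T
    · have := h.2.2 v hv
      simpa [Phi, hv] using this
    · simp [Phi, hv]
  · intro h
    refine ⟨h.1.1, h.1.2, fun v hv => ?_⟩
    have h2 : Phi r α T p q = 0 := h.2
    have h3 := congrFun h2 v
    simpa [Phi, hv] using h3

/-- rank-nullity for a subspace of the domain -/
theorem rank_null (r : ℕ) (α : V → V → ℝ) (T : Finset (Finset V)) (p : V → Pt)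
    (D : Submodule ℝ (Finset V → Pol)) (hD : FiniteDimensional ℝ D) :
    Module.finrank ℝ (D ⊓ LinearMap.ker (Phi r α T p) : Submodule ℝ (Finset V → Pol)) +
      Module.finrank ℝ (D.map (Phi r α T p)) = Module.finrank ℝ D := by
  have := hD
  have h := LinearMap.finrank_range_add_finrank_ker ((Phi r α T p).domRestrict D)
  rw [LinearMap.range_domRestrict, LinearMap.ker_domRestrict] at h
  have h2 : Module.finrank ℝ (D ⊓ LinearMap.ker (Phi r α T p) : Submodule ℝ (Finset V → Pol)) =
      Module.finrank ℝ (Submodule.comap D.subtype (LinearMap.ker (Phi r α T p))) := by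
    rw [← Submodule.map_comap_subtype, Submodule.finrank_map_subtype_eq]
  rw [h2, add_comm]
  exact h

private theorem pair_eq {v y x : V} (h : ({x, y} : Finset V) = {x, v}) (hxy : x ≠ y) : y = v := by
  have : y ∈ ({x, v} : Finset V) := by
    rw [← h]
    simp
  rw [Finset.mem_insert, Finset.mem_singleton] at this
  rcases this with h1 | h1
  · exact absurd h1.symm hxy
  · exact h1

private theorem Phi_single_at (r : ℕ) (α : V → V → ℝ) (T : Finset (Finset V)) (p : V → Pt) (x y : V)
    (hx : x ∈ VI T) (hxy : Edge T x y) (q : Pol) :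
    Phi r α T p (Pi.single {x, y} q) x = α x y • (q * ell (p x) (p y) ^ (r + 1)) := by
  have e : Phi r α T p (Pi.single {x, y} q) x = ∑ z ∈ nbrs T x,
      α x z • ((Pi.single {x, y} q : Finset V → Pol) {x, z} * ell (p x) (p z) ^ (r + 1)) := by
    simp [Phi, hx]
  rw [e, Finset.sum_eq_single y]
  · rw [Pi.single_eq_same]
  · intro z hz hzy
    have hne : ({x, z} : Finset V) ≠ {x, y} := by
      intro h
      apply hzy
      exact (pair_eq h.symm hxy.1).symm
    rw [Pi.single_eq_of_ne hne, zero_mul, smul_zero]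
  · intro h
    exact absurd ((mem_nbrs x y).2 hxy) h

private theorem Phi_single_off (r : ℕ) (α : V → V → ℝ) (T : Finset (Finset V)) (p : V → Pt) (x y v : V)
    (hvx : v ≠ x) (hvy : v ≠ y) (q : Pol) :
    Phi r α T p (Pi.single {x, y} q) v = 0 := by
  by_cases hv : v ∈ VI T
  · have e : Phi r α T p (Pi.single {x, y} q) v = ∑ z ∈ nbrs T v,
        α v z • ((Pi.single {x, y} q : Finset V → Pol) {v, z} * ell (p v) (p z) ^ (r + 1)) := by
      simp [Phi, hv]
    rw [e]
    apply Finset.sum_eq_zero
    intro z _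
    have hne : ({v, z} : Finset V) ≠ {x, y} := by
      intro h
      have : v ∈ ({x, y} : Finset V) := by
        rw [← h]
        simp
      rw [Finset.mem_insert, Finset.mem_singleton] at this
      rcases this with h1 | h1
      · exact hvx h1
      · exact hvy h1
    rw [Pi.single_eq_of_ne hne, zero_mul, smul_zero]
  · simp [Phi, hv]

theorem Phi_single_ii (r : ℕ) (α : V → V → ℝ) (T : Finset (Finset V)) (p : V → Pt) (x y : V)
    (hx : x ∈ VI T) (hy : y ∈ VI T) (hxy : Edge T x y) (q : Pol) :
    Phi r α T p (Pi.single {x, y} q) = evec r α p x y q := by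
  have hne : x ≠ y := hxy.1
  funext v
  by_cases hvx : v = x
  · subst hvx
    rw [Phi_single_at r α T p v y hx hxy q, evec, Pi.add_apply, Pi.single_eq_same,
      Pi.single_eq_of_ne hne, add_zero]
  · by_cases hvy : v = y
    · subst hvy
      rw [Finset.pair_comm, Phi_single_at r α T p v x hy (Edge.symm hxy) q, evec, Pi.add_apply,
        Pi.single_eq_same, Pi.single_eq_of_ne hvx, zero_add]
    · rw [Phi_single_off r α T p x y v hvx hvy q, evec, Pi.add_apply, Pi.single_eq_of_ne hvx,
        Pi.single_eq_of_ne hvy, add_zero]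

theorem Phi_single_gr (r : ℕ) (α : V → V → ℝ) (T : Finset (Finset V)) (p : V → Pt) (x b : V)
    (hx : x ∈ VI T) (hb : b ∉ VI T) (hxb : Edge T x b) (q : Pol) :
    Phi r α T p (Pi.single {x, b} q) = α x b • gvec r p x b q := by
  funext v
  by_cases hvx : v = x
  · subst hvx
    rw [Phi_single_at r α T p v b hx hxb q, gvec, Pi.smul_apply, Pi.single_eq_same]
  · by_cases hvy : v = b
    · subst hvy
      rw [gvec, Pi.smul_apply, Pi.single_eq_of_ne hvx, smul_zero]
      simp [Phi, hb]
    · rw [Phi_single_off r α T p x b v hvx hvy q, gvec, Pi.smul_apply, Pi.single_eq_of_ne hvx,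
        smul_zero]

private theorem fd_H (m : ℕ) : FiniteDimensional ℝ (H m) := by
  have := finiteDimensional_Deg m
  exact Submodule.finiteDimensional_of_le (H_le_Deg m)

private theorem finrank_H_le (m : ℕ) : Module.finrank ℝ (H m) ≤ m + 1 := by
  have := finiteDimensional_Deg m
  have : FiniteDimensional ℝ (Deg m ⊓ Ord 0 m : Submodule ℝ Pol) :=
    Submodule.finiteDimensional_of_le (inf_le_left : Deg m ⊓ Ord 0 m ≤ Deg m)
  have h1 : H m ≤ Deg m ⊓ Ord 0 m := by
    intro q hq
    refine ⟨H_le_Deg m hq, ?_⟩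
    have := tr_mem_Ord (x := 0) hq
    rwa [tr_zero] at this
  have h2 := Submodule.finrank_mono h1
  rw [finrank_DegOrd] at h2
  simpa using h2

private theorem sup_finrank {ι : Type} (I : Finset ι) (R : ι → Submodule ℝ Pol)
    (h : ∀ x, FiniteDimensional ℝ (R x)) :
    FiniteDimensional ℝ (I.sup R : Submodule ℝ Pol) ∧
      Module.finrank ℝ (I.sup R : Submodule ℝ Pol) ≤ ∑ x ∈ I, Module.finrank ℝ (R x) := by
  classical
  induction I using Finset.induction_on with
  | empty =>
    rw [Finset.sup_empty]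
    refine ⟨inferInstance, ?_⟩
    simp
  | insert a s ha ih =>
    rw [Finset.sup_insert, Finset.sum_insert ha]
    have := h a
    have := ih.1
    refine ⟨inferInstance, ?_⟩
    exact le_trans (Submodule.finrank_add_le_finrank_add_finrank _ _) (Nat.add_le_add_left ih.2 _)

/-- `∑ y, lf (d y) ^ (r + 1) * H j` -/
private noncomputable def Asp (r : ℕ) (N : Finset V) (d : V → Pt) (j : ℕ) : Submodule ℝ Pol :=
  N.sup fun y => (H j).map (LinearMap.mulRight ℝ (lf (d y) ^ (r + 1)))

private theorem fd_map (r : ℕ) (d : Pt) (j : ℕ) :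
    FiniteDimensional ℝ ((H j).map (LinearMap.mulRight ℝ (lf d ^ (r + 1)))) := by
  have := fd_H j
  infer_instance

private theorem Asp_fd (r : ℕ) (N : Finset V) (d : V → Pt) (j : ℕ) :
    FiniteDimensional ℝ (Asp r N d j) :=
  (sup_finrank N _ (fun y => fd_map r (d y) j)).1

private theorem Asp_finrank (r : ℕ) (N : Finset V) (d : V → Pt) (j : ℕ) :
    Module.finrank ℝ (Asp r N d j) ≤ min (j + r + 2) (N.card * (j + 1)) := by
  apply le_min
  · have h1 : Asp r N d j ≤ H (j + (r + 1) * 1) := by
      apply Finset.sup_le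
      intro y _
      rw [Submodule.map_le_iff_le_comap]
      intro q hq
      rw [Submodule.mem_comap, LinearMap.mulRight_apply]
      exact mul_mem_H hq (pow_mem_H (lf_H (d y)) (r + 1))
    have := fd_H (j + (r + 1) * 1)
    have h2 := Submodule.finrank_mono h1
    have h3 := finrank_H_le (j + (r + 1) * 1)
    omega
  · have h1 := (sup_finrank N _ (fun y => fd_map r (d y) j)).2
    refine le_trans h1 ?_
    have h2 : ∀ y ∈ N, Module.finrank ℝ ((H j).map (LinearMap.mulRight ℝ (lf (d y) ^ (r + 1)))) ≤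
        j + 1 := by
      intro y _
      have := fd_H j
      exact le_trans (Submodule.finrank_map_le _ _) (finrank_H_le j)
    have h3 := Finset.sum_le_card_nsmul N _ (j + 1) h2
    simpa [smul_eq_mul] using h3

/-- the sum over the degrees -/
private noncomputable def Rsp (r n : ℕ) (N : Finset V) (d : V → Pt) : Submodule ℝ Pol :=
  (Finset.range (n + 1)).sup fun j => Asp r N d j

private theorem Rsp_fd (r n : ℕ) (N : Finset V) (d : V → Pt) : FiniteDimensional ℝ (Rsp r n N d) :=
  (sup_finrank (Finset.range (n + 1)) (fun j => Asp r N d j) (fun j => Asp_fd r N d j)).1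

private theorem Rsp_finrank (r n : ℕ) (N : Finset V) (d : V → Pt) :
    Module.finrank ℝ (Rsp r n N d) ≤
      ∑ j ∈ Finset.range (n + 1), min (j + r + 2) (N.card * (j + 1)) :=
  le_trans (sup_finrank (Finset.range (n + 1)) (fun j => Asp r N d j) (fun j => Asp_fd r N d j)).2
    (Finset.sum_le_sum fun j _ => Asp_finrank r N d j)

private theorem mem_Rsp (r n : ℕ) (N : Finset V) (d : V → Pt) (y : V) (hy : y ∈ N) (q : Pol)
    (hq : q ∈ Deg n) : q * lf (d y) ^ (r + 1) ∈ Rsp r n N d := by
  have hd : q.totalDegree ≤ n := mem_Deg.1 hq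
  have e : q = ∑ j ∈ Finset.range (n + 1), homogeneousComponent j q := by
    rw [← Finset.sum_subset (s₁ := Finset.range (q.totalDegree + 1))]
    · exact (sum_homogeneousComponent q).symm
    · intro j hj
      rw [Finset.mem_range] at hj ⊢
      omega
    · intro j _ hj
      rw [Finset.mem_range, not_lt] at hj
      exact homogeneousComponent_eq_zero j q (by omega)
  rw [e, Finset.sum_mul]
  refine Submodule.sum_mem _ fun j hj => ?_
  have h1 : Asp r N d j ≤ Rsp r n N d := Finset.le_sup (f := fun j => Asp r N d j) hj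
  apply h1
  have h2 : (H j).map (LinearMap.mulRight ℝ (lf (d y) ^ (r + 1))) ≤ Asp r N d j :=
    Finset.le_sup (f := fun y => (H j).map (LinearMap.mulRight ℝ (lf (d y) ^ (r + 1)))) hy
  apply h2
  refine ⟨homogeneousComponent j q, homogeneousComponent_isHomogeneous j q, rfl⟩

theorem KK_lower (r n : ℕ) (α : V → V → ℝ) (T : Finset (Finset V)) (p : V → Pt) :
    (n + 2).choose 2 * (EI T).card ≤ Module.finrank ℝ (KK r n α T p) +
      ∑ v ∈ VI T, ∑ j ∈ Finset.range (n + 1), min (j + r + 2) ((nbrs T v).card * (j + 1)) := by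
  have h1 := rank_null r α T p (D0 n T) (finiteDimensional_D0 n T)
  rw [← KK_eq, finrank_D0] at h1
  rw [← h1]
  apply Nat.add_le_add_left
  have hfd : ∀ v : V, FiniteDimensional ℝ
      ((Rsp r n (nbrs T v) (fun y => p y - p v)).map (tr (p v)).toLinearMap) := by
    intro v
    have := Rsp_fd r n (nbrs T v) (fun y => p y - p v)
    infer_instance
  have h2 : (D0 n T).map (Phi r α T p) ≤ prodSub (VI T)
      (fun v => (Rsp r n (nbrs T v) (fun y => p y - p v)).map (tr (p v)).toLinearMap) := by
    rw [Submodule.map_le_iff_le_comap]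
    intro q hq
    rw [Submodule.mem_comap]
    refine ⟨fun v hv => ?_, fun v hv => ?_⟩
    · have e : Phi r α T p q v = ∑ y ∈ nbrs T v,
          α v y • (q {v, y} * ell (p v) (p y) ^ (r + 1)) := by
        simp [Phi, hv]
      rw [e]
      refine Submodule.sum_mem _ fun y hy => Submodule.smul_mem _ _ ?_
      have hE : {v, y} ∈ EI T := by
        rw [mem_EI]
        have h3 := (mem_nbrs v y).1 hy
        exact ⟨v, y, h3.1, ((mem_VI v).1 hv).2 y h3, rfl⟩
      refine ⟨tr (-p v) (q {v, y}) * lf (p y - p v) ^ (r + 1), ?_, ?_⟩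
      · exact mem_Rsp r n (nbrs T v) (fun y => p y - p v) y hy _ (tr_mem_Deg _ (hq.1 _ hE))
      · rw [AlgHom.toLinearMap_apply, map_mul, map_pow, tr_tr_neg, ell_eq_left]
    · simp [Phi, hv]
  have := prod_fd (VI T) _ hfd
  refine le_trans (Submodule.finrank_mono h2) ?_
  rw [prod_finrank (VI T) _ hfd]
  refine Finset.sum_le_sum fun v _ => ?_
  have := Rsp_fd r n (nbrs T v) (fun y => p y - p v)
  exact le_trans (Submodule.finrank_map_le _ _) (Rsp_finrank r n (nbrs T v) _)

private theorem single_mem_D0 (n : ℕ) (T : Finset (Finset V)) (x y : V) (hx : x ∈ VI T)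
    (hxy : Edge T x y) (q : Pol) (hq : q ∈ Deg n) :
    (Pi.single {x, y} q : Finset V → Pol) ∈ D0 n T := by
  have hE : ({x, y} : Finset V) ∈ EI T := by
    rw [mem_EI]
    exact ⟨x, y, hxy.1, ((mem_VI x).1 hx).2 y hxy, rfl⟩
  refine ⟨fun e _ => ?_, fun e he => ?_⟩
  · by_cases h : e = {x, y}
    · subst h
      rw [Pi.single_eq_same]
      exact hq
    · rw [Pi.single_eq_of_ne h]
      exact Submodule.zero_mem _
  · have h : e ≠ {x, y} := by
      rintro rfl
      exact he hE
    rw [Pi.single_eq_of_ne h]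

private theorem W_le_Phi (r n : ℕ) (α : V → V → ℝ) (hα : ∀ x y, α x y ≠ 0) (T : Finset (Finset V))
    (p : V → Pt) : W r n 0 α (cfgT T) p ≤ (D0 n T).map (Phi r α T p) := by
  rw [W, Submodule.span_le]
  rintro w (⟨x, hx, y, hy, hne, hxy, q, hq, rfl⟩ | ⟨x, hx, b, hb, f, ⟨hxb, hf⟩, q, hq, rfl⟩)
  · have hx' : x ∈ VI T := hx
    have hy' : y ∈ VI T := hy
    have hxy' : Edge T x y := hxy
    refine ⟨Pi.single {x, y} q, single_mem_D0 n T x y hx' hxy' q (Gen_spec hq).1, ?_⟩
    exact Phi_single_ii r α T p x y hx' hy' hxy' q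
  · have hx' : x ∈ VI T := hx
    have hb' : b ∉ VI T := hb
    refine ⟨Pi.single {x, b} ((α x b)⁻¹ • q),
      single_mem_D0 n T x b hx' hxb _ (Submodule.smul_mem _ _ (Gen_spec hq).1), ?_⟩
    rw [Phi_single_gr r α T p x b hx' hb' hxb]
    rw [gvec, gvec, smul_mul_assoc, ← Pi.single_smul, smul_smul, mul_inv_cancel₀ (hα x b), one_smul]

theorem KK_upperB (r n : ℕ) (α : V → V → ℝ) (hα : ∀ x y, α x y ≠ 0) (T : Finset (Finset V))
    (h : Surf T) (p : V → Pt)
    (hW : (VI T).card * dB r n ≤ Module.finrank ℝ (W r n 0 α (cfgT T) p)) :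
    Module.finrank ℝ (KK r n α T p) + (VI T).card * dB r n ≤ (n + 2).choose 2 * (EI T).card := by
  have h1 := rank_null r α T p (D0 n T) (finiteDimensional_D0 n T)
  rw [← KK_eq, finrank_D0] at h1
  have := finiteDimensional_D0 n T
  have h2 := Submodule.finrank_mono (W_le_Phi r n α hα T p)
  omega

end BSpl
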