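import Pool.Agent.BSpl.Conf
import Pool.Agent.BSpl.LocSpan

/-!
# Bivariate splines, module StepE: removing a vertex with three neighbours, one of them in the ground

PAPER PROOF.  Let `c''` be the configuration with `I = {v}`, no interior edges, and ground edges `v U F`, `v a s`, `v b s`.
`Full c''`: take positions `p₁` with `p₁ v = (0, 1)` and `p₁ U = (0, 0)`, `p₁ a = (1, 0)`, `p₁ b = (-1, 0)`; the affine
function `lam = X 1` is `1` at `v` and `0` at the three other points, so `cell_span` (module LocSpan; apply it to the submodule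
`S = (W r n s α c'' p₁).comap (LinearMap.single ℝ _ v)`) shows `MM r n s {v} p₁ ≤ W r n s α c'' p₁`
(`MM_le_of_single`), and `full_of_le` (module Conf).

Let `p₀` be a position with full rank for `c'`. By `conf_line` and `conf_line'` there is `t` such that at `p = p₀ + t • (p₁ - p₀)`
both `c'` and `c''` have full rank (two finite sets of bad `t`; `ℝ` is infinite); by `W_full_eq`,
`W r n s α c' p = MM r n s c'.I p` and `W r n s α c'' p = MM r n s {v} p`.

Every column of `c'` is a column of `c` (use `hii`, `hgr`, `Gen_anti`), so `MM r n s (c.I.erase v) p ≤ W r n s α c p`.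
Every column of `c''` is in `W r n s α c p`: for `U` it is a column of `c` (`F ≥ f`). For `a`: if `a ∉ c.I` it is a column of `c`.
If `a ∈ c.I`, `c.ii v a`, then for `q ∈ Gen n (p v) (p a) s s` the vector `evec r α p v a q` is a column of `c`, its second summand
is in `MM r n s (c.I.erase v) p` (`single_mem_MM`, `Gen_symm`, `col_mem`), so the first summand
`Pi.single v (α v a • (q * ell ^ (r + 1)))` is in `W`, and `α v a ≠ 0`. The same for `b`.
Hence `MM r n s {v} p ≤ W r n s α c p`, so `MM r n s c.I p ≤ W r n s α c p` (`MM_le_of_single`), and `full_of_le`.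
-/

set_option autoImplicit false

namespace BSpl

open MvPolynomial

variable {V : Type} [DecidableEq V]

private def cc (v U a b : V) (F s : ℕ) : Cfg V where
  I := {v}
  ii := fun _ _ => False
  gr := fun x y f => x = v ∧ ((y = U ∧ f = F) ∨ (y = a ∧ f = s) ∨ (y = b ∧ f = s))

private noncomputable def pp (v a b : V) : V → Pt := fun x =>
  if x = v then ![0, 1] else if x = a then ![1, 0] else if x = b then ![-1, 0] else ![0, 0]

private theorem cc_full {r n s F : ℕ} (hA : Adm r n s F) (α : V → V → ℝ) (v U a b : V)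
    (hvU : v ≠ U) (hva : v ≠ a) (hvb : v ≠ b) (hUa : U ≠ a) (hUb : U ≠ b) (hab : a ≠ b) :
    MM r n s ({v} : Finset V) (pp v a b) ≤ W r n s α (cc v U a b F s) (pp v a b) := by
  have e1 : pp v a b v = ![0, 1] := by
    unfold pp
    rw [if_pos rfl]
  have e2 : pp v a b a = ![1, 0] := by
    unfold pp
    rw [if_neg hva.symm, if_pos rfl]
  have e3 : pp v a b b = ![-1, 0] := by
    unfold pp
    rw [if_neg hvb.symm, if_neg hab.symm, if_pos rfl]
  have e4 : pp v a b U = ![0, 0] := by
    unfold pp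
    rw [if_neg hvU.symm, if_neg hUa, if_neg hUb]
  have hcol : ∀ y f, y ≠ v → (cc v U a b F s).gr v y f →
      ∀ q ∈ Gen n (pp v a b v) (pp v a b y) s f,
        q * ell (pp v a b v) (pp v a b y) ^ (r + 1) ∈
          (W r n s α (cc v U a b F s) (pp v a b)).comap (LinearMap.single ℝ (fun _ : V => Pol) v) := by
    intro y f hy hg q hq
    rw [Submodule.mem_comap]
    apply Submodule.subset_span
    right
    refine ⟨v, Finset.mem_singleton_self v, y, ?_, f, hg, q, hq, rfl⟩
    intro h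
    exact hy (Finset.mem_singleton.1 h)
  apply MM_le_of_single
  intro x hx q hq
  rw [Finset.mem_singleton] at hx
  subst hx
  have hX : (X 1 : Pol) ∈ Deg 1 := by
    rw [mem_Deg]
    exact (totalDegree_X (R := ℝ) (1 : Fin 2)).le
  have key := cell_span hA (pp x a b x) (pp x a b U) (pp x a b a) (pp x a b b) (X 1) hX
    (by rw [e1]; simp) (by rw [e4]; simp) (by rw [e2]; simp) (by rw [e3]; simp)
    (by rw [e1, e2, e4]; unfold det2; simp) (by rw [e1, e3, e4]; unfold det2; simp)
    (by rw [e1, e2, e3]; unfold det2; simp; norm_num) _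
    (hcol U F hvU.symm ⟨rfl, Or.inl ⟨rfl, rfl⟩⟩)
    (hcol a s hva.symm ⟨rfl, Or.inr (Or.inl ⟨rfl, rfl⟩)⟩)
    (hcol b s hvb.symm ⟨rfl, Or.inr (Or.inr ⟨rfl, rfl⟩)⟩)
  exact key hq

theorem stepE {r n s F : ℕ} (hA : Adm r n s F) (α : V → V → ℝ) (hα : ∀ x y, α x y ≠ 0)
    (c c' : Cfg V) (v U a b : V) (hv : v ∈ c.I)
    (hvU : v ≠ U) (hva : v ≠ a) (hvb : v ≠ b) (hUa : U ≠ a) (hUb : U ≠ b) (hab : a ≠ b)
    (hU : U ∉ c.I) (hgU : ∃ f ≤ F, c.gr v U f)
    (ha : (a ∈ c.I ∧ c.ii v a) ∨ (a ∉ c.I ∧ ∃ f ≤ s, c.gr v a f))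
    (hb : (b ∈ c.I ∧ c.ii v b) ∨ (b ∉ c.I ∧ ∃ f ≤ s, c.gr v b f))
    (hI : c'.I = c.I.erase v)
    (hii : ∀ x ∈ c'.I, ∀ y ∈ c'.I, c'.ii x y → c.ii x y)
    (hgr : ∀ x ∈ c'.I, ∀ y, y ∉ c'.I → ∀ f, c'.gr x y f → y ≠ v ∧ ∃ g ≤ f, c.gr x y g)
    (h : Full r n s α c') : Full r n s α c := by
  have hfull : (cc v U a b F s).I.card * dM r n s ≤
      Module.finrank ℝ (W r n s α (cc v U a b F s) (pp v a b)) :=
    full_of_le (cc_full hA α v U a b hvU hva hvb hUa hUb hab)
  obtain ⟨p₀, hp₀⟩ := h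
  have f1 := conf_line r n s α c' p₀ (pp v a b) _ hp₀
  have f2 := conf_line' r n s α (cc v U a b F s) p₀ (pp v a b) _ hfull
  obtain ⟨t, ht⟩ := (f1.union f2).infinite_compl.nonempty
  rw [Set.mem_compl_iff, Set.mem_union, not_or] at ht
  obtain ⟨ht1, ht2⟩ := ht
  rw [Set.mem_ofPred_eq, not_not] at ht1 ht2
  set p : V → Pt := p₀ + t • (pp v a b - p₀) with hp
  have w1 : W r n s α c' p = MM r n s c'.I p := W_full_eq ht1
  have w2 : W r n s α (cc v U a b F s) p = MM r n s ({v} : Finset V) p := W_full_eq ht2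
  have h1 : MM r n s (c.I.erase v) p ≤ W r n s α c p := by
    rw [← hI, ← w1]
    refine Submodule.span_le.2 ?_
    rintro w (⟨x, hx, y, hy, hxy, hi, q, hq, rfl⟩ | ⟨x, hx, y, hy, f, hg, q, hq, rfl⟩)
    · apply Submodule.subset_span
      left
      have hx' := hx
      have hy' := hy
      rw [hI] at hx' hy'
      exact ⟨x, Finset.mem_of_mem_erase hx', y, Finset.mem_of_mem_erase hy', hxy,
        hii x hx y hy hi, q, hq, rfl⟩
    · apply Submodule.subset_span
      right
      obtain ⟨hyv, g, hgf, hcg⟩ := hgr x hx y hy f hg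
      have hx' := hx
      rw [hI] at hx'
      refine ⟨x, Finset.mem_of_mem_erase hx', y, ?_, g, hcg, q, Gen_anti (le_refl s) hgf hq, rfl⟩
      intro hyc
      apply hy
      rw [hI]
      exact Finset.mem_erase.2 ⟨hyv, hyc⟩
  have hedge : ∀ y, v ≠ y → ((y ∈ c.I ∧ c.ii v y) ∨ (y ∉ c.I ∧ ∃ f ≤ s, c.gr v y f)) →
      ∀ q ∈ Gen n (p v) (p y) s s, gvec r p v y q ∈ W r n s α c p := by
    intro y hvy hy q hq
    rcases hy with ⟨hyI, hvii⟩ | ⟨hyI, f, hf, hcg⟩
    · have m1 : evec r α p v y q ∈ W r n s α c p :=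
        Submodule.subset_span (Or.inl ⟨v, hv, y, hyI, hvy, hvii, q, hq, rfl⟩)
      have m2 : Pi.single y (α y v • (q * ell (p y) (p v) ^ (r + 1))) ∈ W r n s α c p :=
        h1 (single_mem_MM (Finset.mem_erase.2 ⟨hvy.symm, hyI⟩)
          (Submodule.smul_mem _ _ (col_mem (Gen_symm hq))))
      have m3 : Pi.single v (α v y • (q * ell (p v) (p y) ^ (r + 1))) ∈ W r n s α c p := by
        have e : Pi.single v (α v y • (q * ell (p v) (p y) ^ (r + 1))) =
            evec r α p v y q - Pi.single y (α y v • (q * ell (p y) (p v) ^ (r + 1))) := by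
          unfold evec
          rw [add_sub_cancel_right]
        rw [e]
        exact Submodule.sub_mem _ m1 m2
      have e : gvec r p v y q =
          (α v y)⁻¹ • Pi.single v (α v y • (q * ell (p v) (p y) ^ (r + 1))) := by
        unfold gvec
        rw [← Pi.single_smul, smul_smul, inv_mul_cancel₀ (hα v y), one_smul]
      rw [e]
      exact Submodule.smul_mem _ _ m3
    · exact Submodule.subset_span
        (Or.inr ⟨v, hv, y, hyI, f, hcg, q, Gen_anti (le_refl s) hf hq, rfl⟩)
  have h2 : MM r n s ({v} : Finset V) p ≤ W r n s α c p := by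
    rw [← w2]
    refine Submodule.span_le.2 ?_
    rintro w (⟨x, hx, y, hy, hxy, hi, q, hq, rfl⟩ | ⟨x, hx, y, hy, f, hg, q, hq, rfl⟩)
    · exact hi.elim
    · obtain ⟨rfl, hg⟩ := hg
      rcases hg with ⟨rfl, rfl⟩ | ⟨rfl, rfl⟩ | ⟨rfl, rfl⟩
      · obtain ⟨g, hgF, hcg⟩ := hgU
        exact Submodule.subset_span
          (Or.inr ⟨x, hv, y, hU, g, hcg, q, Gen_anti (le_refl s) hgF hq, rfl⟩)
      · exact hedge y hva ha q hq
      · exact hedge y hvb hb q hq
  refine ⟨p, full_of_le (MM_le_of_single _ fun x hx q hq => ?_)⟩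
  by_cases hxv : x = v
  · subst hxv
    exact h2 (single_mem_MM (Finset.mem_singleton_self x) hq)
  · exact h1 (single_mem_MM (Finset.mem_erase.2 ⟨hxv, hx⟩) hq)

end BSpl
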