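import Pool.Agent.BSpl.SupLow

/-!
# Bivariate splines, module SupE: homogeneous derivatives of polynomials of bounded degree

`EE n w g` is the dehomogenised derivative of the form `z ^ n * g (x / z, y / z)` in the direction `w`. These operators
commute, lower the degree, and `EE n (hv x)` kills the components of degree `n` at `x`. `Bl l` is the composition over a list
of directions (with decreasing labels).
-/

set_option autoImplicit false

namespace BSpl

open MvPolynomial

/-- homogeneous vectors -/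
abbrev Hv : Type := Fin 3 → ℝ

/-- the homogeneous vector of a point -/
def hv (x : Pt) : Hv := ![x 0, x 1, 1]

/-- the derivation part -/
noncomputable def dl (w : Hv) : Derivation ℝ Pol Pol :=
  mkDerivation ℝ fun i : Fin 2 => C (w (Fin.castSucc i)) - C (w 2) * X i

/-- the homogeneous derivative in the direction `w` on polynomials of degree at most `n` -/
noncomputable def EE (n : ℕ) (w : Hv) : Pol →ₗ[ℝ] Pol :=
  (dl w).toLinearMap + LinearMap.mulLeft ℝ (C ((n : ℝ) * w 2))

theorem EE_apply (n : ℕ) (w : Hv) (g : Pol) : EE n w g = dl w g + C ((n : ℝ) * w 2) * g := rfl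

theorem dl_X (w : Hv) (i : Fin 2) : dl w (X i) = C (w (Fin.castSucc i)) - C (w 2) * X i := by
  unfold dl
  rw [mkDerivation_X]

theorem EE_mul (a b : ℕ) (w : Hv) (g h : Pol) :
    EE (a + b) w (g * h) = EE a w g * h + g * EE b w h := by
  simp only [EE_apply, Derivation.leibniz, smul_eq_mul]
  push_cast
  rw [add_mul (a : ℝ), C_add]
  ring

theorem dl_comm (w w' : Hv) (g : Pol) :
    dl w (dl w' g) - dl w' (dl w g) = C (w 2) * dl w' g - C (w' 2) * dl w g := by
  have h : ⁅dl w, dl w'⁆ = (C (w 2) : Pol) • dl w' - (C (w' 2) : Pol) • dl w := by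
    apply derivation_ext
    intro i
    rw [Derivation.commutator_apply]
    simp only [Derivation.sub_apply, Derivation.smul_apply, smul_eq_mul, dl_X, map_sub,
      Derivation.leibniz, derivation_C, mul_zero, smul_zero, add_zero, zero_sub]
    ring
  have h2 := congrArg (fun d : Derivation ℝ Pol Pol => d g) h
  simp only [Derivation.commutator_apply, Derivation.sub_apply, Derivation.smul_apply, smul_eq_mul] at h2
  exact h2

theorem EE_comm (n : ℕ) (w w' : Hv) (g : Pol) :
    EE n w (EE (n + 1) w' g) = EE n w' (EE (n + 1) w g) := by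
  have h := dl_comm w w' g
  simp only [EE_apply, map_add, Derivation.leibniz, derivation_C, smul_zero, add_zero, smul_eq_mul]
  push_cast
  simp only [C_mul, C_add, C_1, add_mul]
  linear_combination h

theorem EE_C (w : Hv) (c : ℝ) : EE 0 w (C c) = 0 := by
  rw [EE_apply, derivation_C]
  simp

theorem EE_one_X (w : Hv) (i : Fin 2) : EE 1 w (X i) = C (w (Fin.castSucc i)) := by
  rw [EE_apply, dl_X]
  simp

theorem EE_pow (n : ℕ) (w : Hv) (g : Pol) :
    EE (n + 1) w (g ^ (n + 1)) = C ((n : ℝ) + 1) * g ^ n * EE 1 w g := by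
  induction n with
  | zero =>
    simp
  | succ n ih =>
    rw [pow_succ g (n + 1), EE_mul, ih]
    have e1 : (C (((n + 1 : ℕ) : ℝ) + 1) : Pol) = C ((n : ℝ) + 1) + 1 := by
      push_cast
      rw [C_add, C_1]
    rw [e1]
    ring

theorem EE_pow_zero (n : ℕ) (w : Hv) (g : Pol) (h : EE 1 w g = 0) : EE n w (g ^ n) = 0 := by
  cases n with
  | zero =>
    rw [pow_zero, ← C_1, EE_C]
  | succ n => rw [EE_pow, h, mul_zero]

theorem EE_pow_mul (m n : ℕ) (w : Hv) (l g : Pol) (h : EE 1 w l = 0) :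
    EE (m + n) w (l ^ m * g) = l ^ m * EE n w g := by
  rw [EE_mul, EE_pow_zero m w l h, zero_mul, zero_add]

theorem monomial_two (m : Fin 2 →₀ ℕ) (c : ℝ) : monomial m c = X 0 ^ m 0 * (X 1 ^ m 1 * C c : Pol) := by
  rw [monomial_eq, Finsupp.prod_fintype _ _ (fun i => pow_zero _), Fin.prod_univ_two]
  ring

theorem C_mem_Deg (c : ℝ) : (C c : Pol) ∈ Deg 0 := by
  rw [mem_Deg, totalDegree_C]

theorem X_mem_Deg (i : Fin 2) : (X i : Pol) ∈ Deg 1 := by
  rw [mem_Deg, totalDegree_X]

theorem deg_sum (m : Fin 2 →₀ ℕ) : (m.sum fun _ e => e) = m 0 + m 1 := by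
  rw [Finsupp.sum_fintype _ _ (fun _ => rfl), Fin.sum_univ_two]

theorem EE_X_pow (i : Fin 2) (a n : ℕ) (w : Hv) (q : Pol) (h : a ≤ n + 1)
    (hq : q ∈ Deg (n + 1 - a)) : EE a w (X i ^ a) * q ∈ Deg n := by
  cases a with
  | zero =>
    rw [pow_zero, ← C_1, EE_C, zero_mul]
    exact Submodule.zero_mem _
  | succ a =>
    rw [EE_pow, EE_one_X]
    have h1 := mul_mem_Deg (mul_mem_Deg (mul_mem_Deg (C_mem_Deg ((a : ℝ) + 1))
      (pow_mem_Deg (X_mem_Deg i) a)) (C_mem_Deg (w (Fin.castSucc i)))) hq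
    exact Deg_mono (by omega) h1

/-- the operator lowers the degree -/
theorem EE_mem_Deg (n : ℕ) (w : Hv) (g : Pol) (hg : g ∈ Deg (n + 1)) : EE (n + 1) w g ∈ Deg n := by
  rw [← support_sum_monomial_coeff g, map_sum]
  refine Submodule.sum_mem _ fun m hm => ?_
  have h1 := le_totalDegree hm
  rw [mem_Deg] at hg
  rw [deg_sum] at h1
  obtain ⟨e, he⟩ : ∃ e, n + 1 = m 0 + (m 1 + e) := ⟨n + 1 - m 0 - m 1, by omega⟩
  rw [monomial_two, he, EE_mul, EE_mul]
  refine Submodule.add_mem _ (EE_X_pow 0 (m 0) n w _ (by omega) ?_) ?_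
  · exact Deg_mono (by omega) (mul_mem_Deg (pow_mem_Deg (X_mem_Deg 1) (m 1)) (C_mem_Deg _))
  · rw [mul_add]
    refine Submodule.add_mem _ ?_ ?_
    · have h2 := EE_X_pow 1 (m 1) n w (X 0 ^ m 0 * C (coeff m g)) (by omega)
        (Deg_mono (by omega) (mul_mem_Deg (pow_mem_Deg (X_mem_Deg 0) (m 0)) (C_mem_Deg _)))
      have e1 : (X 0 : Pol) ^ m 0 * (EE (m 1) w (X 1 ^ m 1) * C (coeff m g)) =
          EE (m 1) w (X 1 ^ m 1) * (X 0 ^ m 0 * C (coeff m g)) := by ring
      rw [e1]
      exact h2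
    · rcases Nat.eq_zero_or_pos e with rfl | he0
      · rw [EE_C, mul_zero, mul_zero]
        exact Submodule.zero_mem _
      · rw [EE_apply, derivation_C, zero_add]
        have h3 := mul_mem_Deg (pow_mem_Deg (X_mem_Deg 0) (m 0)) (mul_mem_Deg (pow_mem_Deg (X_mem_Deg 1) (m 1))
          (mul_mem_Deg (C_mem_Deg ((e : ℝ) * w 2)) (C_mem_Deg (coeff m g))))
        exact Deg_mono (by omega) h3

theorem EE_zero (w : Hv) (g : Pol) (hg : g ∈ Deg 0) : EE 0 w g = 0 := by
  rw [mem_Deg, Nat.le_zero, totalDegree_eq_zero_iff_eq_C] at hg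
  rw [hg, EE_C]

/-- the operator commutes with translations -/
theorem EE_tr (n : ℕ) (w : Hv) (x : Pt) (g : Pol) :
    tr x (EE n w g) = EE n ![w 0 + w 2 * x 0, w 1 + w 2 * x 1, w 2] (tr x g) := by
  induction g using MvPolynomial.induction_on with
  | C a =>
    rw [EE_apply, EE_apply, derivation_C, tr_C, derivation_C, map_add, map_mul, map_zero, tr_C, tr_C]
    simp
  | add p q hp hq =>
    simp only [map_add, hp, hq]
  | mul_X p i hp =>
    have h1 : EE n w (p * X i) = EE n w p * X i + p * EE 0 w (X i) := EE_mul n 0 w p (X i)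
    have h2 := EE_mul n 0 ![w 0 + w 2 * x 0, w 1 + w 2 * x 1, w 2] (tr x p) (tr x (X i))
    rw [add_zero] at h2
    rw [h1, map_add, map_mul, map_mul, hp, map_mul, h2]
    congr 2
    rw [EE_apply, EE_apply, dl_X, tr_X, map_sub, dl_X, derivation_C]
    fin_cases i <;> simp [tr_X, tr_C] <;> ring

/-- the operator at the origin -/
theorem EE_origin (n : ℕ) (m : Fin 2 →₀ ℕ) (c : ℝ) :
    EE n ![0, 0, 1] (monomial m c) = monomial m (((n : ℝ) - (m 0 + m 1)) * c) := by
  have h1 : dl ![0, 0, 1] = -((X 0 : Pol) • pderiv 0 + (X 1 : Pol) • pderiv 1) := by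
    apply derivation_ext
    intro i
    rw [dl_X]
    fin_cases i <;> simp
  rw [EE_apply, h1]
  simp only [Derivation.neg_apply, Derivation.add_apply, Derivation.smul_apply, smul_eq_mul,
    X_mul_pderiv_monomial]
  have e1 : (C ((n : ℝ) * (![0, 0, 1] : Hv) 2) : Pol) * monomial m c = monomial m ((n : ℝ) * c) := by
    rw [C_mul_monomial]
    simp
  rw [e1, ← map_nsmul, ← map_nsmul, ← map_add, ← map_neg, ← map_add]
  congr 1
  simp only [nsmul_eq_mul]
  ring

theorem EE_mem_Ord (n a : ℕ) (x : Pt) (g : Pol) (hg : g ∈ Ord x a) : EE n (hv x) g ∈ Ord x a := by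
  have h0 : ∀ h : Pol, (∀ m ∈ h.support, a ≤ m.degree) → ∀ m ∈ (EE n ![0, 0, 1] h).support, a ≤ m.degree := by
    intro h hh m hm
    rw [mem_support_iff] at hm
    by_contra hc
    apply hm
    rw [← support_sum_monomial_coeff h, map_sum, coeff_sum]
    refine Finset.sum_eq_zero fun m' hm' => ?_
    rw [EE_origin, coeff_monomial]
    rw [if_neg]
    rintro rfl
    exact hc (hh _ hm')
  rw [mem_Ord_iff] at hg ⊢
  rw [EE_tr]
  have e : (![(hv x) 0 + (hv x) 2 * (-x) 0, (hv x) 1 + (hv x) 2 * (-x) 1, (hv x) 2] : Hv) = ![0, 0, 1] := by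
    funext i
    fin_cases i <;> simp [hv]
  rw [e]
  exact h0 _ hg

theorem Deg_inf_Ord_eq_zero (n : ℕ) (x : Pt) (g : Pol) (h : g ∈ Deg n) (h2 : g ∈ Ord x (n + 1)) : g = 0 := by
  rw [mem_Ord_iff] at h2
  have h3 := tr_mem_Deg (-x) h
  rw [mem_Deg] at h3
  have h4 : tr (-x) g = 0 := by
    by_contra hc
    obtain ⟨m, hm⟩ := (support_nonempty.2 hc : (tr (-x) g).support.Nonempty)
    have h5 := h2 m hm
    have h6 := le_totalDegree hm
    have h7 : (m.sum fun _ e => e) = m.degree := by
      rw [Finsupp.degree_eq_sum, deg_sum, Fin.sum_univ_two]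
    omega
  rw [← tr_tr_neg x g, h4, map_zero]

/-- the composition over a list of directions -/
noncomputable def Bl : List Hv → Pol →ₗ[ℝ] Pol
  | [] => LinearMap.id
  | w :: l => Bl l ∘ₗ EE (l.length + 1) w

theorem Bl_cons (w : Hv) (l : List Hv) (g : Pol) : Bl (w :: l) g = Bl l (EE (l.length + 1) w g) := rfl

theorem Bl_rep (j : ℕ) (w : Hv) (l : List Hv) (g : Pol) :
    Bl (List.replicate (j + 1) w ++ l) g = Bl (List.replicate j w ++ l) (EE (j + l.length + 1) w g) := by
  have h : List.replicate (j + 1) w ++ l = w :: (List.replicate j w ++ l) := rfl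
  have h2 : (List.replicate j w ++ l).length = j + l.length := by
    rw [List.length_append, List.length_replicate]
  rw [h, Bl_cons, h2]

theorem Bl_perm {l l' : List Hv} (h : l.Perm l') (g : Pol) : Bl l g = Bl l' g := by
  induction h generalizing g with
  | nil => rfl
  | cons w h ih => rw [Bl_cons, Bl_cons, ih, h.length_eq]
  | swap a b l =>
    have e1 : Bl (b :: a :: l) g = Bl l (EE (l.length + 1) a (EE (l.length + 1 + 1) b g)) := rfl
    have e2 : Bl (a :: b :: l) g = Bl l (EE (l.length + 1) b (EE (l.length + 1 + 1) a g)) := rfl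
    rw [e1, e2, EE_comm (l.length + 1) a b g]
  | trans h1 h2 ih1 ih2 => rw [ih1, ih2]

/-- a point on the line, with multiplicity larger than the degree of the cofactor -/
theorem Bl_line (D : ℕ) (w : Hv) (l : List Hv) (e q : Pol) (m : ℕ) (hm : l.length + 1 = m) (he : EE 1 w e = 0)
    (hq : q ∈ Deg D) : Bl (List.replicate (D + 1) w ++ l) (e ^ m * q) = 0 := by
  induction D generalizing q with
  | zero =>
    have h1 : 0 + l.length + 1 = m + 0 := by omega
    have h2 := Bl_rep 0 w l (e ^ m * q)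
    rw [h1, EE_pow_mul _ _ _ _ _ he, EE_zero w q hq, mul_zero, map_zero] at h2
    exact h2
  | succ D ih =>
    have h1 : D + 1 + l.length + 1 = m + (D + 1) := by omega
    have h2 := Bl_rep (D + 1) w l (e ^ m * q)
    rw [h1, EE_pow_mul _ _ _ _ _ he, ih _ (EE_mem_Deg D w q hq)] at h2
    exact h2

/-- a vertex at which the cofactor vanishes -/
theorem Bl_vert (j a : ℕ) (x : Pt) (l : List Hv) (e q : Pol) (m n : ℕ) (hn : n + 1 = a + j)
    (hm : l.length + 1 = m + a) (he : EE 1 (hv x) e = 0) (hq : q ∈ Deg n) (hq2 : q ∈ Ord x a) :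
    Bl (List.replicate j (hv x) ++ l) (e ^ m * q) = 0 := by
  induction j generalizing q n with
  | zero =>
    have h1 := Deg_inf_Ord_eq_zero n x q hq (by
      have : n + 1 = a := by omega
      rw [this]
      exact hq2)
    rw [h1, mul_zero, map_zero]
  | succ j ih =>
    have h1 : j + l.length + 1 = m + n := by omega
    have h2 := Bl_rep j (hv x) l (e ^ m * q)
    rw [h1, EE_pow_mul _ _ _ _ _ he] at h2
    rw [h2]
    cases n with
    | zero => rw [EE_zero _ q hq, mul_zero, map_zero]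
    | succ n =>
      exact ih (EE (n + 1) (hv x) q) n (by omega) (EE_mem_Deg n _ q hq) (EE_mem_Ord _ _ _ _ hq2)

/-- the value on the power of a line -/
theorem Bl_pow (e : Pol) (f : Hv → ℝ) (he : ∀ w, EE 1 w e = C (f w)) (l : List Hv) :
    Bl l (e ^ l.length) = C ((l.length.factorial : ℝ) * (l.map f).prod) := by
  induction l with
  | nil => simp [Bl]
  | cons w l ih =>
    rw [Bl_cons, List.length_cons, EE_pow, he]
    have e1 : (C ((l.length : ℝ) + 1) : Pol) * e ^ l.length * C (f w) =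
        (((l.length : ℝ) + 1) * f w) • e ^ l.length := by
      rw [smul_eq_C_mul, C_mul]
      ring
    rw [e1, map_smul, ih, smul_eq_C_mul, ← C_mul, List.map_cons, List.prod_cons, Nat.factorial_succ]
    congr 1
    push_cast
    ring

/-- the value of the line through `x` with direction `d` at a homogeneous vector -/
def lv (x d : Pt) (w : Hv) : ℝ := d 1 * (w 0 - w 2 * x 0) - d 0 * (w 1 - w 2 * x 1)

theorem EE_line (x d : Pt) (w : Hv) : EE 1 w (tr x (lf d)) = C (lv x d w) := by
  unfold lf lv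
  rw [map_sub, map_mul, map_mul, tr_C, tr_C, tr_X, tr_X, EE_apply, map_sub, Derivation.leibniz,
    Derivation.leibniz, derivation_C, derivation_C, map_sub, map_sub, dl_X, dl_X, derivation_C, derivation_C]
  simp only [smul_eq_mul, mul_zero, add_zero, sub_zero, C_sub, C_mul, Nat.cast_one, one_mul]
  have h0 : Fin.castSucc (0 : Fin 2) = (0 : Fin 3) := rfl
  have h1 : Fin.castSucc (1 : Fin 2) = (1 : Fin 3) := rfl
  rw [h0, h1]
  ring

theorem EE_ell_left (x y : Pt) : EE 1 (hv x) (ell x y) = 0 := by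
  rw [ell_eq_left, EE_line]
  simp [lv, hv]

theorem EE_ell_right (x y : Pt) : EE 1 (hv y) (ell x y) = 0 := by
  rw [ell_eq_right, EE_line]
  simp [lv, hv]

end BSpl
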