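import Pool.Agent.BSpl.SupPlus
import Pool.Agent.BSpl.GeoSep

/-!
# Bivariate splines, module SupEx: a triangulation for which no super spline bound is sharp

`hexT` is a hexagon `0, ..., 5` with four interior vertices: `6` and `7` of degree four, `8` and `9` of degree six.
For `r = 4`, `k = 7` the largest of the lower bounds `SupB 4 7 hexT a` is `46`, and the dimension is at least `47` for every realisation.
-/

set_option autoImplicit false

namespace BSpl

/-- the hexagon with four interior vertices -/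
def hexT : Finset (Finset (Fin 10)) :=
  {{0, 8, 6}, {0, 6, 9}, {6, 7, 8}, {6, 7, 9}, {7, 8, 3}, {7, 9, 3}, {8, 0, 1}, {8, 1, 2}, {8, 2, 3},
    {9, 3, 4}, {9, 4, 5}, {9, 5, 0}}

section reach

variable {V : Type} [DecidableEq V]

/-- one step of a breadth first search among the triangles of `S` -/
def grow (S R : Finset (Finset V)) : Finset (Finset V) :=
  S.filter fun t => t ∈ R ∨ ∃ s ∈ R, (s ∩ t).card = 2

theorem grow_adj {T : Finset (Finset V)} {s t : Finset V} (hs : s ∈ T) (ht : t ∈ T) (h3 : s.card = 3)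
    (h : (s ∩ t).card = 2) : adjT T s t := by
  refine ⟨hs, ht, ?_, ?_⟩
  · rintro rfl
    rw [Finset.inter_self] at h
    omega
  · obtain ⟨x, y, hxy, he⟩ := Finset.card_eq_two.1 h
    have hx : x ∈ s ∩ t := by rw [he]; simp
    have hy : y ∈ s ∩ t := by rw [he]; simp
    rw [Finset.mem_inter] at hx hy
    exact ⟨x, y, hxy, hx.1, hy.1, hx.2, hy.2⟩

theorem grow_reach {T S : Finset (Finset V)} (hS : S ⊆ T) (hT : ∀ t ∈ T, t.card = 3) (P : Finset V → Prop)
    (hP : ∀ t ∈ S, P t) (t0 : Finset V) (h0 : t0 ∈ S) (m : ℕ) :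
    ∀ t ∈ (grow S)^[m] {t0}, t ∈ S ∧ Relation.ReflTransGen (fun a b => adjT T a b ∧ P a ∧ P b) t0 t := by
  induction m with
  | zero =>
    intro t ht
    simp only [Function.iterate_zero, id_eq, Finset.mem_singleton] at ht
    subst ht
    exact ⟨h0, Relation.ReflTransGen.refl⟩
  | succ m ih =>
    intro t ht
    rw [Function.iterate_succ_apply'] at ht
    unfold grow at ht
    rw [Finset.mem_filter] at ht
    rcases ht with ⟨htS, ht | ⟨s, hs, hst⟩⟩
    · exact ih t ht
    · obtain ⟨h1, h2⟩ := ih s hs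
      exact ⟨htS, h2.tail ⟨grow_adj (hS h1) (hS htS) (hT s (hS h1)) hst, hP s h1, hP t htS⟩⟩

end reach

theorem hexT_card3 : ∀ t ∈ hexT, t.card = 3 := by decide +kernel

theorem hexT_surf : Surf hexT where
  card3 := hexT_card3
  le2 := by decide +kernel
  conn := by
    intro t ht t' ht'
    have h : ∀ t ∈ hexT, ∀ t' ∈ hexT, t' ∈ (grow hexT)^[6] {t} := by decide +kernel
    have h2 := (grow_reach (Finset.Subset.refl hexT) hexT_card3 (fun _ => True) (fun _ _ => trivial) t ht 6 t'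
      (h t ht t' ht')).2
    exact Relation.ReflTransGen.mono (fun a b hab => hab.1) _ _ h2
  star := by
    intro v t ht t' ht' hv hv'
    have h : ∀ v : Fin 10, ∀ t ∈ hexT.filter (fun t => v ∈ t), ∀ t' ∈ hexT.filter (fun t => v ∈ t),
        t' ∈ (grow (hexT.filter fun t => v ∈ t))^[5] {t} := by decide +kernel
    have h2 := (grow_reach (Finset.filter_subset (fun t => v ∈ t) hexT) hexT_card3 (fun t => v ∈ t)
      (fun t ht => (Finset.mem_filter.1 ht).2) t (Finset.mem_filter.2 ⟨ht, hv⟩) 5 t'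
      (h v t (Finset.mem_filter.2 ⟨ht, hv⟩) t' (Finset.mem_filter.2 ⟨ht', hv'⟩))).2
    exact h2

theorem hexT_disc : Disc hexT where
  surf := hexT_surf
  bdry := ⟨0, 1, by decide, by decide +kernel⟩
  euler := by decide +kernel

theorem hexT_VI : VI hexT = {6, 7, 8, 9} := by decide +kernel

theorem hexT_EI : EI hexT = {{6, 7}, {6, 8}, {6, 9}, {7, 8}, {7, 9}, {6, 0}, {7, 3}, {8, 0}, {8, 1}, {8, 2}, {8, 3},
    {9, 0}, {9, 3}, {9, 4}, {9, 5}} := by decide +kernel

theorem hexT_others : others hexT 6 7 0 3 = {8, 9} := by decide +kernel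

/-- the count for one edge, `δ = 3` -/
def sE (x y : ℕ) : ℕ := if x + y ≤ 3 then 6 - ((x + 1).choose 2 + (y + 1).choose 2) else (3 - x) * (3 - y)

theorem edgeS_pair (a : Fin 10 → ℕ) (x y : Fin 10) (h : x ≠ y) : edgeS 3 a {x, y} = sE (a x) (a y) := by
  unfold edgeS sE
  rw [Finset.sum_pair h, Finset.sum_pair h, Finset.prod_pair h]
  rfl

theorem sE_le (x y : ℕ) (hx : x ≤ 3) (hy : y ≤ 3) : sE x y ≤ sE x 0 := by
  have h : ∀ x < 4, ∀ y < 4, sE x y ≤ sE x 0 := by decide
  exact h x (by omega) y (by omega)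

theorem hexT_sup (a : Fin 10 → ℕ) : SupB 4 7 hexT a =
    36 + ((sE (a 6) (a 7) + (sE (a 6) (a 8) + (sE (a 6) (a 9) + (sE (a 7) (a 8) + (sE (a 7) (a 9) +
      (sE (a 6) (a 0) + (sE (a 7) (a 3) + (sE (a 8) (a 0) + (sE (a 8) (a 1) + (sE (a 8) (a 2) + (sE (a 8) (a 3) +
      (sE (a 9) (a 0) + (sE (a 9) (a 3) + (sE (a 9) (a 4) + sE (a 9) (a 5)))))))))))))) : ℕ) : ℤ) -
    ((36 - ((4 + a 6 + 2).choose 2 : ℤ)) + ((36 - ((4 + a 7 + 2).choose 2 : ℤ)) +
      ((36 - ((4 + a 8 + 2).choose 2 : ℤ)) + (36 - ((4 + a 9 + 2).choose 2 : ℤ))))) := by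
  unfold SupB
  rw [hexT_VI, hexT_EI]
  rw [Finset.sum_insert (by decide +kernel), Finset.sum_insert (by decide +kernel), Finset.sum_insert (by decide +kernel),
    Finset.sum_insert (by decide +kernel), Finset.sum_insert (by decide +kernel), Finset.sum_insert (by decide +kernel),
    Finset.sum_insert (by decide +kernel), Finset.sum_insert (by decide +kernel), Finset.sum_insert (by decide +kernel),
    Finset.sum_insert (by decide +kernel), Finset.sum_insert (by decide +kernel), Finset.sum_insert (by decide +kernel),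
    Finset.sum_insert (by decide +kernel), Finset.sum_insert (by decide +kernel), Finset.sum_singleton]
  rw [Finset.sum_insert (by decide +kernel), Finset.sum_insert (by decide +kernel), Finset.sum_insert (by decide +kernel),
    Finset.sum_singleton]
  rw [show 7 - 4 = 3 from rfl]
  rw [edgeS_pair a 6 7 (by decide), edgeS_pair a 6 8 (by decide), edgeS_pair a 6 9 (by decide),
    edgeS_pair a 7 8 (by decide), edgeS_pair a 7 9 (by decide), edgeS_pair a 6 0 (by decide),
    edgeS_pair a 7 3 (by decide), edgeS_pair a 8 0 (by decide), edgeS_pair a 8 1 (by decide),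
    edgeS_pair a 8 2 (by decide), edgeS_pair a 8 3 (by decide), edgeS_pair a 9 0 (by decide),
    edgeS_pair a 9 3 (by decide), edgeS_pair a 9 4 (by decide), edgeS_pair a 9 5 (by decide)]
  have e9 : Nat.choose (7 + 2) 2 = 36 := rfl
  rw [e9]
  push_cast
  ring

/-- none of the bounds `SupB 4 7 hexT a` exceeds `46` -/
theorem hexT_le (a : Fin 10 → ℕ) (ha : ∀ v, a v ≤ 3) : SupB 4 7 hexT a ≤ 46 := by
  rw [hexT_sup]
  have h : ∀ u < 4, ∀ v < 4, ∀ w < 4, ∀ z < 4,
      36 + (sE u v + (sE u w + (sE u z + (sE v w + (sE v z + (sE u 0 + (sE v 0 + (4 * sE w 0 + 4 * sE z 0)))))))) +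
        ((4 + u + 2).choose 2 + ((4 + v + 2).choose 2 + ((4 + w + 2).choose 2 + (4 + z + 2).choose 2))) ≤
      46 + 4 * 36 := by decide +kernel
  have h1 := h (a 6) (by have := ha 6; omega) (a 7) (by have := ha 7; omega) (a 8) (by have := ha 8; omega)
    (a 9) (by have := ha 9; omega)
  have e1 := sE_le (a 6) (a 0) (ha 6) (ha 0)
  have e2 := sE_le (a 7) (a 3) (ha 7) (ha 3)
  have e3 := sE_le (a 8) (a 0) (ha 8) (ha 0)
  have e4 := sE_le (a 8) (a 1) (ha 8) (ha 1)
  have e5 := sE_le (a 8) (a 2) (ha 8) (ha 2)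
  have e6 := sE_le (a 8) (a 3) (ha 8) (ha 3)
  have e7 := sE_le (a 9) (a 0) (ha 9) (ha 0)
  have e8 := sE_le (a 9) (a 3) (ha 9) (ha 3)
  have e9 := sE_le (a 9) (a 4) (ha 9) (ha 4)
  have e10 := sE_le (a 9) (a 5) (ha 9) (ha 5)
  push_cast
  zify at h1 e1 e2 e3 e4 e5 e6 e7 e8 e9 e10
  linarith

/-- the thresholds of the best super spline bound -/
def hexA (v : Fin 10) : ℕ := if v ∈ ({6, 7, 8, 9} : Finset (Fin 10)) then 1 else 0

theorem hexT_hexA : SupB 4 7 hexT hexA = 46 := by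
  rw [hexT_sup]
  decide +kernel

theorem hexT_good : GoodEdge 4 7 hexT hexA 6 7 := by
  refine ⟨by rw [hexT_VI]; decide, by rw [hexT_VI]; decide, by decide +kernel, by decide +kernel, by decide +kernel,
    0, 3, by decide +kernel, by decide, by decide +kernel, by decide, ?_⟩
  rw [hexT_others]
  decide +kernel

/-- the dimension is at least `47` for every realisation -/
theorem hexT_dim (p : Fin 10 → Pt) (hp : IsTri hexT p) : 47 ≤ Module.finrank ℝ (Spl 4 7 hexT p) := by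
  have h := super_bound_m 4 7 (by norm_num) hexT hexT_disc p hp hexA (by decide +kernel) 1 (fun _ => 6) (fun _ => 7)
    (fun _ => hexT_good) (fun i j hij => absurd (Subsingleton.elim i j) hij)
  rw [hexT_hexA] at h
  exact_mod_cast h

/-- integer coordinates of a realisation -/
def hexP : Fin 10 → ℤ × ℤ :=
  ![(-6, 0), (-3, 5), (3, 5), (6, 0), (3, -5), (-3, -5), (-2, 0), (2, 0), (0, 3), (0, -3)]

/-- separating functionals -/
def hexF : List (ℤ × ℤ × ℤ) :=
  [(-3, -2, -6), (-3, -2, 6), (-3, 2, -6), (-3, 2, 6), (-2, -3, -9), (-2, -3, 9), (-2, 3, -9), (-2, 3, 9), (-1, -3, -6), (-1, -3, 6), (-1, -2, -6), (-1, -2, -3), (-1, -2, 3), (-1, -2, 6), (-1, -1, -3), (-1, -1, -2), (-1, -1, 0), (-1, -1, 2), (-1, -1, 3), (-1, 0, 0), (-1, 1, -3), (-1, 1, -2), (-1, 1, 0), (-1, 1, 2), (-1, 1, 3), (-1, 2, -6), (-1, 2, -3), (-1, 2, 3), (-1, 2, 6), (-1, 3, -6), (-1, 3, 6), (0, -1, -3), (0, -1, -1), (0, -1, 0), (0, -1, 1), (0, -1, 3), (0, 1, -3), (0, 1, -1), (0,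 1, 0), (0, 1, 1), (0, 1, 3), (1, -3, -6), (1, -3, 6), (1, -2, -6), (1, -2, -3), (1, -2, 3), (1, -2, 6), (1, -1, -3), (1, -1, -2), (1, -1, 0), (1, -1, 2), (1, -1, 3), (1, 0, 0), (1, 1, -3), (1, 1, -2), (1, 1, 0), (1, 1, 2), (1, 1, 3), (1, 2, -6), (1, 2, -3), (1, 2, 3), (1, 2, 6), (1, 3, -6), (1, 3, 6), (2, -3, -9), (2, -3, 9), (2, 3, -9), (2, 3, 9), (3, -2, -6), (3, -2, 6), (3, 2, -6), (3, 2, 6)]

theorem hexT_sep : ∀ t ∈ hexT, ∀ t' ∈ hexT, t ≠ t' → ∃ f ∈ hexF,
    (∀ y ∈ t, y ∈ t' → f.1 * (hexP y).1 + f.2.1 * (hexP y).2 + f.2.2 = 0) ∧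
    (∀ y ∈ t, y ∉ t' → 0 < f.1 * (hexP y).1 + f.2.1 * (hexP y).2 + f.2.2) ∧
    (∀ y ∈ t', y ∉ t → f.1 * (hexP y).1 + f.2.1 * (hexP y).2 + f.2.2 < 0) := by
  decide +kernel

theorem hexT_area : ∀ t ∈ hexT, ∃ x y u : Fin 10, x ≠ y ∧ x ≠ u ∧ y ≠ u ∧ t = {x, y, u} ∧
    ((hexP y).1 - (hexP x).1) * ((hexP u).2 - (hexP x).2) -
      ((hexP y).2 - (hexP x).2) * ((hexP u).1 - (hexP x).1) ≠ 0 := by
  decide +kernel

/-- a realisation -/
theorem hexT_tri : IsTri hexT (fun v => (![((hexP v).1 : ℝ), ((hexP v).2 : ℝ)] : Pt)) where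
  indep := by
    intro t ht
    obtain ⟨x, y, u, hxy, hxu, hyu, rfl, h⟩ := hexT_area t ht
    refine (indep_iff (fun v => (![((hexP v).1 : ℝ), ((hexP v).2 : ℝ)] : Pt)) x y u hxy hxu hyu).2 ?_
    rw [area_def]
    intro h0
    apply h
    simp only [Matrix.cons_val_zero, Matrix.cons_val_one] at h0
    exact_mod_cast h0
  inter := by
    intro t ht t' ht'
    by_cases hne : t = t'
    · subst hne
      rw [Set.inter_self, Finset.inter_self]
    · obtain ⟨f, -, h1, h2, h3⟩ := hexT_sep t ht t' ht' hne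
      apply inter_of_sep
      refine ⟨![(f.1 : ℝ), (f.2.1 : ℝ)], (f.2.2 : ℝ), ?_, ?_, ?_⟩
      · intro y hy hy'
        have := h1 y hy hy'
        simp only [Matrix.cons_val_zero, Matrix.cons_val_one]
        exact_mod_cast this
      · intro y hy hy'
        have := h2 y hy hy'
        simp only [Matrix.cons_val_zero, Matrix.cons_val_one]
        exact_mod_cast this
      · intro y hy hy'
        have := h3 y hy hy'
        simp only [Matrix.cons_val_zero, Matrix.cons_val_one]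
        exact_mod_cast this

end BSpl
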