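import Pool.Agent.BSpl.Main

/-!
# Bivariate splines, module SupLow: the lower bound by super splines, for all degrees

For `a : V → ℕ` we restrict to the cofactors `q e` which vanish to order `a v` at the vertices `v` of `e`, and count.
-/

set_option autoImplicit false

namespace BSpl

open MvPolynomial

variable {V : Type} [DecidableEq V]

/-- the dimension of the space of the polynomials of degree `< δ` which vanish to order `a v` at the two
points `v` of `e` -/
def edgeS (δ : ℕ) (a : V → ℕ) (e : Finset V) : ℕ :=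
  if ∑ v ∈ e, a v ≤ δ then (δ + 1).choose 2 - ∑ v ∈ e, (a v + 1).choose 2 else ∏ v ∈ e, (δ - a v)

/-- the lower bound -/
def SupB (r k : ℕ) (T : Finset (Finset V)) (a : V → ℕ) : ℤ :=
  (k + 2).choose 2 + ∑ e ∈ EI T, (edgeS (k - r) a e : ℤ) -
    ∑ v ∈ VI T, (((k + 2).choose 2 : ℤ) - ((r + a v + 2).choose 2 : ℤ))

theorem sum_range_succ_choose (f : ℕ) : ∑ j ∈ Finset.range f, (j + 1) = (f + 1).choose 2 := by
  induction f with
  | zero => simp
  | succ f ih =>
    rw [Finset.sum_range_succ, ih, Nat.choose_succ_succ' (f + 1) 1, Nat.choose_one_right]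
    ring

theorem choose_two_int (f : ℕ) : 2 * ((f + 1).choose 2 : ℤ) = (f : ℤ) * (f + 1) := by
  induction f with
  | zero => simp
  | succ f ih =>
    rw [Nat.choose_succ_succ' (f + 1) 1, Nat.choose_one_right]
    push_cast
    linarith

theorem mul_eq_choose (f g : ℕ) : (f + g + 1).choose 2 = f * g + (f + 1).choose 2 + (g + 1).choose 2 := by
  have h1 := choose_two_int (f + g)
  have h2 := choose_two_int f
  have h3 := choose_two_int g
  have : (((f + g + 1).choose 2 : ℕ) : ℤ) = ((f * g + (f + 1).choose 2 + (g + 1).choose 2 : ℕ) : ℤ) := by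
    push_cast at *
    nlinarith
  exact_mod_cast this

theorem edge_dim (n a b : ℕ) (x y : Pt) (hxy : x ≠ y) (ha : a ≤ n + 1) (hb : b ≤ n + 1) :
    (if a + b ≤ n + 1 then (n + 2).choose 2 - ((a + 1).choose 2 + (b + 1).choose 2)
      else (n + 1 - a) * (n + 1 - b)) ≤
      Module.finrank ℝ (Deg n ⊓ Ord x a ⊓ Ord y b : Submodule ℝ Pol) := by
  split_ifs with h
  · have h1 := finrank_two n a b x y hxy h
    rw [sum_range_succ_choose, sum_range_succ_choose] at h1
    omega
  · by_cases h0 : a ≤ n ∧ b ≤ n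
    · obtain ⟨m, hm⟩ : ∃ m, a + b = n + 1 + m := ⟨a + b - (n + 1), by omega⟩
      have h1 := finrank_two (n - m) (a - m) (b - m) x y hxy (by omega)
      rw [sum_range_succ_choose, sum_range_succ_choose] at h1
      have e1 : a - m = n + 1 - b := by omega
      have e2 : b - m = n + 1 - a := by omega
      have e3 : n - m + 2 = (n + 1 - b) + (n + 1 - a) + 1 := by omega
      rw [e1, e2, e3, mul_eq_choose] at h1
      have := finiteDimensional_Deg n
      have : FiniteDimensional ℝ (Deg n ⊓ Ord x a ⊓ Ord y b : Submodule ℝ Pol) :=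
        Submodule.finiteDimensional_of_le (inf_le_left.trans inf_le_left : _ ≤ Deg n)
      have hinj : Function.Injective (LinearMap.mulLeft ℝ (ell x y ^ m)) := by
        intro u v huv
        rw [LinearMap.mulLeft_apply, LinearMap.mulLeft_apply] at huv
        exact mul_left_cancel₀ (pow_ne_zero _ (ell_ne_zero hxy)) huv
      have h2 : (Deg (n - m) ⊓ Ord x (n + 1 - b) ⊓ Ord y (n + 1 - a) : Submodule ℝ Pol).map
          (LinearMap.mulLeft ℝ (ell x y ^ m)) ≤ Deg n ⊓ Ord x a ⊓ Ord y b := by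
        rw [Submodule.map_le_iff_le_comap]
        rintro q ⟨⟨hq1, hq2⟩, hq3⟩
        rw [Submodule.mem_comap, LinearMap.mulLeft_apply]
        refine ⟨⟨?_, ?_⟩, ?_⟩
        · have h3 := mul_mem_Deg (pow_mem_Deg (ell_mem_Deg x y) m) hq1
          exact Deg_mono (by omega) h3
        · have h3 := mul_mem_Ord (pow_mem_Ord (ell_mem_Ord_left x y) m) hq2
          exact Ord_anti (by omega) h3
        · have h3 := mul_mem_Ord (pow_mem_Ord (ell_mem_Ord_right x y) m) hq3
          exact Ord_anti (by omega) h3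
      have h3 := Submodule.finrank_mono h2
      rw [← LinearEquiv.finrank_eq (Submodule.equivMapOfInjective _ hinj _)] at h3
      have h4 : (n + 1 - a) * (n + 1 - b) = (n + 1 - b) * (n + 1 - a) := Nat.mul_comm _ _
      omega
    · have : (n + 1 - a) * (n + 1 - b) = 0 := by
        by_cases h1 : a ≤ n
        · have : n + 1 - b = 0 := by omega
          rw [this, Nat.mul_zero]
        · have : n + 1 - a = 0 := by omega
          rw [this, Nat.zero_mul]
      omega

/-- products of subspaces -/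
private def prodSub {ι : Type} (I : Finset ι) (R : ι → Submodule ℝ Pol) : Submodule ℝ (ι → Pol) where
  carrier := {w | (∀ x ∈ I, w x ∈ R x) ∧ ∀ x, x ∉ I → w x = 0}
  zero_mem' := ⟨fun x _ => Submodule.zero_mem _, fun x _ => rfl⟩
  add_mem' := by
    intro a b ha hb
    refine ⟨fun t ht => Submodule.add_mem _ (ha.1 t ht) (hb.1 t ht), fun t ht => ?_⟩
    rw [Pi.add_apply, ha.2 t ht, hb.2 t ht, add_zero]
  smul_mem' := by
    intro c a ha
    refine ⟨fun t ht => Submodule.smul_mem _ _ (ha.1 t ht), fun t ht => ?_⟩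
    rw [Pi.smul_apply, ha.2 t ht, smul_zero]

open Classical in
private noncomputable def prodEquiv {ι : Type} (I : Finset ι) (R : ι → Submodule ℝ Pol) :
    prodSub I R ≃ₗ[ℝ] ((x : {x // x ∈ I}) → R x.1) where
  toFun w x := ⟨w.1 x.1, w.2.1 x.1 x.2⟩
  map_add' a b := rfl
  map_smul' c a := rfl
  invFun f := ⟨fun x => if h : x ∈ I then (f ⟨x, h⟩ : Pol) else 0, by
    refine ⟨fun x hx => ?_, fun x hx => ?_⟩
    · simp only [hx, dif_pos]
      exact (f ⟨x, hx⟩).2
    · simp only [hx, dif_neg, not_false_eq_true]⟩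
  left_inv w := by
    apply Subtype.ext
    funext x
    by_cases h : x ∈ I
    · simp [h]
    · simp [h, w.2.2 x h]
  right_inv f := by
    funext x
    apply Subtype.ext
    simp [x.2]

private theorem prod_fd {ι : Type} (I : Finset ι) (R : ι → Submodule ℝ Pol)
    (h : ∀ x, FiniteDimensional ℝ (R x)) : FiniteDimensional ℝ (prodSub I R) := by
  have := h
  exact Module.Finite.equiv (prodEquiv I R).symm

private theorem prod_finrank {ι : Type} (I : Finset ι) (R : ι → Submodule ℝ Pol)
    (h : ∀ x, FiniteDimensional ℝ (R x)) :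
    Module.finrank ℝ (prodSub I R) = ∑ x ∈ I, Module.finrank ℝ (R x) := by
  have := h
  rw [LinearEquiv.finrank_eq (prodEquiv I R), Module.finrank_pi_fintype]
  exact Finset.sum_coe_sort I (fun x => Module.finrank ℝ (R x))

/-- the cofactors of an edge with prescribed orders -/
private noncomputable def RE (n : ℕ) (a : V → ℕ) (p : V → Pt) (e : Finset V) : Submodule ℝ Pol :=
  Deg n ⊓ ⨅ v ∈ e, Ord (p v) (a v)

private theorem RE_pair (n : ℕ) (a : V → ℕ) (p : V → Pt) (x y : V) :
    RE n a p {x, y} = Deg n ⊓ Ord (p x) (a x) ⊓ Ord (p y) (a y) := by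
  unfold RE
  rw [inf_assoc]
  congr 1
  apply le_antisymm
  · exact le_inf (iInf₂_le x (by simp)) (iInf₂_le y (by simp))
  · refine le_iInf₂ fun v hv => ?_
    rw [Finset.mem_insert, Finset.mem_singleton] at hv
    rcases hv with rfl | rfl
    · exact inf_le_left
    · exact inf_le_right

private theorem RE_fd (n : ℕ) (a : V → ℕ) (p : V → Pt) (e : Finset V) :
    FiniteDimensional ℝ (RE n a p e) := by
  have := finiteDimensional_Deg n
  exact Submodule.finiteDimensional_of_le (inf_le_left : RE n a p e ≤ Deg n)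

theorem KK_super (r n : ℕ) (α : V → V → ℝ) (T : Finset (Finset V)) (p : V → Pt)
    (hp : ∀ x y, Edge T x y → p x ≠ p y) (a : V → ℕ) (ha : ∀ v, a v ≤ n + 1) :
    ∑ e ∈ EI T, edgeS (n + 1) a e ≤ Module.finrank ℝ (KK r n α T p) + ∑ v ∈ VI T, dM r n (a v) := by
  have hD : FiniteDimensional ℝ (prodSub (EI T) (RE n a p)) := prod_fd _ _ (fun e => RE_fd n a p e)
  have h1 := rank_null r α T p (prodSub (EI T) (RE n a p)) hD
  have hM : ∀ v : V, FiniteDimensional ℝ (Deg (n + r + 1) ⊓ Ord (p v) (r + a v + 1) : Submodule ℝ Pol) := by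
    intro v
    have := finiteDimensional_Deg (n + r + 1)
    exact Submodule.finiteDimensional_of_le (inf_le_left : _ ≤ Deg (n + r + 1))
  have h2 : (prodSub (EI T) (RE n a p)).map (Phi r α T p) ≤ prodSub (VI T)
      (fun v => Deg (n + r + 1) ⊓ Ord (p v) (r + a v + 1)) := by
    rw [Submodule.map_le_iff_le_comap]
    intro q hq
    rw [Submodule.mem_comap]
    refine ⟨fun v hv => ?_, fun v hv => ?_⟩
    · have e : Phi r α T p q v = ∑ y ∈ nbrs T v,
          α v y • (q {v, y} * ell (p v) (p y) ^ (r + 1)) := by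
        simp [Phi, hv]
      rw [e]
      refine Submodule.sum_mem _ fun y hy => Submodule.smul_mem _ _ ?_
      have hE : {v, y} ∈ EI T := by
        rw [mem_EI]
        have h3 := (mem_nbrs v y).1 hy
        exact ⟨v, y, h3.1, ((mem_VI v).1 hv).2 y h3, rfl⟩
      have h3 := hq.1 _ hE
      rw [RE_pair] at h3
      refine ⟨?_, ?_⟩
      · have h4 := mul_mem_Deg h3.1.1 (pow_mem_Deg (ell_mem_Deg (p v) (p y)) (r + 1))
        exact Deg_mono (by omega) h4
      · have h4 := mul_mem_Ord h3.1.2 (pow_mem_Ord (ell_mem_Ord_left (p v) (p y)) (r + 1))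
        exact Ord_anti (by omega) h4
    · simp [Phi, hv]
  have h3 := prod_fd (VI T) _ hM
  have h4 := Submodule.finrank_mono h2
  rw [prod_finrank (VI T) _ hM, Finset.sum_congr rfl fun v _ => finrank_M r n (a v) (p v)] at h4
  have h5 : (prodSub (EI T) (RE n a p) ⊓ LinearMap.ker (Phi r α T p) : Submodule ℝ (Finset V → Pol)) ≤
      KK r n α T p := by
    rw [KK_eq]
    refine inf_le_inf_right _ ?_
    intro q hq
    exact ⟨fun e he => (hq.1 e he).1, hq.2⟩
  have hK : FiniteDimensional ℝ (KK r n α T p) := finiteDimensional_KK r n α T p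
  have h6 := Submodule.finrank_mono h5
  have h7 : ∑ e ∈ EI T, edgeS (n + 1) a e ≤ Module.finrank ℝ (prodSub (EI T) (RE n a p)) := by
    rw [prod_finrank (EI T) _ (fun e => RE_fd n a p e)]
    refine Finset.sum_le_sum fun e he => ?_
    rw [mem_EI] at he
    obtain ⟨x, y, hxy, he2, rfl⟩ := he
    rw [RE_pair]
    have hE : Edge T x y := (edge_iff x y).2 ⟨hxy, by omega⟩
    have h8 := edge_dim n (a x) (a y) (p x) (p y) (hp x y hE) (ha x) (ha y)
    unfold edgeS
    rw [Finset.sum_pair hxy, Finset.sum_pair hxy, Finset.prod_pair hxy]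
    exact h8
  omega

theorem dM_eq (r n a : ℕ) (ha : a ≤ n + 1) :
    (dM r n a : ℤ) = ((n + r + 1 + 2).choose 2 : ℤ) - ((r + a + 2).choose 2 : ℤ) := by
  unfold dM
  induction n with
  | zero =>
    rcases Nat.le_one_iff_eq_zero_or_eq_one.1 ha with rfl | rfl
    · have h1 : (0 + r + 1 + 2).choose 2 = (r + 0 + 2).choose 2 + (r + 2) := by
        have h2 : 0 + r + 1 + 2 = r + 2 + 1 := by ring
        rw [h2, Nat.choose_succ_succ' (r + 2) 1, Nat.choose_one_right, Nat.add_comm]
      rw [h1]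
      simp
    · have h2 : 0 + r + 1 + 2 = r + 1 + 2 := by ring
      rw [h2]
      simp
  | succ n ih =>
    rcases Nat.lt_or_ge a (n + 2) with h | h
    · have h1 := ih (by omega)
      have h3 : Finset.Icc a (n + 1) = insert (n + 1) (Finset.Icc a n) := by
        ext j
        simp only [Finset.mem_Icc, Finset.mem_insert]
        omega
      rw [h3, Finset.sum_insert (by simp)]
      have h4 : (n + 1 + r + 1 + 2).choose 2 = (n + r + 1 + 2).choose 2 + (n + 1 + r + 2) := by
        have h2 : n + 1 + r + 1 + 2 = n + r + 1 + 2 + 1 := by ring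
        rw [h2, Nat.choose_succ_succ' (n + r + 1 + 2) 1, Nat.choose_one_right]
        ring
      rw [h4]
      push_cast
      push_cast at h1
      linarith
    · have h5 : a = n + 2 := by omega
      subst h5
      rw [Finset.Icc_eq_empty (by omega), Finset.sum_empty]
      have h2 : n + 1 + r + 1 + 2 = r + (n + 2) + 2 := by ring
      rw [h2]
      simp

/-- the lower bound by super splines -/
theorem super_bound (r k : ℕ) (hk : r < k) (T : Finset (Finset V)) (h : Disc T) (p : V → Pt)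
    (hp : IsTri T p) (a : V → ℕ) (ha : ∀ v, a v ≤ k - r) :
    SupB r k T a ≤ (Module.finrank ℝ (Spl r k T p) : ℤ) := by
  obtain ⟨n, rfl⟩ : ∃ n, k = n + r + 1 := ⟨k - r - 1, by omega⟩
  obtain ⟨α, hα, hdim⟩ := exists_alpha r T h.surf (H1_of_disc T h) (disc_nonempty h)
  rw [finrank_Spl r _ T h.surf p hp, hdim n p (fun x y hxy => hp.ne hxy)]
  have e1 : n + r + 1 - r = n + 1 := by omega
  have hl := KK_super r n α T p (fun x y hxy => hp.ne hxy) a (fun v => by have := ha v; omega)
  unfold SupB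
  rw [e1]
  have h2 : ∑ v ∈ VI T, (((n + r + 1 + 2).choose 2 : ℤ) - ((r + a v + 2).choose 2 : ℤ)) =
      ((∑ v ∈ VI T, dM r n (a v) : ℕ) : ℤ) := by
    push_cast
    refine Finset.sum_congr rfl fun v _ => ?_
    have h3 := dM_eq r n (a v) (by have := ha v; omega)
    push_cast at h3
    linarith
  rw [h2]
  have h4 : ((∑ e ∈ EI T, edgeS (n + 1) a e : ℕ) : ℤ) ≤
      ((Module.finrank ℝ (KK r n α T p) + ∑ v ∈ VI T, dM r n (a v) : ℕ) : ℤ) := by
    exact_mod_cast hl
  have e2 : n + r + 1 + 2 = n + r + 3 := by ring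
  rw [e2]
  push_cast at h4 ⊢
  linarith

theorem exists_thr (r n e : ℕ) : ∃ a ≤ n + 1, (∀ j < a, e * (j + 1) ≤ j + r + 2) ∧
    ∀ j, a ≤ j → j ≤ n → j + r + 2 ≤ e * (j + 1) := by
  rcases Nat.eq_zero_or_pos e with rfl | he
  · exact ⟨n + 1, le_rfl, fun j _ => by omega, fun j h1 h2 => by omega⟩
  · by_cases hall : ∀ j ≤ n, e * (j + 1) ≤ j + r + 2
    · exact ⟨n + 1, le_rfl, fun j hj => hall j (by omega), fun j h1 h2 => by omega⟩
    · push Not at hall
      classical
      have hall' : ∃ j, j ≤ n ∧ j + r + 2 < e * (j + 1) := hall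
      refine ⟨Nat.find hall', ?_, ?_, ?_⟩
      · have := (Nat.find_spec hall').1
        omega
      · intro j hj
        have h1 := Nat.find_min hall' hj
        have h2 := (Nat.find_spec hall').1
        by_contra h3
        exact h1 ⟨by omega, by omega⟩
      · intro j h1 _
        have h2 := (Nat.find_spec hall').2
        obtain ⟨d, hd⟩ : ∃ d, j = Nat.find hall' + d := ⟨j - Nat.find hall', by omega⟩
        have h3 : e * (j + 1) = e * (Nat.find hall' + 1) + e * d := by
          rw [hd]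
          ring
        have h4 : d ≤ e * d := Nat.le_mul_of_pos_left d he
        omega

theorem sum_thr (r n e a : ℕ) (ha : a ≤ n + 1) (h1 : ∀ j < a, e * (j + 1) ≤ j + r + 2)
    (h2 : ∀ j, a ≤ j → j ≤ n → j + r + 2 ≤ e * (j + 1)) :
    ∑ j ∈ Finset.range (n + 1), min (j + r + 2) (e * (j + 1)) = e * (a + 1).choose 2 + dM r n a := by
  rw [← Finset.sum_range_add_sum_Ico _ ha, ← sum_range_succ_choose, Finset.mul_sum]
  congr 1
  · refine Finset.sum_congr rfl fun j hj => ?_
    exact min_eq_right (h1 j (Finset.mem_range.1 hj))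
  · unfold dM
    have : Finset.Icc a n = Finset.Ico a (n + 1) := rfl
    rw [this]
    refine Finset.sum_congr rfl fun j hj => ?_
    rw [Finset.mem_Ico] at hj
    exact min_eq_left (h2 j hj.1 (by omega))

theorem edgeS_ge (δ : ℕ) (a : V → ℕ) (ha : ∀ v, a v ≤ δ) (x y : V) (hxy : x ≠ y) :
    (δ + 1).choose 2 ≤ edgeS δ a {x, y} + ∑ v ∈ ({x, y} : Finset V), (a v + 1).choose 2 := by
  unfold edgeS
  rw [Finset.sum_pair hxy, Finset.sum_pair hxy, Finset.prod_pair hxy]
  split_ifs with h
  · omega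
  · have h1 := ha x
    have h2 := ha y
    obtain ⟨u, hu⟩ : ∃ u, δ = a x + u := ⟨δ - a x, by omega⟩
    obtain ⟨w, hw⟩ : ∃ w, δ = a y + w := ⟨δ - a y, by omega⟩
    have e1 : δ - a x = u := by omega
    have e2 : δ - a y = w := by omega
    rw [e1, e2]
    have h3 := choose_two_int δ
    have h4 := choose_two_int (a x)
    have h5 := choose_two_int (a y)
    have e3 : (a x : ℤ) = δ - u := by
      rw [hu]
      push_cast
      ring
    have e4 : (a y : ℤ) = δ - w := by
      rw [hw]
      push_cast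
      ring
    rw [e3] at h4
    rw [e4] at h5
    have h6 : (u : ℤ) + w < δ := by
      have : u + w < δ := by omega
      exact_mod_cast this
    have goal : (((δ + 1).choose 2 : ℕ) : ℤ) ≤
        ((u * w + ((a x + 1).choose 2 + (a y + 1).choose 2) : ℕ) : ℤ) := by
      push_cast
      nlinarith [mul_nonneg (sub_nonneg.2 h6.le) (by linarith : (0 : ℤ) ≤ δ - (u + w) + 1)]
    exact_mod_cast goal

/-- the lower bound by super splines is at least Schumaker's lower bound -/
theorem super_ge (r k : ℕ) (hk : r < k) (T : Finset (Finset V)) :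
    ∃ a : V → ℕ, (∀ v, a v ≤ k - r) ∧
      ((k + 2).choose 2 + (k - r + 1).choose 2 * (EI T).card - gam r k * (VI T).card +
        ∑ v ∈ VI T, (sig r k (nbrs T v).card : ℤ)) ≤ SupB r k T a := by
  obtain ⟨n, rfl⟩ : ∃ n, k = n + r + 1 := ⟨k - r - 1, by omega⟩
  have e1 : n + r + 1 - r = n + 1 := by omega
  rw [e1]
  choose f hf1 hf2 hf3 using fun v : V => exists_thr r n (nbrs T v).card
  set a : V → ℕ := fun v => if v ∈ VI T then f v else 0 with hadef
  have ha : ∀ v, a v ≤ n + 1 := by
    intro v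
    rw [hadef]
    dsimp only
    split_ifs
    · exact hf1 v
    · omega
  refine ⟨a, ha, ?_⟩
  have hs : ∑ v ∈ VI T, ∑ j ∈ Finset.range (n + 1), min (j + r + 2) ((nbrs T v).card * (j + 1)) +
      ∑ v ∈ VI T, sig r (n + r + 1) (nbrs T v).card = gam r (n + r + 1) * (VI T).card := by
    rw [← Finset.sum_add_distrib, Finset.sum_congr rfl fun v _ => sum_min r n (nbrs T v).card,
      Finset.sum_const, smul_eq_mul, Nat.mul_comm]
  have hs2 : ∑ v ∈ VI T, ∑ j ∈ Finset.range (n + 1), min (j + r + 2) ((nbrs T v).card * (j + 1)) =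
      ∑ v ∈ VI T, (nbrs T v).card * (a v + 1).choose 2 + ∑ v ∈ VI T, dM r n (a v) := by
    rw [← Finset.sum_add_distrib]
    refine Finset.sum_congr rfl fun v hv => ?_
    have e : a v = f v := by
      rw [hadef]
      simp [hv]
    rw [e]
    exact sum_thr r n _ (f v) (hf1 v) (hf2 v) (hf3 v)
  have hs3 : ∑ e ∈ EI T, ∑ v ∈ e, (a v + 1).choose 2 ≤
      ∑ v ∈ VI T, (nbrs T v).card * (a v + 1).choose 2 := by
    have h1 : ∀ e ∈ EI T, ∑ v ∈ e, (a v + 1).choose 2 =
        ∑ v ∈ VI T, if v ∈ e then (a v + 1).choose 2 else 0 := by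
      intro e _
      rw [← Finset.sum_filter]
      refine (Finset.sum_subset (fun v hv => (Finset.mem_filter.1 hv).2) ?_).symm
      intro v hv hv2
      have h3 : v ∉ VI T := fun h => hv2 (Finset.mem_filter.2 ⟨h, hv⟩)
      have h4 : a v = 0 := by
        rw [hadef]
        simp [h3]
      rw [h4]
      rfl
    rw [Finset.sum_congr rfl h1, Finset.sum_comm]
    refine Finset.sum_le_sum fun v hv => ?_
    rw [← Finset.sum_filter, Finset.sum_const, smul_eq_mul]
    apply Nat.mul_le_mul_right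
    have h2 : (EI T).filter (fun e => v ∈ e) ⊆ (nbrs T v).image fun y => ({v, y} : Finset V) := by
      intro e he
      rw [Finset.mem_filter, mem_EI] at he
      obtain ⟨⟨x, y, hxy, h5, rfl⟩, h6⟩ := he
      rw [Finset.mem_insert, Finset.mem_singleton] at h6
      rw [Finset.mem_image]
      rcases h6 with rfl | rfl
      · exact ⟨y, (mem_nbrs v y).2 ((edge_iff v y).2 ⟨hxy, by omega⟩), rfl⟩
      · refine ⟨x, (mem_nbrs v x).2 ((edge_iff v x).2 ⟨hxy.symm, ?_⟩), Finset.pair_comm _ _⟩
        rw [ecount_comm]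
        omega
    exact (Finset.card_le_card h2).trans Finset.card_image_le
  have hs4 : (n + 2).choose 2 * (EI T).card ≤
      ∑ e ∈ EI T, edgeS (n + 1) a e + ∑ e ∈ EI T, ∑ v ∈ e, (a v + 1).choose 2 := by
    rw [← Finset.sum_add_distrib, Nat.mul_comm, ← smul_eq_mul]
    refine Finset.card_nsmul_le_sum _ _ _ fun e he => ?_
    rw [mem_EI] at he
    obtain ⟨x, y, hxy, -, rfl⟩ := he
    exact edgeS_ge (n + 1) a ha x y hxy
  unfold SupB
  rw [e1]
  have h2 : ∑ v ∈ VI T, (((n + r + 1 + 2).choose 2 : ℤ) - ((r + a v + 2).choose 2 : ℤ)) =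
      ((∑ v ∈ VI T, dM r n (a v) : ℕ) : ℤ) := by
    push_cast
    refine Finset.sum_congr rfl fun v _ => ?_
    have h3 := dM_eq r n (a v) (ha v)
    push_cast at h3
    linarith
  rw [h2]
  have g1 : ((∑ v ∈ VI T, ∑ j ∈ Finset.range (n + 1), min (j + r + 2) ((nbrs T v).card * (j + 1)) +
      ∑ v ∈ VI T, sig r (n + r + 1) (nbrs T v).card : ℕ) : ℤ) = ((gam r (n + r + 1) * (VI T).card : ℕ) : ℤ) := by
    rw [hs]
  have g2 : (((n + 2).choose 2 * (EI T).card : ℕ) : ℤ) ≤
      ((∑ e ∈ EI T, edgeS (n + 1) a e + ∑ e ∈ EI T, ∑ v ∈ e, (a v + 1).choose 2 : ℕ) : ℤ) := by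
    exact_mod_cast hs4
  have g3 : ((∑ e ∈ EI T, ∑ v ∈ e, (a v + 1).choose 2 : ℕ) : ℤ) ≤
      ((∑ v ∈ VI T, (nbrs T v).card * (a v + 1).choose 2 : ℕ) : ℤ) := by
    exact_mod_cast hs3
  rw [hs2] at g1
  have e3 : n + 1 + 1 = n + 2 := rfl
  rw [e3]
  push_cast at g1 g2 g3 ⊢
  linarith

end BSpl
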