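import Pool.Agent.BSpl.SupE

/-!
# Bivariate splines, module SupPlus: the lower bound by super splines is not always sharp

Let `x`, `y` be adjacent interior vertices, `P` a neighbour of `x`, `Q` a neighbour of `y` and `M` a common point of the lines
`x P` and `y Q` (possibly at infinity). The functional `w ↦ c₁ • D (w x) - c₂ • D (w y)`, where `D` is the homogeneous
derivative of order `k` in the directions of the other neighbours `z` of `x` and `y` (`k - r - a z` times) and of `M`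
(otherwise), vanishes on the image of the super cofactors. So the count of `SupLow` can be improved by one.
-/

set_option autoImplicit false

namespace BSpl

open MvPolynomial

variable {V : Type} [DecidableEq V]

theorem exists_dir (S : Finset Pt) (hS : ∀ v ∈ S, v ≠ 0) :
    ∃ d : Pt, ∀ v ∈ S, d 1 * v 0 - d 0 * v 1 ≠ 0 := by
  classical
  obtain ⟨t, ht⟩ := Infinite.exists_notMem_finset (S.image fun v => v 1 / v 0)
  refine ⟨![1, t], fun v hv h => ?_⟩
  simp only [Matrix.cons_val_zero, Matrix.cons_val_one, one_mul] at h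
  by_cases h0 : v 0 = 0
  · apply hS v hv
    funext i
    rw [h0, mul_zero, zero_sub, neg_eq_zero] at h
    fin_cases i
    · exact h0
    · exact h
  · apply ht
    rw [Finset.mem_image]
    refine ⟨v, hv, ?_⟩
    rw [div_eq_iff h0]
    linarith

/-- a common point of two lines -/
theorem exists_common (x d y e : Pt) : ∃ M : Hv, M ≠ 0 ∧ lv x d M = 0 ∧ lv y e M = 0 := by
  let g : Hv →ₗ[ℝ] (Fin 2 → ℝ) :=
    { toFun := fun w => ![lv x d w, lv y e w]
      map_add' := by
        intro u v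
        funext i
        fin_cases i <;> simp [lv] <;> ring
      map_smul' := by
        intro c u
        funext i
        fin_cases i <;> simp [lv] <;> ring }
  have h : LinearMap.ker g ≠ ⊥ := LinearMap.ker_ne_bot_of_finrank_lt (by simp)
  obtain ⟨M, hM, hM0⟩ := (Submodule.ne_bot_iff _).1 h
  have h2 : g M = 0 := hM
  refine ⟨M, hM0, ?_, ?_⟩
  · have := congrFun h2 0
    simpa [g] using this
  · have := congrFun h2 1
    simpa [g] using this

/-- the vertices of a geometric triangulation are different points -/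
theorem IsTri.inj {T : Finset (Finset V)} {p : V → Pt} (hT : ∀ t ∈ T, t.card = 3) (hp : IsTri T p)
    {u v : V} (hu : u ∈ verts T) (hv : v ∈ verts T) (huv : u ≠ v) : p u ≠ p v := by
  intro he
  unfold verts at hu hv
  rw [Finset.mem_biUnion] at hu hv
  obtain ⟨t, ht, hut⟩ := hu
  obtain ⟨t', ht', hvt⟩ := hv
  simp only [id] at hut hvt
  by_cases hut' : u ∈ t'
  · have := (hp.indep t' ht').injective (a₁ := ⟨u, hut'⟩) (a₂ := ⟨v, hvt⟩) he
    exact huv (congrArg Subtype.val this)
  · obtain ⟨x, y, hxy, hxt⟩ : ∃ x y, x ≠ y ∧ t.erase u = {x, y} := by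
      have h1 : (t.erase u).card = 2 := by
        rw [Finset.card_erase_of_mem hut, hT t ht]
      obtain ⟨x, y, hxy, h2⟩ := Finset.card_eq_two.1 h1
      exact ⟨x, y, hxy, h2⟩
    have hx : x ∈ t.erase u := by rw [hxt]; simp
    have hy : y ∈ t.erase u := by rw [hxt]; simp
    have ht3 : t = {x, y, u} := by
      ext z
      have h1 : z ∈ t.erase u ↔ z ∈ ({x, y} : Finset V) := by rw [hxt]
      rw [Finset.mem_erase, Finset.mem_insert, Finset.mem_singleton] at h1
      rw [Finset.mem_insert, Finset.mem_insert, Finset.mem_singleton]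
      by_cases hz : z = u
      · simp [hz, hut]
      · constructor
        · intro h
          rcases h1.1 ⟨hz, h⟩ with h | h
          · exact Or.inl h
          · exact Or.inr (Or.inl h)
        · rintro (h | h | h)
          · exact (h1.2 (Or.inl h)).2
          · exact (h1.2 (Or.inr h)).2
          · exact absurd h hz
    have h1 : p u ∈ hull p t ∩ hull p t' := by
      refine ⟨subset_convexHull ℝ _ ⟨u, hut, rfl⟩, ?_⟩
      rw [he]
      exact subset_convexHull ℝ _ ⟨v, hvt, rfl⟩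
    rw [hp.inter t ht t' ht'] at h1
    have h2 : t ∩ t' ⊆ {x, y} := by
      intro z hz
      rw [Finset.mem_inter] at hz
      rw [← hxt, Finset.mem_erase]
      refine ⟨?_, hz.1⟩
      rintro rfl
      exact hut' hz.2
    have h3 := hull_mono p h2 h1
    rw [hull_two] at h3
    obtain ⟨s, s', _, _, hs, h4⟩ := h3
    have h5 : area (p x) (p y) (p u) ≠ 0 := by
      have hi := hp.indep t ht
      rw [ht3] at hi
      exact (indep_iff p x y u hxy (Finset.ne_of_mem_erase hx)
        (Finset.ne_of_mem_erase hy)).1 hi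
    apply h5
    rw [← h4, area_def]
    have e : s' = 1 - s := by linarith
    subst e
    simp only [Pi.add_apply, Pi.smul_apply, smul_eq_mul]
    ring

/-- products of subspaces -/
private def prodS {ι : Type} (I : Finset ι) (R : ι → Submodule ℝ Pol) : Submodule ℝ (ι → Pol) where
  carrier := {w | (∀ x ∈ I, w x ∈ R x) ∧ ∀ x, x ∉ I → w x = 0}
  zero_mem' := ⟨fun x _ => Submodule.zero_mem _, fun x _ => rfl⟩
  add_mem' := by
    intro a b ha hb
    refine ⟨fun t ht => Submodule.add_mem _ (ha.1 t ht) (hb.1 t ht), fun t ht => ?_⟩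
    rw [Pi.add_apply, ha.2 t ht, hb.2 t ht, add_zero]
  smul_mem' := by
    intro c a ha
    refine ⟨fun t ht => Submodule.smul_mem _ _ (ha.1 t ht), fun t ht => ?_⟩
    rw [Pi.smul_apply, ha.2 t ht, smul_zero]

open Classical in
private noncomputable def prodSEquiv {ι : Type} (I : Finset ι) (R : ι → Submodule ℝ Pol) :
    prodS I R ≃ₗ[ℝ] ((x : {x // x ∈ I}) → R x.1) where
  toFun w x := ⟨w.1 x.1, w.2.1 x.1 x.2⟩
  map_add' a b := rfl
  map_smul' c a := rfl
  invFun f := ⟨fun x => if h : x ∈ I then (f ⟨x, h⟩ : Pol) else 0, by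
    refine ⟨fun x hx => ?_, fun x hx => ?_⟩
    · simp only [hx, dif_pos]
      exact (f ⟨x, hx⟩).2
    · simp only [hx, dif_neg, not_false_eq_true]⟩
  left_inv w := by
    apply Subtype.ext
    funext x
    by_cases h : x ∈ I
    · simp [h]
    · simp [h, w.2.2 x h]
  right_inv f := by
    funext x
    apply Subtype.ext
    simp [x.2]

private theorem prodS_fd {ι : Type} (I : Finset ι) (R : ι → Submodule ℝ Pol)
    (h : ∀ x, FiniteDimensional ℝ (R x)) : FiniteDimensional ℝ (prodS I R) := by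
  have := h
  exact Module.Finite.equiv (prodSEquiv I R).symm

private theorem prodS_finrank {ι : Type} (I : Finset ι) (R : ι → Submodule ℝ Pol)
    (h : ∀ x, FiniteDimensional ℝ (R x)) :
    Module.finrank ℝ (prodS I R) = ∑ x ∈ I, Module.finrank ℝ (R x) := by
  have := h
  rw [LinearEquiv.finrank_eq (prodSEquiv I R), Module.finrank_pi_fintype]
  exact Finset.sum_coe_sort I (fun x => Module.finrank ℝ (R x))

/-- the cofactors of an edge with prescribed orders -/
private noncomputable def RF (n : ℕ) (a : V → ℕ) (p : V → Pt) (e : Finset V) : Submodule ℝ Pol :=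
  Deg n ⊓ ⨅ v ∈ e, Ord (p v) (a v)

private theorem RF_pair (n : ℕ) (a : V → ℕ) (p : V → Pt) (x y : V) :
    RF n a p {x, y} = Deg n ⊓ Ord (p x) (a x) ⊓ Ord (p y) (a y) := by
  unfold RF
  rw [inf_assoc]
  congr 1
  apply le_antisymm
  · exact le_inf (iInf₂_le x (by simp)) (iInf₂_le y (by simp))
  · refine le_iInf₂ fun v hv => ?_
    rw [Finset.mem_insert, Finset.mem_singleton] at hv
    rcases hv with rfl | rfl
    · exact inf_le_left
    · exact inf_le_right

private theorem RF_fd (n : ℕ) (a : V → ℕ) (p : V → Pt) (e : Finset V) :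
    FiniteDimensional ℝ (RF n a p e) := by
  have := finiteDimensional_Deg n
  exact Submodule.finiteDimensional_of_le (inf_le_left : RF n a p e ≤ Deg n)

/-- codimension of the common kernel of `m` functionals with a dual family -/
theorem finrank_ker_add {E : Type} [AddCommGroup E] [Module ℝ E] (m : ℕ) (N : Submodule ℝ E) [FiniteDimensional ℝ N]
    (φ : Fin m → E →ₗ[ℝ] ℝ) (w : Fin m → E) (hw : ∀ i, w i ∈ N) (hoff : ∀ i j, i ≠ j → φ j (w i) = 0)
    (hdiag : ∀ i, φ i (w i) ≠ 0) :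
    Module.finrank ℝ (N ⊓ LinearMap.ker (LinearMap.pi φ) : Submodule ℝ E) + m = Module.finrank ℝ N := by
  let g : N →ₗ[ℝ] (Fin m → ℝ) := (LinearMap.pi φ).domRestrict N
  have hg : LinearMap.range g = ⊤ := by
    rw [LinearMap.range_eq_top]
    intro c
    refine ⟨∑ i, (c i / φ i (w i)) • (⟨w i, hw i⟩ : N), ?_⟩
    rw [map_sum]
    funext j
    rw [Finset.sum_apply, Finset.sum_eq_single j]
    · rw [map_smul]
      show (c j / φ j (w j)) * φ j (w j) = c j
      exact div_mul_cancel₀ _ (hdiag j)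
    · intro i _ hij
      rw [map_smul]
      show (c i / φ i (w i)) * φ j (w i) = 0
      rw [hoff i j hij, mul_zero]
    · intro h
      exact absurd (Finset.mem_univ j) h
  have h1 := LinearMap.finrank_range_add_finrank_ker g
  rw [hg, finrank_top, Module.finrank_pi, Fintype.card_fin] at h1
  have h2 : (LinearMap.ker g).map N.subtype = N ⊓ LinearMap.ker (LinearMap.pi φ) := by
    ext x
    rw [Submodule.mem_map, Submodule.mem_inf]
    constructor
    · rintro ⟨y, hy, rfl⟩
      exact ⟨y.2, hy⟩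
    · rintro ⟨hx, hx2⟩
      exact ⟨⟨x, hx⟩, hx2, rfl⟩
  rw [← h2, Submodule.finrank_map_subtype_eq]
  omega

/-- the count with `m` functionals -/
theorem KK_super_func (r n : ℕ) (α : V → V → ℝ) (T : Finset (Finset V)) (p : V → Pt)
    (hp : ∀ x y, Edge T x y → p x ≠ p y) (a : V → ℕ) (ha : ∀ v, a v ≤ n + 1) (m : ℕ)
    (φ : Fin m → (V → Pol) →ₗ[ℝ] ℝ)
    (hφ : ∀ i, ∀ q : Finset V → Pol, (∀ x y, Edge T x y → {x, y} ∈ EI T →
      q {x, y} ∈ Deg n ∧ q {x, y} ∈ Ord (p x) (a x) ∧ q {x, y} ∈ Ord (p y) (a y)) → φ i (Phi r α T p q) = 0)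
    (w : Fin m → V → Pol)
    (hw : ∀ i, ∀ v ∈ VI T, w i v ∈ Deg (n + r + 1) ∧ w i v ∈ Ord (p v) (r + a v + 1))
    (hw0 : ∀ i, ∀ v, v ∉ VI T → w i v = 0) (hoff : ∀ i j, i ≠ j → φ j (w i) = 0)
    (hdiag : ∀ i, φ i (w i) ≠ 0) :
    ∑ e ∈ EI T, edgeS (n + 1) a e + m ≤ Module.finrank ℝ (KK r n α T p) + ∑ v ∈ VI T, dM r n (a v) := by
  have hD : FiniteDimensional ℝ (prodS (EI T) (RF n a p)) := prodS_fd _ _ (fun e => RF_fd n a p e)
  have h1 := rank_null r α T p (prodS (EI T) (RF n a p)) hD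
  have hM : ∀ v : V, FiniteDimensional ℝ (Deg (n + r + 1) ⊓ Ord (p v) (r + a v + 1) : Submodule ℝ Pol) := by
    intro v
    have := finiteDimensional_Deg (n + r + 1)
    exact Submodule.finiteDimensional_of_le (inf_le_left : _ ≤ Deg (n + r + 1))
  have h3 := prodS_fd (VI T) _ hM
  have h2 : (prodS (EI T) (RF n a p)).map (Phi r α T p) ≤ (prodS (VI T)
      (fun v => Deg (n + r + 1) ⊓ Ord (p v) (r + a v + 1)) ⊓ LinearMap.ker (LinearMap.pi φ) :
        Submodule ℝ (V → Pol)) := by
    rw [Submodule.map_le_iff_le_comap]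
    intro q hq
    rw [Submodule.mem_comap]
    refine ⟨⟨fun v hv => ?_, fun v hv => ?_⟩, ?_⟩
    · have e : Phi r α T p q v = ∑ y ∈ nbrs T v,
          α v y • (q {v, y} * ell (p v) (p y) ^ (r + 1)) := by
        simp [Phi, hv]
      rw [e]
      refine Submodule.sum_mem _ fun y hy => Submodule.smul_mem _ _ ?_
      have hE : {v, y} ∈ EI T := by
        rw [mem_EI]
        have h3 := (mem_nbrs v y).1 hy
        exact ⟨v, y, h3.1, ((mem_VI v).1 hv).2 y h3, rfl⟩
      have h3 := hq.1 _ hE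
      rw [RF_pair] at h3
      refine ⟨?_, ?_⟩
      · have h4 := mul_mem_Deg h3.1.1 (pow_mem_Deg (ell_mem_Deg (p v) (p y)) (r + 1))
        exact Deg_mono (by omega) h4
      · have h4 := mul_mem_Ord h3.1.2 (pow_mem_Ord (ell_mem_Ord_left (p v) (p y)) (r + 1))
        exact Ord_anti (by omega) h4
    · simp [Phi, hv]
    · show (LinearMap.pi φ) (Phi r α T p q) = 0
      funext i
      show φ i (Phi r α T p q) = 0
      apply hφ
      intro x y _ hE
      have h4 := hq.1 _ hE
      rw [RF_pair] at h4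
      exact ⟨h4.1.1, h4.1.2, h4.2⟩
  have h4 := finrank_ker_add m (prodS (VI T) (fun v => Deg (n + r + 1) ⊓ Ord (p v) (r + a v + 1))) φ w
    (fun i => ⟨fun v hv => hw i v hv, hw0 i⟩) hoff hdiag
  have hfd : FiniteDimensional ℝ (prodS (VI T) (fun v => Deg (n + r + 1) ⊓ Ord (p v) (r + a v + 1)) ⊓
      LinearMap.ker (LinearMap.pi φ) : Submodule ℝ (V → Pol)) :=
    Submodule.finiteDimensional_of_le inf_le_left
  have h4' := Submodule.finrank_mono h2
  rw [prodS_finrank (VI T) _ hM, Finset.sum_congr rfl fun v _ => finrank_M r n (a v) (p v)] at h4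
  have h5 : (prodS (EI T) (RF n a p) ⊓ LinearMap.ker (Phi r α T p) : Submodule ℝ (Finset V → Pol)) ≤
      KK r n α T p := by
    rw [KK_eq]
    refine inf_le_inf_right _ ?_
    intro q hq
    exact ⟨fun e he => (hq.1 e he).1, hq.2⟩
  have hK : FiniteDimensional ℝ (KK r n α T p) := finiteDimensional_KK r n α T p
  have h6 := Submodule.finrank_mono h5
  have h7 : ∑ e ∈ EI T, edgeS (n + 1) a e ≤ Module.finrank ℝ (prodS (EI T) (RF n a p)) := by
    rw [prodS_finrank (EI T) _ (fun e => RF_fd n a p e)]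
    refine Finset.sum_le_sum fun e he => ?_
    rw [mem_EI] at he
    obtain ⟨x, y, hxy, he2, rfl⟩ := he
    rw [RF_pair]
    have hE : Edge T x y := (edge_iff x y).2 ⟨hxy, by omega⟩
    have h8 := edge_dim n (a x) (a y) (p x) (p y) (hp x y hE) (ha x) (ha y)
    unfold edgeS
    rw [Finset.sum_pair hxy, Finset.sum_pair hxy, Finset.prod_pair hxy]
    exact h8
  omega

/-- the value at the origin -/
noncomputable def ev0 : Pol →ₗ[ℝ] ℝ := (aeval (fun _ : Fin 2 => (0 : ℝ))).toLinearMap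

theorem ev0_C (c : ℝ) : ev0 (C c) = c := by
  simp [ev0]

/-- the neighbours of `x` and `y` other than `x`, `y`, `P` (for `x`), `Q` (for `y`) -/
def others (T : Finset (Finset V)) (x y P Q : V) : Finset V :=
  ((nbrs T x).erase y).erase P ∪ ((nbrs T y).erase x).erase Q

/-- the list of directions -/
noncomputable def dirs (n r : ℕ) (a : V → ℕ) (p : V → Pt) (S : Finset V) (M : Hv) : List Hv :=
  List.replicate (n + 1 + (r - ∑ w ∈ S, (n + 1 - a w))) M ++
    (S.toList.map fun w => List.replicate (n + 1 - a w) (hv (p w))).flatten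

theorem dirs_length (n r : ℕ) (a : V → ℕ) (p : V → Pt) (S : Finset V) (M : Hv)
    (h : ∑ w ∈ S, (n + 1 - a w) ≤ r) : (dirs n r a p S M).length = n + r + 1 := by
  unfold dirs
  rw [List.length_append, List.length_replicate, List.length_flatten, List.map_map]
  have e : (S.toList.map (List.length ∘ fun w => List.replicate (n + 1 - a w) (hv (p w)))).sum =
      ∑ w ∈ S, (n + 1 - a w) := by
    have e2 : (List.length ∘ fun w => List.replicate (n + 1 - a w) (hv (p w))) =
        fun w => n + 1 - a w := by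
      funext w
      simp
    rw [e2]
    exact Finset.sum_map_toList S _
  rw [e]
  omega

/-- at a vertex `x` all edges but `x y` are killed -/
theorem kill (n r : ℕ) (α : V → V → ℝ) (T : Finset (Finset V)) (p : V → Pt) (a : V → ℕ)
    (ha : ∀ v, a v ≤ n + 1) (S : Finset V) (M : Hv) (hS : ∑ w ∈ S, (n + 1 - a w) ≤ r)
    (x y P : V) (hx : x ∈ VI T) (hxy : Edge T x y)
    (hxS : ((nbrs T x).erase y).erase P ⊆ S) (hM : EE 1 M (ell (p x) (p P)) = 0)
    (q : Finset V → Pol) (hq : ∀ x y, Edge T x y → {x, y} ∈ EI T →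
      q {x, y} ∈ Deg n ∧ q {x, y} ∈ Ord (p x) (a x) ∧ q {x, y} ∈ Ord (p y) (a y)) :
    Bl (dirs n r a p S M) (Phi r α T p q x) =
      α x y • Bl (dirs n r a p S M) (q {x, y} * ell (p x) (p y) ^ (r + 1)) := by
  have e : Phi r α T p q x = ∑ z ∈ nbrs T x, α x z • (q {x, z} * ell (p x) (p z) ^ (r + 1)) := by
    simp [Phi, hx]
  have hl := dirs_length n r a p S M hS
  rw [e, map_sum, Finset.sum_eq_single y]
  · rw [map_smul]
  · intro z hz hzy
    have hE0 := (mem_nbrs x z).1 hz
    have hE : {x, z} ∈ EI T := by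
      rw [mem_EI]
      exact ⟨x, z, hE0.1, ((mem_VI x).1 hx).2 z hE0, rfl⟩
    obtain ⟨h1, h2, h3⟩ := hq x z hE0 hE
    rw [map_smul, mul_comm (q {x, z})]
    have : Bl (dirs n r a p S M) (ell (p x) (p z) ^ (r + 1) * q {x, z}) = 0 := by
      by_cases hzP : z = P
      · subst hzP
        have e1 : dirs n r a p S M = List.replicate (n + 1) M ++
            (List.replicate (r - ∑ w ∈ S, (n + 1 - a w)) M ++
              (S.toList.map fun w => List.replicate (n + 1 - a w) (hv (p w))).flatten) := by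
          unfold dirs
          rw [List.replicate_add, List.append_assoc]
        have hl2 := hl
        rw [e1, List.length_append, List.length_replicate] at hl2
        rw [e1]
        exact Bl_line n M _ _ _ (r + 1) (by omega) hM h1
      · have hzS : z ∈ S := hxS (Finset.mem_erase.2 ⟨hzP, Finset.mem_erase.2 ⟨hzy, hz⟩⟩)
        have hsub : List.Sublist (List.replicate (n + 1 - a z) (hv (p z))) (dirs n r a p S M) := by
          unfold dirs
          refine List.Sublist.trans ?_ (List.sublist_append_right _ _)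
          apply List.sublist_flatten_of_mem
          rw [List.mem_map]
          exact ⟨z, Finset.mem_toList.2 hzS, rfl⟩
        obtain ⟨l', hl'⟩ := hsub.exists_perm_append
        have hl2 := hl'.length_eq
        rw [hl, List.length_append, List.length_replicate] at hl2
        have haz := ha z
        rw [Bl_perm hl']
        exact Bl_vert (n + 1 - a z) (a z) (p z) l' _ _ (r + 1) n (by omega) (by omega)
          (EE_ell_right _ _) h1 h3
    rw [this, smul_zero]
  · intro h
    exact absurd ((mem_nbrs x y).2 hxy) h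

/-- the witness -/
theorem witness (n r : ℕ) (a : V → ℕ) (p : V → Pt) (S : Finset V) (M : Hv)
    (hS : ∑ w ∈ S, (n + 1 - a w) ≤ r) (x : V) (hxS : ∀ w ∈ S, p w ≠ p x)
    (hM : (![M 0 - M 2 * p x 0, M 1 - M 2 * p x 1] : Pt) ≠ 0) :
    ∃ d : Pt, ev0 (Bl (dirs n r a p S M) (tr (p x) (lf d) ^ (n + r + 1))) ≠ 0 := by
  classical
  obtain ⟨d, hd⟩ := exists_dir (insert (![M 0 - M 2 * p x 0, M 1 - M 2 * p x 1] : Pt)
    (S.image fun w => p w - p x)) (by
      intro v hv
      rw [Finset.mem_insert, Finset.mem_image] at hv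
      rcases hv with rfl | ⟨w, hw, rfl⟩
      · exact hM
      · exact sub_ne_zero.2 (hxS w hw))
  refine ⟨d, ?_⟩
  have hl := dirs_length n r a p S M hS
  have h1 := Bl_pow (tr (p x) (lf d)) (lv (p x) d) (fun w => EE_line (p x) d w) (dirs n r a p S M)
  rw [hl] at h1
  rw [h1, ev0_C]
  refine mul_ne_zero (by exact_mod_cast Nat.factorial_ne_zero _) ?_
  apply List.prod_ne_zero
  intro h0
  rw [List.mem_map] at h0
  obtain ⟨w, hw, hw0⟩ := h0
  unfold dirs at hw
  rw [List.mem_append] at hw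
  rcases hw with hw | hw
  · have hwM := List.eq_of_mem_replicate hw
    subst hwM
    have := hd _ (Finset.mem_insert_self _ _)
    apply this
    simpa [lv] using hw0
  · rw [List.mem_flatten] at hw
    obtain ⟨l, hl, hwl⟩ := hw
    rw [List.mem_map] at hl
    obtain ⟨z, hz, rfl⟩ := hl
    have hwz := List.eq_of_mem_replicate hwl
    subst hwz
    have := hd (p z - p x) (Finset.mem_insert_of_mem (Finset.mem_image_of_mem _ (Finset.mem_toList.1 hz)))
    apply this
    simpa [lv, hv] using hw0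

/-- a special edge `x y`: all other neighbours of `x` and `y` but one, `P` and `Q`, have large thresholds -/
def GoodEdge (r k : ℕ) (T : Finset (Finset V)) (a : V → ℕ) (x y : V) : Prop :=
  x ∈ VI T ∧ y ∈ VI T ∧ Edge T x y ∧ a x < k - r ∧ a y < k - r ∧
    ∃ P Q, Edge T x P ∧ P ≠ y ∧ Edge T y Q ∧ Q ≠ x ∧ ∑ w ∈ others T x y P Q, (k - r - a w) ≤ r

/-- the functional of a good edge -/
theorem exists_func (r n : ℕ) (α : V → V → ℝ) (hα : ∀ x y, α x y ≠ 0) (T : Finset (Finset V)) (p : V → Pt)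
    (hinj : ∀ x y, x ∈ verts T → y ∈ verts T → x ≠ y → p x ≠ p y)
    (a : V → ℕ) (ha : ∀ v, a v ≤ n + 1) (x y P Q : V) (hx : x ∈ VI T) (hy : y ∈ VI T) (hxy : Edge T x y)
    (hax : a x ≤ n) (hay : a y ≤ n)
    (hsum : ∑ w ∈ others T x y P Q, (n + 1 - a w) ≤ r) :
    ∃ (φ : (V → Pol) →ₗ[ℝ] ℝ) (z : V) (u : Pol), (z = x ∨ z = y) ∧ (∀ w : V → Pol, w x = 0 → w y = 0 → φ w = 0) ∧
      (∀ q : Finset V → Pol, (∀ x y, Edge T x y → {x, y} ∈ EI T →
        q {x, y} ∈ Deg n ∧ q {x, y} ∈ Ord (p x) (a x) ∧ q {x, y} ∈ Ord (p y) (a y)) →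
        φ (Phi r α T p q) = 0) ∧
      u ∈ Deg (n + r + 1) ∧ u ∈ Ord (p z) (r + a z + 1) ∧ φ (Pi.single z u) ≠ 0 := by
  obtain ⟨M, hM0, hM1, hM2⟩ := exists_common (p x) (p P - p x) (p y) (p Q - p y)
  have hE1 : EE 1 M (ell (p x) (p P)) = 0 := by
    rw [ell_eq_left, EE_line, hM1, C_0]
  have hE2 : EE 1 M (ell (p y) (p Q)) = 0 := by
    rw [ell_eq_left, EE_line, hM2, C_0]
  set S := others T x y P Q with hSdef
  set l := dirs n r a p S M with hldef
  have hvx : x ∈ verts T := ((mem_VI x).1 hx).1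
  have hvy : y ∈ verts T := ((mem_VI y).1 hy).1
  have hvS : ∀ w ∈ S, w ∈ verts T ∧ w ≠ x ∧ w ≠ y := by
    intro w hw
    rw [hSdef] at hw
    unfold others at hw
    rw [Finset.mem_union, Finset.mem_erase, Finset.mem_erase, Finset.mem_erase, Finset.mem_erase] at hw
    rcases hw with ⟨h1, h2, h3⟩ | ⟨h1, h2, h3⟩
    · exact ⟨(Finset.mem_filter.1 h3).1, ((mem_nbrs x w).1 h3).1.symm, h2⟩
    · exact ⟨(Finset.mem_filter.1 h3).1, h2, ((mem_nbrs y w).1 h3).1.symm⟩
  let φ : (V → Pol) →ₗ[ℝ] ℝ :=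
    (α y x * (-1) ^ (r + 1)) • (ev0 ∘ₗ Bl l ∘ₗ LinearMap.proj x) - (α x y) • (ev0 ∘ₗ Bl l ∘ₗ LinearMap.proj y)
  have hφdef : ∀ w, φ w = (α y x * (-1) ^ (r + 1)) * ev0 (Bl l (w x)) - (α x y) * ev0 (Bl l (w y)) := by
    intro w
    rfl
  have hneg : ((-1 : ℝ) ^ (r + 1)) ≠ 0 := pow_ne_zero _ (by norm_num)
  have hφ : ∀ q : Finset V → Pol, (∀ x y, Edge T x y → {x, y} ∈ EI T →
      q {x, y} ∈ Deg n ∧ q {x, y} ∈ Ord (p x) (a x) ∧ q {x, y} ∈ Ord (p y) (a y)) →
      φ (Phi r α T p q) = 0 := by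
    intro q hq
    have hyx : Edge T y x := by
      obtain ⟨h1, t, ht, h2, h3⟩ := hxy
      exact ⟨h1.symm, t, ht, h3, h2⟩
    rw [hφdef, hldef, kill n r α T p a ha S M hsum x y P hx hxy Finset.subset_union_left hE1 q hq,
      kill n r α T p a ha S M hsum y x Q hy hyx Finset.subset_union_right hE2 q hq]
    have e0 : (-ell (p x) (p y)) ^ (r + 1) = (-1 : Pol) ^ (r + 1) * ell (p x) (p y) ^ (r + 1) := neg_pow _ _
    rw [ell_swap (p x) (p y), Finset.pair_comm y x, e0, map_smul, map_smul]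
    have e1 : (q {x, y} * ((-1 : Pol) ^ (r + 1) * ell (p x) (p y) ^ (r + 1))) =
        ((-1 : ℝ) ^ (r + 1)) • (q {x, y} * ell (p x) (p y) ^ (r + 1)) := by
      rw [smul_eq_C_mul, C_pow, C_neg, C_1]
      ring
    rw [e1, map_smul, map_smul]
    simp only [smul_eq_mul]
    ring
  have hcase : (![M 0 - M 2 * p x 0, M 1 - M 2 * p x 1] : Pt) ≠ 0 ∨
      (![M 0 - M 2 * p y 0, M 1 - M 2 * p y 1] : Pt) ≠ 0 := by
    by_contra hc
    push Not at hc
    obtain ⟨h1, h2⟩ := hc
    have a0 := congrFun h1 0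
    have a1 := congrFun h1 1
    have b0 := congrFun h2 0
    have b1 := congrFun h2 1
    simp only [Matrix.cons_val_zero, Matrix.cons_val_one, Pi.zero_apply] at a0 a1 b0 b1
    have hne := hinj x y hvx hvy hxy.1
    have hM20 : M 2 = 0 := by
      by_contra h0
      apply hne
      funext i
      fin_cases i
      · apply mul_left_cancel₀ h0
        show M 2 * p x 0 = M 2 * p y 0
        linarith
      · apply mul_left_cancel₀ h0
        show M 2 * p x 1 = M 2 * p y 1
        linarith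
    apply hM0
    funext i
    rw [hM20] at a0 a1
    fin_cases i
    · show M 0 = 0
      linarith
    · show M 1 = 0
      linarith
    · exact hM20
  have hpow : ∀ (z : V) (d : Pt), a z ≤ n → tr (p z) (lf d) ^ (n + r + 1) ∈ Deg (n + r + 1) ∧
      tr (p z) (lf d) ^ (n + r + 1) ∈ Ord (p z) (r + a z + 1) := by
    intro z d hz
    refine ⟨?_, ?_⟩
    · exact Deg_mono (by omega) (pow_mem_Deg (tr_mem_Deg (p z) (H_le_Deg 1 (lf_H d))) (n + r + 1))
    · exact Ord_anti (by omega) (pow_mem_Ord (tr_mem_Ord (x := p z) (lf_H d)) (n + r + 1))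
  have hloc : ∀ w : V → Pol, w x = 0 → w y = 0 → φ w = 0 := by
    intro w h1 h2
    rw [hφdef, h1, h2, map_zero, map_zero, mul_zero, mul_zero, sub_zero]
  rcases hcase with hc | hc
  · obtain ⟨d, hd⟩ := witness n r a p S M hsum x
      (fun w hw => hinj w x (hvS w hw).1 hvx (hvS w hw).2.1) hc
    refine ⟨φ, x, tr (p x) (lf d) ^ (n + r + 1), Or.inl rfl, hloc, hφ, (hpow x d hax).1, (hpow x d hax).2, ?_⟩
    rw [hφdef, Pi.single_eq_same, Pi.single_eq_of_ne hxy.1.symm, map_zero, map_zero, mul_zero, sub_zero]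
    exact mul_ne_zero (mul_ne_zero (hα y x) hneg) hd
  · obtain ⟨d, hd⟩ := witness n r a p S M hsum y
      (fun w hw => hinj w y (hvS w hw).1 hvy (hvS w hw).2.2) hc
    refine ⟨φ, y, tr (p y) (lf d) ^ (n + r + 1), Or.inr rfl, hloc, hφ, (hpow y d hay).1, (hpow y d hay).2, ?_⟩
    rw [hφdef, Pi.single_eq_same, Pi.single_eq_of_ne hxy.1, map_zero, map_zero, mul_zero, zero_sub]
    exact neg_ne_zero.2 (mul_ne_zero (hα x y) hd)

/-- the improved count -/
theorem KK_super_m (r n : ℕ) (α : V → V → ℝ) (hα : ∀ x y, α x y ≠ 0) (T : Finset (Finset V)) (p : V → Pt)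
    (hp : ∀ x y, Edge T x y → p x ≠ p y)
    (hinj : ∀ x y, x ∈ verts T → y ∈ verts T → x ≠ y → p x ≠ p y)
    (a : V → ℕ) (ha : ∀ v, a v ≤ n + 1) (m : ℕ) (x y : Fin m → V)
    (hgood : ∀ i, GoodEdge r (n + r + 1) T a (x i) (y i))
    (hdis : ∀ i j, i ≠ j → x i ≠ x j ∧ x i ≠ y j ∧ y i ≠ y j) :
    ∑ e ∈ EI T, edgeS (n + 1) a e + m ≤ Module.finrank ℝ (KK r n α T p) + ∑ v ∈ VI T, dM r n (a v) := by
  have e1 : n + r + 1 - r = n + 1 := by omega
  have hex : ∀ i : Fin m, ∃ (φ : (V → Pol) →ₗ[ℝ] ℝ) (z : V) (u : Pol), (z = x i ∨ z = y i) ∧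
      (∀ w : V → Pol, w (x i) = 0 → w (y i) = 0 → φ w = 0) ∧
      (∀ q : Finset V → Pol, (∀ x y, Edge T x y → {x, y} ∈ EI T →
        q {x, y} ∈ Deg n ∧ q {x, y} ∈ Ord (p x) (a x) ∧ q {x, y} ∈ Ord (p y) (a y)) →
        φ (Phi r α T p q) = 0) ∧
      u ∈ Deg (n + r + 1) ∧ u ∈ Ord (p z) (r + a z + 1) ∧ φ (Pi.single z u) ≠ 0 := by
    intro i
    obtain ⟨hx, hy, hxy, hax, hay, P, Q, -, -, -, -, hsum⟩ := hgood i
    rw [e1] at hax hay hsum
    exact exists_func r n α hα T p hinj a ha (x i) (y i) P Q hx hy hxy (by omega) (by omega) hsum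
  choose φ z u h1 h2 h3 h4 h5 h6 using hex
  have hzVI : ∀ i, z i ∈ VI T := by
    intro i
    rcases h1 i with h | h <;> rw [h]
    · exact (hgood i).1
    · exact (hgood i).2.1
  have hzx : ∀ i j, i ≠ j → x j ≠ z i ∧ y j ≠ z i := by
    intro i j hij
    obtain ⟨a1, a2, a3⟩ := hdis i j hij
    obtain ⟨b1, b2, b3⟩ := hdis j i hij.symm
    rcases h1 i with h | h <;> rw [h]
    · exact ⟨b1, a2.symm⟩
    · exact ⟨b2, b3⟩
  refine KK_super_func r n α T p hp a ha m φ h3 (fun i => Pi.single (z i) (u i)) ?_ ?_ ?_ h6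
  · intro i v _
    by_cases hv : v = z i
    · subst hv
      rw [Pi.single_eq_same]
      exact ⟨h4 i, h5 i⟩
    · rw [Pi.single_eq_of_ne hv]
      exact ⟨Submodule.zero_mem _, Submodule.zero_mem _⟩
  · intro i v hv
    apply Pi.single_eq_of_ne
    rintro rfl
    exact hv (hzVI i)
  · intro i j hij
    apply h2
    · exact Pi.single_eq_of_ne (hzx i j hij).1 _
    · exact Pi.single_eq_of_ne (hzx i j hij).2 _

/-- the improved lower bound -/
theorem super_bound_m (r k : ℕ) (hk : r < k) (T : Finset (Finset V)) (h : Disc T) (p : V → Pt)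
    (hp : IsTri T p) (a : V → ℕ) (ha : ∀ v, a v ≤ k - r) (m : ℕ) (x y : Fin m → V)
    (hgood : ∀ i, GoodEdge r k T a (x i) (y i))
    (hdis : ∀ i j, i ≠ j → x i ≠ x j ∧ x i ≠ y j ∧ y i ≠ y j) :
    SupB r k T a + m ≤ (Module.finrank ℝ (Spl r k T p) : ℤ) := by
  obtain ⟨n, rfl⟩ : ∃ n, k = n + r + 1 := ⟨k - r - 1, by omega⟩
  obtain ⟨α, hα, hdim⟩ := exists_alpha r T h.surf (H1_of_disc T h) (disc_nonempty h)
  rw [finrank_Spl r _ T h.surf p hp, hdim n p (fun x y hxy => hp.ne hxy)]
  have e1 : n + r + 1 - r = n + 1 := by omega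
  have hl := KK_super_m r n α hα T p (fun x y hxy => hp.ne hxy)
    (fun x y hx hy hxy => hp.inj h.surf.card3 hx hy hxy) a
    (fun v => by have := ha v; omega) m x y hgood hdis
  unfold SupB
  rw [e1]
  have h2 : ∑ v ∈ VI T, (((n + r + 1 + 2).choose 2 : ℤ) - ((r + a v + 2).choose 2 : ℤ)) =
      ((∑ v ∈ VI T, dM r n (a v) : ℕ) : ℤ) := by
    push_cast
    refine Finset.sum_congr rfl fun v _ => ?_
    have h3 := dM_eq r n (a v) (by have := ha v; omega)
    linarith
  rw [h2]
  have h4 : ((∑ e ∈ EI T, edgeS (n + 1) a e + m : ℕ) : ℤ) ≤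
      ((Module.finrank ℝ (KK r n α T p) + ∑ v ∈ VI T, dM r n (a v) : ℕ) : ℤ) := by
    exact_mod_cast hl
  have e2 : n + r + 1 + 2 = n + r + 3 := by ring
  rw [e2]
  push_cast at h4 ⊢
  linarith

end BSpl
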